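import Mathlib

/-!
# `C¹` curves and the group `Homeo¹(S)` of a smooth surface

Definitions for the problem MP_bd3523_gt.  A smooth surface is a smooth manifold `S` modelled on
`ℂ = ℝ²` (`ChartedSpace ℂ S`, `IsManifold 𝓘(ℝ, ℂ) ∞ S`).
-/

namespace R789.C1

open Set
open scoped Manifold ContDiff

variable {S : Type*} [TopologicalSpace S] [ChartedSpace ℂ S]

/-- A `C¹` curve in the surface `S`: the image of an injective `C¹` map `S¹ = ℝ/ℤ → S` with nowhere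
vanishing derivative, written as a `1`-periodic map `γ : ℝ → S`, injective on `[0, 1)`. -/
def IsC1Curve (Γ : Set S) : Prop :=
  ∃ γ : ℝ → S, ContMDiff 𝓘(ℝ, ℝ) 𝓘(ℝ, ℂ) 1 γ ∧ (∀ t, mfderiv 𝓘(ℝ, ℝ) 𝓘(ℝ, ℂ) γ t ≠ 0) ∧
    (∀ t, γ (t + 1) = γ t) ∧ InjOn γ (Ico 0 1) ∧ Γ = range γ

/-- Membership in `Homeo¹(S)`: `f` and `f⁻¹` map every `C¹` curve onto a `C¹` curve. -/
def Homeo1 (f : S ≃ₜ S) : Prop :=
  (∀ Γ : Set S, IsC1Curve Γ → IsC1Curve (f '' Γ)) ∧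
    ∀ Γ : Set S, IsC1Curve Γ → IsC1Curve (f.symm '' Γ)

/-- The non-differentiable set of `f`. -/
def nonDiff (f : S → S) : Set S := {p | ¬ MDifferentiableAt 𝓘(ℝ, ℂ) 𝓘(ℝ, ℂ) f p}

theorem inj_of_injOn {X : Type*} {γ : ℝ → X} (hp : ∀ t, γ (t + 1) = γ t)
    (hi : InjOn γ (Ico 0 1)) : ∀ s t, s < t → t < s + 1 → γ s ≠ γ t := by
  intro s t hst hts h
  have hP : Function.Periodic γ 1 := hp
  have hf : ∀ x, γ (Int.fract x) = γ x := by
    intro x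
    have := hP.sub_int_mul_eq (x := x) ⌊x⌋
    rw [mul_one] at this
    exact this
  have h1 : Int.fract s = Int.fract t :=
    hi ⟨Int.fract_nonneg s, Int.fract_lt_one s⟩ ⟨Int.fract_nonneg t, Int.fract_lt_one t⟩
      (by rw [hf, hf, h])
  obtain ⟨z, hz⟩ := Int.fract_eq_fract.1 h1
  have h2 : (z : ℝ) < 0 := by linarith
  have h3 : (-1 : ℝ) < z := by linarith
  have h4 : z < 0 := by exact_mod_cast h2
  have h5 : -1 < z := by exact_mod_cast h3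
  omega

/-- `C¹` curves of the plane. -/
theorem isC1Curve_plane {Γ : Set ℂ} : IsC1Curve Γ ↔
    ∃ γ : ℝ → ℂ, ContDiff ℝ 1 γ ∧ (∀ t, deriv γ t ≠ 0) ∧ (∀ t, γ (t + 1) = γ t) ∧
      InjOn γ (Ico 0 1) ∧ Γ = range γ := by
  unfold IsC1Curve
  apply exists_congr
  intro γ
  have key : ∀ t, mfderiv 𝓘(ℝ, ℝ) 𝓘(ℝ, ℂ) γ t ≠ 0 ↔ deriv γ t ≠ 0 := by
    intro t
    rw [mfderiv_eq_fderiv, not_iff_not]
    constructor
    · intro h
      have h' : fderiv ℝ γ t = 0 := h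
      show fderiv ℝ γ t 1 = 0
      rw [h']; rfl
    · intro h
      show fderiv ℝ γ t = 0
      ext
      exact h
  rw [contMDiff_iff_contDiff]
  simp only [key]

end R789.C1
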