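import Mathlib

/-! Order automorphisms of a countable dense linear order `X` without endpoints act on the real
line, preserving a Cantor set whose gaps are indexed by `X`. -/

set_option autoImplicit false

open Set

namespace Pool.Agent.R789

/-- positive weights on `X` with sum one -/
structure Wt (X : Type) where
  w : X → ℝ
  pos : ∀ x, 0 < w x
  sum : HasSum w 1

theorem exists_wt (X : Type) [Countable X] [Nonempty X] : Nonempty (Wt X) := by
  obtain ⟨_⟩ := nonempty_encodable X
  obtain ⟨w, hpos, c, hc, hc1⟩ := posSumOfEncodable (ε := 1) one_pos X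
  have hc0 : 0 < c := by
    obtain ⟨x⟩ := (inferInstance : Nonempty X)
    exact lt_of_lt_of_le (hpos x) (le_hasSum hc x fun y _ => (hpos y).le)
  exact ⟨⟨fun x => w x / c, fun x => div_pos (hpos x) hc0, by
    have := hc.div_const c
    rwa [div_self hc0.ne'] at this⟩⟩

/-- the clamp function -/
noncomputable def cl (s : ℝ) : ℝ := max 0 (min 1 s)

theorem cl_nonneg (s : ℝ) : 0 ≤ cl s := le_max_left _ _

theorem cl_le_one (s : ℝ) : cl s ≤ 1 := max_le zero_le_one (min_le_left _ _)

theorem cl_of_le {s : ℝ} (h : s ≤ 0) : cl s = 0 :=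
  max_eq_left ((min_le_right _ _).trans h)

theorem cl_of_ge {s : ℝ} (h : 1 ≤ s) : cl s = 1 := by
  unfold cl; rw [min_eq_left h]; exact max_eq_right zero_le_one

theorem cl_of_mem {s : ℝ} (h0 : 0 ≤ s) (h1 : s ≤ 1) : cl s = s := by
  unfold cl; rw [min_eq_right h1]; exact max_eq_right h0

theorem cl_mono : Monotone cl := fun _ _ h => max_le_max le_rfl (min_le_min le_rfl h)

theorem cl_le_self {s : ℝ} (h : 0 ≤ s) : cl s ≤ s := max_le h (min_le_right _ _)

theorem self_le_cl {s : ℝ} (h : s ≤ 1) : s ≤ cl s := by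
  unfold cl; rw [min_eq_right h]; exact le_max_right _ _

variable {X : Type} [LinearOrder X]

namespace Wt

variable (W : Wt X)

/-- the left endpoint of the gap `x` -/
noncomputable def L (x : X) : ℝ := ∑' y, if y < x then W.w y else 0

omit [LinearOrder X] in
theorem summable : Summable W.w := W.sum.summable

theorem summable_lt (x : X) : Summable fun y => if y < x then W.w y else 0 := by
  refine Summable.of_nonneg_of_le (fun y => ?_) (fun y => ?_) W.summable
  · split_ifs; exacts [(W.pos y).le, le_rfl]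
  · split_ifs; exacts [le_rfl, (W.pos y).le]

theorem L_add_le {x x' : X} (h : x < x') : W.L x + W.w x ≤ W.L x' := by
  have h1 : HasSum (fun y => (if y < x then W.w y else 0) + if y = x then W.w x else 0)
      (W.L x + W.w x) := (W.summable_lt x).hasSum.add (hasSum_ite_eq x (W.w x))
  refine hasSum_le (fun y => ?_) h1 (W.summable_lt x').hasSum
  rcases lt_trichotomy y x with h2 | h2 | h2
  · rw [if_pos h2, if_neg h2.ne, if_pos (h2.trans h), add_zero]
  · subst h2; rw [if_neg (lt_irrefl _), if_pos rfl, if_pos h, zero_add]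
  · rw [if_neg h2.not_gt, if_neg h2.ne', add_zero]
    split_ifs; exacts [(W.pos y).le, le_rfl]

theorem L_nonneg (x : X) : 0 ≤ W.L x :=
  tsum_nonneg fun y => by split_ifs; exacts [(W.pos y).le, le_rfl]

theorem L_pos [NoMinOrder X] (x : X) : 0 < W.L x := by
  obtain ⟨y, hy⟩ := exists_lt x
  exact (add_pos_of_nonneg_of_pos (W.L_nonneg y) (W.pos y)).trans_le (W.L_add_le hy)

theorem L_add_le_one (x : X) : W.L x + W.w x ≤ 1 := by
  have h1 : HasSum (fun y => (if y < x then W.w y else 0) + if y = x then W.w x else 0)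
      (W.L x + W.w x) := (W.summable_lt x).hasSum.add (hasSum_ite_eq x (W.w x))
  refine hasSum_le (fun y => ?_) h1 W.sum
  rcases lt_trichotomy y x with h2 | h2 | h2
  · rw [if_pos h2, if_neg h2.ne, add_zero]
  · subst h2; rw [if_neg (lt_irrefl _), if_pos rfl, zero_add]
  · rw [if_neg h2.not_gt, if_neg h2.ne', add_zero]
    exact (W.pos y).le

theorem L_add_lt_one [NoMaxOrder X] (x : X) : W.L x + W.w x < 1 := by
  obtain ⟨y, hy⟩ := exists_gt x
  exact (W.L_add_le hy).trans_lt ((lt_add_of_pos_right _ (W.pos y)).trans_le (W.L_add_le_one y))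

theorem L_strictMono : StrictMono W.L := fun x _ h =>
  (lt_add_of_pos_right _ (W.pos x)).trans_le (W.L_add_le h)

theorem L_add_lt [DenselyOrdered X] {x x' : X} (h : x < x') : W.L x + W.w x < W.L x' := by
  obtain ⟨z, hz1, hz2⟩ := exists_between h
  exact (W.L_add_le hz1).trans_lt ((lt_add_of_pos_right _ (W.pos z)).trans_le (W.L_add_le hz2))

/-- the fraction of the gap `y` to the left of `t` -/
noncomputable def fr (t : ℝ) (y : X) : ℝ := cl ((t - W.L y) / W.w y)

theorem fr_of_le {t : ℝ} {y : X} (h : t ≤ W.L y) : W.fr t y = 0 :=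
  cl_of_le (div_nonpos_of_nonpos_of_nonneg (by linarith) (W.pos y).le)

theorem fr_of_ge {t : ℝ} {y : X} (h : W.L y + W.w y ≤ t) : W.fr t y = 1 :=
  cl_of_ge ((one_le_div (W.pos y)).2 (by linarith))

theorem fr_mid {y : X} {s : ℝ} (h0 : 0 ≤ s) (h1 : s ≤ 1) : W.fr (W.L y + s * W.w y) y = s := by
  unfold fr
  rw [add_sub_cancel_left, mul_div_assoc, div_self (W.pos y).ne', mul_one]
  exact cl_of_mem h0 h1

theorem fr_nonneg (t : ℝ) (y : X) : 0 ≤ W.fr t y := cl_nonneg _

theorem fr_le_one (t : ℝ) (y : X) : W.fr t y ≤ 1 := cl_le_one _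

theorem fr_mono (y : X) : Monotone fun t => W.fr t y := fun a b h =>
  cl_mono (div_le_div_of_nonneg_right (by linarith) (W.pos y).le)

theorem sum_perm (g : X ≃o X) : HasSum (fun y => W.w (g y)) 1 :=
  g.toEquiv.hasSum_iff.2 W.sum

theorem summable_fr (g : X ≃o X) (t : ℝ) : Summable fun y => W.w (g y) * W.fr t y :=
  Summable.of_nonneg_of_le (fun y => mul_nonneg (W.pos _).le (W.fr_nonneg t y))
    (fun y => mul_le_of_le_one_right (W.pos _).le (W.fr_le_one t y)) (W.sum_perm g).summable

/-- the sum part of the action -/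
noncomputable def F (g : X ≃o X) (t : ℝ) : ℝ := ∑' y, W.w (g y) * W.fr t y

/-- the action of an order automorphism of `X` on the real line -/
noncomputable def E (g : X ≃o X) (t : ℝ) : ℝ := W.F g t + (min t 0 + max (t - 1) 0)

theorem F_mono (g : X ≃o X) : Monotone (W.F g) := fun a b h =>
  hasSum_le (fun y => mul_le_mul_of_nonneg_left (W.fr_mono y h) (W.pos _).le)
    (W.summable_fr g a).hasSum (W.summable_fr g b).hasSum

theorem F_nonneg (g : X ≃o X) (t : ℝ) : 0 ≤ W.F g t :=
  tsum_nonneg fun y => mul_nonneg (W.pos _).le (W.fr_nonneg t y)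

theorem F_le_one (g : X ≃o X) (t : ℝ) : W.F g t ≤ 1 :=
  hasSum_le (fun y => mul_le_of_le_one_right (W.pos _).le (W.fr_le_one t y))
    (W.summable_fr g t).hasSum (W.sum_perm g)

theorem F_of_nonpos (g : X ≃o X) {t : ℝ} (h : t ≤ 0) : W.F g t = 0 := by
  unfold F
  have : ∀ y, W.w (g y) * W.fr t y = 0 := fun y => by
    rw [W.fr_of_le (h.trans (W.L_nonneg y)), mul_zero]
  simp [this]

theorem F_of_one_le (g : X ≃o X) {t : ℝ} (h : 1 ≤ t) : W.F g t = 1 := by
  unfold F
  have : ∀ y, W.w (g y) * W.fr t y = W.w (g y) := fun y => by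
    rw [W.fr_of_ge ((W.L_add_le_one y).trans h), mul_one]
  simp only [this]
  exact (W.sum_perm g).tsum_eq

theorem E_of_nonpos (g : X ≃o X) {t : ℝ} (h : t ≤ 0) : W.E g t = t := by
  unfold E
  rw [W.F_of_nonpos g h, min_eq_left h, max_eq_right (by linarith)]; ring

theorem E_of_one_le (g : X ≃o X) {t : ℝ} (h : 1 ≤ t) : W.E g t = t := by
  unfold E
  rw [W.F_of_one_le g h, min_eq_right (by linarith), max_eq_left (by linarith)]; ring

theorem E_of_mem (g : X ≃o X) {t : ℝ} (h0 : 0 ≤ t) (h1 : t ≤ 1) : W.E g t = W.F g t := by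
  unfold E
  rw [min_eq_right h0, max_eq_right (by linarith)]; ring

theorem E_mono (g : X ≃o X) : Monotone (W.E g) := fun a b h =>
  add_le_add (W.F_mono g h) (add_le_add (min_le_min h le_rfl)
    (max_le_max (by linarith) le_rfl))

theorem E_mem (g : X ≃o X) {t : ℝ} (h0 : 0 ≤ t) (h1 : t ≤ 1) :
    0 ≤ W.E g t ∧ W.E g t ≤ 1 := by
  rw [W.E_of_mem g h0 h1]; exact ⟨W.F_nonneg g t, W.F_le_one g t⟩

/-- the action maps the gap `x` affinely onto the gap `g x` -/
theorem E_gap (g : X ≃o X) (x : X) {s : ℝ} (h0 : 0 ≤ s) (h1 : s ≤ 1) :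
    W.E g (W.L x + s * W.w x) = W.L (g x) + s * W.w (g x) := by
  have hw := W.pos x
  have hlo : W.L x ≤ W.L x + s * W.w x := le_add_of_nonneg_right (mul_nonneg h0 hw.le)
  have hhi : W.L x + s * W.w x ≤ W.L x + W.w x := by
    have := mul_le_of_le_one_left hw.le h1
    linarith
  rw [W.E_of_mem g ((W.L_nonneg x).trans hlo) (hhi.trans (W.L_add_le_one x))]
  have e1 : ∀ y, W.w (g y) * W.fr (W.L x + s * W.w x) y =
      (if y < x then W.w (g y) else 0) + if y = x then s * W.w (g x) else 0 := by
    intro y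
    rcases lt_trichotomy y x with h | h | h
    · rw [if_pos h, if_neg h.ne, add_zero, W.fr_of_ge ((W.L_add_le h).trans hlo), mul_one]
    · subst h
      rw [if_neg (lt_irrefl _), if_pos rfl, zero_add, W.fr_mid h0 h1, mul_comm]
    · rw [if_neg h.not_gt, if_neg h.ne', add_zero, W.fr_of_le (hhi.trans (W.L_add_le h)),
        mul_zero]
  have e2 : HasSum (fun y => if y < x then W.w (g y) else 0) (W.L (g x)) := by
    have := (W.summable_lt (g x)).hasSum
    rw [← g.toEquiv.hasSum_iff] at this
    refine this.congr_fun ?_ |> id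
    intro y
    simp
  unfold F
  simp only [e1]
  exact (e2.add (hasSum_ite_eq x (s * W.w (g x)))).tsum_eq

theorem fr_E (g : X ≃o X) (t : ℝ) (y : X) : W.fr (W.E g t) (g y) = W.fr t y := by
  rcases le_total t (W.L y) with h | h
  · have h1 := W.E_mono g h
    have h2 := W.E_gap g y (s := 0) le_rfl zero_le_one
    simp only [zero_mul, add_zero] at h2
    rw [h2] at h1
    rw [W.fr_of_le h1, W.fr_of_le h]
  rcases le_total (W.L y + W.w y) t with h' | h'
  · have h1 := W.E_mono g h'
    have h2 := W.E_gap g y (s := 1) zero_le_one le_rfl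
    simp only [one_mul] at h2
    rw [h2] at h1
    rw [W.fr_of_ge h1, W.fr_of_ge h']
  · have hw := W.pos y
    obtain ⟨s, hs⟩ : ∃ s, s = (t - W.L y) / W.w y := ⟨_, rfl⟩
    have h0 : 0 ≤ s := by rw [hs]; exact div_nonneg (by linarith) hw.le
    have h1 : s ≤ 1 := by rw [hs, div_le_one hw]; linarith
    have ht : t = W.L y + s * W.w y := by rw [hs]; field_simp; ring
    rw [ht, W.E_gap g y h0 h1, W.fr_mid h0 h1, W.fr_mid h0 h1]

theorem F_comp (g h : X ≃o X) (t : ℝ) : W.F h (W.E g t) = W.F (g.trans h) t := by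
  unfold F
  have e := (W.summable_fr h (W.E g t)).hasSum
  rw [← g.toEquiv.hasSum_iff] at e
  refine (e.tsum_eq).symm.trans ?_
  refine tsum_congr fun y => ?_
  simp only [Function.comp_apply, OrderIso.coe_toEquiv, W.fr_E]
  rfl

theorem E_comp (g h : X ≃o X) (t : ℝ) : W.E h (W.E g t) = W.E (g.trans h) t := by
  rcases le_total t 0 with h0 | h0
  · rw [W.E_of_nonpos g h0, W.E_of_nonpos h h0, W.E_of_nonpos _ h0]
  rcases le_total 1 t with h1 | h1
  · rw [W.E_of_one_le g h1, W.E_of_one_le h h1, W.E_of_one_le _ h1]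
  · obtain ⟨h2, h3⟩ := W.E_mem g h0 h1
    rw [W.E_of_mem h h2 h3, W.F_comp, W.E_of_mem _ h0 h1]

theorem F_refl_le {t : ℝ} (h0 : 0 ≤ t) : W.F (OrderIso.refl X) t ≤ t := by
  unfold F
  refine (W.summable_fr (OrderIso.refl X) t).tsum_le_of_sum_le fun T => ?_
  simp only [OrderIso.refl_apply]
  classical
  set T' := T.filter fun y => W.L y < t with hT'
  have e1 : ∑ y ∈ T, W.w y * W.fr t y = ∑ y ∈ T', W.w y * W.fr t y := by
    rw [hT', Finset.sum_filter]
    refine Finset.sum_congr rfl fun y _ => ?_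
    split_ifs with h
    · rfl
    · rw [W.fr_of_le (not_lt.1 h), mul_zero]
  rw [e1]
  rcases T'.eq_empty_or_nonempty with h | h
  · rw [h]; simpa using h0
  · obtain ⟨m, hm, hmax⟩ := T'.exists_max_image id h
    simp only [id] at hmax
    rw [← Finset.add_sum_erase _ _ hm]
    have h1 : ∑ y ∈ T'.erase m, W.w y * W.fr t y ≤ W.L m := by
      have h2 : ∑ y ∈ T'.erase m, W.w y * W.fr t y ≤
          ∑ y ∈ T'.erase m, if y < m then W.w y else 0 := by
        refine Finset.sum_le_sum fun y hy => ?_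
        have h3 := hmax y (Finset.mem_of_mem_erase hy)
        have h4 : y < m := lt_of_le_of_ne h3 (Finset.ne_of_mem_erase hy)
        rw [if_pos h4]
        exact mul_le_of_le_one_right (W.pos _).le (W.fr_le_one t y)
      refine h2.trans ?_
      exact (W.summable_lt m).sum_le_tsum _ fun y _ => by
        split_ifs; exacts [(W.pos y).le, le_rfl]
    have h5 : W.w m * W.fr t m ≤ t - W.L m := by
      have h6 : W.L m < t := (Finset.mem_filter.1 hm).2
      have h7 : W.fr t m ≤ (t - W.L m) / W.w m :=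
        cl_le_self (div_nonneg (by linarith) (W.pos m).le)
      calc W.w m * W.fr t m ≤ W.w m * ((t - W.L m) / W.w m) :=
            mul_le_mul_of_nonneg_left h7 (W.pos m).le
        _ = t - W.L m := mul_div_cancel₀ _ (W.pos m).ne'
    linarith

theorem le_F_refl {t : ℝ} (h1 : t ≤ 1) : t ≤ W.F (OrderIso.refl X) t := by
  have hs := W.summable_fr (OrderIso.refl X) t
  have e0 : ∑' y, (W.w y - W.w y * W.fr t y) = 1 - W.F (OrderIso.refl X) t := by
    have := (W.sum.sub hs.hasSum).tsum_eq
    exact this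
  have hs2 : Summable fun y => W.w y - W.w y * W.fr t y := (W.sum.sub hs.hasSum).summable
  suffices h : ∑' y, (W.w y - W.w y * W.fr t y) ≤ 1 - t by rw [e0] at h; linarith
  refine hs2.tsum_le_of_sum_le fun T => ?_
  classical
  set T' := T.filter fun y => t < W.L y + W.w y with hT'
  have e1 : ∑ y ∈ T, (W.w y - W.w y * W.fr t y) = ∑ y ∈ T', (W.w y - W.w y * W.fr t y) := by
    rw [hT', Finset.sum_filter]
    refine Finset.sum_congr rfl fun y _ => ?_
    split_ifs with h
    · rfl
    · rw [W.fr_of_ge (not_lt.1 h), mul_one, sub_self]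
  rw [e1]
  rcases T'.eq_empty_or_nonempty with h | h
  · rw [h]; simpa using h1
  · obtain ⟨m, hm, hmin⟩ := T'.exists_min_image id h
    simp only [id] at hmin
    rw [← Finset.add_sum_erase _ _ hm]
    have h2 : (W.L m + W.w m) + ∑ y ∈ T'.erase m, (W.w y - W.w y * W.fr t y) ≤ 1 := by
      have h3 : HasSum (fun y => ((if y < m then W.w y else 0) + if y = m then W.w m else 0) +
          if y ∈ T'.erase m then W.w y - W.w y * W.fr t y else 0)
          ((W.L m + W.w m) + ∑ y ∈ T'.erase m, (W.w y - W.w y * W.fr t y)) := by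
        refine ((W.summable_lt m).hasSum.add (hasSum_ite_eq m (W.w m))).add ?_
        have h9 : HasSum (fun y => if y ∈ T'.erase m then W.w y - W.w y * W.fr t y else 0)
            (∑ y ∈ T'.erase m, if y ∈ T'.erase m then W.w y - W.w y * W.fr t y else 0) :=
          hasSum_sum_of_ne_finset_zero fun y hy => if_neg hy
        have h10 : (∑ y ∈ T'.erase m, if y ∈ T'.erase m then W.w y - W.w y * W.fr t y else 0) =
            ∑ y ∈ T'.erase m, (W.w y - W.w y * W.fr t y) :=
          Finset.sum_congr rfl fun y hy => if_pos hy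
        rw [h10] at h9
        exact h9
      refine hasSum_le (fun y => ?_) h3 W.sum
      have hfr := mul_nonneg (W.pos y).le (W.fr_nonneg t y)
      rcases lt_trichotomy y m with h4 | h4 | h4
      · have h5 : y ∉ T'.erase m := fun h5 =>
          absurd (hmin y (Finset.mem_of_mem_erase h5)) h4.not_ge
        rw [if_pos h4, if_neg h4.ne, if_neg h5]; linarith
      · subst h4
        rw [if_neg (lt_irrefl _), if_pos rfl, if_neg (Finset.notMem_erase y T')]; linarith
      · rw [if_neg h4.not_gt, if_neg h4.ne']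
        split_ifs
        · linarith
        · have := W.pos y; linarith
    have h5 : W.w m - W.w m * W.fr t m ≤ W.L m + W.w m - t := by
      have h6 : t < W.L m + W.w m := (Finset.mem_filter.1 hm).2
      have h7 : (t - W.L m) / W.w m ≤ W.fr t m :=
        self_le_cl ((div_le_one (W.pos m)).2 (by linarith))
      have h8 : t - W.L m ≤ W.w m * W.fr t m := by
        calc t - W.L m = W.w m * ((t - W.L m) / W.w m) := (mul_div_cancel₀ _ (W.pos m).ne').symm
          _ ≤ _ := mul_le_mul_of_nonneg_left h7 (W.pos m).le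
      linarith
    linarith

theorem E_refl (t : ℝ) : W.E (OrderIso.refl X) t = t := by
  rcases le_total t 0 with h0 | h0
  · exact W.E_of_nonpos _ h0
  rcases le_total 1 t with h1 | h1
  · exact W.E_of_one_le _ h1
  · rw [W.E_of_mem _ h0 h1]
    exact le_antisymm (W.F_refl_le h0) (W.le_F_refl h1)

/-- the action by order automorphisms of the real line -/
noncomputable def act (g : X ≃o X) : ℝ ≃o ℝ where
  toFun := W.E g
  invFun := W.E g.symm
  left_inv t := by rw [W.E_comp, OrderIso.self_trans_symm, W.E_refl]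
  right_inv t := by rw [W.E_comp, OrderIso.symm_trans_self, W.E_refl]
  map_rel_iff' {a b} := by
    constructor
    · intro h
      have := W.E_mono g.symm h
      simp only [Equiv.coe_fn_mk] at this
      rwa [W.E_comp, W.E_comp, OrderIso.self_trans_symm, W.E_refl, W.E_refl] at this
    · intro h; exact W.E_mono g h

theorem act_apply (g : X ≃o X) (t : ℝ) : W.act g t = W.E g t := rfl

theorem act_mul (g h : X ≃o X) (t : ℝ) : W.act (g * h) t = W.act g (W.act h t) :=
  (W.E_comp h g t).symm

/-- the Cantor set on the line -/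
def K : Set ℝ := {t | (0 ≤ t ∧ t ≤ 1) ∧ ∀ x, t ∉ Ioo (W.L x) (W.L x + W.w x)}

theorem isCompact_K : IsCompact W.K := by
  have h1 : W.K = Icc 0 1 ∩ (⋃ x, Ioo (W.L x) (W.L x + W.w x))ᶜ := by
    ext t; simp only [K, mem_ofPred_eq, mem_inter_iff, mem_Icc, mem_compl_iff, mem_iUnion, not_exists]
  rw [h1]
  exact isCompact_Icc.inter_right (isOpen_iUnion fun x => isOpen_Ioo).isClosed_compl

theorem L_mem_K (x : X) : W.L x ∈ W.K := by
  have hp := W.pos x
  refine ⟨⟨W.L_nonneg x, by linarith [W.L_add_le_one x]⟩, fun y hy => ?_⟩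
  rcases lt_trichotomy y x with h | h | h
  · exact absurd hy.2 (not_lt.2 (W.L_add_le h))
  · subst h; exact lt_irrefl _ hy.1
  · have := W.L_strictMono h; exact absurd hy.1 this.not_gt

theorem R_mem_K (x : X) : W.L x + W.w x ∈ W.K := by
  have hp := W.pos x
  refine ⟨⟨by linarith [W.L_nonneg x], W.L_add_le_one x⟩, fun y hy => ?_⟩
  rcases lt_trichotomy y x with h | h | h
  · have h1 := W.L_add_le h
    have := hy.2; linarith
  · subst h; exact lt_irrefl _ hy.2
  · exact absurd hy.1 (not_lt.2 (W.L_add_le h))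

theorem zero_mem_K : (0 : ℝ) ∈ W.K :=
  ⟨⟨le_rfl, zero_le_one⟩, fun x hx => absurd hx.1 (not_lt.2 (W.L_nonneg x))⟩

/-- the Cantor set contains no interval -/
theorem exists_gap {a b : ℝ} (h : a < b) : ∃ t ∈ Ioo a b, t ∉ W.K := by
  by_contra hcon
  push Not at hcon
  have ha : ∀ t ∈ Ioo a b, 0 ≤ t ∧ t ≤ 1 := fun t ht => (hcon t ht).1
  obtain ⟨p, hp1, hp2⟩ := exists_between h
  obtain ⟨q, hq1, hq2⟩ := exists_between hp2
  have hpK := ha p ⟨hp1, hp2⟩
  have hqK := ha q ⟨hp1.trans hq1, hq2⟩
  have h1 : W.E (OrderIso.refl X) p = W.E (OrderIso.refl X) q := by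
    rw [W.E_of_mem _ hpK.1 hpK.2, W.E_of_mem _ hqK.1 hqK.2]
    unfold F
    refine tsum_congr fun y => ?_
    congr 1
    rcases le_total q (W.L y) with h2 | h2
    · rw [W.fr_of_le h2, W.fr_of_le (hq1.le.trans h2)]
    rcases le_total (W.L y + W.w y) p with h3 | h3
    · rw [W.fr_of_ge h3, W.fr_of_ge (h3.trans hq1.le)]
    · exfalso
      have hw := W.pos y
      have h4 : max p (W.L y) < min q (W.L y + W.w y) := by
        rw [max_lt_iff, lt_min_iff, lt_min_iff]
        refine ⟨⟨hq1, ?_⟩, ?_, by linarith⟩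
        · rcases h3.lt_or_eq with h | h
          · exact h
          · exfalso
            obtain ⟨u, hu1, hu2⟩ := exists_between (show max a (W.L y) < p from
              max_lt hp1 (by linarith))
            exact (hcon u ⟨(le_max_left _ _).trans_lt hu1, hu2.trans hp2⟩).2 y
              ⟨(le_max_right _ _).trans_lt hu1, by linarith⟩
        · rcases h2.lt_or_eq with h | h
          · exact h
          · exfalso
            obtain ⟨u, hu1, hu2⟩ := exists_between (show q < min b (W.L y + W.w y) from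
              lt_min hq2 (by linarith))
            exact (hcon u ⟨(hp1.trans hq1).trans hu1, hu2.trans_le (min_le_left _ _)⟩).2 y
              ⟨by linarith, hu2.trans_le (min_le_right _ _)⟩
      obtain ⟨u, hu1, hu2⟩ := exists_between h4
      exact (hcon u ⟨hp1.trans ((le_max_left _ _).trans_lt hu1),
        (hu2.trans_le (min_le_left _ _)).trans hq2⟩).2 y
        ⟨(le_max_right _ _).trans_lt hu1, hu2.trans_le (min_le_right _ _)⟩
  rw [W.E_refl, W.E_refl] at h1
  exact hq1.ne h1

/-- the Cantor set has no isolated points -/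
theorem acc_K [DenselyOrdered X] [NoMinOrder X] [NoMaxOrder X] {p : ℝ} (hp : p ∈ W.K) {ε : ℝ}
    (hε : 0 < ε) : ∃ q ∈ W.K, q ≠ p ∧ |q - p| < ε := by
  by_contra hcon
  push Not at hcon
  have hR : p < 1 → ∃ y, W.L y = p := by
    intro h1
    obtain ⟨t, ht, htK⟩ := W.exists_gap (show p < min (p + ε) 1 from lt_min (by linarith) h1)
    have ht2 := ht.2.trans_le (min_le_right _ _)
    have ht3 := ht.2.trans_le (min_le_left _ _)
    have : ∃ y, t ∈ Ioo (W.L y) (W.L y + W.w y) := by
      by_contra hno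
      push Not at hno
      exact htK ⟨⟨hp.1.1.trans ht.1.le, ht2.le⟩, hno⟩
    obtain ⟨y, hy⟩ := this
    refine ⟨y, ?_⟩
    by_contra hne
    rcases lt_or_gt_of_ne hne with h | h
    · exact hp.2 y ⟨h, ht.1.trans hy.2⟩
    · have h2 := hcon (W.L y) (W.L_mem_K y) hne
      rw [abs_of_pos (by linarith)] at h2
      linarith [hy.1]
  have hL : 0 < p → ∃ y, W.L y + W.w y = p := by
    intro h1
    obtain ⟨t, ht, htK⟩ := W.exists_gap (show max (p - ε) 0 < p from max_lt (by linarith) h1)
    have ht2 := (le_max_right _ _).trans_lt ht.1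
    have ht3 := (le_max_left _ _).trans_lt ht.1
    have : ∃ y, t ∈ Ioo (W.L y) (W.L y + W.w y) := by
      by_contra hno
      push Not at hno
      exact htK ⟨⟨ht2.le, ht.2.le.trans hp.1.2⟩, hno⟩
    obtain ⟨y, hy⟩ := this
    refine ⟨y, ?_⟩
    by_contra hne
    rcases lt_or_gt_of_ne hne with h | h
    · have h2 := hcon (W.L y + W.w y) (W.R_mem_K y) hne
      rw [abs_of_neg (by linarith)] at h2
      linarith [hy.2]
    · exact hp.2 y ⟨hy.1.trans ht.2, h⟩
  rcases hp.1.1.lt_or_eq with h0 | h0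
  · obtain ⟨y, hy⟩ := hL h0
    rcases hp.1.2.lt_or_eq with h1 | h1
    · obtain ⟨z, hz⟩ := hR h1
      rcases lt_trichotomy y z with h | h | h
      · have := W.L_add_lt h; linarith
      · subst h; have := W.pos y; linarith
      · have := W.L_strictMono h; have := W.pos y; linarith
    · have := W.L_add_lt_one y; linarith
  · obtain ⟨z, hz⟩ := hR (by linarith)
    have := W.L_pos z; linarith

theorem act_mem_K (g : X ≃o X) {t : ℝ} (ht : t ∈ W.K) : W.act g t ∈ W.K := by
  refine ⟨W.E_mem g ht.1.1 ht.1.2, fun z hz => ?_⟩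
  obtain ⟨y, rfl⟩ := g.surjective z
  have h0 := W.E_gap g y (s := 0) le_rfl zero_le_one
  have h1 := W.E_gap g y (s := 1) zero_le_one le_rfl
  simp only [zero_mul, add_zero, one_mul] at h0 h1
  refine ht.2 y ⟨?_, ?_⟩
  · by_contra h
    have := W.E_mono g (not_lt.1 h)
    rw [h0] at this
    exact absurd hz.1 (not_lt.2 this)
  · by_contra h
    have := W.E_mono g (not_lt.1 h)
    rw [h1] at this
    exact absurd hz.2 (not_lt.2 this)

theorem act_mem_K_iff (g : X ≃o X) {t : ℝ} : W.act g t ∈ W.K ↔ t ∈ W.K := by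
  refine ⟨fun h => ?_, W.act_mem_K g⟩
  have h1 := W.act_mem_K g⁻¹ h
  rw [← W.act_mul, inv_mul_cancel] at h1
  have : W.act (1 : X ≃o X) t = t := W.E_refl t
  rwa [this] at h1

theorem act_L (g : X ≃o X) (x : X) : W.act g (W.L x) = W.L (g x) := by
  have h0 := W.E_gap g x (s := 0) le_rfl zero_le_one
  rw [act_apply]
  simpa using h0

theorem eq_one_of_fix (g : X ≃o X) (h : ∀ t ∈ W.K, W.act g t = t) : g = 1 := by
  ext x
  have := h _ (W.L_mem_K x)
  rw [W.act_L] at this
  exact W.L_strictMono.injective this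

end Wt

end Pool.Agent.R789
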