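import Pool.Agent.H659R3.BigMCG.Defs

/-! Open connected subsets of the plane as oriented surfaces; homeomorphisms of the plane acting
on one coordinate by increasing homeomorphisms; isotopies do not move the removed points. -/

set_option autoImplicit false

open Topology Set unitInterval

namespace Pool.Agent.R789

open Pool.Agent.H659R3.BigMCG

/-- The inclusion of the complement of a closed set `C` into the plane, as a chart. -/
noncomputable def incChart (C : Set ℂ) (hC : IsClosed C) [Nonempty ↥(Cᶜ)] :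
    OpenPartialHomeomorph ↥(Cᶜ) ℂ :=
  hC.isOpen_compl.isOpenEmbedding_subtypeVal.toOpenPartialHomeomorph

theorem incChart_apply (C : Set ℂ) (hC : IsClosed C) [Nonempty ↥(Cᶜ)] (x : ↥(Cᶜ)) :
    incChart C hC x = (x : ℂ) := rfl

theorem incChart_source (C : Set ℂ) (hC : IsClosed C) [Nonempty ↥(Cᶜ)] :
    (incChart C hC).source = univ := rfl

theorem incChart_symm (C : Set ℂ) (hC : IsClosed C) [Nonempty ↥(Cᶜ)] (x : ↥(Cᶜ)) :
    (incChart C hC).symm (x : ℂ) = x := (incChart C hC).left_inv (x := x) (mem_univ _)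

theorem incChart_target (C : Set ℂ) (hC : IsClosed C) [Nonempty ↥(Cᶜ)] :
    (incChart C hC).target = Cᶜ := by
  simp only [incChart, IsOpenEmbedding.toOpenPartialHomeomorph_target, Subtype.range_coe]

theorem orientPresAt_id' (z : ℂ) : OrientPresAt (fun w => w) z := by
  simpa using orientPresAt_add_const 0 z

theorem planeSurface_cover (C : Set ℂ) (hC : IsClosed C) [Nonempty ↥(Cᶜ)] (x : ↥(Cᶜ)) :
    ∃ φ ∈ ({incChart C hC} : Set (OpenPartialHomeomorph ↥(Cᶜ) ℂ)), x ∈ φ.source :=
  ⟨incChart C hC, rfl, mem_univ _⟩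

theorem planeSurface_oriented (C : Set ℂ) (hC : IsClosed C) [Nonempty ↥(Cᶜ)] :
    ∀ φ ∈ ({incChart C hC} : Set (OpenPartialHomeomorph ↥(Cᶜ) ℂ)),
    ∀ ψ ∈ ({incChart C hC} : Set (OpenPartialHomeomorph ↥(Cᶜ) ℂ)),
    ∀ x ∈ φ.source, x ∈ ψ.source → OrientPresAt (ψ ∘ φ.symm) (φ x) := by
  rintro _ rfl _ rfl x hx hx'
  refine (orientPresAt_id' (incChart C hC x)).congr ?_
  have hn : (incChart C hC).target ∈ 𝓝 (incChart C hC x) :=
    (incChart C hC).open_target.mem_nhds ((incChart C hC).map_source hx)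
  filter_upwards [hn] with w hw
  exact (incChart C hC).right_inv hw

/-- The complement in the plane of a closed set with connected complement, as an oriented surface:
the oriented atlas consists of the inclusion into the plane. -/
@[reducible] noncomputable def planeSurface (C : Set ℂ) (hC : IsClosed C)
    (hc : ConnectedSpace ↥(Cᶜ)) : OrientedSurface ↥(Cᶜ) where
  t2 := inferInstance
  secondCountable := inferInstance
  connected := hc
  charts := {incChart C hC}
  cover := planeSurface_cover C hC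
  oriented := planeSurface_oriented C hC

/-- the homeomorphism of the plane which applies `h` to the real part -/
noncomputable def planeHomeo (h : ℝ ≃o ℝ) : ℂ ≃ₜ ℂ where
  toFun z := (h z.re : ℂ) + (z.im : ℂ) * Complex.I
  invFun z := (h.symm z.re : ℂ) + (z.im : ℂ) * Complex.I
  left_inv z := by
    apply Complex.ext <;> simp
  right_inv z := by
    apply Complex.ext <;> simp
  continuous_toFun := by
    have := h.continuous
    fun_prop
  continuous_invFun := by
    have := h.symm.continuous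
    fun_prop

theorem planeHomeo_re (h : ℝ ≃o ℝ) (z : ℂ) : (planeHomeo h z).re = h z.re := by
  simp [planeHomeo]

theorem planeHomeo_im (h : ℝ ≃o ℝ) (z : ℂ) : (planeHomeo h z).im = z.im := by
  simp [planeHomeo]

theorem planeHomeo_orient (h : ℝ ≃o ℝ) (z : ℂ) : OrientPresAt (planeHomeo h) z := by
  refine ⟨1, one_pos, fun r hr _ => ?_⟩
  refine (hasWinding_circ hr).of_slit (continuous_circ r) ?_ ?_ ?_
  · have := (planeHomeo h).continuous
    fun_prop
  · intro t
    have := circ_add_one r t
    unfold circ at this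
    rw [this]
  · intro t
    obtain ⟨u, hu⟩ : ∃ u, u = circ r t := ⟨_, rfl⟩
    have hu' : (r : ℂ) * Complex.exp (2 * Real.pi * t * Complex.I) = u := hu.symm
    rw [hu', ← hu]
    have hu0 : u ≠ 0 := by
      intro h0
      have := norm_circ hr.le t
      rw [← hu, h0, norm_zero] at this
      exact hr.ne this
    rw [Complex.mem_slitPlane_iff]
    left
    have e1 : (planeHomeo h (z + u) - planeHomeo h z).re = h (z.re + u.re) - h z.re := by
      rw [Complex.sub_re, planeHomeo_re, planeHomeo_re, Complex.add_re]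
    have e2 : (planeHomeo h (z + u) - planeHomeo h z).im = u.im := by
      rw [Complex.sub_im, planeHomeo_im, planeHomeo_im, Complex.add_im]; ring
    rw [Complex.div_re, e1, e2]
    have hn : 0 < Complex.normSq u := Complex.normSq_pos.2 hu0
    rw [← add_div]
    refine div_pos ?_ hn
    rcases lt_trichotomy u.re 0 with h1 | h1 | h1
    · have : h (z.re + u.re) < h z.re := h.strictMono (by linarith)
      have h2 : 0 < (h (z.re + u.re) - h z.re) * u.re := mul_pos_of_neg_of_neg (by linarith) h1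
      nlinarith [mul_self_nonneg u.im]
    · have h3 : u.im ≠ 0 := fun h3 => hu0 (Complex.ext (by simpa using h1) (by simpa using h3))
      rw [h1]
      have := mul_self_pos.2 h3
      linarith
    · have : h z.re < h (z.re + u.re) := h.strictMono (by linarith)
      have h2 : 0 < (h (z.re + u.re) - h z.re) * u.re := mul_pos (by linarith) h1
      nlinarith [mul_self_nonneg u.im]

/-- The restriction to the complement of `C` of a homeomorphism of the plane preserving `C`. -/
noncomputable def restr (C : Set ℂ) (f : ℂ ≃ₜ ℂ) (hf : ∀ z, f z ∈ C ↔ z ∈ C) : ↥(Cᶜ) ≃ₜ ↥(Cᶜ) :=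
  f.subtype fun z => by
    rw [mem_compl_iff, mem_compl_iff, hf]

theorem restr_apply (C : Set ℂ) (f : ℂ ≃ₜ ℂ) (hf : ∀ z, f z ∈ C ↔ z ∈ C) (x : ↥(Cᶜ)) :
    (restr C f hf x : ℂ) = f x := rfl

theorem restr_orient (C : Set ℂ) (hC : IsClosed C) (hc : ConnectedSpace ↥(Cᶜ)) (f : ℂ ≃ₜ ℂ)
    (hf : ∀ z, f z ∈ C ↔ z ∈ C) (ho : ∀ z, OrientPresAt f z) :
    @PreservesOrientation _ _ (planeSurface C hC hc) (restr C f hf) := by
  let _ := planeSurface C hC hc
  rintro φ hφ ψ hψ x hx hx'
  have h1 : φ = incChart C hC := hφ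
  have h2 : ψ = incChart C hC := hψ
  subst h1 h2
  refine (ho (incChart C hC x)).congr ?_
  have hn : (incChart C hC).target ∈ 𝓝 (incChart C hC x) :=
    (incChart C hC).open_target.mem_nhds ((incChart C hC).map_source hx)
  filter_upwards [hn] with w hw
  simp only [Function.comp_apply]
  rw [incChart_apply, restr_apply]
  congr 1
  have := (incChart C hC).right_inv hw
  rwa [incChart_apply] at this

/-- If `F` is isotopic to the identity on the complement of `C` and extends continuously to the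
point `k` of `C`, then the extension fixes `k`, if `k` can be separated from its image by the
boundary of a bounded open set which avoids `C`. -/
theorem isotopy_fix (C : Set ℂ) (F : ↥(Cᶜ) ≃ₜ ↥(Cᶜ)) (hF : IsotopicToId F) {k k' : ℂ}
    (hkC : k ∈ closure Cᶜ)
    (hk : Filter.Tendsto (fun x : ↥(Cᶜ) => ((F x : ↥(Cᶜ)) : ℂ))
      (Filter.comap (Subtype.val : ↥(Cᶜ) → ℂ) (𝓝 k)) (𝓝 k'))
    (hkk : k ∈ C) (U : Set ℂ) (hU : IsOpen U) (hb : Bornology.IsBounded U) (hkU : k ∈ U)
    (hk'U : k' ∉ closure U) (hfr : ∀ z ∈ closure U \ U, z ∉ C) : False := by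
  obtain ⟨Φ, h1, h2, h3⟩ := hF
  set B : Set ℂ := closure U \ U with hB
  have hBc : IsCompact B := by
    have : IsCompact (closure U) := hb.isCompact_closure
    exact this.diff hU
  -- the compact set in the surface times the interval
  have hBs : IsCompact ((Subtype.val : ↥(Cᶜ) → ℂ) ⁻¹' B) := by
    rw [IsInducing.subtypeVal.isCompact_iff, image_preimage_eq_inter_range, Subtype.range_coe]
    have : B ∩ Cᶜ = B := inter_eq_left.2 fun z hz => hfr z hz
    rw [this]
    exact hBc
  have hP : IsCompact ((Subtype.val ∘ Prod.fst) ''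
      (Φ.symm '' (((Subtype.val : ↥(Cᶜ) → ℂ) ⁻¹' B) ×ˢ (univ : Set I)))) :=
    ((hBs.prod isCompact_univ).image Φ.symm.continuous).image
      (continuous_subtype_val.comp continuous_fst)
  set P := ((Subtype.val ∘ Prod.fst) ''
      (Φ.symm '' (((Subtype.val : ↥(Cᶜ) → ℂ) ⁻¹' B) ×ˢ (univ : Set I)))) with hPdef
  have hkP : k ∉ P := by
    rintro ⟨q, -, hq⟩
    exact q.1.2 (by rw [← hq] at hkk; exact hkk)
  have hnear : ∀ᶠ z in 𝓝 k, z ∈ U ∧ z ∉ P :=
    (hU.mem_nhds hkU |> Filter.eventually_of_mem <| fun _ h => h).and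
      (hP.isClosed.isOpen_compl.mem_nhds hkP)
  have hnb : Filter.NeBot (Filter.comap (Subtype.val : ↥(Cᶜ) → ℂ) (𝓝 k)) := by
    rw [← mem_closure_iff_comap_neBot]; exact hkC
  have hev : ∀ᶠ x : ↥(Cᶜ) in Filter.comap (Subtype.val : ↥(Cᶜ) → ℂ) (𝓝 k),
      ((x : ℂ) ∈ U ∧ (x : ℂ) ∉ P) ∧ ((F x : ↥(Cᶜ)) : ℂ) ∈ (closure U)ᶜ :=
    (hnear.comap _).and (hk.eventually (isClosed_closure.isOpen_compl.mem_nhds hk'U))
  obtain ⟨x, ⟨hxU, hxP⟩, hxF⟩ := hev.exists
  -- the path of `x`
  let γ : I → ℂ := fun t => ((Φ (x, t)).1 : ℂ)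
  have hγ : Continuous γ := by
    exact continuous_subtype_val.comp (continuous_fst.comp (Φ.continuous.comp (by fun_prop)))
  have hγB : ∀ t, γ t ∉ B := by
    intro t ht
    apply hxP
    refine ⟨(x, t), ⟨Φ (x, t), ⟨ht, mem_univ _⟩, Φ.symm_apply_apply _⟩, rfl⟩
  have hpre : IsPreconnected (range γ) := isPreconnected_range hγ
  have hcov : range γ ⊆ U ∪ (closure U)ᶜ := by
    rintro _ ⟨t, rfl⟩
    by_cases h : γ t ∈ U
    · exact Or.inl h
    · right
      intro h'
      exact hγB t ⟨h', h⟩
  have hdis : Disjoint U (closure U)ᶜ := disjoint_compl_right.mono_left subset_closure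
  rcases hpre.subset_or_subset hU isClosed_closure.isOpen_compl hdis hcov with h | h
  · have h4 : γ 1 ∈ U := h ⟨1, rfl⟩
    have h5 : γ 1 = ((F x : ↥(Cᶜ)) : ℂ) := by simp only [γ, h3]
    rw [h5] at h4
    exact hxF (subset_closure h4)
  · have h4 : γ 0 ∈ (closure U)ᶜ := h ⟨0, rfl⟩
    have h5 : γ 0 = (x : ℂ) := by simp only [γ, h2]
    rw [h5] at h4
    exact h4 (subset_closure hxU)

end Pool.Agent.R789
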