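import Pool.Agent.H812R3.CantorChar
import Pool.Agent.R789.OrdReal
import Pool.Agent.R789.Plane

/-! The group of order automorphisms of a countable dense linear order without endpoints embeds in
the mapping class group of the plane minus a Cantor set. -/

set_option autoImplicit false

open Set Topology

namespace Pool.Agent.R789

open Pool.Agent.H659R3.BigMCG

/-- the set `K` of the real axis in the plane -/
def onAxis (K : Set ℝ) : Set ℂ := {z | z.im = 0 ∧ z.re ∈ K}

theorem isClosed_onAxis {K : Set ℝ} (hK : IsClosed K) : IsClosed (onAxis K) :=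
  (isClosed_eq Complex.continuous_im continuous_const).inter
    (hK.preimage Complex.continuous_re)

theorem connected_compl_onAxis {K : Set ℝ} (hK : ∃ t, t ∉ K) :
    ConnectedSpace ↥((onAxis K)ᶜ) := by
  obtain ⟨t, ht⟩ := hK
  rw [← isConnected_iff_connectedSpace]
  have e : (onAxis K)ᶜ = ({z : ℂ | 0 < z.im} ∪ {z | z.im = 0 ∧ z.re ∉ K}) ∪
      ({z : ℂ | z.im < 0} ∪ {z | z.im = 0 ∧ z.re ∉ K}) := by
    ext z
    simp only [onAxis, mem_compl_iff, mem_ofPred_eq, mem_union, not_and]
    rcases lt_trichotomy z.im 0 with h | h | h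
    · constructor
      · intro _; right; left; exact h
      · intro _ h2; exact absurd h2 h.ne
    · constructor
      · intro h2; left; right; exact ⟨h, h2 h⟩
      · rintro ((h2 | h2) | (h2 | h2)) _
        · exact absurd h2 (by rw [h]; exact lt_irrefl _)
        · exact h2.2
        · exact absurd h2 (by rw [h]; exact lt_irrefl _)
        · exact h2.2
    · constructor
      · intro _; left; left; exact h
      · intro _ h2; exact absurd h2 h.ne'
  have hup : IsConnected ({z : ℂ | 0 < z.im} ∪ {z | z.im = 0 ∧ z.re ∉ K}) := by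
    have h1 : IsPreconnected {z : ℂ | 0 < z.im} := (convex_halfSpace_im_gt 0).isPreconnected
    refine ⟨⟨Complex.I, Or.inl (by simp)⟩, h1.subset_closure subset_union_left ?_⟩
    rw [Complex.closure_setOfPred_lt_im]
    rintro z (h | h)
    · exact (show 0 < z.im from h).le
    · exact (show z.im = 0 from h.1).ge
  have hdn : IsConnected ({z : ℂ | z.im < 0} ∪ {z | z.im = 0 ∧ z.re ∉ K}) := by
    have h1 : IsPreconnected {z : ℂ | z.im < 0} := (convex_halfSpace_im_lt 0).isPreconnected
    refine ⟨⟨-Complex.I, Or.inl (by simp)⟩, h1.subset_closure subset_union_left ?_⟩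
    rw [Complex.closure_setOfPred_im_lt]
    rintro z (h | h)
    · exact (show z.im < 0 from h).le
    · exact (show z.im = 0 from h.1).le
  rw [e]
  exact IsConnected.union ⟨(t : ℂ), Or.inr ⟨by simp, by simpa using ht⟩,
    Or.inr ⟨by simp, by simpa using ht⟩⟩ hup hdn

/-- the subset of the axis is homeomorphic to `K` -/
noncomputable def axisHomeo (K : Set ℝ) : ↥(onAxis K) ≃ₜ ↥K where
  toFun z := ⟨(z : ℂ).re, z.2.2⟩
  invFun t := ⟨((t : ℝ) : ℂ), by simp [onAxis]⟩
  left_inv z := Subtype.ext (Complex.ext (by simp) (by simp [z.2.1]))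
  right_inv t := by simp
  continuous_toFun := by fun_prop
  continuous_invFun := by fun_prop

theorem planeHomeo_mul (g h k : ℝ ≃o ℝ) (H : ∀ t, k t = g (h t)) (z : ℂ) :
    planeHomeo k z = planeHomeo g (planeHomeo h z) := by
  apply Complex.ext
  · rw [planeHomeo_re, planeHomeo_re, planeHomeo_re, H]
  · rw [planeHomeo_im, planeHomeo_im, planeHomeo_im]

variable {X : Type} [LinearOrder X] (W : Wt X)

theorem act_one (t : ℝ) : W.act (1 : X ≃o X) t = t := W.E_refl t

theorem pres (g : X ≃o X) (z : ℂ) : planeHomeo (W.act g) z ∈ onAxis W.K ↔ z ∈ onAxis W.K := by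
  simp only [onAxis, mem_ofPred_eq, planeHomeo_im, planeHomeo_re, W.act_mem_K_iff]

/-- the complement of the Cantor set, with the instances -/
abbrev SK : Type := ↥((onAxis W.K)ᶜ)

theorem closedK : IsClosed (onAxis W.K) := isClosed_onAxis W.isCompact_K.isClosed

theorem connK : ConnectedSpace (SK W) :=
  connected_compl_onAxis ⟨2, fun h => by linarith [h.1.2]⟩

/-- the surface structure -/
@[reducible] noncomputable def surfK : OrientedSurface (SK W) :=
  planeSurface (onAxis W.K) (closedK W) (connK W)

/-- the homeomorphism of the surface -/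
noncomputable def homeoK (g : X ≃o X) : SK W ≃ₜ SK W :=
  restr (onAxis W.K) (planeHomeo (W.act g)) (pres W g)

theorem homeoK_mul (g h : X ≃o X) : homeoK W (g * h) = homeoK W g * homeoK W h := by
  ext x
  show planeHomeo (W.act (g * h)) x = planeHomeo (W.act g) (planeHomeo (W.act h) x)
  exact planeHomeo_mul _ _ _ (W.act_mul g h) _

theorem homeoK_one : homeoK W (1 : X ≃o X) = 1 := by
  ext x
  show planeHomeo (W.act 1) x = x
  apply Complex.ext
  · rw [planeHomeo_re, act_one]
  · rw [planeHomeo_im]

theorem homeoK_orient (g : X ≃o X) :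
    @PreservesOrientation _ _ (surfK W) (homeoK W g) :=
  restr_orient _ (closedK W) (connK W) _ _ (planeHomeo_orient _)

theorem homeoK_inv (g : X ≃o X) : (homeoK W g)⁻¹ = homeoK W g⁻¹ := by
  rw [inv_eq_iff_mul_eq_one, ← homeoK_mul, mul_inv_cancel, homeoK_one]

/-- the homomorphism to the group of orientation-preserving homeomorphisms -/
noncomputable def toHomeoPlus : (X ≃o X) →* @HomeoPlus (SK W) _ (surfK W) :=
  letI := surfK W
  { toFun := fun g => ⟨homeoK W g, homeoK_orient W g, by
      rw [homeoK_inv]; exact homeoK_orient W g⁻¹⟩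
    map_one' := Subtype.ext (homeoK_one W)
    map_mul' := fun g h => Subtype.ext (homeoK_mul W g h) }

/-- the homomorphism to the mapping class group -/
noncomputable def toMapK : (X ≃o X) →* @Map (SK W) _ (surfK W) :=
  letI := surfK W
  toMap.comp (toHomeoPlus W)

theorem toMapK_injective : Function.Injective (toMapK W) := by
  let _ := surfK W
  rw [injective_iff_map_eq_one]
  intro g hg
  apply W.eq_one_of_fix
  intro t ht
  by_contra hne
  -- the homeomorphism is isotopic to the identity
  have hiso : IsotopicToId (homeoK W g) := by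
    have h1 : toMap (toHomeoPlus W g) = toMap 1 := by rw [map_one]; exact hg
    have h2 := toMap_eq.1 h1.symm
    rw [inv_one, one_mul] at h2
    exact h2
  -- a rectangle around `t`
  obtain ⟨δ, hδ, hδ2⟩ : ∃ δ : ℝ, 0 < δ ∧ δ < |W.act g t - t| := by
    have : 0 < |W.act g t - t| := abs_pos.2 (sub_ne_zero.2 hne)
    exact ⟨|W.act g t - t| / 2, by linarith, by linarith⟩
  obtain ⟨p, hp, hpK⟩ := W.exists_gap (show t - δ < t by linarith)
  obtain ⟨q, hq, hqK⟩ := W.exists_gap (show t < t + δ by linarith)
  have hU : IsOpen {z : ℂ | (p < z.re ∧ z.re < q) ∧ (-1 < z.im ∧ z.im < 1)} := by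
    have h1 : IsOpen {z : ℂ | p < z.re} := isOpen_lt continuous_const Complex.continuous_re
    have h2 : IsOpen {z : ℂ | z.re < q} := isOpen_lt Complex.continuous_re continuous_const
    have h3 : IsOpen {z : ℂ | -1 < z.im} := isOpen_lt continuous_const Complex.continuous_im
    have h4 : IsOpen {z : ℂ | z.im < 1} := isOpen_lt Complex.continuous_im continuous_const
    exact (h1.inter h2).inter (h3.inter h4)
  have hcl : closure {z : ℂ | (p < z.re ∧ z.re < q) ∧ (-1 < z.im ∧ z.im < 1)} ⊆
      {z : ℂ | p ≤ z.re ∧ z.re ≤ q} := by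
    refine closure_minimal (fun z hz => ⟨hz.1.1.le, hz.1.2.le⟩) ?_
    exact (isClosed_le continuous_const Complex.continuous_re).inter
      (isClosed_le Complex.continuous_re continuous_const)
  have hb : Bornology.IsBounded {z : ℂ | (p < z.re ∧ z.re < q) ∧ (-1 < z.im ∧ z.im < 1)} := by
    refine (Metric.isBounded_closedBall (x := (0 : ℂ)) (r := |p| + |q| + 1)).subset fun z hz => ?_
    rw [mem_closedBall_zero_iff]
    refine (Complex.norm_le_abs_re_add_abs_im z).trans (add_le_add ?_ ?_)
    · rw [abs_le]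
      constructor
      · linarith [hz.1.1, neg_abs_le p, abs_nonneg q]
      · linarith [hz.1.2, le_abs_self q, abs_nonneg p]
    · rw [abs_le]; exact ⟨hz.2.1.le, hz.2.2.le⟩
  have htC : (t : ℂ) ∈ onAxis W.K := ⟨by simp, by simpa using ht⟩
  refine isotopy_fix (onAxis W.K) (homeoK W g) hiso (k := (t : ℂ)) (k' := (W.act g t : ℂ)) ?_ ?_
    htC _ hU hb ?_ ?_ ?_
  · -- density of the complement
    rw [Metric.mem_closure_iff]
    intro ε hε
    refine ⟨(t : ℂ) + (ε / 2 : ℝ) * Complex.I, ?_, ?_⟩
    · rintro ⟨h1, -⟩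
      simp at h1
      linarith
    · rw [dist_eq_norm, sub_add_cancel_left, norm_neg, norm_mul, Complex.norm_I, mul_one,
        Complex.norm_real, Real.norm_of_nonneg (by linarith)]
      linarith
  · have hc : Continuous (planeHomeo (W.act g)) := (planeHomeo (W.act g)).continuous
    have h1 : planeHomeo (W.act g) (t : ℂ) = (W.act g t : ℂ) := by
      apply Complex.ext
      · rw [planeHomeo_re]; simp
      · rw [planeHomeo_im]; simp
    rw [← h1]
    exact (hc.tendsto (t : ℂ)).comp Filter.tendsto_comap
  · exact ⟨⟨by simpa using hp.2, by simpa using hq.1⟩, by simp, by simp⟩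
  · intro h
    have h2 := hcl h
    simp only [mem_ofPred_eq, Complex.ofReal_re] at h2
    have h3 : |W.act g t - t| ≤ δ := by
      rw [abs_le]
      constructor
      · linarith [h2.1, hp.1]
      · linarith [h2.2, hq.2]
    linarith
  · rintro z ⟨h1, h2⟩ ⟨h3, h4⟩
    have h5 := hcl h1
    apply h2
    refine ⟨⟨?_, ?_⟩, by rw [h3]; norm_num, by rw [h3]; norm_num⟩
    · refine lt_of_le_of_ne h5.1 fun h => hpK ?_
      rw [h]; exact h4
    · refine lt_of_le_of_ne h5.2 fun h => hqK ?_
      rw [← h]; exact h4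

/-- the removed set is a Cantor set -/
theorem cantorK [DenselyOrdered X] [NoMinOrder X] [NoMaxOrder X] :
    Nonempty (↥(onAxis W.K) ≃ₜ (ℕ → Bool)) := by
  have hgood : H812R3.CantorChar.Good W.K :=
    ⟨W.isCompact_K, ⟨0, W.zero_mem_K⟩, fun z hz ε hε => W.acc_K hz hε, fun u v huv => by
      obtain ⟨z, hz, hzK⟩ := W.exists_gap huv
      exact ⟨z, hz.1, hz.2, hzK⟩⟩
  obtain ⟨e⟩ := hgood.homeo
  exact ⟨((axisHomeo W.K).trans e).trans cantorSetHomeomorphNatToBool⟩

end Pool.Agent.R789
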