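import Mathlib

/-!
# The fixed points on type spaces property (FPT): definitions

Types over a structure `M` are represented as sets of formulas with parameters from `M`.
-/

namespace Pool.Agent.R789.FPT

open FirstOrder Language Topology

section
variable (L : FirstOrder.Language.{0, 0}) (M : Type) [L.Structure M]

/-- `S_n(M)`: the complete `n`-types over `M`, as sets of formulas `φ(x, b)` with `n` free
variables `x` and parameters `b` from `M`: the sets of the form
`{φ(x, b) | N ⊨ φ(a, b)}` where `N` is an elementary extension of `M` and `a` is an `n`-tuple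
of `N`. -/
def TypeSpace (n : ℕ) : Type :=
  {p : Set (L.Formula (M ⊕ Fin n)) //
    ∃ (N : Type) (_ : L.Structure N) (f : M ↪ₑ[L] N) (a : Fin n → N),
      p = {φ | φ.Realize (Sum.elim f a)}}

/-- The Stone topology: a basis is given by the sets `{p | φ ∈ p}`. -/
instance (n : ℕ) : TopologicalSpace (TypeSpace L M n) :=
  TopologicalSpace.generateFrom {s | ∃ φ : L.Formula (M ⊕ Fin n), s = {p | φ ∈ p.1}}

variable {L M}

/-- The action of `Aut(M)` on `S_n(M)` by moving the parameters:
`φ(x, b) ∈ g · p` if and only if `φ(x, g⁻¹ b) ∈ p`. -/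
def act {n : ℕ} (g : M ≃[L] M) (p : TypeSpace L M n) : TypeSpace L M n :=
  ⟨{φ | φ.relabel (Sum.map g.symm id) ∈ p.1}, by
    obtain ⟨N, iN, f, a, hp⟩ := p.2
    refine ⟨N, iN, f.comp (g.symm.toElementaryEmbedding), a, ?_⟩
    ext φ
    rw [hp]
    simp only [Set.mem_ofPred_eq, Formula.realize_relabel]
    rw [Sum.elim_comp_map]
    rfl⟩

variable (L M)

/-- The fixed points on type spaces property. -/
def HasFPT : Prop :=
  ∀ n : ℕ, 1 ≤ n → ∀ X : Set (TypeSpace L M n), X.Nonempty → IsClosed X →
    (∀ g : M ≃[L] M, ∀ p ∈ X, act g p ∈ X) → ∃ p ∈ X, ∀ g : M ≃[L] M, act g p = p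

/-- A Fraïssé structure: a countably infinite ultrahomogeneous structure in a countable
relational language. -/
structure IsFraisseStructure : Prop where
  relational : ∀ n, IsEmpty (L.Functions n)
  countable_language : Countable (Σ n, L.Relations n)
  countable : Countable M
  infinite : Infinite M
  ultrahomogeneous : L.IsUltrahomogeneous M

/-- The topology of pointwise convergence on `Aut(M)` (with `M` discrete). -/
@[reducible] def ptTop : TopologicalSpace (M ≃[L] M) :=
  TopologicalSpace.generateFrom {s | ∃ x y : M, s = {g | g x = y}}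

end

/-- `Aut(M)` and `Aut(M')` are isomorphic as topological groups. -/
def AutIso (L : FirstOrder.Language.{0, 0}) (M : Type) [L.Structure M] (L' : FirstOrder.Language.{0, 0}) (M' : Type)
    [L'.Structure M'] : Prop :=
  ∃ e : (M ≃[L] M) ≃ (M' ≃[L'] M'), (∀ g h : M ≃[L] M, e (g.comp h) = (e g).comp (e h)) ∧
    @Continuous _ _ (ptTop L M) (ptTop L' M') e ∧
    @Continuous _ _ (ptTop L' M') (ptTop L M) e.symm

end Pool.Agent.R789.FPT
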