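import Pool.Agent.R789.FPTTwo

/-!
# Same automorphism group; the second structure does not have FPT
-/

namespace Pool.Agent.R789.FPT

open FirstOrder Language Topology Filter Structure

theorem t₂_comp (k l : ℤ) : (t₂ k).comp (t₂ l) = t₂ (l + k) := by
  ext x
  rcases x with i | b
  · show t₂ k (t₂ l (Sum.inl i)) = _
    rw [t₂_inl, t₂_inl, t₂_inl, add_assoc]
  · show t₂ k (t₂ l (Sum.inr b)) = _
    rw [t₂_inr, t₂_inr, t₂_inr, fl_fl]

/-- the integer part of a point -/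
def ip : M₂ → ℤ
  | .inl k => k
  | .inr _ => 0

/-- the isomorphism of the automorphism groups -/
def autEquiv : (ℤ ≃[L₁] ℤ) ≃ (M₂ ≃[L₂] M₂) where
  toFun g := t₂ (g 0)
  invFun h := t₁ (ip (h (Sum.inl 0)))
  left_inv g := by
    show t₁ (ip (t₂ (g 0) (Sum.inl 0))) = g
    rw [t₂_inl, zero_add]
    exact (aut₁_eq g).symm
  right_inv h := by
    obtain ⟨k, hk, hk'⟩ := aut₂ h
    show t₂ (t₁ (ip (h (Sum.inl 0))) 0) = h
    rw [hk, t₁_apply, zero_add]
    exact hk'.symm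

theorem autIso : AutIso L₁ ℤ L₂ M₂ := by
  refine ⟨autEquiv, ?_, ?_, ?_⟩
  · intro g h
    show t₂ (g.comp h 0) = (t₂ (g 0)).comp (t₂ (h 0))
    rw [t₂_comp]
    congr 1
    show g (h 0) = _
    rw [aut₁ g (h 0)]
  · rw [continuous_generateFrom_iff]
    rintro s ⟨x, y, rfl⟩
    have : autEquiv ⁻¹' {g : M₂ ≃[L₂] M₂ | g x = y} =
        ⋃ (k : ℤ) (_ : t₂ k x = y), {g : ℤ ≃[L₁] ℤ | g 0 = k} := by
      ext g
      simp only [Set.mem_preimage, Set.mem_ofPred_eq, Set.mem_iUnion]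
      constructor
      · intro h
        exact ⟨g 0, h, rfl⟩
      · rintro ⟨k, hk, hg⟩
        show t₂ (g 0) x = y
        rw [hg]; exact hk
    rw [this]
    exact @isOpen_iUnion _ _ (ptTop L₁ ℤ) _ fun k => @isOpen_iUnion _ _ (ptTop L₁ ℤ) _ fun _ =>
      TopologicalSpace.isOpen_generateFrom_of_mem ⟨0, k, rfl⟩
  · rw [continuous_generateFrom_iff]
    rintro s ⟨x, y, rfl⟩
    apply TopologicalSpace.isOpen_generateFrom_of_mem
    refine ⟨Sum.inl 0, Sum.inl (y - x), ?_⟩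
    ext h
    obtain ⟨k, hk, -⟩ := aut₂ h
    simp only [Set.mem_preimage, Set.mem_ofPred_eq]
    show t₁ (ip (h (Sum.inl 0))) x = y ↔ _
    rw [hk, t₁_apply]
    show x + k = y ↔ _
    constructor
    · intro h
      congr 1
      omega
    · intro h
      have := Sum.inl.inj h
      omega

/-- the type over `M₂` of a point of `M₂` -/
def tp (x : M₂) : TypeSpace L₂ M₂ 1 :=
  ⟨{φ | φ.Realize (Sum.elim id (fun _ => x))}, M₂, inferInstance,
    ElementaryEmbedding.refl L₂ M₂, fun _ => x, rfl⟩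

/-- the formula `v = x` -/
def eqf (x : M₂) : L₂.Formula (M₂ ⊕ Fin 1) :=
  Term.equal (Term.var (Sum.inr 0)) (Term.var (Sum.inl x))

theorem eqf_mem (x y : M₂) : eqf x ∈ (tp y).1 ↔ y = x := by
  show (eqf x).Realize (Sum.elim id (fun _ => y)) ↔ _
  rw [eqf, Formula.realize_equal]
  simp

theorem eq_tp {p : TypeSpace L₂ M₂ 1} {x : M₂} (h : eqf x ∈ p.1) : p = tp x := by
  obtain ⟨N, iN, f, a, hp⟩ := p.2
  apply Subtype.ext
  rw [hp] at h ⊢
  have h1 : (eqf x).Realize (Sum.elim (⇑f) a) := h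
  rw [eqf, Formula.realize_equal] at h1
  have h2 : a 0 = f x := by simpa using h1
  ext φ
  show φ.Realize (Sum.elim (⇑f) a) ↔ φ.Realize (Sum.elim id (fun _ => x))
  rw [← f.map_formula φ]
  have : (f ∘ Sum.elim id (fun _ : Fin 1 => x)) = Sum.elim (⇑f) a := by
    funext z
    rcases z with m | j
    · rfl
    · show f x = a j
      rw [← h2]
      congr 1
      exact Subsingleton.elim _ _
  rw [this]

theorem act_tp (g : M₂ ≃[L₂] M₂) (x : M₂) : act g (tp x) = tp (g x) := by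
  apply eq_tp
  show (eqf (g x)).relabel (Sum.map g.symm id) ∈ (tp x).1
  show ((eqf (g x)).relabel (Sum.map g.symm id)).Realize (Sum.elim id (fun _ => x))
  rw [Formula.realize_relabel, eqf, Formula.realize_equal]
  show x = g.symm (g x)
  exact (g.toEquiv.symm_apply_apply x).symm

theorem isClosed_mem (φ : L₂.Formula (M₂ ⊕ Fin 1)) :
    IsClosed {p : TypeSpace L₂ M₂ 1 | φ ∈ p.1} := by
  rw [← isOpen_compl_iff]
  apply TopologicalSpace.isOpen_generateFrom_of_mem
  refine ⟨φ.not, ?_⟩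
  ext p
  obtain ⟨N, iN, f, a, hp⟩ := p.2
  simp only [Set.mem_compl_iff, Set.mem_ofPred_eq]
  rw [hp]
  simp only [Set.mem_ofPred_eq, Formula.realize_not]

theorem not_fpt₂ : ¬ HasFPT L₂ M₂ := by
  intro h
  obtain ⟨p, hp, hfix⟩ := h 1 le_rfl
    ({p | eqf (Sum.inr false) ∈ p.1} ∪ {p | eqf (Sum.inr true) ∈ p.1})
    ⟨tp (Sum.inr false), Or.inl ((eqf_mem _ _).mpr rfl)⟩
    ((isClosed_mem _).union (isClosed_mem _)) (by
      have key : ∀ (g : M₂ ≃[L₂] M₂) (b : Bool), act g (tp (Sum.inr b)) ∈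
          ({p | eqf (Sum.inr false) ∈ p.1} ∪ {p | eqf (Sum.inr true) ∈ p.1} :
            Set (TypeSpace L₂ M₂ 1)) := by
        intro g b
        obtain ⟨k, -, hk⟩ := aut₂ g
        rw [act_tp, hk, t₂_inr]
        cases hb : fl k b
        · left; exact (eqf_mem _ _).mpr rfl
        · right; exact (eqf_mem _ _).mpr rfl
      rintro g p (hp | hp)
      · rw [eq_tp hp]; exact key g false
      · rw [eq_tp hp]; exact key g true)
  have key : ∀ b : Bool, act (t₂ 1) (tp (Sum.inr b)) ≠ tp (Sum.inr b) := by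
    intro b hb
    rw [act_tp, t₂_inr] at hb
    have h1 : eqf (Sum.inr b) ∈ (tp (Sum.inr (fl 1 b))).1 := by
      rw [hb]; exact (eqf_mem _ _).mpr rfl
    have h2 := Sum.inr.inj ((eqf_mem _ _).mp h1)
    cases b <;> simp [fl] at h2
  rcases hp with hp | hp
  · rw [eq_tp hp] at hfix
    exact key false (hfix (t₂ 1))
  · rw [eq_tp hp] at hfix
    exact key true (hfix (t₂ 1))

end Pool.Agent.R789.FPT
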