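import Pool.Agent.R789.FPTDefs

/-!
# The structure of the integers with all translations has FPT
-/

namespace Pool.Agent.R789.FPT

open FirstOrder Language Topology Filter Structure

/-- Relation symbols: one binary symbol for each integer. -/
inductive Rel₁ : ℕ → Type
  | R : ℤ → Rel₁ 2

/-- The language of the translations. -/
@[reducible] def L₁ : FirstOrder.Language.{0, 0} := ⟨fun _ => Empty, Rel₁⟩

/-- The integers, with `R k` interpreted by `{(x, x + k)}`. -/
instance str₁ : L₁.Structure ℤ where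
  funMap := fun f => Empty.elim f
  RelMap := fun {_} r => match r with
    | .R k => fun x => x 1 = x 0 + k

theorem rel₁ (k : ℤ) (x : Fin 2 → ℤ) : RelMap (L := L₁) (Rel₁.R k) x ↔ x 1 = x 0 + k := Iff.rfl

/-- the translations -/
def t₁ (k : ℤ) : ℤ ≃[L₁] ℤ where
  toEquiv := Equiv.addRight k
  map_fun' := fun f => Empty.elim f
  map_rel' := by
    intro n r x
    cases r with
    | R m =>
      rw [rel₁, rel₁]
      show x 1 + k = x 0 + k + m ↔ x 1 = x 0 + m
      constructor <;> intro h <;> omega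

theorem t₁_apply (k x : ℤ) : t₁ k x = x + k := rfl

theorem aut₁ (g : ℤ ≃[L₁] ℤ) (x : ℤ) : g x = x + g 0 := by
  have h := (g.map_rel (Rel₁.R x) ![0, x])
  rw [rel₁, rel₁] at h
  have h2 : g x = g 0 + x := h.mpr (by simp)
  omega

theorem aut₁_eq (g : ℤ ≃[L₁] ℤ) : g = t₁ (g 0) := by
  ext x
  rw [aut₁ g x, t₁_apply]

theorem fraisse₁ : IsFraisseStructure L₁ ℤ where
  relational := fun _ => inferInstanceAs (IsEmpty Empty)
  countable_language := by
    have : Function.Surjective (fun k : ℤ => (⟨2, Rel₁.R k⟩ : Σ n, L₁.Relations n)) := by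
      rintro ⟨n, r⟩
      cases r with
      | R k => exact ⟨k, rfl⟩
    exact this.countable
  countable := inferInstance
  infinite := inferInstance
  ultrahomogeneous := by
    intro S _ f
    by_cases hS : ∃ s, s ∈ S
    · obtain ⟨s, hs⟩ := hS
      refine ⟨t₁ (f ⟨s, hs⟩ - s), ?_⟩
      ext ⟨x, hx⟩
      have h := f.map_rel (Rel₁.R (x - s)) ![⟨s, hs⟩, ⟨x, hx⟩]
      have h1 : RelMap (L := L₁) (M := ℤ) (Rel₁.R (x - s)) (f ∘ ![⟨s, hs⟩, ⟨x, hx⟩]) := by
        rw [h, ← S.subtype.map_rel, rel₁]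
        show x = s + (x - s)
        omega
      rw [rel₁] at h1
      have h2 : f ⟨x, hx⟩ = f ⟨s, hs⟩ + (x - s) := h1
      show f ⟨x, hx⟩ = t₁ (f ⟨s, hs⟩ - s) x
      rw [h2, t₁_apply]
      omega
    · refine ⟨Language.Equiv.refl L₁ ℤ, ?_⟩
      ext ⟨x, hx⟩
      exact absurd ⟨x, hx⟩ hS

/-- functionality sentence -/
def sF (k : ℤ) : L₁.Sentence :=
  ∀' ∀' ∀' ((Relations.boundedFormula₂ (L := L₁) (Rel₁.R k) (&0) (&1)).imp
    ((Relations.boundedFormula₂ (L := L₁) (Rel₁.R k) (&0) (&2)).imp ((&1).bdEqual (&2))))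

/-- injectivity sentence -/
def sI (k : ℤ) : L₁.Sentence :=
  ∀' ∀' ∀' ((Relations.boundedFormula₂ (L := L₁) (Rel₁.R k) (&0) (&2)).imp
    ((Relations.boundedFormula₂ (L := L₁) (Rel₁.R k) (&1) (&2)).imp ((&0).bdEqual (&1))))

theorem realize_sF {N : Type} [L₁.Structure N] (k : ℤ) : N ⊨ sF k ↔
    ∀ x y z : N, RelMap (L := L₁) (Rel₁.R k) ![x, y] → RelMap (L := L₁) (Rel₁.R k) ![x, z] →
      y = z := by
  simp only [sF, Sentence.Realize, Formula.Realize, BoundedFormula.realize_all,
    BoundedFormula.realize_imp, BoundedFormula.realize_rel₂, BoundedFormula.realize_bdEqual]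
  rfl

theorem realize_sI {N : Type} [L₁.Structure N] (k : ℤ) : N ⊨ sI k ↔
    ∀ x y z : N, RelMap (L := L₁) (Rel₁.R k) ![x, z] → RelMap (L := L₁) (Rel₁.R k) ![y, z] →
      x = y := by
  simp only [sI, Sentence.Realize, Formula.Realize, BoundedFormula.realize_all,
    BoundedFormula.realize_imp, BoundedFormula.realize_rel₂, BoundedFormula.realize_bdEqual]
  rfl

theorem sF_true (k : ℤ) : ℤ ⊨ sF k := by
  rw [realize_sF]
  intro x y z h1 h2
  rw [rel₁] at h1 h2
  have h3 : y = x + k := h1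
  have h4 : z = x + k := h2
  omega

theorem sI_true (k : ℤ) : ℤ ⊨ sI k := by
  rw [realize_sI]
  intro x y z h1 h2
  rw [rel₁] at h1 h2
  have h3 : z = x + k := h1
  have h4 : z = y + k := h2
  omega

/-- the permutation of an elementary extension which acts as `g` on the base and fixes all the
other points -/
noncomputable def ext {N : Type} [L₁.Structure N] (f : ℤ ↪ₑ[L₁] N) (g : ℤ ≃[L₁] ℤ) :
    Equiv.Perm N :=
  @Equiv.Perm.extendDomain ℤ N g.toEquiv (fun x => x ∈ Set.range f) (fun _ => Classical.dec _)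
    (Equiv.ofInjective f f.injective)

theorem ext_in {N : Type} [L₁.Structure N] (f : ℤ ↪ₑ[L₁] N) (g : ℤ ≃[L₁] ℤ) (i : ℤ) :
    ext f g (f i) = f (g i) := by
  have := @Equiv.Perm.extendDomain_apply_image ℤ N g.toEquiv (fun x => x ∈ Set.range f)
    (fun _ => Classical.dec _) (Equiv.ofInjective f f.injective) i
  exact this

theorem ext_out {N : Type} [L₁.Structure N] (f : ℤ ↪ₑ[L₁] N) (g : ℤ ≃[L₁] ℤ) {x : N}
    (hx : x ∉ Set.range f) : ext f g x = x :=
  @Equiv.Perm.extendDomain_apply_not_subtype ℤ N g.toEquiv (fun x => x ∈ Set.range f)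
    (fun _ => Classical.dec _) (Equiv.ofInjective f f.injective) x hx

theorem base_rel {N : Type} [L₁.Structure N] (f : ℤ ↪ₑ[L₁] N) (k i j : ℤ) :
    RelMap (L := L₁) (Rel₁.R k) ![f i, f j] ↔ j = i + k := by
  have h := f.map_rel (Rel₁.R k) ![i, j]
  rw [rel₁] at h
  have e : (f ∘ ![i, j]) = ![f i, f j] := by
    ext z; fin_cases z <;> rfl
  rw [e] at h
  exact h

theorem ext_rel {N : Type} [L₁.Structure N] (f : ℤ ↪ₑ[L₁] N) (g : ℤ ≃[L₁] ℤ) (k : ℤ) (x y : N) :
    RelMap (L := L₁) (Rel₁.R k) ![ext f g x, ext f g y] ↔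
      RelMap (L := L₁) (Rel₁.R k) ![x, y] := by
  have hF := (realize_sF k).mp ((f.map_sentence (sF k)).mp (sF_true k))
  have hI := (realize_sI k).mp ((f.map_sentence (sI k)).mp (sI_true k))
  have out1 : ∀ (i : ℤ) (z : N), z ∉ Set.range f →
      ¬ RelMap (L := L₁) (Rel₁.R k) ![f i, z] := by
    intro i z hz h
    exact hz ⟨i + k, hF _ _ _ ((base_rel f k i (i + k)).mpr rfl) h⟩
  have out2 : ∀ (j : ℤ) (z : N), z ∉ Set.range f →
      ¬ RelMap (L := L₁) (Rel₁.R k) ![z, f j] := by
    intro j z hz h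
    exact hz ⟨j - k, hI _ _ _ ((base_rel f k (j - k) j).mpr (by omega)) h⟩
  by_cases hx : x ∈ Set.range f
  · obtain ⟨i, rfl⟩ := hx
    by_cases hy : y ∈ Set.range f
    · obtain ⟨j, rfl⟩ := hy
      rw [ext_in, ext_in, base_rel, base_rel, aut₁ g i, aut₁ g j]
      constructor <;> intro h <;> omega
    · rw [ext_in, ext_out f g hy]
      exact ⟨fun h => absurd h (out1 _ _ hy), fun h => absurd h (out1 _ _ hy)⟩
  · by_cases hy : y ∈ Set.range f
    · obtain ⟨j, rfl⟩ := hy
      rw [ext_in, ext_out f g hx]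
      exact ⟨fun h => absurd h (out2 _ _ hx), fun h => absurd h (out2 _ _ hx)⟩
    · rw [ext_out f g hx, ext_out f g hy]

/-- the automorphism of an elementary extension -/
noncomputable def extAut {N : Type} [L₁.Structure N] (f : ℤ ↪ₑ[L₁] N) (g : ℤ ≃[L₁] ℤ) :
    N ≃[L₁] N where
  toEquiv := ext f g
  map_fun' := fun f => Empty.elim f
  map_rel' := by
    intro n r x
    cases r with
    | R m =>
      have h := ext_rel f g m (x 0) (x 1)
      have e1 : (![ext f g (x 0), ext f g (x 1)] : Fin 2 → N) = (ext f g).toFun ∘ x := by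
        funext z; fin_cases z <;> rfl
      have e2 : (![x 0, x 1] : Fin 2 → N) = x := by
        funext z; fin_cases z <;> rfl
      rw [e1, e2] at h
      exact h

/-- a type none of whose coordinates lies in the base is fixed -/
theorem fixed_of_out {n : ℕ} (q : TypeSpace L₁ ℤ n) {N : Type} [L₁.Structure N]
    (f : ℤ ↪ₑ[L₁] N) (a : Fin n → N) (hq : q.1 = {φ | φ.Realize (Sum.elim f a)})
    (ha : ∀ j, a j ∉ Set.range f) (g : ℤ ≃[L₁] ℤ) : act g q = q := by
  apply Subtype.ext
  show {φ | φ.relabel (Sum.map g.symm id) ∈ q.1} = q.1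
  rw [hq]
  ext φ
  simp only [Set.mem_ofPred_eq, Formula.realize_relabel]
  rw [← StrongHomClass.realize_formula (extAut f g) φ]
  have : (extAut f g) ∘ (Sum.elim (⇑f) a ∘ Sum.map (⇑g.symm) id) = Sum.elim (⇑f) a := by
    funext z
    rcases z with i | j
    · show ext f g (f (g.symm i)) = f i
      rw [ext_in]
      congr 1
      exact g.toEquiv.apply_symm_apply i
    · exact ext_out f g (ha j)
  rw [this]

theorem fpt₁ : HasFPT L₁ ℤ := by
  intro n _ X hne hcl hinv
  obtain ⟨p, hp⟩ := hne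
  obtain ⟨N, iN, f, a, hpe⟩ := p.2
  have : Nonempty N := ⟨f 0⟩
  let U : Ultrafilter ℤ := hyperfilter ℤ
  let NS : Type := (U : Filter ℤ).Product (fun _ : ℤ => N)
  -- the diagonal-like embedding
  let F : ℤ → (∀ _ : ℤ, N) := fun m i => f (m - i)
  have los : ∀ {β : Type} (φ : L₁.Formula β) (x : β → ∀ _ : ℤ, N),
      (φ.Realize (fun b => ((x b : ∀ _ : ℤ, N) : (U : Filter ℤ).Product (fun _ : ℤ => N)))) ↔
        ∀ᶠ i in (U : Filter ℤ), φ.Realize (fun b => x b i) := by
    intro β φ x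
    exact Ultraproduct.realize_formula_cast (u := U) (M := fun _ : ℤ => N) φ x
  have shift : ∀ {β : Type} (φ : L₁.Formula β) (v : β → ℤ) (i : ℤ),
      φ.Realize (fun b => f (v b - i)) ↔ φ.Realize v := by
    intro β φ v i
    have h1 := StrongHomClass.realize_formula (t₁ (-i)) φ (v := v)
    have h2 := f.map_formula φ ((t₁ (-i)) ∘ v)
    have h3 : (f ∘ ((t₁ (-i)) ∘ v)) = fun b => f (v b - i) := by
      funext b
      show f (v b + -i) = f (v b - i)
      rfl
    rw [h3] at h2
    rw [h2, h1]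
  let fs : ℤ ↪ₑ[L₁] NS :=
    { toFun := fun m => ((F m : ∀ _ : ℤ, N) : (U : Filter ℤ).Product (fun _ : ℤ => N))
      map_formula' := by
        intro n φ x
        have h := los φ (fun b => F (x b))
        refine Iff.trans h ?_
        have h2 : ∀ i : ℤ, (φ.Realize fun b => F (x b) i) ↔ φ.Realize x := fun i => shift φ x i
        simp only [h2]
        exact eventually_const }
  let as : Fin n → NS := fun j => ((fun _ => a j : ∀ _ : ℤ, N) : (U : Filter ℤ).Product (fun _ : ℤ => N))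
  let q : TypeSpace L₁ ℤ n := ⟨{φ | φ.Realize (Sum.elim fs as)}, NS, inferInstance, fs, as, rfl⟩
  have hact : ∀ (i : ℤ) (φ : L₁.Formula (ℤ ⊕ Fin n)), φ ∈ (act (t₁ i) p).1 ↔
      φ.Realize (fun b => Sum.elim F (fun j _ => a j) b i) := by
    intro i φ
    show φ.relabel (Sum.map (t₁ i).symm id) ∈ p.1 ↔ _
    rw [hpe]
    simp only [Set.mem_ofPred_eq, Formula.realize_relabel]
    have : (Sum.elim (⇑f) a ∘ Sum.map (⇑(t₁ i).symm) id) =
        fun b => Sum.elim F (fun j _ => a j) b i := by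
      funext b
      rcases b with m | j
      · show f (m + -i) = f (m - i)
        rfl
      · rfl
    rw [this]
  have hq : ∀ φ : L₁.Formula (ℤ ⊕ Fin n), φ ∈ q.1 ↔
      ∀ᶠ i in (U : Filter ℤ), φ ∈ (act (t₁ i) p).1 := by
    intro φ
    simp only [hact]
    rw [← los]
    show φ.Realize (Sum.elim fs as) ↔ _
    have : (Sum.elim fs as) = fun b =>
        ((Sum.elim F (fun j _ => a j) b : ∀ _ : ℤ, N) : (U : Filter ℤ).Product (fun _ : ℤ => N)) := by
      funext b
      rcases b with m | j <;> rfl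
    rw [this]
    exact Iff.rfl
  have htend : Tendsto (fun i => act (t₁ i) p) (U : Filter ℤ) (𝓝 q) := by
    rw [TopologicalSpace.tendsto_nhds_generateFrom_iff]
    rintro s ⟨φ, rfl⟩ hqs
    exact (hq φ).mp hqs
  have hqX : q ∈ X := hcl.mem_of_tendsto htend (Eventually.of_forall fun i => hinv _ p hp)
  refine ⟨q, hqX, fun g => fixed_of_out q fs as rfl ?_ g⟩
  rintro j ⟨m, hm⟩
  have h1 : ∀ᶠ i in (U : Filter ℤ), F m i = a j := by
    have := Quotient.exact hm
    exact this
  have h2 : {i : ℤ | F m i = a j}.Subsingleton := by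
    intro i hi i' hi'
    have : f (m - i) = f (m - i') := by
      have h3 : F m i = a j := hi
      have h4 : F m i' = a j := hi'
      exact h3.trans h4.symm
    have := f.injective this
    omega
  exact notMem_hyperfilter_of_finite h2.finite h1

end Pool.Agent.R789.FPT
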