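import Pool.Agent.R789.FPTOne

/-!
# The integers with two extra points: same automorphism group, no FPT
-/

namespace Pool.Agent.R789.FPT

open FirstOrder Language Topology Filter Structure

/-- Relation symbols: the translations, a unary one and a binary one. -/
inductive Rel₂ : ℕ → Type
  | R : ℤ → Rel₂ 2
  | U : Rel₂ 1
  | E : Rel₂ 2

/-- The second language. -/
@[reducible] def L₂ : FirstOrder.Language.{0, 0} := ⟨fun _ => Empty, Rel₂⟩

/-- The integers together with two further points. -/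
@[reducible] def M₂ : Type := ℤ ⊕ Bool

/-- `R k` is the translation by `k` on the integers, `U` is the set of the two further points,
and `E` joins the even integers to `inr false` and the odd integers to `inr true`. -/
instance str₂ : L₂.Structure M₂ where
  funMap := fun f => Empty.elim f
  RelMap := fun {_} r => match r with
    | .R k => fun x => ∃ i : ℤ, x 0 = Sum.inl i ∧ x 1 = Sum.inl (i + k)
    | .U => fun x => ∃ b : Bool, x 0 = Sum.inr b
    | .E => fun x => ∃ i : ℤ, x 0 = Sum.inl i ∧ x 1 = Sum.inr (decide (Odd i))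

theorem relR (k : ℤ) (x : Fin 2 → M₂) : RelMap (L := L₂) (Rel₂.R k) x ↔
    ∃ i : ℤ, x 0 = Sum.inl i ∧ x 1 = Sum.inl (i + k) := Iff.rfl

theorem relU (x : Fin 1 → M₂) : RelMap (L := L₂) Rel₂.U x ↔ ∃ b : Bool, x 0 = Sum.inr b := Iff.rfl

theorem relE (x : Fin 2 → M₂) : RelMap (L := L₂) Rel₂.E x ↔
    ∃ i : ℤ, x 0 = Sum.inl i ∧ x 1 = Sum.inr (decide (Odd i)) := Iff.rfl

/-- flip a boolean according to the parity of an integer -/
def fl (k : ℤ) (b : Bool) : Bool := xor b (decide (Odd k))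

theorem par_add (i k : ℤ) :
    decide (Odd (i + k)) = xor (decide (Odd i)) (decide (Odd k)) := by
  rcases Int.even_or_odd i with hi | hi <;> rcases Int.even_or_odd k with hk | hk
  · have h1 : ¬ Odd (i + k) := Int.not_odd_iff_even.mpr (hi.add hk)
    simp [h1, Int.not_odd_iff_even.mpr hi, Int.not_odd_iff_even.mpr hk]
  · have h1 : Odd (i + k) := hi.add_odd hk
    simp [h1, Int.not_odd_iff_even.mpr hi, hk]
  · have h1 : Odd (i + k) := hi.add_even hk
    simp [h1, Int.not_odd_iff_even.mpr hk, hi]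
  · have h1 : ¬ Odd (i + k) := Int.not_odd_iff_even.mpr (hi.add_odd hk)
    simp [h1, hi, hk]

theorem par_sub (i k : ℤ) :
    decide (Odd (i - k)) = xor (decide (Odd i)) (decide (Odd k)) := by
  have h := par_add (i - k) k
  rw [sub_add_cancel] at h
  rw [h, Bool.xor_assoc, Bool.xor_self, Bool.xor_false]

theorem fl_fl (k l : ℤ) (b : Bool) : fl k (fl l b) = fl (l + k) b := by
  unfold fl
  rw [Bool.xor_assoc, par_add]

theorem fl_decide (k i : ℤ) : fl k (decide (Odd i)) = decide (Odd (i + k)) := by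
  unfold fl
  rw [par_add]

theorem fl_neg (k : ℤ) (b : Bool) : fl (-k) (fl k b) = b := by
  rw [fl_fl]; simp [fl]

theorem fl_neg' (k : ℤ) (b : Bool) : fl k (fl (-k) b) = b := by
  rw [fl_fl]; simp [fl]

/-- the permutation of `M₂` -/
def perm₂ (k : ℤ) : M₂ ≃ M₂ where
  toFun := fun x => match x with
    | .inl i => .inl (i + k)
    | .inr b => .inr (fl k b)
  invFun := fun x => match x with
    | .inl i => .inl (i - k)
    | .inr b => .inr (fl (-k) b)
  left_inv := by
    rintro (i | b)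
    · simp
    · simp [fl_neg]
  right_inv := by
    rintro (i | b)
    · simp
    · simp [fl_neg']

theorem perm₂_inl (k i : ℤ) : perm₂ k (Sum.inl i) = Sum.inl (i + k) := rfl
theorem perm₂_inr (k : ℤ) (b : Bool) : perm₂ k (Sum.inr b) = Sum.inr (fl k b) := rfl

/-- the automorphisms of `M₂` -/
def t₂ (k : ℤ) : M₂ ≃[L₂] M₂ where
  toEquiv := perm₂ k
  map_fun' := fun f => Empty.elim f
  map_rel' := by
    intro n r x
    cases r with
    | R m =>
      rw [relR, relR]
      show (∃ i : ℤ, perm₂ k (x 0) = _ ∧ perm₂ k (x 1) = _) ↔ _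
      constructor
      · rintro ⟨i, h0, h1⟩
        rcases hx0 : x 0 with u | u
        · rcases hx1 : x 1 with v | v
          · rw [hx0, perm₂_inl] at h0
            rw [hx1, perm₂_inl] at h1
            have h0' := Sum.inl.inj h0
            have h1' := Sum.inl.inj h1
            exact ⟨u, rfl, by congr 1; omega⟩
          · rw [hx1, perm₂_inr] at h1; simp at h1
        · rw [hx0, perm₂_inr] at h0; simp at h0
      · rintro ⟨i, h0, h1⟩
        refine ⟨i + k, by rw [h0, perm₂_inl], ?_⟩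
        rw [h1, perm₂_inl]
        congr 1
        omega
    | U =>
      rw [relU, relU]
      show (∃ b : Bool, perm₂ k (x 0) = _) ↔ _
      constructor
      · rintro ⟨b, h⟩
        rcases hx0 : x 0 with u | u
        · rw [hx0, perm₂_inl] at h; simp at h
        · exact ⟨u, rfl⟩
      · rintro ⟨b, h⟩
        exact ⟨fl k b, by rw [h, perm₂_inr]⟩
    | E =>
      rw [relE, relE]
      show (∃ i : ℤ, perm₂ k (x 0) = _ ∧ perm₂ k (x 1) = _) ↔ _
      constructor
      · rintro ⟨i, h0, h1⟩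
        rcases hx0 : x 0 with u | u
        · rcases hx1 : x 1 with v | v
          · rw [hx1, perm₂_inl] at h1; simp at h1
          · rw [hx0, perm₂_inl] at h0
            rw [hx1, perm₂_inr] at h1
            have h0' := Sum.inl.inj h0
            have h1' := Sum.inr.inj h1
            refine ⟨u, rfl, ?_⟩
            congr 1
            rw [← h0', ← fl_decide] at h1'
            have := congrArg (fl (-k)) h1'
            rwa [fl_neg, fl_neg] at this
        · rw [hx0, perm₂_inr] at h0; simp at h0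
      · rintro ⟨i, h0, h1⟩
        refine ⟨i + k, by rw [h0, perm₂_inl], ?_⟩
        rw [h1, perm₂_inr, fl_decide]

theorem t₂_inl (k i : ℤ) : t₂ k (Sum.inl i) = Sum.inl (i + k) := rfl
theorem t₂_inr (k : ℤ) (b : Bool) : t₂ k (Sum.inr b) = Sum.inr (fl k b) := rfl

/-- An embedding of a substructure preserves the two sorts, the translations and `E`. -/
theorem emb_facts {S : L₂.Substructure M₂} (f : S ↪[L₂] M₂) :
    (∀ (b : Bool) (h : Sum.inr b ∈ S), ∃ b', f ⟨Sum.inr b, h⟩ = Sum.inr b') ∧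
    (∀ (i : ℤ) (h : Sum.inl i ∈ S), ∃ i', f ⟨Sum.inl i, h⟩ = Sum.inl i') ∧
    (∀ (i j : ℤ) (hi : Sum.inl i ∈ S) (hj : Sum.inl j ∈ S) (i' : ℤ),
      f ⟨Sum.inl i, hi⟩ = Sum.inl i' → f ⟨Sum.inl j, hj⟩ = Sum.inl (i' + (j - i))) ∧
    (∀ (i : ℤ) (b : Bool) (hi : Sum.inl i ∈ S) (hb : Sum.inr b ∈ S) (i' : ℤ),
      f ⟨Sum.inl i, hi⟩ = Sum.inl i' → f ⟨Sum.inr b, hb⟩ = Sum.inr (fl (i' - i) b)) := by
  have hU : ∀ x : S, RelMap (L := L₂) Rel₂.U ![f x] ↔ ∃ b : Bool, (x : M₂) = Sum.inr b := by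
    intro x
    have h := f.map_rel Rel₂.U ![x]
    rw [← S.subtype.map_rel, relU] at h
    have e : f ∘ ![x] = ![f x] := by funext z; fin_cases z; rfl
    rw [e] at h
    exact h
  have h1 : ∀ (b : Bool) (h : Sum.inr b ∈ S), ∃ b', f ⟨Sum.inr b, h⟩ = Sum.inr b' :=
    fun b h => (hU ⟨_, h⟩).mpr ⟨b, rfl⟩
  have h2 : ∀ (i : ℤ) (h : Sum.inl i ∈ S), ∃ i', f ⟨Sum.inl i, h⟩ = Sum.inl i' := by
    intro i h
    rcases hx : f ⟨Sum.inl i, h⟩ with u | u
    · exact ⟨u, rfl⟩
    · exfalso
      obtain ⟨b, hb⟩ := (hU ⟨_, h⟩).mp ⟨u, hx⟩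
      simp at hb
  refine ⟨h1, h2, ?_, ?_⟩
  · intro i j hi hj i' hi'
    have h := f.map_rel (Rel₂.R (j - i)) ![⟨_, hi⟩, ⟨_, hj⟩]
    rw [← S.subtype.map_rel, relR, relR] at h
    obtain ⟨u, hu0, hu1⟩ := h.mpr ⟨i, rfl, by
      show (Sum.inl j : M₂) = _
      congr 1; omega⟩
    have hu0' : f ⟨Sum.inl i, hi⟩ = Sum.inl u := hu0
    have hu1' : f ⟨Sum.inl j, hj⟩ = Sum.inl (u + (j - i)) := hu1
    rw [hi'] at hu0'
    rw [hu1', Sum.inl.inj hu0']
  · intro i b hi hb i' hi'
    obtain ⟨b', hb'⟩ := h1 b hb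
    have h := f.map_rel Rel₂.E ![⟨_, hi⟩, ⟨_, hb⟩]
    rw [← S.subtype.map_rel, relE, relE] at h
    have hA : (∃ u : ℤ, f ⟨Sum.inl i, hi⟩ = Sum.inl u ∧
        f ⟨Sum.inr b, hb⟩ = Sum.inr (decide (Odd u))) ↔ b = decide (Odd i) := by
      refine Iff.trans h ?_
      constructor
      · rintro ⟨u, h0, h1⟩
        have h0' : (Sum.inl i : M₂) = Sum.inl u := h0
        have h1' : (Sum.inr b : M₂) = Sum.inr (decide (Odd u)) := h1
        rw [Sum.inr.inj h1', Sum.inl.inj h0']
      · intro h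
        exact ⟨i, rfl, by show (Sum.inr b : M₂) = _; rw [h]⟩
    rw [hi', hb'] at hA
    have hB : b' = decide (Odd i') ↔ b = decide (Odd i) := by
      rw [← hA]
      constructor
      · intro h
        exact ⟨i', rfl, by rw [h]⟩
      · rintro ⟨u, h0, h1⟩
        rw [Sum.inr.inj h1, Sum.inl.inj h0]
    rw [hb']
    congr 1
    unfold fl
    rw [par_sub]
    clear hA h hi' hb' hU h1 h2
    generalize decide (Odd i) = p at *
    generalize decide (Odd i') = p' at *
    revert hB
    cases b <;> cases b' <;> cases p <;> cases p' <;> decide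

theorem ultra₂ : L₂.IsUltrahomogeneous M₂ := by
  intro S _ f
  obtain ⟨h1, h2, h3, h4⟩ := emb_facts f
  by_cases hS : ∃ i : ℤ, Sum.inl i ∈ S
  · obtain ⟨i, hi⟩ := hS
    obtain ⟨i', hi'⟩ := h2 i hi
    refine ⟨t₂ (i' - i), ?_⟩
    ext ⟨x, hx⟩
    show f ⟨x, hx⟩ = t₂ (i' - i) x
    rcases x with j | b
    · rw [h3 i j hi hx i' hi', t₂_inl]
      congr 1
      omega
    · rw [h4 i b hi hx i' hi', t₂_inr]
  · have h5 : ∀ (b : Bool) (h : Sum.inr b ∈ S) (c : Bool) (hc : Sum.inr c ∈ S) (b' : Bool),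
        f ⟨Sum.inr b, h⟩ = Sum.inr (xor b b') → f ⟨Sum.inr c, hc⟩ = Sum.inr (xor c b') := by
      intro b h c hc b' hb'
      by_cases hbc : b = c
      · subst hbc; exact hb'
      · obtain ⟨c', hc'⟩ := h1 c hc
        rw [hc']
        congr 1
        have hne : f ⟨Sum.inr b, h⟩ ≠ f ⟨Sum.inr c, hc⟩ := by
          intro he
          have := f.injective he
          apply hbc
          exact Sum.inr.inj (congrArg Subtype.val this)
        rw [hb', hc'] at hne
        have hne' : xor b b' ≠ c' := fun h => hne (by rw [h])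
        cases b <;> cases c <;> cases b' <;> cases c' <;> simp_all
    by_cases hT : ∃ b : Bool, Sum.inr b ∈ S
    · obtain ⟨b, hb⟩ := hT
      obtain ⟨b', hb'⟩ := h1 b hb
      have hk : ∃ k : ℤ, decide (Odd k) = xor b b' := by
        cases b <;> cases b'
        · exact ⟨0, by simp⟩
        · exact ⟨1, by simp⟩
        · exact ⟨1, by simp⟩
        · exact ⟨0, by simp⟩
      obtain ⟨k, hk⟩ := hk
      refine ⟨t₂ k, ?_⟩
      ext ⟨x, hx⟩
      show f ⟨x, hx⟩ = t₂ k x
      rcases x with j | c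
      · exact absurd ⟨j, hx⟩ hS
      · rw [t₂_inr, fl, hk]
        apply h5 b hb c hx
        rw [hb']
        congr 1
        cases b <;> cases b' <;> rfl
    · refine ⟨Language.Equiv.refl L₂ M₂, ?_⟩
      ext ⟨x, hx⟩
      rcases x with j | c
      · exact absurd ⟨j, hx⟩ hS
      · exact absurd ⟨c, hx⟩ hT

theorem fraisse₂ : IsFraisseStructure L₂ M₂ where
  relational := fun _ => inferInstanceAs (IsEmpty Empty)
  countable_language := by
    have : Function.Surjective (fun k : ℤ ⊕ Bool => (match k with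
      | .inl k => ⟨2, Rel₂.R k⟩
      | .inr false => ⟨1, Rel₂.U⟩
      | .inr true => ⟨2, Rel₂.E⟩ : Σ n, L₂.Relations n)) := by
      rintro ⟨n, r⟩
      cases r with
      | R k => exact ⟨.inl k, rfl⟩
      | U => exact ⟨.inr false, rfl⟩
      | E => exact ⟨.inr true, rfl⟩
    exact this.countable
  countable := inferInstance
  infinite := inferInstance
  ultrahomogeneous := ultra₂

/-- every automorphism is one of the `t₂ k` -/
theorem aut₂ (g : M₂ ≃[L₂] M₂) : ∃ k : ℤ, g (Sum.inl 0) = Sum.inl k ∧ g = t₂ k := by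
  obtain ⟨h1, h2, h3, h4⟩ := emb_facts (S := ⊤) (g.toEmbedding.comp (Substructure.subtype ⊤))
  obtain ⟨k, hk⟩ := h2 0 trivial
  refine ⟨k, hk, ?_⟩
  ext x
  rcases x with j | b
  · have := h3 0 j trivial trivial k hk
    rw [t₂_inl]
    refine Eq.trans this ?_
    congr 1
    omega
  · have := h4 0 b trivial trivial k hk
    rw [t₂_inr]
    refine Eq.trans this ?_
    rw [sub_zero]

end Pool.Agent.R789.FPT
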