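import Mathlib

/-!
# Rays and the ray graph of a subset of the plane

Definitions for the problem MP_f98b29_gt.  The plane is `ℝ × ℝ`, the sphere is its one-point
compactification; everything is phrased in the plane.
-/

namespace R789.Horse

open Set Filter Topology

/-- The plane. -/
abbrev Pl : Type := ℝ × ℝ

/-- `IsRay C r`: the set `r` is the part in the plane of a ray of `(ℝ², C)`, that is
`r ∪ {∞}` is a simple arc of the sphere from `∞` to a point of `C` whose interior lies
in `ℝ² ∖ C`: `r` is the image of an injective continuous map `γ : [0, ∞) → ℝ²` with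
`γ t → ∞` as `t → ∞`, `γ 0 ∈ C`, and `γ t ∉ C` for `t > 0`. -/
def IsRay (C r : Set Pl) : Prop :=
  ∃ γ : NNReal → Pl, Continuous γ ∧ Function.Injective γ ∧ Tendsto γ atTop (cocompact Pl) ∧
    γ 0 ∈ C ∧ (∀ t, 0 < t → γ t ∉ C) ∧ r = range γ

/-- An (ambient) isotopy of the sphere fixing `C ∪ {∞}` pointwise, written in the plane:
a family `H t`, `t ∈ [0,1]`, of homeomorphisms of the plane with `H 0 = id`, such that
`(t, x) ↦ H t x` and `(t, x) ↦ (H t)⁻¹ x` are continuous, fixing every point of `C`. -/
structure Isotopy (C : Set Pl) where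
  H : unitInterval → (Pl ≃ₜ Pl)
  cont : Continuous (fun p : unitInterval × Pl => H p.1 p.2)
  cont_symm : Continuous (fun p : unitInterval × Pl => (H p.1).symm p.2)
  zero : ∀ x, H 0 x = x
  fix : ∀ t, ∀ x ∈ C, H t x = x

/-- Two sets are isotopic rel `C ∪ {∞}`. -/
def Iso (C r s : Set Pl) : Prop := ∃ I : Isotopy C, I.H 1 '' r = s

/-- The constant isotopy. -/
def Isotopy.refl (C : Set Pl) : Isotopy C where
  H _ := Homeomorph.refl Pl
  cont := continuous_snd
  cont_symm := continuous_snd
  zero _ := rfl
  fix _ _ _ := rfl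

/-- The reversed isotopy. -/
def Isotopy.rev {C : Set Pl} (I : Isotopy C) : Isotopy C where
  H t := (I.H 1).symm.trans (I.H (unitInterval.symm t))
  cont := by
    have h1 : Continuous fun p : unitInterval × Pl =>
        ((unitInterval.symm p.1, (I.H 1).symm p.2) : unitInterval × Pl) := by fun_prop
    exact I.cont.comp h1
  cont_symm := by
    have h1 : Continuous fun p : unitInterval × Pl =>
        ((unitInterval.symm p.1, p.2) : unitInterval × Pl) := by fun_prop
    exact (I.H 1).continuous.comp (I.cont_symm.comp h1)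
  zero x := by simp
  fix t x hx := by
    have h : (I.H 1).symm x = x := by
      rw [Homeomorph.symm_apply_eq]; exact (I.fix 1 x hx).symm
    simp [h, I.fix _ x hx]

/-- The product of two isotopies. -/
def Isotopy.mul {C : Set Pl} (I J : Isotopy C) : Isotopy C where
  H t := (I.H t).trans (J.H t)
  cont := by
    have h1 : Continuous fun p : unitInterval × Pl =>
        ((p.1, I.H p.1 p.2) : unitInterval × Pl) := continuous_fst.prodMk I.cont
    exact J.cont.comp h1
  cont_symm := by
    have h1 : Continuous fun p : unitInterval × Pl =>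
        ((p.1, (J.H p.1).symm p.2) : unitInterval × Pl) := continuous_fst.prodMk J.cont_symm
    exact I.cont_symm.comp h1
  zero x := by simp [I.zero, J.zero]
  fix t x hx := by simp [I.fix t x hx, J.fix t x hx]

/-- The image of an isotopy by a homeomorphism `f` of the plane with `f(C) = C`. -/
def Isotopy.conj {C : Set Pl} (I : Isotopy C) (f : Pl ≃ₜ Pl) (hf : f '' C = C) :
    Isotopy C where
  H t := (f.symm.trans (I.H t)).trans f
  cont := by
    have h1 : Continuous fun p : unitInterval × Pl =>
        ((p.1, f.symm p.2) : unitInterval × Pl) := by fun_prop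
    exact f.continuous.comp (I.cont.comp h1)
  cont_symm := by
    have h1 : Continuous fun p : unitInterval × Pl =>
        ((p.1, f.symm p.2) : unitInterval × Pl) := by fun_prop
    exact f.continuous.comp (I.cont_symm.comp h1)
  zero x := by simp [I.zero]
  fix t x hx := by
    obtain ⟨y, hy, rfl⟩ : x ∈ f '' C := by rw [hf]; exact hx
    simp [I.fix t y hy]

theorem Iso.refl (C r : Set Pl) : Iso C r r := ⟨Isotopy.refl C, by simp [Isotopy.refl]⟩

theorem Iso.symm {C r s : Set Pl} (h : Iso C r s) : Iso C s r := by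
  obtain ⟨I, rfl⟩ := h
  refine ⟨I.rev, ?_⟩
  rw [← Set.image_comp]
  have h : (I.rev.H 1 : Pl → Pl) ∘ (I.H 1 : Pl → Pl) = id := by
    funext x
    simp [Isotopy.rev, I.zero]
  rw [h, Set.image_id]

theorem Iso.trans {C r s u : Set Pl} (h : Iso C r s) (h' : Iso C s u) : Iso C r u := by
  obtain ⟨I, rfl⟩ := h
  obtain ⟨J, rfl⟩ := h'
  refine ⟨I.mul J, ?_⟩
  rw [← Set.image_comp]
  rfl

theorem Iso.map {C r s : Set Pl} (h : Iso C r s) (f : Pl ≃ₜ Pl) (hf : f '' C = C) :
    Iso C (f '' r) (f '' s) := by
  obtain ⟨I, rfl⟩ := h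
  refine ⟨I.conj f hf, ?_⟩
  rw [← Set.image_comp, ← Set.image_comp]
  have h : ((I.conj f hf).H 1 : Pl → Pl) ∘ (f : Pl → Pl) = (f : Pl → Pl) ∘ (I.H 1 : Pl → Pl) := by
    funext x
    simp [Isotopy.conj]
  rw [h]

/-- The rays of `(ℝ², C)`. -/
def Ray (C : Set Pl) : Type := {r : Set Pl // IsRay C r}

/-- Isotopy of rays, by isotopies fixing `C ∪ {∞}`. -/
def raySetoid (C : Set Pl) : Setoid (Ray C) where
  r r s := Iso C r.1 s.1
  iseqv := ⟨fun r => Iso.refl C r.1, fun h => h.symm, fun h h' => h.trans h'⟩

/-- Isotopy classes of rays: the vertices of the ray graph. -/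
def RayClass (C : Set Pl) : Type := Quotient (raySetoid C)

/-- The class of a ray. -/
def rayClass {C : Set Pl} (r : Ray C) : RayClass C := Quotient.mk (raySetoid C) r

/-- The ray graph: two distinct classes are joined by an edge when they have representatives
that meet only at `∞`. -/
def rayGraph (C : Set Pl) : SimpleGraph (RayClass C) where
  Adj v w := v ≠ w ∧ ∃ r s : Ray C, rayClass r = v ∧ rayClass s = w ∧ Disjoint r.1 s.1
  symm := ⟨fun _ _ ⟨h, r, s, hr, hs, hd⟩ => ⟨h.symm, s, r, hs, hr, hd.symm⟩⟩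
  loopless := ⟨fun _ h => h.1 rfl⟩

/-- The image of a ray by a homeomorphism preserving `C` is a ray. -/
theorem IsRay.map {C r : Set Pl} (h : IsRay C r) (f : Pl ≃ₜ Pl) (hf : f '' C = C) :
    IsRay C (f '' r) := by
  obtain ⟨γ, hc, hi, ht, h0, hp, rfl⟩ := h
  have hmem : ∀ x, f x ∈ C ↔ x ∈ C := by
    intro x
    constructor
    · intro hx
      rw [← hf] at hx
      obtain ⟨y, hy, hyx⟩ := hx
      rw [← f.injective hyx]; exact hy
    · intro hx
      rw [← hf]; exact ⟨x, hx, rfl⟩
  refine ⟨f ∘ γ, f.continuous.comp hc, f.injective.comp hi, ?_, (hmem _).2 h0,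
    fun t ht' hx => hp t ht' ((hmem _).1 hx), (Set.range_comp f γ).symm⟩
  exact f.isClosedEmbedding.tendsto_cocompact.comp ht

/-- The action of a homeomorphism `f` of the plane with `f(C) = C` on rays. -/
def rayMap {C : Set Pl} (f : Pl ≃ₜ Pl) (hf : f '' C = C) (r : Ray C) : Ray C :=
  ⟨f '' r.1, r.2.map f hf⟩

/-- The action of (the mapping class of) a homeomorphism `f` of the plane with `f(C) = C`
on isotopy classes of rays: `[r] ↦ [f(r)]`. -/
def act {C : Set Pl} (f : Pl ≃ₜ Pl) (hf : f '' C = C) : RayClass C → RayClass C :=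
  Quotient.map' (s₁ := raySetoid C) (s₂ := raySetoid C) (rayMap f hf)
    (fun _ _ h => Iso.map h f hf)

theorem act_rayClass {C : Set Pl} (f : Pl ≃ₜ Pl) (hf : f '' C = C) (r : Ray C) :
    act f hf (rayClass r) = rayClass (rayMap f hf r) := rfl

theorem symm_image {C : Set Pl} {f : Pl ≃ₜ Pl} (hf : f '' C = C) : f.symm '' C = C := by
  conv_lhs => rw [← hf]
  rw [← Set.image_comp]
  simp

theorem act_symm_act {C : Set Pl} (f : Pl ≃ₜ Pl) (hf : f '' C = C) (v : RayClass C) :
    act f.symm (symm_image hf) (act f hf v) = v := by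
  induction v using Quotient.inductionOn with
  | h r =>
    apply congrArg (Quotient.mk (raySetoid C))
    apply Subtype.ext
    change f.symm '' (f '' r.1) = r.1
    rw [← Set.image_comp]
    simp

theorem act_act_symm {C : Set Pl} (f : Pl ≃ₜ Pl) (hf : f '' C = C) (v : RayClass C) :
    act f hf (act f.symm (symm_image hf) v) = v := by
  induction v using Quotient.inductionOn with
  | h r =>
    apply congrArg (Quotient.mk (raySetoid C))
    apply Subtype.ext
    change f '' (f.symm '' r.1) = r.1
    rw [← Set.image_comp]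
    simp

theorem act_adj {C : Set Pl} (f : Pl ≃ₜ Pl) (hf : f '' C = C) {v w : RayClass C}
    (h : (rayGraph C).Adj v w) : (rayGraph C).Adj (act f hf v) (act f hf w) := by
  obtain ⟨hne, r, s, rfl, rfl, hd⟩ := h
  refine ⟨fun h => hne ?_, rayMap f hf r, rayMap f hf s, rfl, rfl, ?_⟩
  · have := congrArg (act f.symm (symm_image hf)) h
    rwa [act_symm_act, act_symm_act] at this
  · exact (Set.disjoint_image_iff f.injective).2 hd

/-- The action of `f` on the ray graph is by a graph automorphism, hence by isometries of the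
path metric. -/
def actIso {C : Set Pl} (f : Pl ≃ₜ Pl) (hf : f '' C = C) : rayGraph C ≃g rayGraph C where
  toFun := act f hf
  invFun := act f.symm (symm_image hf)
  left_inv := act_symm_act f hf
  right_inv := act_act_symm f hf
  map_rel_iff' := by
    intro v w
    constructor
    · intro h
      have := act_adj f.symm (symm_image hf) h
      simpa [act_symm_act] using this
    · exact act_adj f hf

theorem edist_act_le {C : Set Pl} (f : Pl ≃ₜ Pl) (hf : f '' C = C) (v w : RayClass C) :
    (rayGraph C).edist (act f hf v) (act f hf w) ≤ (rayGraph C).edist v w := by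
  by_cases h : (rayGraph C).Reachable v w
  · obtain ⟨p, hp⟩ := h.exists_walk_length_eq_edist
    rw [← hp]
    have := SimpleGraph.edist_le (p.map (actIso f hf).toHom)
    rw [SimpleGraph.Walk.length_map] at this
    exact this
  · rw [SimpleGraph.edist_eq_top_of_not_reachable h]
    exact le_top

/-- The action on the ray graph is by isometries (of the extended metric). -/
theorem edist_act {C : Set Pl} (f : Pl ≃ₜ Pl) (hf : f '' C = C) (v w : RayClass C) :
    (rayGraph C).edist (act f hf v) (act f hf w) = (rayGraph C).edist v w := by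
  refine le_antisymm (edist_act_le f hf v w) ?_
  have := edist_act_le f.symm (symm_image hf) (act f hf v) (act f hf w)
  simpa [act_symm_act] using this

/-- The action on the ray graph is by isometries of the path metric. -/
theorem dist_act {C : Set Pl} (f : Pl ≃ₜ Pl) (hf : f '' C = C) (v w : RayClass C) :
    (rayGraph C).dist (act f hf v) (act f hf w) = (rayGraph C).dist v w := by
  unfold SimpleGraph.dist
  rw [edist_act]

theorem edist_iterate {C : Set Pl} (f : Pl ≃ₜ Pl) (hf : f '' C = C) (v w : RayClass C)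
    (hv : act f hf v = v) (n : ℕ) :
    (rayGraph C).edist v ((act f hf)^[n] w) = (rayGraph C).edist v w := by
  induction n generalizing w with
  | zero => rfl
  | succ n ih =>
    rw [Function.iterate_succ_apply, ih, ← edist_act f hf v w, hv]

/-- If `f` fixes a vertex `v`, the orbit of every vertex `w` stays within twice the distance
from `v` to `w`. -/
theorem edist_orbit_le {C : Set Pl} (f : Pl ≃ₜ Pl) (hf : f '' C = C) (v w : RayClass C)
    (hv : act f hf v = v) (n : ℕ) :
    (rayGraph C).edist w ((act f hf)^[n] w) ≤ 2 * (rayGraph C).edist v w := by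
  calc (rayGraph C).edist w ((act f hf)^[n] w)
      ≤ (rayGraph C).edist w v + (rayGraph C).edist v ((act f hf)^[n] w) :=
        SimpleGraph.edist_triangle
    _ = 2 * (rayGraph C).edist v w := by
        rw [edist_iterate f hf v w hv n, SimpleGraph.edist_comm, two_mul]

/-- If `f` fixes a vertex `v`, the stable translation length computed at any vertex `w` in the
component of `v` is `0`. -/
theorem translation_zero {C : Set Pl} (f : Pl ≃ₜ Pl) (hf : f '' C = C) (v w : RayClass C)
    (hv : act f hf v = v) (hw : (rayGraph C).Reachable v w) :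
    Tendsto (fun n : ℕ => ((rayGraph C).dist w ((act f hf)^[n] w) : ℝ) / n) atTop (𝓝 0) := by
  have hb : ∀ n, (rayGraph C).dist w ((act f hf)^[n] w) ≤ 2 * (rayGraph C).dist v w := by
    intro n
    have h1 := edist_orbit_le f hf v w hv n
    have h2 : (rayGraph C).edist v w = ((rayGraph C).dist v w : ℕ∞) := hw.coe_dist_eq_edist.symm
    rw [h2] at h1
    have h3 : (rayGraph C).edist w ((act f hf)^[n] w) ≠ ⊤ := by
      intro h
      rw [h] at h1
      have h4 : ((2 : ℕ∞) * ((rayGraph C).dist v w : ℕ∞)) = ((2 * (rayGraph C).dist v w : ℕ) : ℕ∞) := by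
        push_cast; rfl
      rw [h4] at h1
      exact absurd (top_le_iff.1 h1) (ENat.natCast_ne_top _)
    have h5 := (SimpleGraph.reachable_of_edist_ne_top h3).coe_dist_eq_edist
    rw [← h5] at h1
    exact_mod_cast h1
  have hz : Tendsto (fun n : ℕ => (2 * (rayGraph C).dist v w : ℝ) / n) atTop (𝓝 0) :=
    tendsto_const_div_atTop_nhds_zero_nat _
  refine squeeze_zero (fun n => by positivity) (fun n => ?_) hz
  have h := hb n
  have h' : ((rayGraph C).dist w ((act f hf)^[n] w) : ℝ) ≤ 2 * (rayGraph C).dist v w := by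
    exact_mod_cast h
  gcongr

/-! ### The Alexander trick -/

/-- The unit square. -/
def Q : Set Pl := Icc (0 : ℝ) 1 ×ˢ Icc (0 : ℝ) 1

/-- The centre of the unit square. -/
noncomputable def ctr : Pl := (1 / 2, 1 / 2)

/-- The Alexander map: `z ↦ c + (g (c + t (z - c)) - c) / t`, and the identity for `t = 0`. -/
noncomputable def alexFun (g : Pl → Pl) (t : ℝ) (z : Pl) : Pl :=
  if t = 0 then z else ctr + t⁻¹ • (g (ctr + t • (z - ctr)) - ctr)

theorem alexFun_zero (g : Pl → Pl) (z : Pl) : alexFun g 0 z = z := by simp [alexFun]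

theorem alexFun_one (g : Pl → Pl) (z : Pl) : alexFun g 1 z = g z := by simp [alexFun]

theorem alexFun_comp (g h : Pl → Pl) (hgh : ∀ z, g (h z) = z) (t : ℝ) (z : Pl) :
    alexFun g t (alexFun h t z) = z := by
  unfold alexFun
  split_ifs with h0
  · rfl
  · simp only [add_sub_cancel_left, smul_inv_smul₀ h0, add_sub_cancel, hgh]
    rw [inv_smul_smul₀ h0]
    simp

theorem mem_Q_of_near {z : Pl} {t : ℝ} (h : ‖t • (z - ctr)‖ ≤ 1 / 2) : ctr + t • (z - ctr) ∈ Q := by
  rw [Prod.norm_def] at h
  have h1 := (le_max_left _ _).trans h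
  have h2 := (le_max_right _ _).trans h
  rw [Real.norm_eq_abs, abs_le] at h1 h2
  simp only [Q, mem_prod, mem_Icc, ctr, Prod.fst_add, Prod.snd_add] at *
  refine ⟨⟨?_, ?_⟩, ⟨?_, ?_⟩⟩ <;> linarith

theorem alexFun_fix (g : Pl → Pl) (hg : ∀ z ∈ Q, g z = z) {t : ℝ} (ht : t ∈ Icc (0 : ℝ) 1)
    {z : Pl} (hz : z ∈ Q) : alexFun g t z = z := by
  unfold alexFun
  split_ifs with h0
  · rfl
  · have hz' : ‖t • (z - ctr)‖ ≤ 1 / 2 := by
      rw [norm_smul, Real.norm_eq_abs, abs_of_nonneg ht.1]
      have h1 : ‖z - ctr‖ ≤ 1 / 2 := by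
        simp only [Q, mem_prod, mem_Icc] at hz
        rw [Prod.norm_def]
        apply max_le <;> rw [Real.norm_eq_abs, abs_le] <;>
          simp only [ctr, Prod.fst_sub, Prod.snd_sub] <;> constructor <;> linarith [hz.1.1, hz.1.2, hz.2.1, hz.2.2]
      calc t * ‖z - ctr‖ ≤ 1 * (1 / 2) := by
            apply mul_le_mul ht.2 h1 (norm_nonneg _) zero_le_one
        _ = 1 / 2 := by ring
    rw [hg _ (mem_Q_of_near hz')]
    simp only [add_sub_cancel_left, inv_smul_smul₀ h0, add_sub_cancel]

theorem alexFun_continuous (g : Pl → Pl) (hc : Continuous g) (hg : ∀ z ∈ Q, g z = z) :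
    Continuous (fun p : ℝ × Pl => alexFun g p.1 p.2) := by
  rw [continuous_iff_continuousAt]
  rintro ⟨t, z⟩
  by_cases h0 : t = 0
  · subst h0
    -- near `(0, z)` the map is the second projection
    have hev : ∀ᶠ p : ℝ × Pl in 𝓝 ((0 : ℝ), z), alexFun g p.1 p.2 = p.2 := by
      have hcont : Continuous fun p : ℝ × Pl => ‖p.1 • (p.2 - ctr)‖ := by fun_prop
      have h1 : ∀ᶠ p : ℝ × Pl in 𝓝 ((0 : ℝ), z), ‖p.1 • (p.2 - ctr)‖ < 1 / 2 := by
        apply hcont.continuousAt.eventually_lt continuousAt_const
        simp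
      filter_upwards [h1] with p hp
      unfold alexFun
      split_ifs with h0
      · rfl
      · rw [hg _ (mem_Q_of_near hp.le)]
        simp only [add_sub_cancel_left, inv_smul_smul₀ h0, add_sub_cancel]
    exact (continuous_snd.continuousAt (x := ((0 : ℝ), z))).congr (hev.mono fun p hp => hp.symm)
  · have hev : ∀ᶠ p : ℝ × Pl in 𝓝 (t, z),
        alexFun g p.1 p.2 = ctr + p.1⁻¹ • (g (ctr + p.1 • (p.2 - ctr)) - ctr) := by
      have h1 : ∀ᶠ p : ℝ × Pl in 𝓝 (t, z), p.1 ≠ 0 :=
        (continuous_fst.continuousAt (x := (t, z))).eventually_ne h0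
      filter_upwards [h1] with p hp
      simp [alexFun, hp]
    have hcont : ContinuousAt (fun p : ℝ × Pl =>
        ctr + p.1⁻¹ • (g (ctr + p.1 • (p.2 - ctr)) - ctr)) (t, z) := by
      have h2 : ContinuousAt (fun p : ℝ × Pl => p.1⁻¹) (t, z) :=
        (continuous_fst.continuousAt (x := (t, z))).inv₀ h0
      have h3 : Continuous (fun p : ℝ × Pl => g (ctr + p.1 • (p.2 - ctr)) - ctr) := by fun_prop
      exact continuousAt_const.add (h2.smul h3.continuousAt)
    exact hcont.congr (hev.mono fun p hp => hp.symm)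

/-- The Alexander isotopy from the identity to a homeomorphism `g` which is the identity on the
unit square. -/
noncomputable def alexHomeo (g : Pl ≃ₜ Pl) (hg : ∀ z ∈ Q, g z = z) (t : ℝ) : Pl ≃ₜ Pl where
  toFun := alexFun g t
  invFun := alexFun g.symm t
  left_inv := alexFun_comp _ _ (fun z => g.symm_apply_apply z) t
  right_inv := alexFun_comp _ _ (fun z => g.apply_symm_apply z) t
  continuous_toFun := by
    have h := alexFun_continuous g g.continuous hg
    exact h.comp (by fun_prop : Continuous fun z : Pl => ((t, z) : ℝ × Pl))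
  continuous_invFun := by
    have hg' : ∀ z ∈ Q, g.symm z = z := fun z hz => by
      rw [Homeomorph.symm_apply_eq]; exact (hg z hz).symm
    have h := alexFun_continuous g.symm g.symm.continuous hg'
    exact h.comp (by fun_prop : Continuous fun z : Pl => ((t, z) : ℝ × Pl))

/-- If two homeomorphisms `f₀, f` of the plane agree on the unit square `Q` and `C ⊆ f₀(Q)`, then
`f₀(r)` and `f(r)` are isotopic rel `C ∪ {∞}` for every set `r`: the isotopy class only depends on
the restriction to `Q`. -/
theorem iso_of_eqOn (f₀ f : Pl ≃ₜ Pl) (h : ∀ z ∈ Q, f z = f₀ z) (C : Set Pl)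
    (hC : C ⊆ f₀ '' Q) (r : Set Pl) : Iso C (f₀ '' r) (f '' r) := by
  set g : Pl ≃ₜ Pl := f.trans f₀.symm with hgdef
  have hg : ∀ z ∈ Q, g z = z := fun z hz => by simp [hgdef, h z hz]
  have hg' : ∀ z ∈ Q, g.symm z = z := fun z hz => by
    rw [Homeomorph.symm_apply_eq]; exact (hg z hz).symm
  refine ⟨⟨fun t => (f₀.symm.trans (alexHomeo g hg t)).trans f₀, ?_, ?_, ?_, ?_⟩, ?_⟩
  · have h1 : Continuous fun p : unitInterval × Pl => (((p.1 : ℝ), f₀.symm p.2) : ℝ × Pl) := by
      fun_prop
    exact f₀.continuous.comp ((alexFun_continuous g g.continuous hg).comp h1)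
  · have h1 : Continuous fun p : unitInterval × Pl => (((p.1 : ℝ), f₀.symm p.2) : ℝ × Pl) := by
      fun_prop
    exact f₀.continuous.comp ((alexFun_continuous g.symm g.symm.continuous hg').comp h1)
  · intro x
    change f₀ (alexFun g ((0 : unitInterval) : ℝ) (f₀.symm x)) = x
    simp [alexFun_zero]
  · intro t x hx
    obtain ⟨y, hy, rfl⟩ := hC hx
    change f₀ (alexFun g (t : ℝ) (f₀.symm (f₀ y))) = f₀ y
    rw [f₀.symm_apply_apply, alexFun_fix g hg t.2 hy]
  · rw [← Set.image_comp]
    apply Set.image_congr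
    intro x _
    change f₀ (alexFun g ((1 : unitInterval) : ℝ) (f₀.symm (f₀ x))) = f x
    simp [alexFun_one, hgdef]

end R789.Horse
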