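import Mathlib
import Pool.Agent.R789.RayGraph

/-!
# Affine horseshoe maps of the plane

Definitions for the problem MP_f98b29_gt.
-/

namespace R789.Horse

open Set Filter Topology Real

/-- The horizontal strips `H₀ = [0,1] × [a₀,b₀]` (lower), `H₁ = [0,1] × [a₁,b₁]` (upper) and the
vertical strips `V₀ = [c₀,d₀] × [0,1]` (left), `V₁ = [c₁,d₁] × [0,1]` (right) of a horseshoe:
two disjoint horizontal and two disjoint vertical strips of the unit square. -/
structure Strips where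
  a0 : ℝ
  b0 : ℝ
  a1 : ℝ
  b1 : ℝ
  c0 : ℝ
  d0 : ℝ
  c1 : ℝ
  d1 : ℝ
  ha0 : 0 ≤ a0
  hab0 : a0 < b0
  hba : b0 < a1
  hab1 : a1 < b1
  hb1 : b1 ≤ 1
  hc0 : 0 ≤ c0
  hcd0 : c0 < d0
  hdc : d0 < c1
  hcd1 : c1 < d1
  hd1 : d1 ≤ 1

namespace Strips

variable (D : Strips)

/-- `H₀`, the lower horizontal strip. -/
def H0 : Set Pl := Icc 0 1 ×ˢ Icc D.a0 D.b0
/-- `H₁`, the upper horizontal strip. -/
def H1 : Set Pl := Icc 0 1 ×ˢ Icc D.a1 D.b1
/-- `V₀`, the left vertical strip. -/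
def V0 : Set Pl := Icc D.c0 D.d0 ×ˢ Icc 0 1
/-- `V₁`, the right vertical strip. -/
def V1 : Set Pl := Icc D.c1 D.d1 ×ˢ Icc 0 1

/-- First coordinate of the affine map `H₀ → V₀`. -/
def x0 (x : ℝ) : ℝ := D.c0 + (D.d0 - D.c0) * x
/-- First coordinate of the affine map `H₁ → V₁`. -/
def x1 (x : ℝ) : ℝ := D.d1 - (D.d1 - D.c1) * x

/-- The horseshoe folding of the unit square `Q`, piece by piece.
* On `H₀`, and on the part of `Q` below it, it is the affine map
  `(x, y) ↦ (c₀ + (d₀ - c₀) x, (y - a₀) / (b₀ - a₀))`, mapping `H₀` onto `V₀`.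
* On `H₁`, and on the part of `Q` above it, it is the affine map
  `(x, y) ↦ (d₁ - (d₁ - c₁) x, (b₁ - y) / (b₁ - a₁))`, mapping `H₁` onto `V₁`.
* Between `H₀` and `H₁` it is the bend: the vertical segment over `x` is mapped to the half circle
  in `{y ≥ 1}` with diameter from `(x₀(x), 1)` to `(x₁(x), 1)`. -/
noncomputable def fold (z : Pl) : Pl :=
  if z.2 ≤ D.b0 then (D.x0 z.1, (z.2 - D.a0) / (D.b0 - D.a0))
  else if D.a1 ≤ z.2 then (D.x1 z.1, (D.b1 - z.2) / (D.b1 - D.a1))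
  else
    ((D.x0 z.1 + D.x1 z.1) / 2
        - (D.x1 z.1 - D.x0 z.1) / 2 * cos (π * ((z.2 - D.b0) / (D.a1 - D.b0))),
      1 + (D.x1 z.1 - D.x0 z.1) / 2 * sin (π * ((z.2 - D.b0) / (D.a1 - D.b0))))

/-! ### Sanity checks: the fold is a horseshoe -/

theorem x0_mem {x : ℝ} (hx : x ∈ Icc (0 : ℝ) 1) : D.x0 x ∈ Icc D.c0 D.d0 := by
  have := D.hcd0
  unfold x0
  constructor <;> nlinarith [hx.1, hx.2]

theorem x1_mem {x : ℝ} (hx : x ∈ Icc (0 : ℝ) 1) : D.x1 x ∈ Icc D.c1 D.d1 := by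
  have := D.hcd1
  unfold x1
  constructor <;> nlinarith [hx.1, hx.2]

/-- The fold maps `H₀` onto `V₀`. -/
theorem fold_H0 : D.fold '' D.H0 = D.V0 := by
  have h1 := D.hab0
  have h2 := D.hcd0
  ext ⟨u, v⟩
  simp only [mem_image, H0, V0, mem_prod, mem_Icc, Prod.exists]
  constructor
  · rintro ⟨x, y, ⟨hx, hy⟩, h⟩
    simp only [fold, hy.2, if_true, Prod.mk.injEq] at h
    obtain ⟨rfl, rfl⟩ := h
    refine ⟨D.x0_mem hx, div_nonneg (by linarith) (by linarith), ?_⟩
    rw [div_le_one (by linarith)]; linarith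
  · rintro ⟨hu, hv⟩
    refine ⟨(u - D.c0) / (D.d0 - D.c0), D.a0 + (D.b0 - D.a0) * v, ⟨⟨div_nonneg (by linarith)
      (by linarith), ?_⟩, by nlinarith, by nlinarith⟩, ?_⟩
    · rw [div_le_one (by linarith)]; linarith
    · have h3 : D.a0 + (D.b0 - D.a0) * v ≤ D.b0 := by nlinarith
      simp only [fold, h3, if_true, x0, Prod.mk.injEq]
      have h4 : D.d0 - D.c0 ≠ 0 := by linarith
      have h5 : D.b0 - D.a0 ≠ 0 := by linarith
      constructor
      · rw [mul_div_cancel₀ _ h4]; ring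
      · rw [add_sub_cancel_left, mul_div_cancel_left₀ _ h5]

/-- The fold maps `H₁` onto `V₁`. -/
theorem fold_H1 : D.fold '' D.H1 = D.V1 := by
  have h0 := D.hba
  have h1 := D.hab1
  have h2 := D.hcd1
  ext ⟨u, v⟩
  simp only [mem_image, H1, V1, mem_prod, mem_Icc, Prod.exists]
  constructor
  · rintro ⟨x, y, ⟨hx, hy⟩, h⟩
    have hy' : ¬ y ≤ D.b0 := by linarith [hy.1]
    simp only [fold, hy', if_false, hy.1, if_true, Prod.mk.injEq] at h
    obtain ⟨rfl, rfl⟩ := h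
    refine ⟨D.x1_mem hx, div_nonneg (by linarith) (by linarith), ?_⟩
    rw [div_le_one (by linarith)]; linarith
  · rintro ⟨hu, hv⟩
    refine ⟨(D.d1 - u) / (D.d1 - D.c1), D.b1 - (D.b1 - D.a1) * v, ⟨⟨div_nonneg (by linarith)
      (by linarith), ?_⟩, by nlinarith, by nlinarith⟩, ?_⟩
    · rw [div_le_one (by linarith)]; linarith
    · have h3 : D.a1 ≤ D.b1 - (D.b1 - D.a1) * v := by nlinarith
      have h3' : ¬ D.b1 - (D.b1 - D.a1) * v ≤ D.b0 := by linarith
      simp only [fold, h3', h3, if_true, if_false, x1, Prod.mk.injEq]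
      have h4 : D.d1 - D.c1 ≠ 0 := by linarith
      have h5 : D.b1 - D.a1 ≠ 0 := by linarith
      constructor
      · rw [mul_div_cancel₀ _ h4]; ring
      · rw [sub_sub_cancel, mul_div_cancel_left₀ _ h5]

theorem H0_subset : D.H0 ⊆ Q := by
  have := D.ha0; have := D.hba; have := D.hab1; have := D.hb1
  rintro ⟨x, y⟩ ⟨hx, hy⟩
  exact ⟨hx, by linarith [hy.1], by linarith [hy.2]⟩

theorem H1_subset : D.H1 ⊆ Q := by
  have := D.ha0; have := D.hba; have := D.hab0; have := D.hb1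
  rintro ⟨x, y⟩ ⟨hx, hy⟩
  exact ⟨hx, by linarith [hy.1], by linarith [hy.2]⟩

theorem V0_subset : D.V0 ⊆ Q := by
  have := D.hc0; have := D.hdc; have := D.hcd1; have := D.hd1
  rintro ⟨x, y⟩ ⟨hx, hy⟩
  exact ⟨⟨by linarith [hx.1], by linarith [hx.2]⟩, hy⟩

theorem V1_subset : D.V1 ⊆ Q := by
  have := D.hc0; have := D.hdc; have := D.hcd0; have := D.hd1
  rintro ⟨x, y⟩ ⟨hx, hy⟩
  exact ⟨⟨by linarith [hx.1], by linarith [hx.2]⟩, hy⟩

/-- Points of `Q` outside the strips are mapped outside `Q`. -/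
theorem fold_mem_Q {z : Pl} (hz : z ∈ Q) (h : D.fold z ∈ Q) : z ∈ D.H0 ∪ D.H1 := by
  obtain ⟨x, y⟩ := z
  obtain ⟨hx, hy⟩ := hz
  simp only at hx hy
  have e1 := D.hab0
  have e2 := D.hba
  have e3 := D.hab1
  have e4 := D.hcd0
  have e5 := D.hdc
  have e6 := D.hcd1
  by_cases h1 : y ≤ D.b0
  · left
    refine ⟨hx, ?_, h1⟩
    simp only [fold, h1, if_true] at h
    have h2 := h.2.1
    simp only at h2
    by_contra h3
    have : (y - D.a0) / (D.b0 - D.a0) < 0 := div_neg_of_neg_of_pos (by simpa using h3) (by linarith)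
    linarith
  · by_cases h2 : D.a1 ≤ y
    · right
      refine ⟨hx, h2, ?_⟩
      simp only [fold, h1, h2, if_true, if_false] at h
      have h3 := h.2.1
      simp only at h3
      by_contra h4
      have : (D.b1 - y) / (D.b1 - D.a1) < 0 :=
        div_neg_of_neg_of_pos (by simpa using h4) (by linarith)
      linarith
    · exfalso
      simp only [fold, h1, h2, if_false] at h
      have h3 := h.2.2
      simp only at h3
      have h4 : 0 < sin (π * ((y - D.b0) / (D.a1 - D.b0))) := by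
        have hpos : 0 < (y - D.b0) / (D.a1 - D.b0) := div_pos (by linarith) (by linarith)
        have hlt : (y - D.b0) / (D.a1 - D.b0) < 1 := by
          rw [div_lt_one (by linarith)]; linarith
        apply sin_pos_of_pos_of_lt_pi
        · exact mul_pos pi_pos hpos
        · nlinarith [pi_pos]
      have h5 : 0 < (D.x1 x - D.x0 x) / 2 := by
        have := (D.x0_mem hx).2
        have := (D.x1_mem hx).1
        linarith
      have := mul_pos h5 h4
      linarith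

/-- `fold(Q) ∩ Q = V₀ ∪ V₁`. -/
theorem fold_inter : D.fold '' Q ∩ Q = D.V0 ∪ D.V1 := by
  apply Set.Subset.antisymm
  · rintro w ⟨⟨z, hz, rfl⟩, hw⟩
    rcases D.fold_mem_Q hz hw with h | h
    · left; rw [← D.fold_H0]; exact ⟨z, h, rfl⟩
    · right; rw [← D.fold_H1]; exact ⟨z, h, rfl⟩
  · rintro w (hw | hw)
    · refine ⟨?_, D.V0_subset hw⟩
      rw [← D.fold_H0] at hw
      exact Set.image_mono D.H0_subset hw
    · refine ⟨?_, D.V1_subset hw⟩
      rw [← D.fold_H1] at hw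
      exact Set.image_mono D.H1_subset hw

end Strips

/-- The maximal invariant set `Λ = ⋂_{n ∈ ℤ} fⁿ(Q)`. -/
def Lam (f : Pl ≃ₜ Pl) : Set Pl := ⋂ n : ℤ, (f ^ n) '' Q

theorem lam_subset (f : Pl ≃ₜ Pl) : Lam f ⊆ Q := by
  intro z hz
  have := mem_iInter.1 hz 0
  simpa using this

/-- `f(Λ) = Λ`. -/
theorem lam_image (f : Pl ≃ₜ Pl) : f '' Lam f = Lam f := by
  have key : ∀ (n : ℤ) (z : Pl), f z ∈ (f ^ (n + 1)) '' Q ↔ z ∈ (f ^ n) '' Q := by
    intro n z
    rw [add_comm, zpow_add, zpow_one]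
    constructor
    · rintro ⟨w, hw, h⟩
      exact ⟨w, hw, f.injective h⟩
    · rintro ⟨w, hw, rfl⟩
      exact ⟨w, hw, rfl⟩
  ext z
  constructor
  · rintro ⟨w, hw, rfl⟩
    rw [Lam, mem_iInter] at hw ⊢
    intro n
    have := (key (n - 1) w).2 (hw (n - 1))
    simpa using this
  · intro hz
    refine ⟨f.symm z, ?_, f.apply_symm_apply z⟩
    rw [Lam, mem_iInter] at hz ⊢
    intro n
    rw [← key, f.apply_symm_apply]
    exact hz (n + 1)

end R789.Horse
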