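import Mathlib
import Pool.Agent.R789.Horseshoe

/-!
# An explicit homeomorphism of the plane extending the horseshoe folding
-/

namespace R789.Horse

open Set Filter Topology Real

namespace Strips

variable (D : Strips)

/-- centre of the U-shaped curve of level `x` -/
noncomputable def cM (x : ℝ) : ℝ := (D.x0 (min x 1) + D.x1 (min x 1)) / 2
/-- radius -/
noncomputable def cR (x : ℝ) : ℝ :=
  (D.x1 (min x 1) - D.x0 (min x 1)) / 2 * exp (-max (x - 1) 0)
/-- downward shift -/
noncomputable def cS (x : ℝ) : ℝ := max (x - 1) 0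
/-- angle -/
noncomputable def ang (y : ℝ) : ℝ := π * max 0 (min 1 ((y - D.b0) / (D.a1 - D.b0)))
/-- height -/
noncomputable def ht (y : ℝ) : ℝ :=
  min 1 (min ((y - D.a0) / (D.b0 - D.a0)) ((D.b1 - y) / (D.b1 - D.a1)))

/-- The global fold. -/
noncomputable def F (z : Pl) : Pl :=
  (D.cM z.1 - D.cR z.1 * cos (D.ang z.2), D.ht z.2 - cS z.1 + D.cR z.1 * sin (D.ang z.2))

theorem F_continuous : Continuous D.F := by
  unfold F cM cR cS ang ht x0 x1
  have h1 : D.a1 - D.b0 ≠ 0 := by have := D.hba; linarith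
  have h2 : D.b0 - D.a0 ≠ 0 := by have := D.hab0; linarith
  have h3 : D.b1 - D.a1 ≠ 0 := by have := D.hab1; linarith
  fun_prop

theorem ang_low {y : ℝ} (hy : y ≤ D.b0) : D.ang y = 0 := by
  have := D.hba
  have h : (y - D.b0) / (D.a1 - D.b0) ≤ 0 :=
    div_nonpos_of_nonpos_of_nonneg (by linarith) (by linarith)
  have h' : min 1 ((y - D.b0) / (D.a1 - D.b0)) ≤ 0 := (min_le_right _ _).trans h
  simp [ang, max_eq_left h']

theorem ang_high {y : ℝ} (hy : D.a1 ≤ y) : D.ang y = π := by
  have := D.hba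
  have h : 1 ≤ (y - D.b0) / (D.a1 - D.b0) := by
    rw [le_div_iff₀ (by linarith)]; linarith
  simp [ang, min_eq_left h]

theorem ang_mid {y : ℝ} (hy : D.b0 ≤ y) (hy' : y ≤ D.a1) :
    D.ang y = π * ((y - D.b0) / (D.a1 - D.b0)) := by
  have := D.hba
  have h : 0 ≤ (y - D.b0) / (D.a1 - D.b0) := div_nonneg (by linarith) (by linarith)
  have h' : (y - D.b0) / (D.a1 - D.b0) ≤ 1 := by
    rw [div_le_one (by linarith)]; linarith
  simp [ang, min_eq_right h', max_eq_right h]

theorem ang_mem (y : ℝ) : D.ang y ∈ Icc 0 π := by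
  constructor
  · exact mul_nonneg pi_pos.le (le_max_left _ _)
  · have : max 0 (min 1 ((y - D.b0) / (D.a1 - D.b0))) ≤ 1 :=
      max_le zero_le_one (min_le_left _ _)
    calc D.ang y ≤ π * 1 := mul_le_mul_of_nonneg_left this pi_pos.le
      _ = π := mul_one _

theorem ht_low {y : ℝ} (hy : y ≤ D.b0) : D.ht y = (y - D.a0) / (D.b0 - D.a0) := by
  have e1 := D.hab0
  have e2 := D.hba
  have e3 := D.hab1
  have h1 : (y - D.a0) / (D.b0 - D.a0) ≤ 1 := by rw [div_le_one (by linarith)]; linarith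
  have h2 : 1 ≤ (D.b1 - y) / (D.b1 - D.a1) := by rw [le_div_iff₀ (by linarith)]; linarith
  rw [ht, min_eq_left (h1.trans h2), min_eq_right h1]

theorem ht_high {y : ℝ} (hy : D.a1 ≤ y) : D.ht y = (D.b1 - y) / (D.b1 - D.a1) := by
  have e1 := D.hab0
  have e2 := D.hba
  have e3 := D.hab1
  have h1 : (D.b1 - y) / (D.b1 - D.a1) ≤ 1 := by rw [div_le_one (by linarith)]; linarith
  have h2 : 1 ≤ (y - D.a0) / (D.b0 - D.a0) := by rw [le_div_iff₀ (by linarith)]; linarith
  rw [ht, min_eq_right (h1.trans h2), min_eq_right h1]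

theorem ht_mid {y : ℝ} (hy : D.b0 ≤ y) (hy' : y ≤ D.a1) : D.ht y = 1 := by
  have e1 := D.hab0
  have e2 := D.hba
  have e3 := D.hab1
  have h1 : 1 ≤ (D.b1 - y) / (D.b1 - D.a1) := by rw [le_div_iff₀ (by linarith)]; linarith
  have h2 : 1 ≤ (y - D.a0) / (D.b0 - D.a0) := by rw [le_div_iff₀ (by linarith)]; linarith
  rw [ht, min_eq_left (le_min h2 h1)]

theorem ht_le (y : ℝ) : D.ht y ≤ 1 := min_le_left _ _

/-- On the unit square the global fold is the fold. -/
theorem F_eq_fold {z : Pl} (hz : z ∈ Q) : D.F z = D.fold z := by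
  obtain ⟨x, y⟩ := z
  have hx : x ≤ 1 := hz.1.2
  have h1 : min x 1 = x := min_eq_left hx
  have h2 : max (x - 1) 0 = 0 := max_eq_right (by linarith)
  simp only [F, fold, cM, cR, cS, h1, h2, neg_zero, exp_zero, mul_one, sub_zero]
  by_cases h3 : y ≤ D.b0
  · simp only [h3, if_true, D.ang_low h3, D.ht_low h3, cos_zero, sin_zero, mul_one, mul_zero,
      add_zero, Prod.mk.injEq, and_true]
    ring
  · by_cases h4 : D.a1 ≤ y
    · simp only [h3, h4, if_true, if_false, D.ang_high h4, D.ht_high h4, cos_pi, sin_pi, mul_zero,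
        add_zero, Prod.mk.injEq, and_true]
      ring
    · simp only [h3, h4, if_false, D.ang_mid (not_le.1 h3).le (not_le.1 h4).le,
        D.ht_mid (not_le.1 h3).le (not_le.1 h4).le]

theorem cR_pos (x : ℝ) : 0 < D.cR x := by
  have e1 := D.hcd0
  have e2 := D.hdc
  have e3 := D.hcd1
  have h : min x 1 ≤ 1 := min_le_right _ _
  have : 0 < (D.x1 (min x 1) - D.x0 (min x 1)) / 2 := by
    unfold x0 x1; nlinarith
  exact mul_pos this (exp_pos _)

theorem cR_le {x : ℝ} (hx : x ≤ 1) :
    D.cR x = (D.x1 x - D.x0 x) / 2 := by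
  have h1 : min x 1 = x := min_eq_left hx
  have h2 : max (x - 1) 0 = 0 := max_eq_right (by linarith)
  simp [cR, h1, h2]

theorem cM_le {x : ℝ} (hx : x ≤ 1) : D.cM x = (D.x0 x + D.x1 x) / 2 := by
  have h1 : min x 1 = x := min_eq_left hx
  simp [cM, h1]

theorem cR_ge {x : ℝ} (hx : 1 ≤ x) : D.cR x = D.cR 1 * exp (-(x - 1)) := by
  have h1 : min x 1 = 1 := min_eq_right hx
  have h2 : max (x - 1) 0 = x - 1 := max_eq_left (by linarith)
  simp [cR, h1, h2]

theorem cM_ge {x : ℝ} (hx : 1 ≤ x) : D.cM x = D.cM 1 := by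
  have h1 : min x 1 = 1 := min_eq_right hx
  simp [cM, h1]

/-- The radii decrease faster than the centres move. -/
theorem cM_lt_cR {x x' : ℝ} (h : x < x') : |D.cM x' - D.cM x| < D.cR x - D.cR x' := by
  have e1 := D.hcd0
  have e2 := D.hdc
  have e3 := D.hcd1
  have hA : ∀ {x x' : ℝ}, x < x' → x' ≤ 1 → |D.cM x' - D.cM x| < D.cR x - D.cR x' := by
    intro x x' h h'
    rw [D.cM_le h', D.cM_le (h.le.trans h'), D.cR_le h', D.cR_le (h.le.trans h')]
    unfold x0 x1
    rw [abs_lt]
    constructor <;> nlinarith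
  have hB : ∀ {x x' : ℝ}, 1 ≤ x → x < x' → D.cR x' < D.cR x := by
    intro x x' h h'
    rw [D.cR_ge h, D.cR_ge (h.trans h'.le)]
    apply mul_lt_mul_of_pos_left _ (D.cR_pos 1)
    apply exp_lt_exp.2; linarith
  rcases le_or_gt x' 1 with h1 | h1
  · exact hA h h1
  · rcases le_or_gt 1 x with h2 | h2
    · rw [D.cM_ge h1.le, D.cM_ge h2]
      have := hB h2 h
      simp; exact this
    · have h3 := hA h2 le_rfl
      have h4 := hB le_rfl h1
      rw [D.cM_ge h1.le]
      linarith

theorem cS_mono : Monotone cS := by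
  intro x x' h
  unfold cS
  exact max_le_max (by linarith) le_rfl

/-- the U-norm -/
noncomputable def cN (w : Pl) (x : ℝ) : ℝ :=
  sqrt ((w.1 - D.cM x) ^ 2 + (max (w.2 + cS x - 1) 0) ^ 2)

theorem sqrt_triangle (a b p : ℝ) : sqrt (a ^ 2 + p ^ 2) ≤ sqrt (b ^ 2 + p ^ 2) + |b - a| := by
  rw [sqrt_le_left (by positivity)]
  have h1 : |b| ≤ sqrt (b ^ 2 + p ^ 2) := by
    apply le_sqrt_of_sq_le; rw [sq_abs]; nlinarith
  have h2 : sqrt (b ^ 2 + p ^ 2) ^ 2 = b ^ 2 + p ^ 2 := sq_sqrt (by positivity)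
  have h3 : |a - b| = |b - a| := abs_sub_comm a b
  have h4 : a ^ 2 = b ^ 2 + 2 * b * (a - b) + (a - b) ^ 2 := by ring
  have h5 : b * (a - b) ≤ |b| * |b - a| := by
    rw [← h3, ← abs_mul]; exact le_abs_self _
  have h6 : |b - a| ^ 2 = (a - b) ^ 2 := by rw [← h3, sq_abs]
  have h7 : |b| * |b - a| ≤ sqrt (b ^ 2 + p ^ 2) * |b - a| :=
    mul_le_mul_of_nonneg_right h1 (abs_nonneg _)
  nlinarith

theorem psi_strictMono (w : Pl) : StrictMono (fun x => D.cN w x - D.cR x) := by
  intro x x' h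
  simp only
  have h1 := D.cM_lt_cR h
  have h2 : D.cN w x ≤ D.cN w x' + |D.cM x' - D.cM x| := by
    have h3 : D.cN w x ≤
        sqrt ((w.1 - D.cM x) ^ 2 + (max (w.2 + cS x' - 1) 0) ^ 2) := by
      apply sqrt_le_sqrt
      have h4 : max (w.2 + cS x - 1) 0 ≤ max (w.2 + cS x' - 1) 0 :=
        max_le_max (by linarith [cS_mono h.le]) le_rfl
      have h5 : 0 ≤ max (w.2 + cS x - 1) 0 := le_max_right _ _
      nlinarith
    refine h3.trans ((sqrt_triangle _ (w.1 - D.cM x') _).trans ?_)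
    have : |w.1 - D.cM x' - (w.1 - D.cM x)| = |D.cM x' - D.cM x| := by
      rw [show w.1 - D.cM x' - (w.1 - D.cM x) = -(D.cM x' - D.cM x) by ring, abs_neg]
    rw [this]
    rfl
  linarith

theorem psi_continuous (w : Pl) : Continuous (fun x => D.cN w x - D.cR x) := by
  unfold cN cR cS cM x0 x1
  fun_prop

/-- The level of a point in the image. -/
theorem cN_F (x y : ℝ) : D.cN (D.F (x, y)) x = D.cR x := by
  have hR := D.cR_pos x
  unfold cN F
  simp only
  rcases le_or_gt y D.b0 with h | h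
  · rw [D.ang_low h]
    have h1 : D.ht y ≤ 1 := D.ht_le y
    have h2 : max (D.ht y - cS x + D.cR x * sin 0 + cS x - 1) 0 = 0 := by
      apply max_eq_right; simp; linarith
    rw [h2]
    simp only [cos_zero, mul_one]
    rw [show (D.cM x - D.cR x - D.cM x) ^ 2 + 0 ^ 2 = (D.cR x) ^ 2 by ring, sqrt_sq hR.le]
  · rcases le_or_gt D.a1 y with h' | h'
    · rw [D.ang_high h']
      have h1 : D.ht y ≤ 1 := D.ht_le y
      have h2 : max (D.ht y - cS x + D.cR x * sin π + cS x - 1) 0 = 0 := by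
        apply max_eq_right; simp; linarith
      rw [h2]
      simp only [cos_pi]
      rw [show (D.cM x - D.cR x * -1 - D.cM x) ^ 2 + 0 ^ 2 = (D.cR x) ^ 2 by ring, sqrt_sq hR.le]
    · rw [D.ht_mid h.le h'.le]
      have hs : 0 ≤ sin (D.ang y) := sin_nonneg_of_nonneg_of_le_pi (D.ang_mem y).1 (D.ang_mem y).2
      have h2 : max (1 - cS x + D.cR x * sin (D.ang y) + cS x - 1) 0
          = D.cR x * sin (D.ang y) := by
        rw [show 1 - cS x + D.cR x * sin (D.ang y) + cS x - 1 = D.cR x * sin (D.ang y) by ring]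
        exact max_eq_left (mul_nonneg hR.le hs)
      rw [h2]
      rw [show (D.cM x - D.cR x * cos (D.ang y) - D.cM x) ^ 2 + (D.cR x * sin (D.ang y)) ^ 2
        = (D.cR x) ^ 2 * (sin (D.ang y) ^ 2 + cos (D.ang y) ^ 2) by ring, sin_sq_add_cos_sq,
        mul_one, sqrt_sq hR.le]

theorem F_injective : Function.Injective D.F := by
  rintro ⟨x, y⟩ ⟨x', y'⟩ h
  have hx : x = x' := by
    apply (D.psi_strictMono (D.F (x, y))).injective
    simp only
    rw [D.cN_F x y, h, D.cN_F x' y', sub_self, sub_self]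
  subst hx
  have hR := D.cR_pos x
  simp only [F, Prod.mk.injEq] at h
  obtain ⟨h1, h2⟩ := h
  have h3 : cos (D.ang y) = cos (D.ang y') := by
    have : D.cR x * cos (D.ang y) = D.cR x * cos (D.ang y') := by linarith
    exact mul_left_cancel₀ hR.ne' this
  have h4 : D.ang y = D.ang y' := injOn_cos (D.ang_mem y) (D.ang_mem y') h3
  rw [h4] at h2
  have h5 : D.ht y = D.ht y' := by linarith
  have e1 := D.hab0
  have e2 := D.hba
  have e3 := D.hab1
  have key : ∀ {y y' : ℝ}, y ≤ y' → D.ang y = D.ang y' → D.ht y = D.ht y' → y = y' := by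
    intro y y' hle h4 h5
    rcases le_or_gt y' D.b0 with g | g
    · rw [D.ht_low g, D.ht_low (hle.trans g)] at h5
      have := (div_left_inj' (by linarith : D.b0 - D.a0 ≠ 0)).1 h5
      linarith
    · rcases le_or_gt D.a1 y with g' | g'
      · rw [D.ht_high g', D.ht_high (g'.trans hle)] at h5
        have := (div_left_inj' (by linarith : D.b1 - D.a1 ≠ 0)).1 h5
        linarith
      · -- y < a1, y' > b0
        have hy'pos : 0 < D.ang y' := by
          rcases le_or_gt D.a1 y' with g2 | g2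
          · rw [D.ang_high g2]; exact pi_pos
          · rw [D.ang_mid g.le g2.le]
            exact mul_pos pi_pos (div_pos (by linarith) (by linarith))
        have hylt : D.ang y < π := by
          rcases le_or_gt y D.b0 with g2 | g2
          · rw [D.ang_low g2]; exact pi_pos
          · rw [D.ang_mid g2.le g'.le]
            have : (y - D.b0) / (D.a1 - D.b0) < 1 := by rw [div_lt_one (by linarith)]; linarith
            nlinarith [pi_pos]
        have hyb : D.b0 < y := by
          by_contra hcon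
          rw [D.ang_low (not_lt.1 hcon)] at h4
          linarith
        have hya : y' < D.a1 := by
          by_contra hcon
          rw [D.ang_high (not_lt.1 hcon)] at h4
          linarith
        rw [D.ang_mid hyb.le g'.le, D.ang_mid g.le hya.le] at h4
        have h6 := mul_left_cancel₀ pi_pos.ne' h4
        have := (div_left_inj' (by linarith : D.a1 - D.b0 ≠ 0)).1 h6
        linarith
  rcases le_total y y' with h | h
  · rw [key h h4 h5]
  · rw [key h h4.symm h5.symm]

theorem psi_neg (b : ℝ) : ∃ x, ∀ w : Pl, |w.1| ≤ b → |w.2| ≤ b → D.cN w x - D.cR x < 0 := by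
  have e1 := D.hcd0
  have e2 := D.hdc
  have e3 := D.hcd1
  -- choose `x` very negative
  obtain ⟨m, hm⟩ : ∃ m : ℝ, 0 < m ∧ m ≤ D.d0 - D.c0 ∧ m ≤ D.d1 - D.c1 :=
    ⟨min (D.d0 - D.c0) (D.d1 - D.c1), lt_min (by linarith) (by linarith), min_le_left _ _,
      min_le_right _ _⟩
  set B : ℝ := 2 * |b| + |D.c0| + |D.d1| + 3 with hB
  refine ⟨-(B / m), fun w hw1 hw2 => ?_⟩
  have hbb := le_abs_self b
  have hBpos : 0 < B := by positivity
  have hx1 : -(B / m) ≤ 1 := by
    have : 0 < B / m := div_pos hBpos hm.1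
    linarith
  have hS : cS (-(B / m)) = 0 := max_eq_right (by linarith [div_pos hBpos hm.1])
  rw [D.cR_le hx1]
  have h1 : D.cN w (-(B / m)) ≤ |w.1 - D.cM (-(B / m))| + |w.2| := by
    unfold cN
    rw [hS]
    refine (sqrt_triangle _ 0 _).trans ?_
    rw [show (0 : ℝ) ^ 2 + max (w.2 + 0 - 1) 0 ^ 2 = max (w.2 + 0 - 1) 0 ^ 2 by ring,
      sqrt_sq (le_max_right _ _), zero_sub, abs_neg]
    have : max (w.2 + 0 - 1) 0 ≤ |w.2| := max_le (by linarith [le_abs_self w.2]) (abs_nonneg _)
    linarith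
  rw [D.cM_le hx1] at h1
  have h2 : m * (B / m) = B := mul_div_cancel₀ _ hm.1.ne'
  have h3 : 0 < B / m := div_pos hBpos hm.1
  unfold x0 x1 at *
  have h4 : |w.1 - (D.c0 + (D.d0 - D.c0) * -(B / m) + (D.d1 - (D.d1 - D.c1) * -(B / m))) / 2|
      < (D.d1 - (D.d1 - D.c1) * -(B / m) - (D.c0 + (D.d0 - D.c0) * -(B / m))) / 2 - |w.2| := by
    have k1 : B ≤ (D.d0 - D.c0) * (B / m) := by
      calc B = m * (B / m) := h2.symm
        _ ≤ _ := mul_le_mul_of_nonneg_right hm.2.1 h3.le
    have k2 : B ≤ (D.d1 - D.c1) * (B / m) := by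
      calc B = m * (B / m) := h2.symm
        _ ≤ _ := mul_le_mul_of_nonneg_right hm.2.2 h3.le
    have l1 := le_abs_self w.1
    have l2 := neg_abs_le w.1
    have l3 := le_abs_self D.c0
    have l4 := neg_abs_le D.c0
    have l5 := le_abs_self D.d1
    have l6 := neg_abs_le D.d1
    have l7 := abs_nonneg w.2
    rw [abs_lt]
    constructor <;> linarith
  linarith

theorem psi_pos (b : ℝ) : ∃ x, ∀ w : Pl, |w.2| ≤ b → 0 < D.cN w x - D.cR x := by
  have hR1 := D.cR_pos 1
  refine ⟨|b| + D.cR 1 + 3, fun w hw => ?_⟩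
  have hbb := le_abs_self b
  have hx : (1 : ℝ) ≤ |b| + D.cR 1 + 3 := by linarith [abs_nonneg b]
  have h1 : D.cR (|b| + D.cR 1 + 3) ≤ D.cR 1 := by
    rw [D.cR_ge hx]
    have : exp (-(|b| + D.cR 1 + 3 - 1)) ≤ 1 := by
      rw [exp_le_one_iff]; linarith
    nlinarith
  have h2 : cS (|b| + D.cR 1 + 3) = |b| + D.cR 1 + 2 := by
    unfold cS
    rw [max_eq_left (by linarith)]; ring
  have h3 : D.cR 1 + 1 ≤ D.cN w (|b| + D.cR 1 + 3) := by
    unfold cN
    apply le_sqrt_of_sq_le
    rw [h2]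
    have h4 : D.cR 1 + 1 ≤ max (w.2 + (|b| + D.cR 1 + 2) - 1) 0 :=
      le_max_of_le_left (by linarith [neg_abs_le w.2])
    nlinarith [sq_nonneg (w.1 - D.cM (|b| + D.cR 1 + 3))]
  linarith

theorem F_surjective : Function.Surjective D.F := by
  intro w
  obtain ⟨x₁, h1⟩ := D.psi_neg (max |w.1| |w.2|)
  obtain ⟨x₂, h2⟩ := D.psi_pos |w.2|
  obtain ⟨x, hx⟩ : ∃ x, D.cN w x - D.cR x = 0 :=
    mem_range_of_exists_le_of_exists_ge (D.psi_continuous w)
      ⟨x₁, (h1 w (le_max_left _ _) (le_max_right _ _)).le⟩ ⟨x₂, (h2 w le_rfl).le⟩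
  have e1 := D.hab0
  have e2 := D.hba
  have e3 := D.hab1
  have hR := D.cR_pos x
  have hN : D.cN w x = D.cR x := by linarith
  have hsq : (w.1 - D.cM x) ^ 2 + (max (w.2 + cS x - 1) 0) ^ 2 = (D.cR x) ^ 2 := by
    rw [← hN, cN, sq_sqrt (by positivity)]
  rcases le_or_gt (w.2 + cS x) 1 with h | h
  · -- on one of the legs
    rw [max_eq_right (by linarith)] at hsq
    have h3 : (w.1 - D.cM x) ^ 2 = (D.cR x) ^ 2 := by linarith
    rcases sq_eq_sq_iff_eq_or_eq_neg.1 h3 with h4 | h4
    · -- right leg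
      have h5 : D.a1 ≤ D.b1 - (D.b1 - D.a1) * (w.2 + cS x) := by nlinarith
      refine ⟨(x, D.b1 - (D.b1 - D.a1) * (w.2 + cS x)), ?_⟩
      unfold F
      simp only
      rw [D.ang_high h5, D.ht_high h5, sub_sub_cancel,
        mul_div_cancel_left₀ _ (by linarith : D.b1 - D.a1 ≠ 0)]
      ext
      · simp; linarith
      · simp
    · -- left leg
      have h5 : D.a0 + (D.b0 - D.a0) * (w.2 + cS x) ≤ D.b0 := by nlinarith
      refine ⟨(x, D.a0 + (D.b0 - D.a0) * (w.2 + cS x)), ?_⟩
      unfold F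
      simp only
      rw [D.ang_low h5, D.ht_low h5, add_sub_cancel_left,
        mul_div_cancel_left₀ _ (by linarith : D.b0 - D.a0 ≠ 0)]
      ext
      · simp; linarith
      · simp
  · rw [max_eq_left (by linarith)] at hsq
    set u : ℝ := (D.cM x - w.1) / D.cR x with hu
    have hv : 0 < (w.2 + cS x - 1) / D.cR x := div_pos (by linarith) hR
    have huv : u ^ 2 + ((w.2 + cS x - 1) / D.cR x) ^ 2 = 1 := by
      rw [hu, div_pow, div_pow, ← add_div, div_eq_one_iff_eq (by positivity)]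
      linarith
    have hu1 : -1 ≤ u := by nlinarith
    have hu2 : u ≤ 1 := by nlinarith
    have hcos : cos (arccos u) = u := cos_arccos hu1 hu2
    have hsin : sin (arccos u) = (w.2 + cS x - 1) / D.cR x := by
      rw [sin_arccos, show 1 - u ^ 2 = ((w.2 + cS x - 1) / D.cR x) ^ 2 by linarith,
        sqrt_sq hv.le]
    have hθ0 := arccos_nonneg u
    have hθπ := arccos_le_pi u
    have hq0 : 0 ≤ arccos u / π := div_nonneg hθ0 pi_pos.le
    have hq1 : arccos u / π ≤ 1 := by rw [div_le_one pi_pos]; exact hθπ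
    have h5 : D.b0 ≤ D.b0 + (D.a1 - D.b0) * (arccos u / π) := by nlinarith
    have h6 : D.b0 + (D.a1 - D.b0) * (arccos u / π) ≤ D.a1 := by nlinarith
    refine ⟨(x, D.b0 + (D.a1 - D.b0) * (arccos u / π)), ?_⟩
    unfold F
    simp only
    rw [D.ang_mid h5 h6, D.ht_mid h5 h6, add_sub_cancel_left,
      mul_div_cancel_left₀ _ (by linarith : D.a1 - D.b0 ≠ 0), mul_div_cancel₀ _ pi_pos.ne',
      hcos, hsin]
    ext
    · simp only [hu]
      rw [mul_div_cancel₀ _ hR.ne']; ring
    · simp only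
      rw [mul_div_cancel₀ _ hR.ne']; ring

theorem F_tendsto : Tendsto D.F (cocompact Pl) (cocompact Pl) := by
  rw [← Metric.cobounded_eq_cocompact]
  intro s hs
  have hs' : Bornology.IsBounded sᶜ := by
    rw [Bornology.isBounded_def, compl_compl]; exact hs
  obtain ⟨B, hB⟩ := hs'.exists_norm_le
  rw [mem_map]
  have goal : Bornology.IsBounded (D.F ⁻¹' s)ᶜ := by
    obtain ⟨x₁, h1⟩ := D.psi_neg B
    obtain ⟨x₂, h2⟩ := D.psi_pos B
    have e1 := D.hab0
    have e3 := D.hab1
    set K : ℝ := B + D.cR x₁ with hK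
    have hsub : (D.F ⁻¹' s)ᶜ ⊆ Icc x₁ x₂ ×ˢ
        Icc (D.a0 - (D.b0 - D.a0) * K) (D.b1 + (D.b1 - D.a1) * K) := by
      rintro ⟨x, y⟩ hz
      have hn : ‖D.F (x, y)‖ ≤ B := hB _ hz
      rw [Prod.norm_def] at hn
      have hX : |(D.F (x, y)).1| ≤ B := (le_max_left _ _).trans hn
      have hY : |(D.F (x, y)).2| ≤ B := (le_max_right _ _).trans hn
      have hpsi : D.cN (D.F (x, y)) x - D.cR x = 0 := by rw [D.cN_F]; ring
      have hx1 : x₁ < x := by
        rw [← (D.psi_strictMono (D.F (x, y))).lt_iff_lt]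
        rw [hpsi]; exact h1 _ hX hY
      have hx2 : x < x₂ := by
        rw [← (D.psi_strictMono (D.F (x, y))).lt_iff_lt]
        rw [hpsi]; exact h2 _ hY
      have hRle : D.cR x ≤ D.cR x₁ := by
        have := D.cM_lt_cR hx1
        have := abs_nonneg (D.cM x - D.cM x₁)
        linarith
      have hRpos := D.cR_pos x
      have hht : -K ≤ D.ht y := by
        have h3 : (D.F (x, y)).2 = D.ht y - cS x + D.cR x * sin (D.ang y) := rfl
        have h4 := sin_le_one (D.ang y)
        have h5 : 0 ≤ cS x := le_max_right _ _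
        have h6 := (abs_le.1 hY).1
        nlinarith
      have hl : -K ≤ (y - D.a0) / (D.b0 - D.a0) :=
        hht.trans ((min_le_right _ _).trans (min_le_left _ _))
      have hr : -K ≤ (D.b1 - y) / (D.b1 - D.a1) :=
        hht.trans ((min_le_right _ _).trans (min_le_right _ _))
      rw [le_div_iff₀ (by linarith)] at hl hr
      exact ⟨⟨hx1.le, hx2.le⟩, by linarith, by linarith⟩
    exact (isCompact_Icc.prod isCompact_Icc).isBounded.subset hsub
  rw [Bornology.isBounded_def, compl_compl] at goal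
  exact goal

/-- The global fold as a homeomorphism of the plane. -/
noncomputable def Fhomeo : Pl ≃ₜ Pl :=
  (Equiv.ofBijective D.F ⟨D.F_injective, D.F_surjective⟩).toHomeomorphOfContinuousClosed
    D.F_continuous
    (isProperMap_iff_tendsto_cocompact.2 ⟨D.F_continuous, D.F_tendsto⟩).isClosedMap

theorem Fhomeo_apply (z : Pl) : D.Fhomeo z = D.F z := rfl

/-! ### The invariant ray -/

/-- `x`-coordinate of the fixed point in `H₀ ∩ V₀` -/
noncomputable def px : ℝ := D.c0 / (1 - (D.d0 - D.c0))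
/-- `y`-coordinate of the fixed point in `H₀ ∩ V₀` -/
noncomputable def py : ℝ := D.a0 / (1 - (D.b0 - D.a0))

theorem px_eq : D.c0 + (D.d0 - D.c0) * D.px = D.px := by
  have h : 1 - (D.d0 - D.c0) ≠ 0 := by
    have := D.hc0; have := D.hdc; have := D.hcd1; have := D.hd1; linarith
  unfold px
  field_simp
  ring

theorem py_eq : (D.py - D.a0) / (D.b0 - D.a0) = D.py := by
  have h : 1 - (D.b0 - D.a0) ≠ 0 := by
    have := D.ha0; have := D.hba; have := D.hab1; have := D.hb1; linarith
  have h' : D.b0 - D.a0 ≠ 0 := by have := D.hab0; linarith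
  unfold py
  rw [div_eq_iff h']
  field_simp
  ring

theorem px_mem : 0 ≤ D.px ∧ D.px ≤ 1 := by
  have e0 := D.hc0; have e1 := D.hdc; have e2 := D.hcd1; have e3 := D.hd1; have e4 := D.hcd0
  unfold px
  constructor
  · exact div_nonneg e0 (by linarith)
  · rw [div_le_one (by linarith)]; linarith

theorem py_mem : 0 ≤ D.py ∧ D.py ≤ D.b0 := by
  have e0 := D.ha0; have e1 := D.hba; have e2 := D.hab1; have e3 := D.hb1; have e4 := D.hab0
  unfold py
  constructor
  · exact div_nonneg e0 (by linarith)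
  · rw [div_le_iff₀ (by linarith)]; nlinarith

/-- On the horizontal half-line to the left of the fixed point the global fold is affine. -/
theorem F_line {x : ℝ} (hx : x ≤ 1) : D.F (x, D.py) = (D.x0 x, D.py) := by
  have h1 : min x 1 = x := min_eq_left hx
  have h2 : max (x - 1) 0 = 0 := max_eq_right (by linarith)
  have h3 := D.py_mem.2
  simp only [F, cM, cR, cS, h1, h2, neg_zero, exp_zero, mul_one, sub_zero,
    D.ang_low h3, D.ht_low h3, cos_zero, sin_zero, mul_zero, add_zero, D.py_eq, Prod.mk.injEq,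
    and_true]
  ring

/-- The ray `L`: the horizontal half-line to the left of the fixed point. -/
def ray : Set Pl := {z | z.1 ≤ D.px ∧ z.2 = D.py}

theorem F_ray : D.Fhomeo '' D.ray = D.ray := by
  have e4 := D.hcd0
  ext ⟨u, v⟩
  constructor
  · rintro ⟨⟨x, y⟩, ⟨hx, hy⟩, h⟩
    simp only at hx hy
    subst hy
    rw [Fhomeo_apply, D.F_line (hx.trans D.px_mem.2)] at h
    rw [← h]
    refine ⟨?_, rfl⟩
    simp only [x0]
    have := D.px_eq
    nlinarith
  · rintro ⟨hu, hv⟩
    simp only at hu hv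
    subst hv
    have hne : D.d0 - D.c0 ≠ 0 := by linarith
    have hx : (u - D.c0) / (D.d0 - D.c0) ≤ D.px := by
      rw [div_le_iff₀ (by linarith)]
      have := D.px_eq
      linarith
    refine ⟨((u - D.c0) / (D.d0 - D.c0), D.py), ⟨hx, rfl⟩, ?_⟩
    rw [Fhomeo_apply, D.F_line (hx.trans D.px_mem.2)]
    simp only [x0, Prod.mk.injEq, and_true]
    rw [mul_div_cancel₀ _ hne]; ring

variable {D}
variable {f : Pl ≃ₜ Pl}

theorem fixed_mem_lam (hf : ∀ z ∈ Q, f z = D.fold z) : (D.px, D.py) ∈ Lam f := by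
  have hQ : (D.px, D.py) ∈ Q := by
    have := D.hba; have := D.hab1; have := D.hb1
    exact ⟨⟨D.px_mem.1, D.px_mem.2⟩, D.py_mem.1, by linarith [D.py_mem.2]⟩
  have hfix : f (D.px, D.py) = (D.px, D.py) := by
    rw [hf _ hQ, ← D.F_eq_fold hQ, D.F_line D.px_mem.2]
    simp [x0, D.px_eq]
  rw [Lam, mem_iInter]
  intro n
  refine ⟨(D.px, D.py), hQ, ?_⟩
  have h : ∀ m : ℕ, (f ^ m) (D.px, D.py) = (D.px, D.py) := by
    intro m
    induction m with
    | zero => rfl
    | succ m ih =>
      rw [pow_succ]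
      change (f ^ m) (f (D.px, D.py)) = _
      rw [hfix, ih]
  cases n with
  | ofNat m => simpa using h m
  | negSucc m =>
    rw [zpow_negSucc]
    change ((f ^ (m + 1)).symm) (D.px, D.py) = _
    rw [Homeomorph.symm_apply_eq, h]

theorem left_not_mem_lam (hf : ∀ z ∈ Q, f z = D.fold z) {x : ℝ} (hx : x < D.px) :
    (x, D.py) ∉ Lam f := by
  have e4 := D.hcd0
  have e5 : D.d0 - D.c0 < 1 := by
    have := D.hc0; have := D.hdc; have := D.hcd1; have := D.hd1; linarith
  have key : ∀ (n : ℕ) (x : ℝ), x < D.px → (x, D.py) ∈ Lam f →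
      D.px - x ≤ (D.d0 - D.c0) ^ n := by
    intro n
    induction n with
    | zero =>
      intro x hx hL
      have := (lam_subset f hL).1.1
      simp only at this
      simp only [pow_zero]
      linarith [D.px_mem.2]
    | succ n ih =>
      intro x hx hL
      have hL' := hL
      rw [← lam_image f] at hL'
      obtain ⟨z, hz, hzx⟩ := hL'
      rw [hf z (lam_subset f hz), ← D.F_eq_fold (lam_subset f hz)] at hzx
      set x' : ℝ := (x - D.c0) / (D.d0 - D.c0) with hx'
      have hlt : x' < D.px := by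
        rw [hx', div_lt_iff₀ (by linarith)]
        have := D.px_eq
        linarith
      have hF : D.F (x', D.py) = (x, D.py) := by
        rw [D.F_line (hlt.le.trans D.px_mem.2)]
        simp only [x0, hx', Prod.mk.injEq, and_true]
        rw [mul_div_cancel₀ _ (by linarith : D.d0 - D.c0 ≠ 0)]; ring
      have hzz : z = (x', D.py) := D.F_injective (hzx.trans hF.symm)
      rw [hzz] at hz
      have h1 := ih x' hlt hz
      have h2 : D.px - x = (D.d0 - D.c0) * (D.px - x') := by
        have h3 : (D.d0 - D.c0) * x' = x - D.c0 :=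
          mul_div_cancel₀ _ (by linarith : D.d0 - D.c0 ≠ 0)
        have := D.px_eq
        nlinarith
      rw [h2, pow_succ, mul_comm]
      exact mul_le_mul_of_nonneg_right h1 (by linarith)
  intro hL
  have hlim : Tendsto (fun n : ℕ => (D.d0 - D.c0) ^ n) atTop (𝓝 0) :=
    tendsto_pow_atTop_nhds_zero_of_lt_one (by linarith) e5
  have := ge_of_tendsto' hlim (fun n => key n x hx hL)
  linarith

theorem isRay_ray (hf : ∀ z ∈ Q, f z = D.fold z) : IsRay (Lam f) D.ray := by
  refine ⟨fun t => (D.px - t, D.py), by fun_prop, ?_, ?_, ?_, ?_, ?_⟩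
  · intro s t h
    simp only [Prod.mk.injEq, and_true] at h
    have : (s : ℝ) = t := by linarith
    exact_mod_cast this
  · rw [← Metric.cobounded_eq_cocompact, ← tendsto_norm_atTop_iff_cobounded]
    have h1 : Tendsto (fun t : NNReal => (t : ℝ) - D.px) atTop atTop :=
      tendsto_atTop_add_const_right _ (-D.px) (NNReal.tendsto_coe_atTop.2 tendsto_id)
    refine tendsto_atTop_mono (fun t => ?_) h1
    rw [Prod.norm_def]
    refine le_max_of_le_left ?_
    rw [Real.norm_eq_abs]
    have := neg_abs_le (D.px - (t : ℝ))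
    linarith
  · simpa using fixed_mem_lam hf
  · intro t ht
    apply left_not_mem_lam hf
    have : (0 : ℝ) < t := by exact_mod_cast ht
    linarith
  · ext ⟨u, v⟩
    constructor
    · rintro ⟨hu, hv⟩
      simp only at hu hv
      refine ⟨⟨D.px - u, by linarith⟩, ?_⟩
      rw [Prod.mk.injEq]
      refine ⟨?_, hv.symm⟩
      change D.px - (D.px - u) = u
      ring
    · rintro ⟨t, ht⟩
      simp only [Prod.mk.injEq] at ht
      refine ⟨?_, ht.2.symm⟩
      have := t.2
      simp only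
      rw [← ht.1]
      have h : (0 : ℝ) ≤ t := t.2
      linarith

end Strips

end R789.Horse
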