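import Mathlib

/-!
# A secant criterion for `C¹` closed curves

If the unit secants `(Γ t - Γ s) / ‖Γ t - Γ s‖`, `s < t`, of an injective closed curve converge as
`s, t → t₀`, for every `t₀`, then the curve has a `C¹` regular parametrization (by arc length).
-/

namespace R789.Sec

open Set Filter Topology

variable {E : Type*} [NormedAddCommGroup E] [InnerProductSpace ℝ E]

/-- The unit vector in the direction of `x`. -/
noncomputable def unit (x : E) : E := ‖x‖⁻¹ • x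

theorem norm_unit {x : E} (hx : x ≠ 0) : ‖unit x‖ = 1 := by
  rw [unit, norm_smul, norm_inv, norm_norm, inv_mul_cancel₀ (norm_ne_zero_iff.2 hx)]

theorem norm_smul_unit (x : E) : ‖x‖ • unit x = x := by
  by_cases hx : x = 0
  · simp [hx]
  · rw [unit, smul_smul, mul_inv_cancel₀ (norm_ne_zero_iff.2 hx), one_smul]

/-- the set of ordered pairs -/
def ltSet : Set (ℝ × ℝ) := {p | p.1 < p.2}

/-- `Γ` has secant direction `T` at `t₀`. -/
def SecDir (Γ : ℝ → E) (t₀ : ℝ) (T : E) : Prop :=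
  Tendsto (fun p : ℝ × ℝ => unit (Γ p.2 - Γ p.1)) (𝓝[ltSet] (t₀, t₀)) (𝓝 T)

theorem mem_closure_ltSet (t : ℝ) : (t, t) ∈ closure ltSet := by
  have h : Tendsto (fun n : ℕ => ((t, t + 1 / ((n : ℝ) + 1)) : ℝ × ℝ)) atTop (𝓝 (t, t)) := by
    have h1 : Tendsto (fun n : ℕ => t + 1 / ((n : ℝ) + 1)) atTop (𝓝 (t + 0)) :=
      tendsto_const_nhds.add tendsto_one_div_add_atTop_nhds_zero_nat
    rw [add_zero] at h1
    exact tendsto_const_nhds.prodMk_nhds h1
  refine mem_closure_of_tendsto h (Eventually.of_forall fun n => ?_)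
  have : (0 : ℝ) < 1 / ((n : ℝ) + 1) := by positivity
  show t < t + 1 / ((n : ℝ) + 1)
  linarith

instance neBot_lt (t : ℝ) : (𝓝[ltSet] (t, t)).NeBot :=
  mem_closure_iff_nhdsWithin_neBot.1 (mem_closure_ltSet t)

/-- Metric form of the existence of a secant direction. -/
theorem SecDir.metric {Γ : ℝ → E} {t₀ : ℝ} {T : E} (h : SecDir Γ t₀ T) {ε : ℝ} (hε : 0 < ε) :
    ∃ δ > 0, ∀ s t, |s - t₀| < δ → |t - t₀| < δ → s < t → ‖unit (Γ t - Γ s) - T‖ < ε := by
  have h1 := Metric.tendsto_nhds.1 h ε hε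
  rw [eventually_nhdsWithin_iff, Metric.eventually_nhds_iff] at h1
  obtain ⟨δ, hδ, h2⟩ := h1
  refine ⟨δ, hδ, fun s t hs ht hst => ?_⟩
  have h3 : dist ((s, t) : ℝ × ℝ) (t₀, t₀) < δ := by
    rw [Prod.dist_eq, Real.dist_eq, Real.dist_eq]
    exact max_lt hs ht
  have := h2 h3 hst
  rwa [dist_eq_norm] at this

/-- Secant directions of a continuous curve depend continuously on the point. -/
theorem secDir_continuous {Γ : ℝ → E} {T : ℝ → E} (h : ∀ t, SecDir Γ t (T t)) :
    Continuous T := by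
  rw [Metric.continuous_iff]
  intro t₀ ε hε
  obtain ⟨δ, hδ, h1⟩ := (h t₀).metric (half_pos hε)
  refine ⟨δ, hδ, fun t ht => ?_⟩
  rw [Real.dist_eq] at ht
  have h2 : ∀ᶠ p : ℝ × ℝ in 𝓝[ltSet] (t, t), ‖unit (Γ p.2 - Γ p.1) - T t₀‖ ≤ ε / 2 := by
    rw [eventually_nhdsWithin_iff]
    have h3 : ∀ᶠ p : ℝ × ℝ in 𝓝 (t, t), |p.1 - t₀| < δ ∧ |p.2 - t₀| < δ := by
      apply (ContinuousAt.eventually_lt (by fun_prop) continuousAt_const (by simpa using ht)).and
      exact ContinuousAt.eventually_lt (by fun_prop) continuousAt_const (by simpa using ht)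
    filter_upwards [h3] with p hp hlt
    exact (h1 _ _ hp.1 hp.2 hlt).le
  have h4 : Tendsto (fun p : ℝ × ℝ => ‖unit (Γ p.2 - Γ p.1) - T t₀‖) (𝓝[ltSet] (t, t))
      (𝓝 ‖T t - T t₀‖) := ((h t).sub_const _).norm
  have := le_of_tendsto h4 h2
  rw [dist_eq_norm]
  linarith

/-- The norm of the secant direction. -/
theorem SecDir.norm_eq {Γ : ℝ → E} {t₀ : ℝ} {T : E} (h : SecDir Γ t₀ T)
    (hi : ∀ s t, s < t → t < s + 1 → Γ s ≠ Γ t) : ‖T‖ = 1 := by
  have h1 : Tendsto (fun p : ℝ × ℝ => ‖unit (Γ p.2 - Γ p.1)‖) (𝓝[ltSet] (t₀, t₀)) (𝓝 ‖T‖) :=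
    Tendsto.norm h
  have h2 : ∀ᶠ p : ℝ × ℝ in 𝓝[ltSet] (t₀, t₀), ‖unit (Γ p.2 - Γ p.1)‖ = 1 := by
    rw [eventually_nhdsWithin_iff]
    have h3 : ∀ᶠ p : ℝ × ℝ in 𝓝 (t₀, t₀), p.2 < p.1 + 1 :=
      ContinuousAt.eventually_lt (by fun_prop) (by fun_prop) (by simp)
    filter_upwards [h3] with p hp hlt
    exact norm_unit (sub_ne_zero.2 (hi _ _ hlt hp).symm)
  have h4 : Tendsto (fun p : ℝ × ℝ => ‖unit (Γ p.2 - Γ p.1)‖) (𝓝[ltSet] (t₀, t₀)) (𝓝 1) :=
    tendsto_const_nhds.congr' (h2.mono fun p hp => hp.symm)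
  exact tendsto_nhds_unique h1 h4

omit [InnerProductSpace ℝ E] in
/-- Comparison of variations. -/
theorem eVariationOn_le_of_dist {Γ : ℝ → E} {g : ℝ → ℝ} {s : Set ℝ}
    (h : ∀ a ∈ s, ∀ b ∈ s, a ≤ b → dist (Γ a) (Γ b) ≤ dist (g a) (g b)) :
    eVariationOn Γ s ≤ eVariationOn g s := by
  apply iSup_le
  rintro ⟨n, ⟨u, hu, hus⟩⟩
  refine le_trans ?_ (eVariationOn.sum_le (f := g) (n := n) hu hus)
  apply Finset.sum_le_sum
  intro i _
  simp only [edist_dist]
  apply ENNReal.ofReal_le_ofReal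
  rw [dist_comm (Γ _), dist_comm (g _)]
  exact h _ (hus _) _ (hus _) (hu (Nat.le_succ i))

/-- Local control of the variation by the chord. -/
theorem SecDir.variation_le {Γ : ℝ → E} {t₀ : ℝ} {T : E} (h : SecDir Γ t₀ T) (hT : ‖T‖ = 1)
    {ε : ℝ} (hε : 0 < ε) (hε1 : ε < 1) :
    ∃ δ > 0, ∀ s t, |s - t₀| < δ → |t - t₀| < δ → s ≤ t →
      eVariationOn Γ (Icc s t) ≤ ENNReal.ofReal (‖Γ t - Γ s‖ / (1 - ε)) := by
  obtain ⟨δ, hδ, h1⟩ := h.metric hε
  refine ⟨δ, hδ, fun s t hs ht hst => ?_⟩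
  set g : ℝ → ℝ := fun x => inner ℝ T (Γ x) / (1 - ε) with hg
  have key : ∀ a ∈ Icc s t, ∀ b ∈ Icc s t, a ≤ b → ‖Γ b - Γ a‖ ≤ g b - g a := by
    intro a ha b hb hab
    rcases hab.eq_or_lt with rfl | hlt
    · simp
    have ha' : |a - t₀| < δ := by
      rw [abs_lt] at *; constructor <;> linarith [ha.1, ha.2]
    have hb' : |b - t₀| < δ := by
      rw [abs_lt] at *; constructor <;> linarith [hb.1, hb.2]
    have h2 := h1 a b ha' hb' hlt
    have h3 : (1 - ε) * ‖Γ b - Γ a‖ ≤ inner ℝ T (Γ b - Γ a) := by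
      have h4 : inner ℝ T (Γ b - Γ a) = ‖Γ b - Γ a‖ * inner ℝ T (unit (Γ b - Γ a)) := by
        conv_lhs => rw [← norm_smul_unit (Γ b - Γ a)]
        rw [inner_smul_right]
      have h5 : inner ℝ T (unit (Γ b - Γ a)) = 1 + inner ℝ T (unit (Γ b - Γ a) - T) := by
        rw [inner_sub_right, real_inner_self_eq_norm_sq, hT]; ring
      have h6 : |inner ℝ T (unit (Γ b - Γ a) - T)| ≤ ‖unit (Γ b - Γ a) - T‖ := by
        have := abs_real_inner_le_norm T (unit (Γ b - Γ a) - T)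
        rwa [hT, one_mul] at this
      have h7 := (abs_le.1 h6).1
      rw [h4, h5, mul_comm]
      apply mul_le_mul_of_nonneg_left _ (norm_nonneg _)
      linarith
    simp only [hg]
    rw [← sub_div, ← inner_sub_right, le_div_iff₀ (by linarith), mul_comm]
    exact h3
  have hmono : MonotoneOn g (Icc s t) := by
    intro a ha b hb hab
    have := key a ha b hb hab
    linarith [norm_nonneg (Γ b - Γ a)]
  have h8 : eVariationOn Γ (Icc s t) ≤ eVariationOn g (Icc s t) := by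
    apply eVariationOn_le_of_dist
    intro a ha b hb hab
    rw [dist_comm, dist_eq_norm, dist_comm, Real.dist_eq]
    exact (key a ha b hb hab).trans (le_abs_self _)
  have h9 : eVariationOn g (Icc s t) ≤ ENNReal.ofReal (g t - g s) := by
    have := hmono.eVariationOn_eq (left_mem_Icc.2 hst) (right_mem_Icc.2 hst)
    rw [inter_self] at this
    exact this.le
  refine (h8.trans h9).trans (ENNReal.ofReal_le_ofReal ?_)
  simp only [hg]
  rw [← sub_div, ← inner_sub_right]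
  apply div_le_div_of_nonneg_right _ (by linarith)
  calc inner ℝ T (Γ t - Γ s) ≤ ‖T‖ * ‖Γ t - Γ s‖ := real_inner_le_norm _ _
    _ = ‖Γ t - Γ s‖ := by rw [hT, one_mul]

/-- A closed curve with secant directions at every point has finite variation. -/
theorem variation_ne_top {Γ : ℝ → E} {T : ℝ → E} (hT : ∀ t, SecDir Γ t (T t))
    (hT1 : ∀ t, ‖T t‖ = 1) (a b : ℝ) : eVariationOn Γ (Icc a b) ≠ ⊤ := by
  rcases lt_or_ge b a with hab | hab
  · rw [Icc_eq_empty (not_le.2 hab)]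
    rw [eVariationOn.subsingleton Γ subsingleton_empty]
    exact ENNReal.zero_ne_top
  choose δ hδ hvar using fun t => (hT t).variation_le (hT1 t) (ε := 1 / 2) (by norm_num) (by norm_num)
  obtain ⟨u, hu0, humono, ⟨m, hm⟩, hucover⟩ := exists_monotone_Icc_subset_open_cover_Icc hab
    (c := fun t : ℝ => {x : Icc a b | |(x : ℝ) - t| < δ t})
    (fun t => isOpen_lt (by fun_prop) continuous_const)
    (fun x _ => mem_iUnion.2 ⟨x, by simpa using hδ x⟩)
  have key : ∀ n : ℕ, eVariationOn Γ (Icc a (u n)) ≠ ⊤ := by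
    intro n
    induction n with
    | zero =>
      rw [hu0, Icc_self, eVariationOn.subsingleton Γ subsingleton_singleton]
      exact ENNReal.zero_ne_top
    | succ n ih =>
      have h1 : a ≤ (u n : ℝ) := (u n).2.1
      have h2 : (u n : ℝ) ≤ u (n + 1) := humono (Nat.le_succ n)
      have h3 := eVariationOn.Icc_add_Icc Γ (s := univ) h1 h2 (mem_univ _)
      simp only [univ_inter] at h3
      rw [← h3]
      refine ENNReal.add_ne_top.2 ⟨ih, ?_⟩
      obtain ⟨t, ht⟩ := hucover n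
      have h4 : |(u n : ℝ) - t| < δ t := ht (left_mem_Icc.2 (humono (Nat.le_succ n)))
      have h5 : |(u (n + 1) : ℝ) - t| < δ t := ht (right_mem_Icc.2 (humono (Nat.le_succ n)))
      exact ne_top_of_le_ne_top ENNReal.ofReal_ne_top (hvar t _ _ h4 h5 h2)
  have := key m
  rw [hm m le_rfl] at this
  exact this

/-- Arc length. -/
noncomputable def len (Γ : ℝ → E) (t : ℝ) : ℝ := variationOnFromTo Γ univ 0 t

section

variable {Γ : ℝ → E} {T : ℝ → E}

theorem lbv (hT : ∀ t, SecDir Γ t (T t)) (hT1 : ∀ t, ‖T t‖ = 1) :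
    LocallyBoundedVariationOn Γ univ := by
  intro a b _ _
  rw [univ_inter]
  exact variation_ne_top hT hT1 a b

theorem len_sub (hT : ∀ t, SecDir Γ t (T t)) (hT1 : ∀ t, ‖T t‖ = 1) {s t : ℝ} (hst : s ≤ t) :
    len Γ t - len Γ s = (eVariationOn Γ (Icc s t)).toReal := by
  have h := variationOnFromTo.add (lbv hT hT1) (mem_univ 0) (mem_univ s) (mem_univ t)
  rw [variationOnFromTo.eq_of_le Γ univ hst, univ_inter] at h
  unfold len
  linarith

theorem chord_le (hT : ∀ t, SecDir Γ t (T t)) (hT1 : ∀ t, ‖T t‖ = 1) {s t : ℝ} (hst : s ≤ t) :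
    ‖Γ t - Γ s‖ ≤ len Γ t - len Γ s := by
  rw [len_sub hT hT1 hst, ← dist_eq_norm]
  have h := eVariationOn.edist_le Γ (s := Icc s t) (right_mem_Icc.2 hst) (left_mem_Icc.2 hst)
  rw [edist_dist] at h
  have h1 := (ENNReal.ofReal_le_iff_le_toReal (variation_ne_top hT hT1 s t)).1 h
  exact h1

theorem len_le_chord (hT : ∀ t, SecDir Γ t (T t)) (hT1 : ∀ t, ‖T t‖ = 1) (t₀ : ℝ) {ε : ℝ}
    (hε : 0 < ε) (hε1 : ε < 1) :
    ∃ δ > 0, ∀ s t, |s - t₀| < δ → |t - t₀| < δ → s ≤ t →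
      len Γ t - len Γ s ≤ ‖Γ t - Γ s‖ / (1 - ε) := by
  obtain ⟨δ, hδ, h⟩ := (hT t₀).variation_le (hT1 t₀) hε hε1
  refine ⟨δ, hδ, fun s t hs ht hst => ?_⟩
  rw [len_sub hT hT1 hst]
  have h1 := h s t hs ht hst
  exact ENNReal.toReal_le_of_le_ofReal (div_nonneg (norm_nonneg _) (by linarith)) h1

theorem len_mono (hT : ∀ t, SecDir Γ t (T t)) (hT1 : ∀ t, ‖T t‖ = 1) : Monotone (len Γ) := by
  intro s t hst
  have := chord_le hT hT1 hst
  linarith [norm_nonneg (Γ t - Γ s)]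

theorem len_strictMono (hT : ∀ t, SecDir Γ t (T t)) (hT1 : ∀ t, ‖T t‖ = 1)
    (hi : ∀ s t, s < t → t < s + 1 → Γ s ≠ Γ t) : StrictMono (len Γ) := by
  intro s t hst
  set t' := min t (s + 1 / 2) with ht'
  have h1 : s < t' := lt_min hst (by linarith)
  have h2 : t' < s + 1 := (min_le_right _ _).trans_lt (by linarith)
  have h3 := chord_le hT hT1 h1.le
  have h4 : 0 < ‖Γ t' - Γ s‖ := norm_pos_iff.2 (sub_ne_zero.2 (hi s t' h1 h2).symm)
  have h5 := len_mono hT hT1 (min_le_left t (s + 1 / 2))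
  linarith

theorem len_continuous (hc : Continuous Γ) (hT : ∀ t, SecDir Γ t (T t)) (hT1 : ∀ t, ‖T t‖ = 1) :
    Continuous (len Γ) := by
  rw [continuous_iff_continuousAt]
  intro t₀
  obtain ⟨δ, hδ, h⟩ := len_le_chord hT hT1 t₀ (ε := 1 / 2) (by norm_num) (by norm_num)
  have hb : ∀ᶠ t in 𝓝 t₀, ‖len Γ t - len Γ t₀‖ ≤ 2 * ‖Γ t - Γ t₀‖ := by
    have h1 : ∀ᶠ t in 𝓝 t₀, |t - t₀| < δ :=
      ContinuousAt.eventually_lt (by fun_prop) continuousAt_const (by simpa using hδ)
    filter_upwards [h1] with t ht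
    rcases le_total t₀ t with hle | hle
    · have h2 := h t₀ t (by simpa using hδ) ht hle
      have h3 := len_mono hT hT1 hle
      rw [Real.norm_eq_abs, abs_of_nonneg (by linarith)]
      norm_num at h2
      linarith
    · have h2 := h t t₀ ht (by simpa using hδ) hle
      have h3 := len_mono hT hT1 hle
      rw [Real.norm_eq_abs, abs_of_nonpos (by linarith)]
      norm_num at h2
      rw [norm_sub_rev]
      linarith
  have h0 : Tendsto (fun t => 2 * ‖Γ t - Γ t₀‖) (𝓝 t₀) (𝓝 0) := by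
    have : Continuous fun t => 2 * ‖Γ t - Γ t₀‖ := by fun_prop
    have h := this.tendsto t₀
    simpa using h
  have h1 := squeeze_zero_norm' hb h0
  rw [ContinuousAt, ← tendsto_sub_nhds_zero_iff]
  exact h1

theorem len_add_one (hp : ∀ t, Γ (t + 1) = Γ t) (hT : ∀ t, SecDir Γ t (T t))
    (hT1 : ∀ t, ‖T t‖ = 1) (t : ℝ) : len Γ (t + 1) = len Γ t + len Γ 1 := by
  have hshift : ∀ s t : ℝ, s ≤ t → len Γ (t + 1) - len Γ (s + 1) = len Γ t - len Γ s := by
    intro s t hst
    rw [len_sub hT hT1 hst, len_sub hT hT1 (by linarith : s + 1 ≤ t + 1)]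
    have h1 : Γ = Γ ∘ (fun x => x + 1) := by funext x; exact (hp x).symm
    have h2 : eVariationOn (Γ ∘ (fun x => x + 1)) (Icc s t)
        = eVariationOn Γ ((fun x => x + 1) '' Icc s t) :=
      eVariationOn.comp_eq_of_monotoneOn Γ (fun x : ℝ => x + 1)
        (fun a _ b _ hab => by simpa using hab)
    rw [← h1] at h2
    rw [h2]
    congr 2
    simp
  have h0 : len Γ 0 = 0 := by
    unfold len
    rw [variationOnFromTo.self]
  rcases le_total 0 t with h | h
  · have := hshift 0 t h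
    rw [zero_add, h0] at this
    linarith
  · have := hshift t 0 h
    rw [zero_add, h0] at this
    linarith

omit [InnerProductSpace ℝ E] in
theorem len_zero : len Γ 0 = 0 := by
  unfold len
  rw [variationOnFromTo.self]

theorem len_surjective (hc : Continuous Γ) (hp : ∀ t, Γ (t + 1) = Γ t)
    (hT : ∀ t, SecDir Γ t (T t)) (hT1 : ∀ t, ‖T t‖ = 1)
    (hi : ∀ s t, s < t → t < s + 1 → Γ s ≠ Γ t) : Function.Surjective (len Γ) := by
  have hpos : 0 < len Γ 1 := by
    have := len_strictMono hT hT1 hi (zero_lt_one (α := ℝ))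
    rwa [len_zero] at this
  have hn : ∀ n : ℕ, len Γ n = n * len Γ 1 := by
    intro n
    induction n with
    | zero => simp [len_zero]
    | succ n ih =>
      push_cast
      rw [len_add_one hp hT hT1, ih]; ring
  have hn' : ∀ n : ℕ, len Γ (-(n : ℝ)) = -(n * len Γ 1) := by
    intro n
    induction n with
    | zero => simp [len_zero]
    | succ n ih =>
      have h := len_add_one hp hT hT1 (-((n + 1 : ℕ) : ℝ))
      have h2 : -((n + 1 : ℕ) : ℝ) + 1 = -(n : ℝ) := by push_cast; ring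
      rw [h2, ih] at h
      push_cast at h ⊢
      linarith
  apply (len_continuous hc hT hT1).surjective
  · apply tendsto_atTop_atTop_of_monotone (len_mono hT hT1)
    intro b
    obtain ⟨n, hnb⟩ := exists_nat_ge (b / len Γ 1)
    refine ⟨n, ?_⟩
    rw [hn]
    rwa [div_le_iff₀ hpos] at hnb
  · apply tendsto_atBot_atBot_of_monotone (len_mono hT hT1)
    intro b
    obtain ⟨n, hnb⟩ := exists_nat_ge (-b / len Γ 1)
    refine ⟨-n, ?_⟩
    rw [hn']
    rw [div_le_iff₀ hpos] at hnb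
    linarith

/-- **Secant criterion.** -/
theorem exists_C1_param (hc : Continuous Γ) (hp : ∀ t, Γ (t + 1) = Γ t)
    (hi : ∀ s t, s < t → t < s + 1 → Γ s ≠ Γ t) (hT : ∀ t, SecDir Γ t (T t)) :
    ∃ γ : ℝ → E, ContDiff ℝ 1 γ ∧ (∀ t, deriv γ t ≠ 0) ∧ (∀ t, γ (t + 1) = γ t) ∧
      InjOn γ (Ico 0 1) ∧ range Γ = range γ := by
  have hT1 : ∀ t, ‖T t‖ = 1 := fun t => (hT t).norm_eq hi
  have hTc : Continuous T := secDir_continuous hT
  have hsm := len_strictMono hT hT1 hi
  set e : ℝ ≃o ℝ := hsm.orderIsoOfSurjective (len Γ) (len_surjective hc hp hT hT1 hi) with he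
  have hea : ∀ t, e t = len Γ t := fun t => rfl
  have hWc : Continuous e.symm := e.symm.continuous
  have hWl : ∀ v, len Γ (e.symm v) = v := fun v => by rw [← hea, e.apply_symm_apply]
  have hpos : 0 < len Γ 1 := by
    have := hsm (zero_lt_one (α := ℝ))
    rwa [len_zero] at this
  -- the derivative
  have hder : ∀ v, HasDerivAt (fun v => Γ (e.symm v)) (T (e.symm v)) v := by
    intro v₀
    rw [hasDerivAt_iff_isLittleO, Asymptotics.isLittleO_iff]
    intro c hc0
    set ε : ℝ := min (c / 2) (1 / 2) with hε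
    have hε0 : 0 < ε := lt_min (by linarith) (by norm_num)
    have hε1 : ε < 1 := (min_le_right _ _).trans_lt (by norm_num)
    have hεc : 2 * ε ≤ c := by
      have := min_le_left (c / 2) (1 / 2)
      linarith
    obtain ⟨δ₁, hδ₁, h1⟩ := (hT (e.symm v₀)).metric hε0
    obtain ⟨δ₂, hδ₂, h2⟩ := len_le_chord hT hT1 (e.symm v₀) hε0 hε1
    have key : ∀ s t, |s - e.symm v₀| < min δ₁ δ₂ → |t - e.symm v₀| < min δ₁ δ₂ → s < t →
        ‖Γ t - Γ s - (len Γ t - len Γ s) • T (e.symm v₀)‖ ≤ c * (len Γ t - len Γ s) := by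
      intro s t hs ht hst
      have h3 := h1 s t (hs.trans_le (min_le_left _ _)) (ht.trans_le (min_le_left _ _)) hst
      have h4 := h2 s t (hs.trans_le (min_le_right _ _)) (ht.trans_le (min_le_right _ _)) hst.le
      have h5 := chord_le hT hT1 hst.le
      rw [le_div_iff₀ (by linarith)] at h4
      have h6 : Γ t - Γ s - (len Γ t - len Γ s) • T (e.symm v₀)
          = ‖Γ t - Γ s‖ • (unit (Γ t - Γ s) - T (e.symm v₀))
            - (len Γ t - len Γ s - ‖Γ t - Γ s‖) • T (e.symm v₀) := by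
        rw [smul_sub, norm_smul_unit]
        module
      rw [h6]
      refine (norm_sub_le _ _).trans ?_
      rw [norm_smul, norm_smul, hT1, mul_one, norm_norm, Real.norm_eq_abs,
        abs_of_nonneg (by linarith : 0 ≤ len Γ t - len Γ s - ‖Γ t - Γ s‖)]
      have h7 : ‖Γ t - Γ s‖ * ‖unit (Γ t - Γ s) - T (e.symm v₀)‖ ≤ ‖Γ t - Γ s‖ * ε :=
        mul_le_mul_of_nonneg_left h3.le (norm_nonneg _)
      nlinarith [norm_nonneg (Γ t - Γ s)]
    have hev : ∀ᶠ v in 𝓝 v₀, |e.symm v - e.symm v₀| < min δ₁ δ₂ :=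
      ContinuousAt.eventually_lt (by fun_prop) continuousAt_const
        (by simpa using lt_min hδ₁ hδ₂)
    have h0 : |e.symm v₀ - e.symm v₀| < min δ₁ δ₂ := by simpa using lt_min hδ₁ hδ₂
    filter_upwards [hev] with v hv
    rcases lt_trichotomy v v₀ with hlt | heq | hgt
    · have h3 := key (e.symm v) (e.symm v₀) hv h0 (e.symm.lt_iff_lt.2 hlt)
      rw [hWl, hWl] at h3
      have h4 : Γ (e.symm v) - Γ (e.symm v₀) - (v - v₀) • T (e.symm v₀)
          = -(Γ (e.symm v₀) - Γ (e.symm v) - (v₀ - v) • T (e.symm v₀)) := by module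
      rw [h4, norm_neg, Real.norm_eq_abs, abs_of_neg (by linarith), neg_sub]
      exact h3
    · subst heq
      simp
    · have h3 := key (e.symm v₀) (e.symm v) h0 hv (e.symm.lt_iff_lt.2 hgt)
      rw [hWl, hWl] at h3
      rw [Real.norm_eq_abs, abs_of_pos (by linarith)]
      exact h3
  have hder' : ∀ x, HasDerivAt (fun x => Γ (e.symm (len Γ 1 * x)))
      (len Γ 1 • T (e.symm (len Γ 1 * x))) x := by
    intro x
    have h1 : HasDerivAt (fun x : ℝ => len Γ 1 * x) (len Γ 1) x := by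
      simpa using (hasDerivAt_id x).const_mul (len Γ 1)
    exact (hder (len Γ 1 * x)).scomp x h1
  have hWp : ∀ v, e.symm (v + len Γ 1) = e.symm v + 1 := by
    intro v
    rw [e.symm_apply_eq, hea, len_add_one hp hT hT1, hWl]
  refine ⟨fun x => Γ (e.symm (len Γ 1 * x)), ?_, ?_, ?_, ?_, ?_⟩
  · rw [contDiff_one_iff_deriv]
    refine ⟨fun x => (hder' x).differentiableAt, ?_⟩
    have : deriv (fun x => Γ (e.symm (len Γ 1 * x)))
        = fun x => len Γ 1 • T (e.symm (len Γ 1 * x)) := funext fun x => (hder' x).deriv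
    rw [this]
    fun_prop
  · intro x
    rw [(hder' x).deriv]
    refine smul_ne_zero hpos.ne' ?_
    rw [← norm_ne_zero_iff, hT1]
    exact one_ne_zero
  · intro x
    simp only
    rw [mul_add, mul_one, hWp, hp]
  · have key : ∀ x ∈ Ico (0 : ℝ) 1, ∀ y ∈ Ico (0 : ℝ) 1, x < y →
        Γ (e.symm (len Γ 1 * x)) ≠ Γ (e.symm (len Γ 1 * y)) := by
      intro x hx y hy hxy
      apply hi
      · apply e.symm.lt_iff_lt.2
        nlinarith
      · rw [← hWp]
        apply e.symm.lt_iff_lt.2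
        nlinarith [hx.1, hy.2]
    intro x hx y hy h
    rcases lt_trichotomy x y with h1 | h1 | h1
    · exact absurd h (key x hx y hy h1)
    · exact h1
    · exact absurd h.symm (key y hy x hx h1)
  · ext w
    constructor
    · rintro ⟨t, rfl⟩
      refine ⟨len Γ t / len Γ 1, ?_⟩
      simp only
      rw [mul_div_cancel₀ _ hpos.ne']
      have : e.symm (len Γ t) = t := by rw [← hea, e.symm_apply_apply]
      rw [this]
    · rintro ⟨x, rfl⟩
      exact ⟨_, rfl⟩

end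

end R789.Sec
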