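import Mathlib
import Pool.Agent.R789.Secant

/-!
# A homeomorphism of the plane with logarithmic singularities along a Cantor set
-/

namespace R789.LogMap

open Set Filter Topology R789.Sec

/-- the logarithmic profile -/
noncomputable def ell (ε r : ℝ) : ℝ := Real.log (1 + 1 / (r + ε))

theorem ell_nonneg {ε r : ℝ} (hε : 0 ≤ ε) (hr : 0 ≤ r) : 0 ≤ ell ε r := by
  unfold ell
  apply Real.log_nonneg
  have : 0 ≤ 1 / (r + ε) := by positivity
  linarith

theorem ell_anti {ε a b : ℝ} (h0 : 0 < a + ε) (hab : a ≤ b) : ell ε b ≤ ell ε a := by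
  unfold ell
  have h1 : 0 < b + ε := by linarith
  apply Real.log_le_log
  · positivity
  · have : 1 / (b + ε) ≤ 1 / (a + ε) := one_div_le_one_div_of_le h0 (by linarith)
    linarith

/-- `a (ℓ(a) - ℓ(b)) ≤ b - a` -/
theorem ell_diff {ε a b : ℝ} (hε : 0 ≤ ε) (ha : 0 ≤ a) (hab : a ≤ b) :
    a * (ell ε a - ell ε b) ≤ b - a := by
  rcases ha.eq_or_lt with rfl | ha
  · simp; exact hab
  have h1 : 0 < a + ε := by linarith
  have h2 : 0 < b + ε := by linarith
  have h3 : 0 < 1 + 1 / (a + ε) := by positivity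
  have h4 : 0 < 1 + 1 / (b + ε) := by positivity
  have h5 : ell ε a - ell ε b ≤ (1 + 1 / (a + ε)) / (1 + 1 / (b + ε)) - 1 := by
    unfold ell
    rw [← Real.log_div h3.ne' h4.ne']
    exact Real.log_le_sub_one_of_pos (div_pos h3 h4)
  have h6 : (1 + 1 / (a + ε)) / (1 + 1 / (b + ε)) - 1 = (b - a) / ((a + ε) * (b + ε + 1)) := by
    field_simp
    ring
  rw [h6] at h5
  have h7 : a * (ell ε a - ell ε b) ≤ a * ((b - a) / ((a + ε) * (b + ε + 1))) :=
    mul_le_mul_of_nonneg_left h5 ha.le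
  refine h7.trans ?_
  rw [← mul_div_assoc, div_le_iff₀ (by positivity)]
  have h8 : a ≤ (a + ε) * (b + ε + 1) := by nlinarith
  have h9 : 0 ≤ b - a := by linarith
  nlinarith

/-- the basic singular vector field -/
noncomputable def rad (ε : ℝ) (z : ℂ) : ℂ := ell ε ‖z‖ • z

theorem norm_rad_le {ε : ℝ} (hε : 0 ≤ ε) (z : ℂ) : ‖rad ε z‖ ≤ 1 := by
  unfold rad
  rw [norm_smul, Real.norm_eq_abs, abs_of_nonneg (ell_nonneg hε (norm_nonneg z))]
  rcases (norm_nonneg z).eq_or_lt with h | h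
  · rw [← h]; simp
  · have h1 : ell ε ‖z‖ ≤ 1 / (‖z‖ + ε) := by
      unfold ell
      have := Real.log_le_sub_one_of_pos (show 0 < 1 + 1 / (‖z‖ + ε) by positivity)
      linarith
    calc ell ε ‖z‖ * ‖z‖ ≤ 1 / (‖z‖ + ε) * ‖z‖ := mul_le_mul_of_nonneg_right h1 h.le
      _ = ‖z‖ / (‖z‖ + ε) := by ring
      _ ≤ 1 := by rw [div_le_one (by positivity)]; linarith

theorem rad_diff_aux {ε : ℝ} (hε : 0 ≤ ε) {a b : ℂ} (h : ‖a‖ ≤ ‖b‖) :
    ‖rad ε b - rad ε a - ell ε (max ‖a‖ ‖b‖) • (b - a)‖ ≤ ‖b - a‖ := by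
  rw [max_eq_right h]
  have h1 : rad ε b - rad ε a - ell ε ‖b‖ • (b - a) = -((ell ε ‖a‖ - ell ε ‖b‖) • a) := by
    unfold rad; module
  rw [h1, norm_neg, norm_smul]
  rcases (norm_nonneg a).eq_or_lt with h0 | h0
  · rw [← h0, mul_zero]; exact norm_nonneg _
  rw [Real.norm_eq_abs, abs_of_nonneg (sub_nonneg.2 (ell_anti (by linarith) h)), mul_comm]
  refine (ell_diff hε (norm_nonneg a) h).trans ?_
  have := norm_sub_norm_le b a
  linarith

/-- The key estimate. -/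
theorem rad_diff {ε : ℝ} (hε : 0 ≤ ε) (a b : ℂ) :
    ‖rad ε b - rad ε a - ell ε (max ‖a‖ ‖b‖) • (b - a)‖ ≤ ‖b - a‖ := by
  rcases le_total ‖a‖ ‖b‖ with h | h
  · exact rad_diff_aux hε h
  · have h1 := rad_diff_aux hε h
    have h2 : rad ε b - rad ε a - ell ε (max ‖a‖ ‖b‖) • (b - a)
        = -(rad ε a - rad ε b - ell ε (max ‖b‖ ‖a‖) • (a - b)) := by
      rw [max_comm ‖b‖ ‖a‖]; module
    rw [h2, norm_neg, norm_sub_rev b a]
    exact h1

/-- Data: centres `p i` with summable weights `c i`. -/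
structure Data (ι : Type*) where
  c : ι → ℝ
  p : ι → ℂ
  hc : ∀ i, 0 ≤ c i
  hs : Summable c

namespace Data

variable {ι : Type*} (D : Data ι)

/-- total weight -/
noncomputable def tot : ℝ := ∑' i, D.c i

theorem tot_nonneg : 0 ≤ D.tot := tsum_nonneg D.hc

/-- The map. -/
noncomputable def F (ε : ℝ) (z : ℂ) : ℂ := (1 + D.tot) • z + ∑' i, D.c i • rad ε (z - D.p i)

/-- The dilatation factor. -/
noncomputable def lam (ε : ℝ) (a b : ℂ) : ℝ :=
  1 + D.tot + ∑' i, D.c i * ell ε (max ‖a - D.p i‖ ‖b - D.p i‖)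

theorem summable_rad {ε : ℝ} (hε : 0 ≤ ε) (z : ℂ) :
    Summable fun i => D.c i • rad ε (z - D.p i) := by
  apply Summable.of_norm_bounded D.hs
  intro i
  rw [norm_smul, Real.norm_eq_abs, abs_of_nonneg (D.hc i)]
  calc D.c i * ‖rad ε (z - D.p i)‖ ≤ D.c i * 1 :=
        mul_le_mul_of_nonneg_left (norm_rad_le hε _) (D.hc i)
    _ = D.c i := mul_one _

theorem half_le_max (a b p : ℂ) : ‖b - a‖ / 2 ≤ max ‖a - p‖ ‖b - p‖ := by
  have h1 : ‖b - a‖ ≤ ‖b - p‖ + ‖a - p‖ := by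
    have : b - a = (b - p) - (a - p) := by ring
    rw [this]; exact norm_sub_le _ _
  have h2 := le_max_left ‖a - p‖ ‖b - p‖
  have h3 := le_max_right ‖a - p‖ ‖b - p‖
  linarith

theorem term_nonneg {ε : ℝ} (hε : 0 ≤ ε) (a b : ℂ) (i : ι) :
    0 ≤ D.c i * ell ε (max ‖a - D.p i‖ ‖b - D.p i‖) :=
  mul_nonneg (D.hc i) (ell_nonneg hε (le_max_of_le_left (norm_nonneg _)))

theorem term_le {ε : ℝ} (_hε : 0 ≤ ε) {a b : ℂ} (hab : 0 < ‖b - a‖ / 2 + ε) (i : ι) :
    D.c i * ell ε (max ‖a - D.p i‖ ‖b - D.p i‖) ≤ D.c i * ell ε (‖b - a‖ / 2) :=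
  mul_le_mul_of_nonneg_left (ell_anti hab (half_le_max a b _)) (D.hc i)

theorem summable_lam {ε : ℝ} (hε : 0 ≤ ε) {a b : ℂ} (hab : 0 < ‖b - a‖ / 2 + ε) :
    Summable fun i => D.c i * ell ε (max ‖a - D.p i‖ ‖b - D.p i‖) :=
  Summable.of_nonneg_of_le (fun i => D.term_nonneg hε a b i) (fun i => D.term_le hε hab i)
    (D.hs.mul_right _)

theorem lam_ge {ε : ℝ} (hε : 0 ≤ ε) (a b : ℂ) : 1 + D.tot ≤ D.lam ε a b := by
  unfold lam
  have : 0 ≤ ∑' i, D.c i * ell ε (max ‖a - D.p i‖ ‖b - D.p i‖) :=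
    tsum_nonneg (fun i => D.term_nonneg hε a b i)
  linarith

theorem lam_le {ε : ℝ} (hε : 0 ≤ ε) {a b : ℂ} (hab : 0 < ‖b - a‖ / 2 + ε) :
    D.lam ε a b ≤ 1 + D.tot + D.tot * ell ε (‖b - a‖ / 2) := by
  unfold lam tot
  have := (D.summable_lam hε hab).tsum_le_tsum (fun i => D.term_le hε hab i) (D.hs.mul_right _)
  rw [tsum_mul_right] at this
  linarith

theorem F_diff {ε : ℝ} (hε : 0 ≤ ε) {a b : ℂ} (hab : 0 < ‖b - a‖ / 2 + ε) :
    ‖D.F ε b - D.F ε a - D.lam ε a b • (b - a)‖ ≤ D.tot * ‖b - a‖ := by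
  have h1 : D.F ε b - D.F ε a - D.lam ε a b • (b - a)
      = ∑' i, D.c i • (rad ε (b - D.p i) - rad ε (a - D.p i)
          - ell ε (max ‖a - D.p i‖ ‖b - D.p i‖) • (b - a)) := by
    have e1 := (D.summable_rad hε b).tsum_sub (D.summable_rad hε a)
    have e2 : Summable fun i => (D.c i * ell ε (max ‖a - D.p i‖ ‖b - D.p i‖)) • (b - a) :=
      (D.summable_lam hε hab).smul_const _
    have e3 := ((D.summable_rad hε b).sub (D.summable_rad hε a)).tsum_sub e2
    have e4 : ∑' i, D.c i • (rad ε (b - D.p i) - rad ε (a - D.p i)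
          - ell ε (max ‖a - D.p i‖ ‖b - D.p i‖) • (b - a))
        = ∑' i, (D.c i • rad ε (b - D.p i) - D.c i • rad ε (a - D.p i)
          - (D.c i * ell ε (max ‖a - D.p i‖ ‖b - D.p i‖)) • (b - a)) :=
      tsum_congr fun i => by rw [mul_smul, ← smul_sub, ← smul_sub]
    rw [e4, e3, e1, (D.summable_lam hε hab).tsum_smul_const]
    unfold F lam
    module
  rw [h1]
  have hb : ∀ i, ‖D.c i • (rad ε (b - D.p i) - rad ε (a - D.p i)
          - ell ε (max ‖a - D.p i‖ ‖b - D.p i‖) • (b - a))‖ ≤ D.c i * ‖b - a‖ := by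
    intro i
    rw [norm_smul, Real.norm_eq_abs, abs_of_nonneg (D.hc i)]
    apply mul_le_mul_of_nonneg_left _ (D.hc i)
    have := rad_diff hε (a - D.p i) (b - D.p i)
    rw [show b - D.p i - (a - D.p i) = b - a by ring] at this
    exact this
  have := tsum_of_norm_bounded ((D.hs.mul_right ‖b - a‖).hasSum) hb
  rwa [tsum_mul_right] at this

theorem F_inner {ε : ℝ} (hε : 0 ≤ ε) {a b : ℂ} (hab : 0 < ‖b - a‖ / 2 + ε) :
    ‖b - a‖ ^ 2 ≤ inner ℝ (b - a) (D.F ε b - D.F ε a) := by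
  have h1 := D.F_diff hε hab
  have h2 : inner ℝ (b - a) (D.F ε b - D.F ε a)
      = D.lam ε a b * ‖b - a‖ ^ 2
        + inner ℝ (b - a) (D.F ε b - D.F ε a - D.lam ε a b • (b - a)) := by
    rw [inner_sub_right (b - a) (D.F ε b - D.F ε a) (D.lam ε a b • (b - a)), inner_smul_right,
      real_inner_self_eq_norm_sq]; ring
  have h3 := abs_real_inner_le_norm (b - a) (D.F ε b - D.F ε a - D.lam ε a b • (b - a))
  have h4 := (abs_le.1 h3).1
  have h5 := D.lam_ge hε a b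
  have h6 : ‖b - a‖ * ‖D.F ε b - D.F ε a - D.lam ε a b • (b - a)‖ ≤ D.tot * ‖b - a‖ ^ 2 := by
    calc _ ≤ ‖b - a‖ * (D.tot * ‖b - a‖) := mul_le_mul_of_nonneg_left h1 (norm_nonneg _)
      _ = _ := by ring
  rw [h2]
  nlinarith [sq_nonneg ‖b - a‖]

theorem F_expand {ε : ℝ} (hε : 0 ≤ ε) (a b : ℂ) : ‖b - a‖ ≤ ‖D.F ε b - D.F ε a‖ := by
  rcases (norm_nonneg (b - a)).eq_or_lt with h | h
  · rw [← h]; exact norm_nonneg _
  have h1 := D.F_inner hε (a := a) (b := b) (by positivity)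
  have h2 := real_inner_le_norm (b - a) (D.F ε b - D.F ε a)
  have h3 : ‖b - a‖ * ‖b - a‖ ≤ ‖b - a‖ * ‖D.F ε b - D.F ε a‖ := by nlinarith
  exact le_of_mul_le_mul_left h3 h

theorem F_lip {ε : ℝ} (hε : 0 < ε) : ∃ L : ℝ, 0 < L ∧ ∀ a b, ‖D.F ε b - D.F ε a‖ ≤ L * ‖b - a‖ := by
  refine ⟨1 + D.tot + D.tot * ell ε 0 + D.tot, ?_, fun a b => ?_⟩
  · have := D.tot_nonneg
    have := ell_nonneg hε.le le_rfl
    positivity
  have hab : 0 < ‖b - a‖ / 2 + ε := by positivity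
  have h1 := D.F_diff hε.le hab
  have h2 := D.lam_le hε.le hab
  have h3 : ell ε (‖b - a‖ / 2) ≤ ell ε 0 := ell_anti (by simpa using hε) (by positivity)
  have h4 := D.lam_ge hε.le a b
  have h5 := D.tot_nonneg
  have h6 : ‖D.F ε b - D.F ε a‖ ≤ ‖D.lam ε a b • (b - a)‖ + D.tot * ‖b - a‖ := by
    have : D.F ε b - D.F ε a = D.lam ε a b • (b - a)
        + (D.F ε b - D.F ε a - D.lam ε a b • (b - a)) := by ring
    rw [this]
    exact (norm_add_le _ _).trans (by gcongr)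
  rw [norm_smul, Real.norm_eq_abs, abs_of_nonneg (by linarith)] at h6
  have h7 : D.lam ε a b ≤ 1 + D.tot + D.tot * ell ε 0 := by nlinarith
  have h8 := norm_nonneg (b - a)
  nlinarith

/-- The regularized maps are surjective (strongly monotone and Lipschitz). -/
theorem F_surj_reg {ε : ℝ} (hε : 0 < ε) : Function.Surjective (D.F ε) := by
  intro w
  obtain ⟨L, hL, hlip⟩ := D.F_lip hε
  have hL1 : 1 ≤ L := by
    have h1 := D.F_expand hε.le 0 1
    have h2 := hlip 0 1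
    simp at h1 h2
    linarith
  set τ : ℝ := 1 / L ^ 2 with hτ
  have hτ0 : 0 < τ := by positivity
  set G : ℂ → ℂ := fun z => z - τ • (D.F ε z - w) with hG
  have hk : ∀ a b, ‖G b - G a‖ ^ 2 ≤ (1 - τ) * ‖b - a‖ ^ 2 := by
    intro a b
    have h1 : G b - G a = (b - a) - τ • (D.F ε b - D.F ε a) := by
      simp only [hG]; module
    have h2 := D.F_inner hε.le (a := a) (b := b) (by positivity)
    have h3 := hlip a b
    rw [h1, norm_sub_sq_real, inner_smul_right, norm_smul, mul_pow, Real.norm_eq_abs, sq_abs]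
    have h4 : ‖D.F ε b - D.F ε a‖ ^ 2 ≤ L ^ 2 * ‖b - a‖ ^ 2 := by
      rw [← mul_pow]
      exact pow_le_pow_left₀ (norm_nonneg _) h3 2
    have h5 : τ ^ 2 * ‖D.F ε b - D.F ε a‖ ^ 2 ≤ τ * ‖b - a‖ ^ 2 := by
      calc τ ^ 2 * ‖D.F ε b - D.F ε a‖ ^ 2 ≤ τ ^ 2 * (L ^ 2 * ‖b - a‖ ^ 2) := by gcongr
        _ = τ * ‖b - a‖ ^ 2 := by rw [hτ]; field_simp
    nlinarith
  have hτ1 : τ ≤ 1 := by
    rw [hτ, div_le_one (by positivity)]
    nlinarith
  have hcon : ContractingWith (Real.toNNReal (Real.sqrt (1 - τ))) G := by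
    constructor
    · rw [← NNReal.coe_lt_coe, Real.coe_toNNReal _ (Real.sqrt_nonneg _), NNReal.coe_one,
        Real.sqrt_lt' one_pos]
      linarith
    · apply LipschitzWith.of_dist_le_mul
      intro a b
      rw [Real.coe_toNNReal _ (Real.sqrt_nonneg _), dist_eq_norm, dist_eq_norm]
      have h1 := hk b a
      apply le_of_sq_le_sq _ (by positivity)
      rw [mul_pow, Real.sq_sqrt (by linarith)]
      exact h1
  refine ⟨hcon.fixedPoint G, ?_⟩
  have hfix : G (hcon.fixedPoint G) = hcon.fixedPoint G := hcon.fixedPoint_isFixedPt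
  have h1 : τ • (D.F ε (hcon.fixedPoint G) - w) = 0 := by
    simp only [hG] at hfix
    have := sub_eq_self.1 hfix
    exact this
  have h2 := (smul_eq_zero.1 h1).resolve_left hτ0.ne'
  exact sub_eq_zero.1 h2

/-- The regularized maps are uniformly close to the map. -/
theorem F_close {ε : ℝ} (hε : 0 ≤ ε) (z : ℂ) : ‖D.F ε z - D.F 0 z‖ ≤ D.tot * ε := by
  have h1 : D.F ε z - D.F 0 z = ∑' i, D.c i • (rad ε (z - D.p i) - rad 0 (z - D.p i)) := by
    have e1 := (D.summable_rad hε z).tsum_sub (D.summable_rad le_rfl z)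
    simp_rw [smul_sub]
    rw [e1]
    unfold F
    ring
  rw [h1]
  have hb : ∀ i, ‖D.c i • (rad ε (z - D.p i) - rad 0 (z - D.p i))‖ ≤ D.c i * ε := by
    intro i
    rw [norm_smul, Real.norm_eq_abs, abs_of_nonneg (D.hc i)]
    apply mul_le_mul_of_nonneg_left _ (D.hc i)
    set x := z - D.p i
    have e1 : ell ε ‖x‖ = ell 0 (‖x‖ + ε) := by unfold ell; rw [add_zero]
    have e2 : rad ε x - rad 0 x = -((ell 0 ‖x‖ - ell 0 (‖x‖ + ε)) • x) := by
      unfold rad; rw [e1]; module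
    rw [e2, norm_neg, norm_smul]
    rcases (norm_nonneg x).eq_or_lt with h0 | h0
    · rw [← h0, mul_zero]; exact hε
    rw [Real.norm_eq_abs, abs_of_nonneg (sub_nonneg.2 (ell_anti (by linarith) (by linarith))),
      mul_comm]
    have := ell_diff le_rfl (norm_nonneg x) (show ‖x‖ ≤ ‖x‖ + ε by linarith)
    linarith
  have := tsum_of_norm_bounded ((D.hs.mul_right ε).hasSum) hb
  rwa [tsum_mul_right] at this

theorem F_continuous_reg {ε : ℝ} (hε : 0 < ε) : Continuous (D.F ε) := by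
  obtain ⟨L, hL, hlip⟩ := D.F_lip hε
  have : LipschitzWith (Real.toNNReal L) (D.F ε) := by
    apply LipschitzWith.of_dist_le_mul
    intro a b
    rw [Real.coe_toNNReal _ hL.le, dist_eq_norm, dist_eq_norm]
    exact hlip b a
  exact this.continuous

theorem F_continuous : Continuous (D.F 0) := by
  apply continuous_of_uniform_approx_of_continuous
  intro u hu
  obtain ⟨η, hη, hu'⟩ := Metric.mem_uniformity_dist.1 hu
  have ht := D.tot_nonneg
  have hε : 0 < η / (2 * (D.tot + 1)) := by positivity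
  refine ⟨D.F (η / (2 * (D.tot + 1))), D.F_continuous_reg hε, fun y => hu' ?_⟩
  rw [dist_comm, dist_eq_norm]
  refine (D.F_close hε.le y).trans_lt ?_
  rw [mul_div_assoc', div_lt_iff₀ (by positivity)]
  nlinarith

theorem F_surjective : Function.Surjective (D.F 0) := by
  intro w
  have ht := D.tot_nonneg
  choose z hz using fun n : ℕ => D.F_surj_reg (ε := 1 / ((n : ℝ) + 1)) (by positivity) w
  have hclose : ∀ n, ‖D.F 0 (z n) - w‖ ≤ D.tot * (1 / ((n : ℝ) + 1)) := by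
    intro n
    have := D.F_close (ε := 1 / ((n : ℝ) + 1)) (by positivity) (z n)
    rwa [hz n, norm_sub_rev] at this
  have hlim0 : Tendsto (fun n : ℕ => D.tot * (1 / ((n : ℝ) + 1))) atTop (𝓝 0) := by
    have := (tendsto_one_div_add_atTop_nhds_zero_nat (𝕜 := ℝ)).const_mul D.tot
    simpa using this
  have hlim : Tendsto (fun n => D.F 0 (z n)) atTop (𝓝 w) := by
    rw [← tendsto_sub_nhds_zero_iff]
    exact squeeze_zero_norm hclose hlim0
  have hcau : CauchySeq z := by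
    have h1 := hlim.cauchySeq
    rw [Metric.cauchySeq_iff'] at h1 ⊢
    intro ε hε
    obtain ⟨N, hN⟩ := h1 ε hε
    refine ⟨N, fun n hn => lt_of_le_of_lt ?_ (hN n hn)⟩
    rw [dist_eq_norm, dist_eq_norm]
    exact D.F_expand le_rfl _ _
  obtain ⟨z₀, hz₀⟩ := cauchySeq_tendsto_of_complete hcau
  refine ⟨z₀, ?_⟩
  exact tendsto_nhds_unique ((D.F_continuous.tendsto z₀).comp hz₀) hlim

theorem F_injective : Function.Injective (D.F 0) := by
  intro a b h
  have := D.F_expand le_rfl a b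
  rw [h, sub_self, norm_zero] at this
  have := norm_le_zero_iff.1 this
  exact (sub_eq_zero.1 this).symm

/-- The homeomorphism. -/
noncomputable def homeo : ℂ ≃ₜ ℂ where
  toEquiv := Equiv.ofBijective (D.F 0) ⟨D.F_injective, D.F_surjective⟩
  continuous_toFun := D.F_continuous
  continuous_invFun := by
    have : LipschitzWith 1 (Equiv.ofBijective (D.F 0) ⟨D.F_injective, D.F_surjective⟩).symm := by
      apply LipschitzWith.of_dist_le_mul
      intro a b
      rw [NNReal.coe_one, one_mul, dist_eq_norm, dist_eq_norm]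
      set e := Equiv.ofBijective (D.F 0) ⟨D.F_injective, D.F_surjective⟩
      have h1 : ∀ x, D.F 0 (e.symm x) = x := fun x => e.apply_symm_apply x
      have := D.F_expand le_rfl (e.symm b) (e.symm a)
      rwa [h1, h1] at this
    exact this.continuous

theorem homeo_apply (z : ℂ) : D.homeo z = D.F 0 z := rfl

/-! ### Differentiability away from the singular set -/

theorem rad_contDiffAt {z : ℂ} (hz : z ≠ 0) : ContDiffAt ℝ 2 (rad 0) z := by
  have h1 : ContDiffAt ℝ 2 (fun z : ℂ => ‖z‖) z := contDiffAt_norm ℝ hz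
  have hn : ‖z‖ ≠ 0 := norm_ne_zero_iff.2 hz
  have h2 : ContDiffAt ℝ 2 (fun z : ℂ => Real.log (1 + 1 / (‖z‖ + 0))) z := by
    apply ContDiffAt.log
    · apply contDiffAt_const.add
      apply contDiffAt_const.div (h1.add contDiffAt_const)
      simpa using hn
    · positivity
  exact h2.smul contDiffAt_id

theorem rad_fderiv_le {δ : ℝ} (hδ : 0 < δ) {z : ℂ} (hz : δ < ‖z‖) :
    ‖fderiv ℝ (rad 0) z‖ ≤ ell 0 δ + 1 := by
  have hz0 : z ≠ 0 := by
    rintro rfl; simp at hz; linarith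
  have hd := ((rad_contDiffAt hz0).differentiableAt (by norm_num)).hasFDerivAt
  apply hd.le_of_lip' (by have := ell_nonneg (le_refl (0:ℝ)) hδ.le; linarith)
  filter_upwards with x
  have h1 := rad_diff (le_refl (0 : ℝ)) z x
  have h2 : ell 0 (max ‖z‖ ‖x‖) ≤ ell 0 δ :=
    ell_anti (by linarith) (hz.le.trans (le_max_left _ _))
  have h3 : 0 ≤ ell 0 (max ‖z‖ ‖x‖) := ell_nonneg le_rfl (le_max_of_le_left (norm_nonneg _))
  have h4 : ‖rad 0 x - rad 0 z‖ ≤ ‖ell 0 (max ‖z‖ ‖x‖) • (x - z)‖ + ‖x - z‖ := by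
    have : rad 0 x - rad 0 z = ell 0 (max ‖z‖ ‖x‖) • (x - z)
        + (rad 0 x - rad 0 z - ell 0 (max ‖z‖ ‖x‖) • (x - z)) := by ring
    rw [this]
    exact (norm_add_le _ _).trans (by gcongr)
  rw [norm_smul, Real.norm_eq_abs, abs_of_nonneg h3] at h4
  nlinarith [norm_nonneg (x - z)]

/-- The map is strictly differentiable away from the closure of the centres. -/
theorem exists_hasStrictFDerivAt {z₀ : ℂ} {δ : ℝ} (hδ : 0 < δ)
    (hfar : ∀ i, 2 * δ ≤ ‖z₀ - D.p i‖) :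
    ∃ A : ℂ →L[ℝ] ℂ, HasStrictFDerivAt (D.F 0) A z₀ := by
  have hfar' : ∀ i, ∀ x ∈ Metric.ball z₀ δ, δ < ‖x - D.p i‖ := by
    intro i x hx
    rw [Metric.mem_ball, dist_eq_norm] at hx
    have h1 := hfar i
    have h2 : ‖z₀ - D.p i‖ ≤ ‖x - D.p i‖ + ‖x - z₀‖ := by
      have : z₀ - D.p i = (x - D.p i) - (x - z₀) := by ring
      rw [this]; exact norm_sub_le _ _
    linarith
  have hne : ∀ i, ∀ x ∈ Metric.ball z₀ δ, x - D.p i ≠ 0 := by
    intro i x hx h
    have := hfar' i x hx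
    rw [h, norm_zero] at this
    linarith
  set f' : ι → ℂ → ℂ →L[ℝ] ℂ := fun i x => D.c i • fderiv ℝ (rad 0) (x - D.p i) with hf'
  have hder : ∀ i, ∀ x ∈ Metric.ball z₀ δ,
      HasFDerivAt (fun z => D.c i • rad 0 (z - D.p i)) (f' i x) x := by
    intro i x hx
    have h1 := ((rad_contDiffAt (hne i x hx)).differentiableAt (by norm_num)).hasFDerivAt
    have h2 : HasFDerivAt (fun z : ℂ => z - D.p i) (ContinuousLinearMap.id ℝ ℂ) x :=
      (hasFDerivAt_id x).sub_const _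
    have h3 := (h1.comp x h2).const_smul (D.c i)
    rw [ContinuousLinearMap.comp_id] at h3
    exact h3
  have hbd : ∀ i, ∀ x ∈ Metric.ball z₀ δ, ‖f' i x‖ ≤ D.c i * (ell 0 δ + 1) := by
    intro i x hx
    simp only [hf']
    rw [norm_smul, Real.norm_eq_abs, abs_of_nonneg (D.hc i)]
    exact mul_le_mul_of_nonneg_left (rad_fderiv_le hδ (hfar' i x hx)) (D.hc i)
  have hcont : ∀ i, ContinuousOn (f' i) (Metric.ball z₀ δ) := by
    intro i x hx
    apply ContinuousAt.continuousWithinAt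
    have h1 : ContinuousAt (fderiv ℝ (rad 0)) (x - D.p i) :=
      (rad_contDiffAt (hne i x hx)).continuousAt_fderiv (by norm_num)
    have h2 : ContinuousAt (fun x : ℂ => x - D.p i) x := by fun_prop
    exact (ContinuousAt.comp (f := fun x : ℂ => x - D.p i) (x := x) h1 h2).const_smul (D.c i)
  have hsum : Summable fun i => D.c i * (ell 0 δ + 1) := D.hs.mul_right _
  have hz₀ : z₀ ∈ Metric.ball z₀ δ := Metric.mem_ball_self hδ
  have hball : Metric.ball z₀ δ ∈ 𝓝 z₀ := Metric.ball_mem_nhds z₀ hδ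
  have hT : ∀ x ∈ Metric.ball z₀ δ,
      HasFDerivAt (fun y => ∑' i, D.c i • rad 0 (y - D.p i)) (∑' i, f' i x) x := fun x hx =>
    hasFDerivAt_tsum_of_isPreconnected hsum Metric.isOpen_ball
      (convex_ball z₀ δ).isPreconnected hder hbd hz₀ (D.summable_rad le_rfl z₀) hx
  have hC : ContinuousOn (fun x => ∑' i, f' i x) (Metric.ball z₀ δ) :=
    continuousOn_tsum hcont hsum hbd
  have hS : HasStrictFDerivAt (fun y => ∑' i, D.c i • rad 0 (y - D.p i)) (∑' i, f' i z₀) z₀ :=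
    hasStrictFDerivAt_of_hasFDerivAt_of_continuousAt
      (Filter.eventually_of_mem hball hT) (hC.continuousAt hball)
  exact ⟨_, ((hasStrictFDerivAt_id z₀).const_smul (1 + D.tot)).add hS⟩

theorem deriv_injective {z₀ : ℂ} {A : ℂ →L[ℝ] ℂ} (hA : HasFDerivAt (D.F 0) A z₀) (v : ℂ) :
    ‖v‖ ≤ ‖A v‖ := by
  have h1 := hA.hasLineDerivAt v
  have h2 := h1.tendsto_slope_zero
  have h3 := h2.norm
  refine ge_of_tendsto h3 ?_
  filter_upwards [self_mem_nhdsWithin] with t ht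
  have ht0 : t ≠ 0 := ht
  have h4 := D.F_expand le_rfl z₀ (z₀ + t • v)
  rw [add_sub_cancel_left, norm_smul] at h4
  rw [norm_smul, norm_inv]
  have h5 : 0 < ‖t‖ := norm_pos_iff.2 ht0
  rw [inv_mul_eq_div, le_div_iff₀ h5]
  linarith [mul_comm ‖t‖ ‖v‖]

end Data

end R789.LogMap
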