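import Mathlib
import Pool.Agent.R789.LogMap

/-!
# The homeomorphism maps `C¹` curves to `C¹` curves
-/

namespace R789.LogMap

open Set hiding unit
open Filter Topology R789.Sec

/-! ### Directions -/

theorem unit_smul_pos {x : ℂ} {r : ℝ} (hr : 0 < r) : unit (r • x) = unit x := by
  unfold unit
  rw [norm_smul, Real.norm_eq_abs, abs_of_pos hr, mul_inv, smul_smul]
  congr 1
  field_simp

theorem unit_close {Δ u : ℂ} {L C : ℝ} (hC : 0 ≤ C) (hL : C < L) (hu : u ≠ 0)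
    (h : ‖Δ - L • u‖ ≤ C * ‖u‖) : ‖unit Δ - unit u‖ ≤ 2 * C / L := by
  have hL0 : 0 < L := lt_of_le_of_lt hC hL
  have hu0 : 0 < ‖u‖ := norm_pos_iff.2 hu
  set r : ℝ := (L * ‖u‖)⁻¹ with hr
  have hr0 : 0 < r := by positivity
  set x : ℂ := r • Δ with hx
  have h1 : ‖x - unit u‖ ≤ C / L := by
    have h2 : x - unit u = r • (Δ - L • u) := by
      rw [smul_sub, smul_smul, hx, unit]
      congr 2
      rw [hr]; field_simp
    rw [h2, norm_smul, Real.norm_eq_abs, abs_of_pos hr0]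
    calc r * ‖Δ - L • u‖ ≤ r * (C * ‖u‖) := mul_le_mul_of_nonneg_left h hr0.le
      _ = C / L := by rw [hr]; field_simp
  have h3 : unit Δ = unit x := (unit_smul_pos hr0).symm
  have h4 : ‖unit x - x‖ ≤ C / L := by
    have h5 : |‖x‖ - 1| ≤ C / L := by
      have := abs_norm_sub_norm_le x (unit u)
      rw [norm_unit hu] at this
      exact this.trans h1
    have h6 : C / L < 1 := by rwa [div_lt_one hL0]
    have hx0 : x ≠ 0 := by
      rintro h7
      rw [h7, norm_zero, zero_sub, abs_neg, abs_one] at h5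
      linarith
    have h8 : unit x - x = (1 - ‖x‖) • unit x := by
      rw [sub_smul, one_smul, norm_smul_unit]
    rw [h8, norm_smul, norm_unit hx0, mul_one, Real.norm_eq_abs, abs_sub_comm]
    exact h5
  rw [h3]
  calc ‖unit x - unit u‖ ≤ ‖unit x - x‖ + ‖x - unit u‖ := norm_sub_le_norm_sub_add_norm_sub _ _ _
    _ ≤ C / L + C / L := add_le_add h4 h1
    _ = 2 * C / L := by ring

/-- A strictly differentiable curve with nonzero derivative has a secant direction. -/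
theorem secDir_of_strict {Γ : ℝ → ℂ} {t₀ : ℝ} {v : ℂ} (h : HasStrictDerivAt Γ v t₀) (hv : v ≠ 0) :
    SecDir Γ t₀ (unit v) := by
  have hU : ContinuousAt (unit : ℂ → ℂ) v := by
    unfold unit
    have : ‖v‖ ≠ 0 := norm_ne_zero_iff.2 hv
    exact (continuous_norm.continuousAt.inv₀ this).smul continuousAt_id
  have hsl : Tendsto (fun p : ℝ × ℝ => (p.2 - p.1)⁻¹ • (Γ p.2 - Γ p.1)) (𝓝[ltSet] (t₀, t₀)) (𝓝 v) := by
    rw [Metric.tendsto_nhds]
    intro ε hε
    have h1 := (hasStrictFDerivAt_iff_isLittleO.1 h.hasStrictFDerivAt)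
    have h2 := (Asymptotics.isLittleO_iff.1 h1) (half_pos hε)
    have h3 : Tendsto (fun p : ℝ × ℝ => (p.2, p.1)) (𝓝 (t₀, t₀)) (𝓝 (t₀, t₀)) :=
      (continuous_snd.prodMk continuous_fst).tendsto' _ _ rfl
    have h4 := h3.eventually h2
    rw [eventually_nhdsWithin_iff]
    filter_upwards [h4] with p hp hlt
    have hpos : 0 < p.2 - p.1 := sub_pos.2 hlt
    rw [dist_eq_norm]
    have h5 : (p.2 - p.1)⁻¹ • (Γ p.2 - Γ p.1) - v
        = (p.2 - p.1)⁻¹ • (Γ p.2 - Γ p.1 - (p.2 - p.1) • v) := by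
      rw [smul_sub ((p.2 - p.1)⁻¹) (Γ p.2 - Γ p.1) ((p.2 - p.1) • v), smul_smul,
        inv_mul_cancel₀ hpos.ne', one_smul]
    rw [h5, norm_smul, norm_inv, Real.norm_eq_abs, abs_of_pos hpos, inv_mul_lt_iff₀ hpos]
    have h6 : ‖Γ p.2 - Γ p.1 - (p.2 - p.1) • v‖ ≤ ε / 2 * ‖p.2 - p.1‖ := by simpa using hp
    rw [Real.norm_eq_abs, abs_of_pos hpos] at h6
    nlinarith
  have h1 := hU.tendsto.comp hsl
  refine h1.congr' ?_
  rw [EventuallyEq, eventually_nhdsWithin_iff]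
  filter_upwards with p hlt
  have hpos : 0 < p.2 - p.1 := sub_pos.2 hlt
  exact unit_smul_pos (inv_pos.2 hpos)

/-- If `Δ = L u + O(|u|)` with `L → ∞` then `Δ` and `u` have the same limit direction. -/
theorem unit_tendsto {l : Filter (ℝ × ℝ)} {Δ u : ℝ × ℝ → ℂ} {L : ℝ × ℝ → ℝ} {C : ℝ} (hC : 0 ≤ C)
    (hL : Tendsto L l atTop) (hu : ∀ᶠ p in l, u p ≠ 0)
    (h : ∀ᶠ p in l, ‖Δ p - L p • u p‖ ≤ C * ‖u p‖) :
    Tendsto (fun p => unit (Δ p) - unit (u p)) l (𝓝 0) := by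
  have h0 : Tendsto (fun p => 2 * C / L p) l (𝓝 0) := Tendsto.const_div_atTop hL (2 * C)
  apply squeeze_zero_norm' _ h0
  filter_upwards [hu, h, hL.eventually_gt_atTop C] with p h1 h2 h3
  exact unit_close hC h3 h1 h2

namespace Data

variable {ι : Type*} (D : Data ι)

/-- The singular set `K` is closed, contains the centres, and the dilatation factor tends to
infinity at every point of `K`. -/
structure Sing (K : Set ℂ) : Prop where
  closed : IsClosed K
  mem : ∀ i, D.p i ∈ K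
  blow : ∀ q ∈ K, ∀ M : ℝ, ∃ δ > 0, ∀ a b, ‖a - q‖ < δ → ‖b - q‖ < δ → a ≠ b → M ≤ D.lam 0 a b

variable {D} {K : Set ℂ}

theorem Sing.strict (hK : D.Sing K) {z : ℂ} (hz : z ∉ K) :
    ∃ A : ℂ ≃L[ℝ] ℂ, HasStrictFDerivAt (D.F 0) (A : ℂ →L[ℝ] ℂ) z := by
  obtain ⟨δ, hδ, hball⟩ := Metric.isOpen_iff.1 hK.closed.isOpen_compl z hz
  have hfar : ∀ i, 2 * (δ / 2) ≤ ‖z - D.p i‖ := by
    intro i
    by_contra hcon
    push Not at hcon
    have : D.p i ∈ Metric.ball z δ := by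
      rw [Metric.mem_ball, dist_eq_norm, norm_sub_rev]; linarith
    exact hball this (hK.mem i)
  obtain ⟨A, hA⟩ := D.exists_hasStrictFDerivAt (half_pos hδ) hfar
  have hinj : Function.Injective A := by
    rw [injective_iff_map_eq_zero]
    intro v hv
    have := D.deriv_injective hA.hasFDerivAt v
    rw [hv, norm_zero] at this
    exact norm_le_zero_iff.1 this
  set e := (LinearEquiv.ofInjectiveEndo (A : ℂ →ₗ[ℝ] ℂ) hinj).toContinuousLinearEquiv with he
  refine ⟨e, ?_⟩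
  have : (e : ℂ →L[ℝ] ℂ) = A := by
    ext1; rfl
  rw [this]
  exact hA

theorem eventually_ne_of_secDir {γ : ℝ → ℂ} (hi : ∀ s t, s < t → t < s + 1 → γ s ≠ γ t) (t₀ : ℝ) :
    ∀ᶠ p : ℝ × ℝ in 𝓝[ltSet] (t₀, t₀), γ p.1 ≠ γ p.2 := by
  rw [eventually_nhdsWithin_iff]
  have h3 : ∀ᶠ p : ℝ × ℝ in 𝓝 (t₀, t₀), p.2 < p.1 + 1 :=
    ContinuousAt.eventually_lt (by fun_prop) (by fun_prop) (by simp)
  filter_upwards [h3] with p hp hlt
  exact hi _ _ hlt hp

theorem Sing.lam_tendsto (hK : D.Sing K) {α : ℝ → ℂ} {t₀ : ℝ} (hα : ContinuousAt α t₀)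
    (hq : α t₀ ∈ K) (hne : ∀ᶠ p : ℝ × ℝ in 𝓝[ltSet] (t₀, t₀), α p.1 ≠ α p.2) :
    Tendsto (fun p : ℝ × ℝ => D.lam 0 (α p.1) (α p.2)) (𝓝[ltSet] (t₀, t₀)) atTop := by
  rw [tendsto_atTop]
  intro M
  obtain ⟨δ, hδ, h⟩ := hK.blow (α t₀) hq M
  have h1 : ∀ᶠ p : ℝ × ℝ in 𝓝 (t₀, t₀), ‖α p.1 - α t₀‖ < δ := by
    have hc : ContinuousAt (fun p : ℝ × ℝ => ‖α p.1 - α t₀‖) (t₀, t₀) := by
      have : ContinuousAt (fun p : ℝ × ℝ => α p.1) (t₀, t₀) :=
        ContinuousAt.comp (f := fun p : ℝ × ℝ => p.1) (x := (t₀, t₀)) hα continuousAt_fst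
      exact (this.sub continuousAt_const).norm
    exact hc.eventually_lt continuousAt_const (by simpa using hδ)
  have h2 : ∀ᶠ p : ℝ × ℝ in 𝓝 (t₀, t₀), ‖α p.2 - α t₀‖ < δ := by
    have hc : ContinuousAt (fun p : ℝ × ℝ => ‖α p.2 - α t₀‖) (t₀, t₀) := by
      have : ContinuousAt (fun p : ℝ × ℝ => α p.2) (t₀, t₀) :=
        ContinuousAt.comp (f := fun p : ℝ × ℝ => p.2) (x := (t₀, t₀)) hα continuousAt_snd
      exact (this.sub continuousAt_const).norm
    exact hc.eventually_lt continuousAt_const (by simpa using hδ)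
  filter_upwards [mem_nhdsWithin_of_mem_nhds h1, mem_nhdsWithin_of_mem_nhds h2, hne] with p k1 k2 k3
  exact h _ _ k1 k2 k3

theorem F_diff' {a b : ℂ} (hab : a ≠ b) :
    ‖D.F 0 b - D.F 0 a - D.lam 0 a b • (b - a)‖ ≤ D.tot * ‖b - a‖ := by
  apply D.F_diff le_rfl
  have : 0 < ‖b - a‖ := norm_pos_iff.2 (sub_ne_zero.2 hab.symm)
  positivity

/-- Secant directions of the image of a curve. -/
theorem Sing.secDir_image (hK : D.Sing K) {γ : ℝ → ℂ} {t₀ : ℝ} {v : ℂ}
    (hγ : HasStrictDerivAt γ v t₀) (hv : v ≠ 0)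
    (hi : ∀ s t, s < t → t < s + 1 → γ s ≠ γ t) :
    ∃ T, SecDir (fun t => D.homeo (γ t)) t₀ T := by
  by_cases hz : γ t₀ ∈ K
  · refine ⟨unit v, ?_⟩
    have h1 := secDir_of_strict hγ hv
    have hne := eventually_ne_of_secDir hi t₀
    have h2 := unit_tendsto (Δ := fun p => D.homeo (γ p.2) - D.homeo (γ p.1))
      (u := fun p => γ p.2 - γ p.1) (L := fun p => D.lam 0 (γ p.1) (γ p.2)) D.tot_nonneg
      (hK.lam_tendsto hγ.hasDerivAt.continuousAt hz hne)
      (hne.mono fun p hp => sub_ne_zero.2 hp.symm)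
      (hne.mono fun p hp => F_diff' hp)
    have h3 := h2.add h1
    rw [zero_add] at h3
    refine h3.congr fun p => ?_
    simp
  · obtain ⟨A, hA⟩ := hK.strict hz
    refine ⟨unit (A v), secDir_of_strict ?_ ?_⟩
    · exact hA.comp_hasStrictDerivAt t₀ hγ
    · simpa using hv

theorem F_symm (D : Data ι) (w : ℂ) : D.F 0 (D.homeo.symm w) = w := D.homeo.apply_symm_apply w

/-- Secant directions of the preimage of a curve. -/
theorem Sing.secDir_preimage (hK : D.Sing K) {γ : ℝ → ℂ} {t₀ : ℝ} {v : ℂ}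
    (hγ : HasStrictDerivAt γ v t₀) (hv : v ≠ 0)
    (hi : ∀ s t, s < t → t < s + 1 → γ s ≠ γ t) :
    ∃ T, SecDir (fun t => D.homeo.symm (γ t)) t₀ T := by
  by_cases hz : D.homeo.symm (γ t₀) ∈ K
  · refine ⟨unit v, ?_⟩
    have h1 := secDir_of_strict hγ hv
    have hne := eventually_ne_of_secDir hi t₀
    have hne' : ∀ᶠ p : ℝ × ℝ in 𝓝[ltSet] (t₀, t₀),
        D.homeo.symm (γ p.1) ≠ D.homeo.symm (γ p.2) :=
      hne.mono fun p hp h => hp (D.homeo.symm.injective h)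
    have hc : ContinuousAt (fun t => D.homeo.symm (γ t)) t₀ :=
      ContinuousAt.comp (g := (D.homeo.symm : ℂ → ℂ)) (f := γ)
        D.homeo.symm.continuous.continuousAt hγ.hasDerivAt.continuousAt
    have hL := hK.lam_tendsto (α := fun t => D.homeo.symm (γ t)) hc hz hne'
    have hu : ∀ᶠ p : ℝ × ℝ in 𝓝[ltSet] (t₀, t₀),
        D.homeo.symm (γ p.2) - D.homeo.symm (γ p.1) ≠ 0 :=
      hne'.mono fun p hp => sub_ne_zero.2 hp.symm
    have hd : ∀ᶠ p : ℝ × ℝ in 𝓝[ltSet] (t₀, t₀),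
        ‖(γ p.2 - γ p.1) - D.lam 0 (D.homeo.symm (γ p.1)) (D.homeo.symm (γ p.2)) •
          (D.homeo.symm (γ p.2) - D.homeo.symm (γ p.1))‖
          ≤ D.tot * ‖D.homeo.symm (γ p.2) - D.homeo.symm (γ p.1)‖ := by
      filter_upwards [hne'] with p hp
      have := F_diff' (D := D) hp
      rw [D.F_symm, D.F_symm] at this
      exact this
    have h2 := unit_tendsto (Δ := fun p => γ p.2 - γ p.1)
      (u := fun p => D.homeo.symm (γ p.2) - D.homeo.symm (γ p.1)) D.tot_nonneg hL hu hd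
    have h3 := (Tendsto.sub h1 h2)
    rw [sub_zero] at h3
    refine h3.congr fun p => ?_
    simp
  · obtain ⟨A, hA⟩ := hK.strict hz
    refine ⟨unit (A.symm v), secDir_of_strict ?_ ?_⟩
    · have h1 : HasStrictFDerivAt (D.homeo.symm) (A.symm : ℂ →L[ℝ] ℂ) (γ t₀) :=
        HasStrictFDerivAt.of_local_left_inverse D.homeo.symm.continuous.continuousAt hA
          (Eventually.of_forall fun y => D.homeo.apply_symm_apply y)
      exact h1.comp_hasStrictDerivAt t₀ hγ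
    · simpa using hv

/-- The map is not differentiable at the points of the singular set. -/
theorem Sing.not_differentiableAt (hK : D.Sing K) {q : ℂ} (hq : q ∈ K) :
    ¬ DifferentiableAt ℝ (D.homeo : ℂ → ℂ) q := by
  intro hd
  have h1 := hd.hasFDerivAt
  set A := fderiv ℝ (D.homeo : ℂ → ℂ) q
  obtain ⟨δ, hδ, hblow⟩ := hK.blow q hq (‖A‖ + D.tot + 3)
  have h2 := (hasFDerivAt_iff_isLittleO_nhds_zero.1 h1)
  have h3 := Asymptotics.isLittleO_iff.1 h2 one_pos
  obtain ⟨δ', hδ', h4⟩ := Metric.eventually_nhds_iff.1 h3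
  set h : ℂ := ((min δ δ' / 2 : ℝ) : ℂ) with hh
  have hmin : 0 < min δ δ' := lt_min hδ hδ'
  have hn : ‖h‖ = min δ δ' / 2 := by
    rw [hh, Complex.norm_real, Real.norm_eq_abs, abs_of_pos (by positivity)]
  have hh0 : h ≠ 0 := by rw [← norm_ne_zero_iff, hn]; positivity
  have h5 := h4 (y := h) (by
    rw [dist_zero_right, hn]
    have := min_le_right δ δ'
    linarith)
  have h6 := hblow q (q + h) (by simpa using hδ) (by
    rw [add_sub_cancel_left, hn]
    have := min_le_left δ δ'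
    linarith) (by simpa using hh0)
  have h7 := F_diff' (D := D) (a := q) (b := q + h) (by simpa using hh0)
  rw [add_sub_cancel_left, ← D.homeo_apply, ← D.homeo_apply] at h7
  have h8 : ‖D.lam 0 q (q + h) • h‖ ≤ (D.tot + ‖A‖ + 1) * ‖h‖ := by
    have e1 : D.lam 0 q (q + h) • h = (D.homeo (q + h) - D.homeo q - A h)
        - (D.homeo (q + h) - D.homeo q - D.lam 0 q (q + h) • h) + A h := by ring
    rw [e1]
    refine (norm_add_le _ _).trans ?_
    have e2 := norm_sub_le (D.homeo (q + h) - D.homeo q - A h)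
      (D.homeo (q + h) - D.homeo q - D.lam 0 q (q + h) • h)
    have e3 := A.le_opNorm h
    linarith
  rw [norm_smul, Real.norm_eq_abs, abs_of_nonneg (by
    have := norm_nonneg A; have := D.tot_nonneg; linarith)] at h8
  have h9 : 0 < ‖h‖ := norm_pos_iff.2 hh0
  have h10 := le_of_mul_le_mul_right h8 h9
  linarith

end Data

end R789.LogMap
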