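import Mathlib
import Pool.Agent.R789.LogHomeo

/-!
# A thin Cantor set of centres
-/

namespace R789.LogMap.Cantor

open Set Filter Topology R789.LogMap

/-- the scales -/
noncomputable def r (n : ℕ) : ℝ := Real.exp (-((n + 1) * 4 ^ n)) / 3

theorem r_pos (n : ℕ) : 0 < r n := by unfold r; positivity

theorem r_half (n : ℕ) : r (n + 1) ≤ r n / 2 := by
  unfold r
  have h1 : Real.exp (-(((n + 1 : ℕ) : ℝ) + 1) * 4 ^ (n + 1))
      ≤ Real.exp (-((n + 1 : ℝ) * 4 ^ n)) / 2 := by
    have h2 : -(((n + 1 : ℕ) : ℝ) + 1) * 4 ^ (n + 1) ≤ -((n + 1 : ℝ) * 4 ^ n) + -1 := by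
      push_cast
      have h3 : (1 : ℝ) ≤ 4 ^ n := one_le_pow₀ (by norm_num)
      have h4 : (0 : ℝ) ≤ n := Nat.cast_nonneg n
      rw [pow_succ]
      nlinarith
    have h5 : Real.exp (-1) ≤ 1 / 2 := by
      rw [Real.exp_neg, one_div]
      apply inv_anti₀ (by norm_num)
      have := Real.add_one_le_exp 1
      linarith
    calc _ ≤ Real.exp (-((n + 1 : ℝ) * 4 ^ n) + -1) := Real.exp_le_exp.2 h2
      _ = Real.exp (-((n + 1 : ℝ) * 4 ^ n)) * Real.exp (-1) := Real.exp_add _ _
      _ ≤ Real.exp (-((n + 1 : ℝ) * 4 ^ n)) * (1 / 2) := by gcongr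
      _ = _ := by ring
  have h6 : -((((n + 1 : ℕ) : ℝ) + 1) * 4 ^ (n + 1)) = -(((n + 1 : ℕ) : ℝ) + 1) * 4 ^ (n + 1) := by
    ring
  rw [h6]
  linarith

theorem r_anti : Antitone r := antitone_nat_of_succ_le fun n => by
  have := r_half n
  have := r_pos n
  linarith

theorem r_tendsto : Tendsto r atTop (𝓝 0) := by
  have h : ∀ n, r n ≤ r 0 * (1 / 2) ^ n := by
    intro n
    induction n with
    | zero => simp
    | succ n ih =>
      rw [pow_succ]
      have := r_half n
      linarith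
  have h2 : Tendsto (fun n : ℕ => r 0 * (1 / 2 : ℝ) ^ n) atTop (𝓝 0) := by
    have := (tendsto_pow_atTop_nhds_zero_of_lt_one (r := (1 / 2 : ℝ)) (by norm_num)
      (by norm_num)).const_mul (r 0)
    simpa using this
  exact squeeze_zero (fun n => (r_pos n).le) h h2

theorem sum_Ico_le (n m : ℕ) (h : n ≤ m) : ∑ i ∈ Finset.Ico n m, r i ≤ 2 * r n - 2 * r m := by
  induction m, h using Nat.le_induction with
  | base => simp
  | succ m hm ih =>
    rw [Finset.sum_Ico_succ_top hm]
    have := r_half m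
    linarith

theorem sum_le {u : Finset ℕ} {n : ℕ} (hu : ∀ i ∈ u, n ≤ i) : ∑ i ∈ u, r i ≤ 2 * r n := by
  obtain ⟨m, hm⟩ : ∃ m, ∀ i ∈ u, i < m := ⟨u.sup id + 1, fun i hi =>
    Nat.lt_succ_of_le (Finset.le_sup (f := id) hi)⟩
  have h1 : u ⊆ Finset.Ico n (max n m) := by
    intro i hi
    rw [Finset.mem_Ico]
    exact ⟨hu i hi, lt_of_lt_of_le (hm i hi) (le_max_right _ _)⟩
  have h2 := Finset.sum_le_sum_of_subset_of_nonneg h1 (fun i _ _ => (r_pos i).le)
  have h3 := sum_Ico_le n (max n m) (le_max_left _ _)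
  have h4 := r_pos (max n m)
  linarith

/-- the centres -/
noncomputable def cen (s : Finset ℕ) : ℂ := ((∑ i ∈ s, r i : ℝ) : ℂ)

/-- the weights -/
noncomputable def wt (s : Finset ℕ) : ℝ := 1 / (((∑ i ∈ s, 2 ^ i : ℕ) : ℝ) + 1) ^ 2

theorem wt_summable : Summable wt := by
  have h1 : Summable (fun n : ℕ => 1 / ((n : ℝ) + 1) ^ 2) := by
    have := (summable_nat_add_iff (f := fun n : ℕ => 1 / (n : ℝ) ^ 2) 1).2
      (Real.summable_one_div_nat_pow.2 (by norm_num))
    simpa using this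
  exact h1.comp_injective (Finset.geomSum_injective (n := 2) le_rfl)

/-- the data -/
noncomputable def data : Data (Finset ℕ) where
  c := wt
  p := cen
  hc s := by unfold wt; positivity
  hs := wt_summable

theorem wt_ge {s : Finset ℕ} {n : ℕ} (hs : ∀ i ∈ s, i < n) : 1 / 4 ^ n ≤ wt s := by
  have h1 : ∑ i ∈ s, 2 ^ i < 2 ^ n := Nat.geomSum_lt le_rfl hs
  have h2 : ((∑ i ∈ s, 2 ^ i : ℕ) : ℝ) + 1 ≤ 2 ^ n := by exact_mod_cast h1
  unfold wt
  apply one_div_le_one_div_of_le (by positivity)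
  calc (((∑ i ∈ s, 2 ^ i : ℕ) : ℝ) + 1) ^ 2 ≤ (2 ^ n) ^ 2 := pow_le_pow_left₀ (by positivity) h2 2
    _ = 4 ^ n := by rw [← pow_mul, mul_comm n 2, pow_mul]; norm_num

/-- the singular set -/
def K : Set ℂ := closure (range cen)

theorem approx {q : ℂ} (hq : q ∈ K) (n : ℕ) :
    ∃ s : Finset ℕ, (∀ i ∈ s, i < n) ∧ ‖q - cen s‖ ≤ 2 * r n := by
  have hfin : {s : Finset ℕ | ∀ i ∈ s, i < n}.Finite := by
    apply (Finset.finite_toSet (Finset.range n).powerset).subset
    intro s hs
    rw [Finset.mem_coe, Finset.mem_powerset]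
    intro i hi
    exact Finset.mem_range.2 (hs i hi)
  have hcl : IsClosed (⋃ s ∈ {s : Finset ℕ | ∀ i ∈ s, i < n}, Metric.closedBall (cen s) (2 * r n)) :=
    hfin.isClosed_biUnion fun s _ => Metric.isClosed_closedBall
  have hsub : range cen ⊆
      ⋃ s ∈ {s : Finset ℕ | ∀ i ∈ s, i < n}, Metric.closedBall (cen s) (2 * r n) := by
    rintro _ ⟨t, rfl⟩
    refine mem_iUnion₂.2 ⟨t.filter (· < n), fun i hi => (Finset.mem_filter.1 hi).2, ?_⟩
    rw [Metric.mem_closedBall, dist_eq_norm]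
    have h1 : cen t - cen (t.filter (· < n)) = ((∑ i ∈ t.filter (fun i => ¬ i < n), r i : ℝ) : ℂ) := by
      unfold cen
      rw [← Complex.ofReal_sub, ← Finset.sum_filter_add_sum_filter_not t (· < n) r]
      congr 1
      ring
    rw [h1, Complex.norm_real, Real.norm_eq_abs,
      abs_of_nonneg (Finset.sum_nonneg fun i _ => (r_pos i).le)]
    apply sum_le
    intro i hi
    exact not_lt.1 (Finset.mem_filter.1 hi).2
  have h := closure_minimal hsub hcl hq
  obtain ⟨s, hs, h2⟩ := mem_iUnion₂.1 h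
  refine ⟨s, hs, ?_⟩
  rwa [Metric.mem_closedBall, dist_eq_norm] at h2

theorem ell_ge (n : ℕ) : ((n : ℝ) + 1) * 4 ^ n ≤ ell 0 (3 * r n) := by
  unfold ell
  rw [Real.le_log_iff_exp_le (by have := r_pos n; positivity)]
  have h1 : 3 * r n + 0 = Real.exp (-((n + 1) * 4 ^ n)) := by unfold r; ring
  rw [h1, Real.exp_neg, one_div, inv_inv]
  linarith

theorem sing : data.Sing K where
  closed := isClosed_closure
  mem i := subset_closure ⟨i, rfl⟩
  blow := by
    intro q hq M
    obtain ⟨n, hn⟩ := exists_nat_ge M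
    refine ⟨r n, r_pos n, fun a b ha hb hab => ?_⟩
    obtain ⟨s, hs, hqs⟩ := approx hq n
    have hmax : max ‖a - cen s‖ ‖b - cen s‖ ≤ 3 * r n := by
      apply max_le
      · have : a - cen s = (a - q) + (q - cen s) := by ring
        rw [this]
        have := norm_add_le (a - q) (q - cen s)
        linarith
      · have : b - cen s = (b - q) + (q - cen s) := by ring
        rw [this]
        have := norm_add_le (b - q) (q - cen s)
        linarith
    have hab' : 0 < ‖b - a‖ := norm_pos_iff.2 (sub_ne_zero.2 hab.symm)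
    have hpos : 0 < max ‖a - cen s‖ ‖b - cen s‖ := by
      have := Data.half_le_max a b (cen s)
      linarith
    have h1 : ((n : ℝ) + 1) * 4 ^ n ≤ ell 0 (max ‖a - cen s‖ ‖b - cen s‖) :=
      (ell_ge n).trans (ell_anti (by linarith) hmax)
    have h2 : (n : ℝ) + 1 ≤ wt s * ell 0 (max ‖a - cen s‖ ‖b - cen s‖) := by
      calc (n : ℝ) + 1 = 1 / 4 ^ n * (((n : ℝ) + 1) * 4 ^ n) := by
            field_simp
        _ ≤ wt s * ell 0 (max ‖a - cen s‖ ‖b - cen s‖) := by
            apply mul_le_mul (wt_ge hs) h1 (by positivity)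
            unfold wt; positivity
    have h3 : wt s * ell 0 (max ‖a - cen s‖ ‖b - cen s‖)
        ≤ ∑' i, data.c i * ell 0 (max ‖a - data.p i‖ ‖b - data.p i‖) :=
      (data.summable_lam le_rfl (by positivity)).le_tsum s
        (fun i _ => data.term_nonneg le_rfl a b i)
    have h4 := data.tot_nonneg
    unfold Data.lam
    linarith

theorem K_perfect : Perfect K := by
  apply Preperfect.perfect_closure
  rintro _ ⟨t, rfl⟩
  rw [accPt_iff_nhds]
  intro U hU
  obtain ⟨ε, hε, hball⟩ := Metric.mem_nhds_iff.1 hU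
  have h1 : ∀ᶠ n in atTop, r n < ε := r_tendsto.eventually_lt_const hε
  have h2 : ∀ᶠ n in atTop, n ∉ t := by
    filter_upwards [eventually_gt_atTop (t.sup id)] with n hn hmem
    exact absurd (Finset.le_sup (f := id) hmem) (not_le.2 hn)
  obtain ⟨n, hn1, hn2⟩ := (h1.and h2).exists
  have h3 : cen (insert n t) = cen t + (r n : ℂ) := by
    unfold cen
    rw [Finset.sum_insert hn2]
    push_cast; ring
  refine ⟨cen (insert n t), ⟨hball ?_, ⟨_, rfl⟩⟩, ?_⟩
  · rw [Metric.mem_ball, dist_eq_norm, h3, add_sub_cancel_left, Complex.norm_real,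
      Real.norm_eq_abs, abs_of_pos (r_pos n)]
    exact hn1
  · rw [h3]
    intro h
    have h4 : (r n : ℂ) = 0 := by simpa using h
    have h5 : r n = 0 := by exact_mod_cast h4
    exact (r_pos n).ne' h5

theorem K_not_countable : ¬ K.Countable := by
  intro hK
  obtain ⟨f, hf, -, hinj⟩ := K_perfect.exists_nat_bool_injection
    (⟨cen ∅, subset_closure ⟨∅, rfl⟩⟩ : K.Nonempty)
  have h1 : (range f).Countable := hK.mono hf
  have h2 : Countable (ℕ → Bool) := by
    have : Countable (range f) := h1.to_subtype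
    exact (Function.Injective.countable (f := rangeFactorization f)
      (fun a b h => hinj (congrArg Subtype.val h)))
  obtain ⟨g, hg⟩ := exists_surjective_nat (ℕ → Bool)
  obtain ⟨m, hm⟩ := hg (fun n => !(g n n))
  have h3 := congrFun hm m
  simp at h3

end R789.LogMap.Cantor
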