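import Pool.Agent.R789.MadMath

namespace Pool.Agent.R789.Mad

open Nat.Partrec.Code
open Nat.Partrec (Code)

theorem headI_mem {s : List ℕ} (h : s ≠ []) : s.headI ∈ s := by
  cases s with
  | nil => exact absurd rfl h
  | cons a s => simp

theorem L_ne_nil (l : List ℕ) (t : ℕ) : L l t ≠ [] := by
  have := (L_base l t).subset (List.mem_singleton.2 rfl)
  exact List.ne_nil_of_mem this

theorem le_headI (l : List ℕ) (t : ℕ) {y : ℕ} (hy : y ∈ L l t) : y ≤ (L l t).headI := by
  have h := L_sorted l t
  rcases hL : L l t with _ | ⟨a, s⟩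
  · exact absurd hL (L_ne_nil l t)
  · rw [hL] at hy h
    rw [List.pairwise_cons] at h
    rcases List.mem_cons.1 hy with rfl | hy
    · simp
    · exact (h.1 y hy).le

/-- The claim `x` about the set with label `l` is true. -/
def TC (l : List ℕ) (x : ℕ) : Prop :=
  (x = 0 ∧ (X l).Infinite) ∨ (x ≠ 0 ∧ ∃ t0, ∀ t, t0 ≤ t → (L l t).length = x)

theorem L_eq_of_length (l : List ℕ) {s t : ℕ} (h : s ≤ t)
    (hl : (L l t).length = (L l s).length) : L l t = L l s :=
  ((L_suffix l h).eq_of_length hl.symm).symm

theorem X_finite_of_const (l : List ℕ) {t0 : ℕ} (h : ∀ t, t0 ≤ t → L l t = L l t0) :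
    (X l).Finite := by
  apply Set.Finite.subset (L l t0).toFinset.finite_toSet
  rintro y ⟨t, ht⟩
  have := L_mem_mono l (le_max_left t t0) ht
  rw [h _ (le_max_right t t0)] at this
  simpa using this

theorem const_of_X_finite (l : List ℕ) (h : (X l).Finite) :
    ∃ t0, ∀ t, t0 ≤ t → L l t = L l t0 := by
  obtain ⟨t0, h0⟩ : ∃ t0, ∀ y ∈ X l, y ∈ L l t0 := by
    have hch : ∀ y ∈ X l, ∃ t, y ∈ L l t := fun y hy => hy
    choose! g hg using hch
    refine ⟨h.toFinset.sup g, fun y hy => ?_⟩
    exact L_mem_mono l (Finset.le_sup (f := g) (h.mem_toFinset.2 hy)) (hg y hy)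
  refine ⟨t0, fun t ht => ?_⟩
  obtain ⟨pre, hpre⟩ := L_suffix l ht
  cases pre with
  | nil => rw [← hpre]; rfl
  | cons a pre =>
    exfalso
    have h1 : a ∈ L l t := by rw [← hpre]; simp
    have h2 : a ∈ L l t0 := h0 a ⟨t, h1⟩
    have h3 := L_sorted l t
    rw [← hpre, List.cons_append, List.pairwise_cons] at h3
    exact lt_irrefl a (h3.1 a (List.mem_append_right _ h2))

theorem TC_exists (l : List ℕ) : ∃ x, TC l x := by
  by_cases h : (X l).Infinite
  · exact ⟨0, Or.inl ⟨rfl, h⟩⟩
  · obtain ⟨t0, h0⟩ := const_of_X_finite l (Set.not_infinite.1 h)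
    refine ⟨(L l t0).length, Or.inr ⟨?_, t0, fun t ht => by rw [h0 t ht]⟩⟩
    exact fun h' => L_ne_nil l t0 (List.length_eq_zero_iff.1 h')

theorem TC_zero (l : List ℕ) {x : ℕ} (h : TC l x) (hX : (X l).Infinite) : x = 0 := by
  rcases h with h | ⟨_, t0, h0⟩
  · exact h.1
  · exfalso
    refine hX (X_finite_of_const l (t0 := t0) fun t ht => ?_)
    exact L_eq_of_length l ht (by rw [h0 t ht, h0 t0 le_rfl])

theorem TC_inf (l : List ℕ) (h : TC l 0) : (X l).Infinite := by
  rcases h with h | h
  · exact h.2
  · exact absurd rfl h.1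

theorem TC_unique (l : List ℕ) {x x' : ℕ} (h : TC l x) (h' : TC l x') : x = x' := by
  rcases h with h | ⟨_, t0, h0⟩
  · rw [h.1, TC_zero l h' h.2]
  · rcases h' with h' | ⟨_, t1, h1⟩
    · rw [h'.1, TC_zero l (Or.inr ⟨‹_›, t0, h0⟩) h'.2]
    · rw [← h0 (max t0 t1) (le_max_left _ _), ← h1 (max t0 t1) (le_max_right _ _)]

/-- Every element except the first one was appended at some stage. -/
theorem appended (l : List ℕ) {y : ℕ} (hy : y ∈ X l) (hne : y ≠ Encodable.encode l) :
    ∃ t, y < t ∧ K l y t ∧ G l y t ∧ evaln t (prog l) y = some 1 := by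
  obtain ⟨t, ht⟩ := hy
  induction t with
  | zero => rw [L_zero] at ht; simp at ht; exact absurd ht hne
  | succ t ih =>
    rcases step_cases l t with h | h | h
    · rw [h.2.1] at ht; exact ih ht
    · rw [h.2.2.2] at ht; exact ih ht
    · rw [h.2.2.2.2] at ht
      rcases List.mem_cons.1 ht with rfl | ht
      · exact ⟨t, bound_of h.2.2.1, h.1, h.2.1, h.2.2.1⟩
      · exact ih ht

/-- All claims made by a label are true. -/
def Good (l : List ℕ) : Prop := ∀ i < l.length, TC (l.drop (i + 1)) (l.getD i 0)

theorem Good_cons (x : ℕ) (b : List ℕ) : Good (x :: b) ↔ TC b x ∧ Good b := by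
  unfold Good
  constructor
  · intro h
    refine ⟨by simpa using h 0 (by simp), fun i hi => ?_⟩
    have := h (i + 1) (by simpa using hi)
    simpa using this
  · rintro ⟨h1, h2⟩ i hi
    cases i with
    | zero => simpa using h1
    | succ i =>
      have := h2 i (by simpa using hi)
      simpa using this

theorem Good_unique (l : List ℕ) : ∀ l' : List ℕ, Good l → Good l' → l.length = l'.length →
    l = l' := by
  induction l with
  | nil => intro l' _ _ h; exact (List.length_eq_zero_iff.1 h.symm).symm
  | cons x b ih =>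
    intro l' h h' hlen
    cases l' with
    | nil => simp at hlen
    | cons x' b' =>
      rw [Good_cons] at h h'
      have hb := ih b' h.2 h'.2 (by simpa using hlen)
      subst hb
      rw [TC_unique b h.1 h'.1]

theorem Good_exists (e : ℕ) : ∃ l : List ℕ, l.length = e ∧ Good l := by
  induction e with
  | zero => exact ⟨[], rfl, fun i hi => absurd hi (by simp)⟩
  | succ e ih =>
    obtain ⟨b, hb, hg⟩ := ih
    obtain ⟨x, hx⟩ := TC_exists b
    exact ⟨x :: b, by simp [hb], (Good_cons x b).2 ⟨hx, hg⟩⟩

theorem Good_drop (l : List ℕ) (h : Good l) (j : ℕ) : Good (l.drop j) := by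
  intro i hi
  rw [List.length_drop] at hi
  have := h (j + i) (by omega)
  rw [List.drop_drop]
  have h2 : (l.drop j).getD i 0 = l.getD (j + i) 0 := by
    simp [List.getD_eq_getElem?_getD]
  rw [h2]
  have h3 : j + (i + 1) = j + i + 1 := by ring
  rw [h3]
  exact this

theorem Good_of_infinite (l : List ℕ) (h : (X l).Infinite) : Good l := by
  have hN : ∀ N, ∃ y t, N < y ∧ y < t ∧ K l y t := by
    intro N
    obtain ⟨y, hy, hyN⟩ := h.exists_gt (max N (Encodable.encode l))
    have h1 : N < y := lt_of_le_of_lt (le_max_left _ _) hyN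
    have h2 : Encodable.encode l < y := lt_of_le_of_lt (le_max_right _ _) hyN
    obtain ⟨t, h3, h4, _, _⟩ := appended l hy (by omega)
    exact ⟨y, t, h1, h3, h4⟩
  intro i hi
  by_cases hx : l.getD i 0 = 0
  · left
    refine ⟨hx, ?_⟩
    rw [Set.infinite_iff_exists_gt]
    intro N
    obtain ⟨y, t, h1, h2, h3⟩ := hN N
    have h4 := h3 i hi
    unfold known at h4
    rcases h4 with h4 | h4
    · exact ⟨(L (l.drop (i + 1)) t).headI, ⟨t, headI_mem (L_ne_nil _ _)⟩, h1.trans h4.2⟩
    · exact absurd hx h4.1
  · right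
    refine ⟨hx, ?_⟩
    have hlen : ∀ N, ∃ t, N < t ∧ (L (l.drop (i + 1)) t).length = l.getD i 0 := by
      intro N
      obtain ⟨y, t, h1, h2, h3⟩ := hN N
      have h4 := h3 i hi
      unfold known at h4
      rcases h4 with h4 | h4
      · exact absurd h4.1 hx
      · exact ⟨t, h1.trans h2, h4.2⟩
    obtain ⟨t0, _, h0⟩ := hlen 0
    refine ⟨t0, fun t ht => ?_⟩
    obtain ⟨t1, ht1, h1⟩ := hlen t
    have ha := (L_suffix (l.drop (i + 1)) ht).length_le
    have hb := (L_suffix (l.drop (i + 1)) ht1.le).length_le
    omega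

theorem disjoint_aux (l l' : List ℕ) (h : (X l).Infinite) (h' : (X l').Infinite) {i : ℕ}
    (hi : i < l'.length) (hd : l'.drop (i + 1) = l) : X l ∩ X l' ⊆ {Encodable.encode l'} := by
  rintro y ⟨hy, hy'⟩
  by_contra hne
  have hne' : y ≠ Encodable.encode l' := hne
  obtain ⟨t, _, hK, hG, _⟩ := appended l' hy' hne'
  have hx := Good_of_infinite l' h' i hi
  rw [hd] at hx
  have hx0 := TC_zero l hx h
  have h1 := hK i hi
  have h2 := hG i hi
  rw [hd, hx0] at h1 h2
  have h3 : y < (L l t).headI := by
    rcases h1 with h1 | h1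
    · exact h1.2
    · exact absurd rfl h1.1
  have h4 : y ∉ L l t := by
    rcases h2 with h2 | h2
    · exact absurd rfl h2
    · intro hm
      have := List.idxOf_lt_length_of_mem hm
      have h2' : (L l t).idxOf y = (L l t).length := h2
      omega
  obtain ⟨s, hs⟩ := hy
  have h5 := L_mem_mono l (le_max_left s t) hs
  obtain ⟨pre, hpre⟩ := L_suffix l (le_max_right s t)
  have h6 := L_sorted l (max s t)
  rw [← hpre] at h5 h6
  rw [List.pairwise_append] at h6
  rcases List.mem_append.1 h5 with h5 | h5
  · have := h6.2.2 y h5 _ (headI_mem (L_ne_nil l t))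
    omega
  · exact h4 h5

theorem almost_disjoint (l l' : List ℕ) (h : (X l).Infinite) (h' : (X l').Infinite)
    (hne : l ≠ l') : (X l ∩ X l').Finite := by
  have hg := Good_of_infinite l h
  have hg' := Good_of_infinite l' h'
  rcases lt_trichotomy l.length l'.length with hlt | heq | hgt
  · have h1 : l'.drop (l'.length - l.length - 1 + 1) = l := by
      have h2 : l'.length - l.length - 1 + 1 = l'.length - l.length := by omega
      rw [h2]
      refine (Good_unique l _ hg (Good_drop l' hg' _) ?_).symm
      rw [List.length_drop]; omega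
    exact (Set.finite_singleton _).subset
      (disjoint_aux l l' h h' (i := l'.length - l.length - 1) (by omega) h1)
  · exact absurd (Good_unique l l' hg hg' heq) hne
  · have h1 : l.drop (l.length - l'.length - 1 + 1) = l' := by
      have h2 : l.length - l'.length - 1 + 1 = l.length - l'.length := by omega
      rw [h2]
      refine (Good_unique l' _ hg' (Good_drop l hg _) ?_).symm
      rw [List.length_drop]; omega
    rw [Set.inter_comm]
    exact (Set.finite_singleton _).subset
      (disjoint_aux l' l h' h (i := l.length - l'.length - 1) (by omega) h1)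

/-! ### Maximality -/

theorem K_eventually (l : List ℕ) (hg : Good l) (y : ℕ) : ∃ N, ∀ t, N ≤ t → K l y t := by
  have h : ∀ i ∈ Finset.range l.length, ∀ᶠ t in Filter.atTop,
      known y (l.getD i 0) (st (l.drop (i + 1)) t) := by
    intro i hi
    rw [Finset.mem_range] at hi
    rw [Filter.eventually_atTop]
    rcases hg i hi with hx | ⟨hx, t0, h0⟩
    · obtain ⟨z, ⟨s, hs⟩, hz⟩ := hx.2.exists_gt y
      refine ⟨s, fun t ht => Or.inl ⟨hx.1, ?_⟩⟩
      exact lt_of_lt_of_le hz (le_headI _ t (L_mem_mono _ ht hs))
    · exact ⟨t0, fun t ht => Or.inr ⟨hx, h0 t ht⟩⟩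
  rw [← Filter.eventually_all_finset] at h
  rw [Filter.eventually_atTop] at h
  obtain ⟨N, hN⟩ := h
  exact ⟨N, fun t ht i hi => hN t ht i (Finset.mem_range.2 hi)⟩

theorem evaln_eventually {c : Code} {y v : ℕ} (h : eval c y = Part.some v) :
    ∃ N, ∀ t, N ≤ t → evaln t c y = some v := by
  have : v ∈ eval c y := by rw [h]; exact Part.mem_some v
  obtain ⟨N, hN⟩ := evaln_complete.1 this
  exact ⟨N, fun t ht => evaln_mono ht hN⟩

theorem pointer_unbounded (l : List ℕ) (hg : Good l) (r : ℕ → ℕ)
    (hr : ∀ y, eval (prog l) y = Part.some (r y)) (y : ℕ) : ∃ t, y ≤ p l t := by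
  induction y with
  | zero => exact ⟨0, Nat.zero_le _⟩
  | succ y ih =>
    obtain ⟨t, ht⟩ := ih
    obtain ⟨N1, h1⟩ := K_eventually l hg y
    obtain ⟨N2, h2⟩ := evaln_eventually (hr y)
    have hm := p_mono l (le_max_left t (max N1 N2))
    set T := max t (max N1 N2) with hT
    have hT1 : N1 ≤ T := le_trans (le_max_left _ _) (le_max_right _ _)
    have hT2 : N2 ≤ T := le_trans (le_max_right _ _) (le_max_right _ _)
    rcases Nat.lt_or_ge y (p l T) with hlt | hge
    · exact ⟨T, hlt⟩
    · have hpT : p l T = y := by omega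
      refine ⟨T + 1, ?_⟩
      rcases step_cases l T with h | h | h
      · exfalso
        have h3 := h.2.2 (by rw [hpT]; exact h1 T hT1)
        rw [hpT, h2 T hT2] at h3
        exact absurd h3 (by simp)
      · omega
      · have := bound_of h.2.2.1; omega

theorem maximal (l : List ℕ) (hg : Good l) (R : ℕ → Bool)
    (hr : ∀ y, eval (prog l) y = Part.some (cond (R y) 1 0)) (hR : {n | R n = true}.Infinite) :
    ∃ b, (X b).Infinite ∧ (X b ∩ {n | R n = true}).Infinite := by
  by_cases hX : (X l).Infinite
  · refine ⟨l, hX, ?_⟩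
    refine (hX.sdiff (Set.finite_singleton (Encodable.encode l))).mono ?_
    rintro y ⟨hy, hne⟩
    refine ⟨hy, ?_⟩
    obtain ⟨t, _, _, _, he⟩ := appended l hy hne
    have h1 : (1 : ℕ) ∈ eval (prog l) y := evaln_sound (show 1 ∈ evaln t (prog l) y from he)
    rw [hr y, Part.mem_some_iff] at h1
    show R y = true
    by_contra hc
    rw [Bool.not_eq_true] at hc
    rw [hc] at h1
    simp at h1
  · obtain ⟨t0, h0⟩ := const_of_X_finite l (Set.not_infinite.1 hX)
    by_contra hno
    push Not at hno
    have hfin : ∀ i ∈ Finset.range l.length,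
        {y | l.getD i 0 = 0 ∧ y ∈ X (l.drop (i + 1)) ∧ R y = true}.Finite := by
      intro i hi
      rw [Finset.mem_range] at hi
      by_cases hx : l.getD i 0 = 0
      · have h1 := hg i hi
        rw [hx] at h1
        have h2 := hno _ (TC_inf _ h1)
        exact h2.subset fun y hy => ⟨hy.2.1, hy.2.2⟩
      · exact Set.Finite.subset Set.finite_empty fun y hy => absurd hy.1 hx
    have hU : (⋃ i ∈ Finset.range l.length,
        {y | l.getD i 0 = 0 ∧ y ∈ X (l.drop (i + 1)) ∧ R y = true}).Finite :=
      Set.Finite.biUnion (Finset.finite_toSet _) hfin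
    have hsub : {n | R n = true} ⊆ Set.Iio (p l t0) ∪ (⋃ i ∈ Finset.range l.length,
        {y | l.getD i 0 = 0 ∧ y ∈ X (l.drop (i + 1)) ∧ R y = true}) := by
      intro y hy
      by_cases hyp : y < p l t0
      · exact Or.inl hyp
      right
      have hex : ∃ t, y < p l t := pointer_unbounded l hg _ hr (y + 1)
      classical
      set s := Nat.find hex with hs
      have hs1 : y < p l s := Nat.find_spec hex
      have hst : t0 < s := by
        by_contra hc
        have := p_mono l (not_lt.1 hc)
        omega
      obtain ⟨s', hs'⟩ : ∃ s', s = s' + 1 := ⟨s - 1, by omega⟩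
      rw [hs'] at hs1 hst
      have hs2 : ¬ y < p l s' := Nat.find_min hex (by omega)
      rcases step_cases l s' with h | h | h
      · omega
      · obtain ⟨_, ⟨v, hv, hvG⟩, hp, _⟩ := h
        have hpy : p l s' = y := by omega
        rw [hpy] at hv hvG
        have h1 : v ∈ eval (prog l) y := evaln_sound (show v ∈ evaln s' (prog l) y from hv)
        rw [hr y, Part.mem_some_iff] at h1
        have hy' : R y = true := hy
        rw [hy'] at h1
        have hv1 : v = 1 := h1
        have hG : ¬ G l y s' := fun h' => hvG ⟨hv1, h'⟩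
        unfold G at hG
        push Not at hG
        obtain ⟨i, hi, hgi⟩ := hG
        unfold good at hgi
        push Not at hgi
        rw [Set.mem_iUnion₂]
        refine ⟨i, Finset.mem_range.2 hi, hgi.1, ⟨s', ?_⟩, hy'⟩
        by_contra hmem
        exact hgi.2 (List.idxOf_eq_length_iff.2 hmem)
      · exfalso
        have h1 := h0 s' (by omega)
        have h2 := h0 (s' + 1) (by omega)
        rw [h.2.2.2.2, h1] at h2
        have := congrArg List.length h2
        simp at this
    exact hR (((Set.finite_Iio _).union hU).subset hsub)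

/-! ### Computability of the infinite sets -/

theorem L_decided (l : List ℕ) {s t y : ℕ} (h : s ≤ t) (hy : y ∈ L l t) (hlt : y < p l s) :
    y ∈ L l s := by
  induction t, h using Nat.le_induction with
  | base => exact hy
  | succ t hst ih =>
    rcases step_cases l t with h | h | h
    · rw [h.2.1] at hy; exact ih hy
    · rw [h.2.2.2] at hy; exact ih hy
    · rw [h.2.2.2.2] at hy
      rcases List.mem_cons.1 hy with rfl | hy
      · have := p_mono l hst; omega
      · exact ih hy

theorem computable_X (l : List ℕ) (h : (X l).Infinite) (f : ℕ → Bool)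
    (hf : ∀ y, f y = true ↔ y ∈ X l) : Computable f := by
  have hex : ∀ y, ∃ t, y < p l t := by
    intro y
    obtain ⟨z, ⟨t, ht⟩, hz⟩ := h.exists_gt y
    exact ⟨t, hz.trans (L_lt l t z ht)⟩
  have hst : Computable (fun t => st l t) :=
    (prim_st.comp (Primrec.const l) Primrec.id).to_comp
  have hp : Computable (fun t => p l t) := Computable.fst.comp hst
  have hL : Computable (fun t => L l t) := Computable.snd.comp hst
  have h1 : Partrec (fun y => Nat.rfind (fun t => Part.some (decide (y < p l t)))) := by
    refine Partrec.rfind (p := fun y t => Part.some (decide (y < p l t))) ?_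
    have : Computable₂ (fun y t => decide (y < p l t)) := by
      have hlt : Computable₂ (fun a b : ℕ => decide (a < b)) := Primrec.nat_lt.decide.to_comp
      exact hlt.comp Computable.fst (hp.comp Computable.snd)
    exact this
  have h2 : Partrec (fun y => (Nat.rfind (fun t => Part.some (decide (y < p l t)))).map
      (fun t => !(decide ((L l t).idxOf y = (L l t).length)))) := by
    refine Partrec.map h1 ?_
    have ha : Computable₂ (fun (y : ℕ) (t : ℕ) => (L l t).idxOf y) :=
      (Primrec.list_idxOf (α := ℕ)).to_comp.comp Computable.fst (hL.comp Computable.snd)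
    have hb : Computable₂ (fun (y : ℕ) (t : ℕ) => (L l t).length) :=
      (Primrec.list_length (α := ℕ)).to_comp.comp (hL.comp Computable.snd)
    have hc : Computable₂ (fun a b : ℕ => decide (a = b)) := Primrec.eq.decide.to_comp
    exact Primrec.not.to_comp.comp (hc.comp ha hb)
  refine h2.of_eq fun y => ?_
  obtain ⟨t, ht⟩ := hex y
  have hd : (Nat.rfind (fun t => Part.some (decide (y < p l t)))).Dom := by
    refine Nat.rfind_dom.2 ⟨t, ?_, fun _ => trivial⟩
    simpa using ht
  have hg := Part.get_mem hd
  rw [← Part.some_get hd, Part.map_some]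
  have hs := Nat.rfind_spec hg
  simp only [Part.mem_some_iff] at hs
  have hs' : y < p l ((Nat.rfind (fun t => Part.some (decide (y < p l t)))).get hd) := by
    simpa using hs.symm
  set s := (Nat.rfind (fun t => Part.some (decide (y < p l t)))).get hd with hsdef
  show Part.some _ = Part.some (f y)
  congr 1
  rw [Bool.eq_iff_iff, hf y]
  simp only [Bool.not_eq_true', decide_eq_false_iff_not, List.idxOf_eq_length_iff, not_not]
  constructor
  · intro hm
    exact ⟨s, hm⟩
  · rintro ⟨t', ht'⟩
    rcases le_total s t' with h' | h'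
    · exact L_decided l h' ht' hs'
    · exact L_mem_mono l h' ht'

end Pool.Agent.R789.Mad
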