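import Mathlib

/-! A computable tree whose computable infinite paths form a maximal almost disjoint family with
respect to computable sets: the construction and its primitive recursiveness. -/

namespace Pool.Agent.R789.Mad

open Nat.Partrec.Code Primrec
open Nat.Partrec (Code)

/-- State of one set: a pointer and the list of its elements so far (newest first). -/
abbrev St := ℕ × List ℕ

/-- The claim `x` about a set with state `s` looks verified up to `y`. -/
def known (y x : ℕ) (s : St) : Prop := (x = 0 ∧ y < s.2.headI) ∨ (x ≠ 0 ∧ s.2.length = x)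

/-- `y` is not in a set which is claimed to be infinite. -/
def good (y x : ℕ) (s : St) : Prop := x ≠ 0 ∨ s.2.idxOf y = s.2.length

instance (y x : ℕ) (s : St) : Decidable (known y x s) := by unfold known; infer_instance

instance (y x : ℕ) (s : St) : Decidable (good y x s) := by unfold good; infer_instance

/-- All claims in `l` about the sets with states `ss` look verified up to `y`. -/
def KK (y : ℕ) (l : List ℕ) (ss : List St) : Prop :=
  ∀ i ∈ List.range l.length, known y (l.getD i 0) (ss.getD i (0, []))

/-- `y` avoids all sets claimed to be infinite. -/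
def GG (y : ℕ) (l : List ℕ) (ss : List St) : Prop :=
  ∀ i ∈ List.range l.length, good y (l.getD i 0) (ss.getD i (0, []))

instance (y : ℕ) (l : List ℕ) (ss : List St) : Decidable (KK y l ss) := by
  unfold KK; infer_instance

instance (y : ℕ) (l : List ℕ) (ss : List St) : Decidable (GG y l ss) := by
  unfold GG; infer_instance

/-- One step for the set with label `l` and state `s`, given the states of its ancestors. -/
def stepOne (t : ℕ) (l : List ℕ) (s : St) (ss : List St) : St :=
  if KK s.1 l ss then
    (Option.casesOn (evaln t (Denumerable.ofNat Code l.length) s.1) s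
      (fun v => if v = 1 ∧ GG s.1 l ss then (t + 1, s.1 :: s.2) else (s.1 + 1, s.2)) : St)
  else s

/-- Initial state of the set with label `l`. -/
def init (l : List ℕ) : St := (Encodable.encode l + 1, [Encodable.encode l])

/-- One step for the set with label `l` and all its ancestors. -/
def nextAll (l : List ℕ) (t : ℕ) (w : List St) : List St :=
  (List.range (l.length + 1)).map fun i =>
    stepOne t (l.drop i) (w.getD i (0, [])) (w.drop (i + 1))

/-- The states at time `t` of the set with label `l` and of all its ancestors. -/
def W (l : List ℕ) (t : ℕ) : List St :=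
  Nat.rec ((List.range (l.length + 1)).map fun i => init (l.drop i)) (fun t w => nextAll l t w) t

/-- The state at time `t` of the set with label `l`. -/
def st (l : List ℕ) (t : ℕ) : St := (W l t).getD 0 (0, [])

/-- The positions of the ones of `w` below `m`, in increasing order. -/
def ones (w : List Bool) (m : ℕ) : List ℕ := (List.range m).filter (fun j => w.getD j false = true)

/-- The local condition of the tree. -/
def loc (w : List Bool) (m : ℕ) : Prop :=
  w.getD m false = false ∨ ones w m = [] ∨
    (ones w m).reverse = (st (Denumerable.ofNat (List ℕ) (ones w m).headI) m).2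

instance (w : List Bool) (m : ℕ) : Decidable (loc w m) := by unfold loc; infer_instance

/-- The tree. -/
def T (w : List Bool) : Bool := decide (∀ m ∈ List.range w.length, loc w m)

/-! ### Primitive recursiveness -/

theorem prim_known : PrimrecPred fun a : ℕ × ℕ × St => known a.1 a.2.1 a.2.2 := by
  unfold known
  refine PrimrecPred.or (PrimrecPred.and ?_ ?_) (PrimrecPred.and (PrimrecPred.not ?_) ?_)
  · exact Primrec.eq.comp (fst.comp snd) (Primrec.const 0)
  · exact Primrec.nat_lt.comp fst (list_headI.comp (snd.comp (snd.comp snd)))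
  · exact Primrec.eq.comp (fst.comp snd) (Primrec.const 0)
  · exact Primrec.eq.comp (list_length.comp (snd.comp (snd.comp snd))) (fst.comp snd)

theorem prim_good : PrimrecPred fun a : ℕ × ℕ × St => good a.1 a.2.1 a.2.2 := by
  unfold good
  refine PrimrecPred.or (PrimrecPred.not ?_) ?_
  · exact Primrec.eq.comp (fst.comp snd) (Primrec.const 0)
  · exact Primrec.eq.comp (list_idxOf.comp fst (snd.comp (snd.comp snd)))
      (list_length.comp (snd.comp (snd.comp snd)))

/-- Bounded quantification with a parameter of any type. -/
theorem prim_forall {β : Type} [Primcodable β] {R : ℕ → β → Prop} (hR : PrimrecRel R)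
    {f : β → ℕ} (hf : Primrec f) : PrimrecPred fun b => ∀ i ∈ List.range (f b), R i b :=
  (PrimrecRel.forall_mem_list hR).comp (list_range.comp hf) Primrec.id

theorem prim_KK : PrimrecPred fun a : ℕ × List ℕ × List St => KK a.1 a.2.1 a.2.2 := by
  unfold KK
  refine prim_forall (R := fun i (a : ℕ × List ℕ × List St) =>
    known a.1 (a.2.1.getD i 0) (a.2.2.getD i (0, []))) ?_ (f := fun a => a.2.1.length) ?_
  · refine PrimrecPred.comp (p := fun a : ℕ × ℕ × St => known a.1 a.2.1 a.2.2)
      (f := fun q : ℕ × (ℕ × List ℕ × List St) =>
        (q.2.1, q.2.2.1.getD q.1 0, q.2.2.2.getD q.1 (0, []))) prim_known ?_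
    refine Primrec.pair (fst.comp snd) (Primrec.pair ?_ ?_)
    · exact (list_getD 0).comp (fst.comp (snd.comp snd)) fst
    · exact (list_getD (0, [])).comp (snd.comp (snd.comp snd)) fst
  · exact list_length.comp (fst.comp snd)

theorem prim_GG : PrimrecPred fun a : ℕ × List ℕ × List St => GG a.1 a.2.1 a.2.2 := by
  unfold GG
  refine prim_forall (R := fun i (a : ℕ × List ℕ × List St) =>
    good a.1 (a.2.1.getD i 0) (a.2.2.getD i (0, []))) ?_ (f := fun a => a.2.1.length) ?_
  · refine PrimrecPred.comp (p := fun a : ℕ × ℕ × St => good a.1 a.2.1 a.2.2)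
      (f := fun q : ℕ × (ℕ × List ℕ × List St) =>
        (q.2.1, q.2.2.1.getD q.1 0, q.2.2.2.getD q.1 (0, []))) prim_good ?_
    refine Primrec.pair (fst.comp snd) (Primrec.pair ?_ ?_)
    · exact (list_getD 0).comp (fst.comp (snd.comp snd)) fst
    · exact (list_getD (0, [])).comp (snd.comp (snd.comp snd)) fst
  · exact list_length.comp (fst.comp snd)

theorem prim_stepOne : Primrec fun a : ℕ × List ℕ × St × List St =>
    stepOne a.1 a.2.1 a.2.2.1 a.2.2.2 := by
  unfold stepOne
  have hp : Primrec fun a : ℕ × List ℕ × St × List St => a.2.2.1.1 :=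
    fst.comp (fst.comp (snd.comp snd))
  have hl : Primrec fun a : ℕ × List ℕ × St × List St => a.2.1 := fst.comp snd
  have hs : Primrec fun a : ℕ × List ℕ × St × List St => a.2.2.1 := fst.comp (snd.comp snd)
  have hss : Primrec fun a : ℕ × List ℕ × St × List St => a.2.2.2 := snd.comp (snd.comp snd)
  refine Primrec.ite ?_ ?_ hs
  · exact PrimrecPred.comp (p := fun a : ℕ × List ℕ × List St => KK a.1 a.2.1 a.2.2)
      (f := fun a : ℕ × List ℕ × St × List St => (a.2.2.1.1, a.2.1, a.2.2.2)) prim_KK
      (Primrec.pair hp (Primrec.pair hl hss))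
  · refine Primrec.option_casesOn ?_ hs ?_
    · exact primrec_evaln.comp (Primrec.pair (Primrec.pair fst
        ((Primrec.ofNat Code).comp (list_length.comp hl))) hp)
    · refine Primrec.ite (PrimrecPred.and ?_ ?_) ?_ ?_
      · exact Primrec.eq.comp snd (Primrec.const 1)
      · exact PrimrecPred.comp (p := fun a : ℕ × List ℕ × List St => GG a.1 a.2.1 a.2.2)
          (f := fun q : (ℕ × List ℕ × St × List St) × ℕ => (q.1.2.2.1.1, q.1.2.1, q.1.2.2.2))
          prim_GG (Primrec.pair (hp.comp fst) (Primrec.pair (hl.comp fst) (hss.comp fst)))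
      · exact Primrec.pair (Primrec.succ.comp (fst.comp fst))
          (list_cons.comp (hp.comp fst) (snd.comp (hs.comp fst)))
      · exact Primrec.pair (Primrec.succ.comp (hp.comp fst)) (snd.comp (hs.comp fst))

theorem prim_init : Primrec init :=
  Primrec.pair (Primrec.succ.comp Primrec.encode) (list_cons.comp Primrec.encode (Primrec.const []))

theorem prim_nextAll : Primrec fun a : List ℕ × ℕ × List St => nextAll a.1 a.2.1 a.2.2 := by
  unfold nextAll
  refine list_map (list_range.comp (Primrec.succ.comp (list_length.comp fst))) ?_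
  refine Primrec.comp (f := fun a : ℕ × List ℕ × St × List St =>
    stepOne a.1 a.2.1 a.2.2.1 a.2.2.2)
    (g := fun q : (List ℕ × ℕ × List St) × ℕ =>
      (q.1.2.1, q.1.1.drop q.2, q.1.2.2.getD q.2 (0, []), q.1.2.2.drop (q.2 + 1)))
    prim_stepOne ?_
  refine Primrec.pair (fst.comp (snd.comp fst)) (Primrec.pair ?_ (Primrec.pair ?_ ?_))
  · exact list_drop.comp snd (fst.comp fst)
  · exact (list_getD (0, [])).comp (snd.comp (snd.comp fst)) snd
  · exact list_drop.comp (Primrec.succ.comp snd) (snd.comp (snd.comp fst))

theorem prim_W : Primrec₂ W := by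
  unfold W
  refine Primrec.nat_rec' (f := fun a : List ℕ × ℕ => a.2)
    (g := fun a : List ℕ × ℕ => (List.range (a.1.length + 1)).map fun i => init (a.1.drop i))
    (h := fun a q => nextAll a.1 q.1 q.2) snd ?_ ?_
  · refine list_map (list_range.comp (Primrec.succ.comp (list_length.comp fst))) ?_
    exact prim_init.comp (list_drop.comp snd (fst.comp fst))
  · exact Primrec.comp (f := fun a : List ℕ × ℕ × List St => nextAll a.1 a.2.1 a.2.2)
      (g := fun q : (List ℕ × ℕ) × (ℕ × List St) => (q.1.1, q.2.1, q.2.2)) prim_nextAll
      (Primrec.pair (fst.comp fst) (Primrec.pair (fst.comp snd) (snd.comp snd)))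

theorem prim_st : Primrec₂ st := (list_getD (0, [])).comp prim_W (Primrec.const 0)

theorem prim_ones : Primrec₂ ones := by
  have h : PrimrecRel fun (j : ℕ) (w : List Bool) => w.getD j false = true :=
    Primrec.eq.comp ((list_getD false).comp snd fst) (Primrec.const true)
  exact (PrimrecRel.listFilter h).comp (list_range.comp snd) fst

theorem prim_loc : PrimrecPred fun a : List Bool × ℕ => loc a.1 a.2 := by
  unfold loc
  refine PrimrecPred.or ?_ (PrimrecPred.or ?_ ?_)
  · exact Primrec.eq.comp ((list_getD false).comp fst snd) (Primrec.const false)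
  · exact Primrec.eq.comp prim_ones (Primrec.const [])
  · refine Primrec.eq.comp (list_reverse.comp prim_ones) (snd.comp (prim_st.comp ?_ snd))
    exact (Primrec.ofNat (List ℕ)).comp (list_headI.comp prim_ones)

theorem prim_T : Primrec T := by
  have h : PrimrecPred fun w : List Bool => ∀ m ∈ List.range w.length, loc w m := by
    refine prim_forall (R := fun m (w : List Bool) => loc w m) ?_ list_length
    exact PrimrecPred.comp (p := fun a : List Bool × ℕ => loc a.1 a.2)
      (f := fun q : ℕ × List Bool => (q.2, q.1)) prim_loc (Primrec.pair snd fst)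
  exact h.decide

end Pool.Agent.R789.Mad
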