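import Pool.Agent.R789.MadDefs

namespace Pool.Agent.R789.Mad

open Nat.Partrec.Code
open Nat.Partrec (Code)

theorem nextAll_cons (x : ℕ) (l : List ℕ) (t : ℕ) (s : St) (w : List St) :
    nextAll (x :: l) t (s :: w) = stepOne t (x :: l) s w :: nextAll l t w := by
  unfold nextAll
  rw [List.length_cons, List.range_succ_eq_map]
  simp [Function.comp_def]

theorem W_zero (l : List ℕ) : W l 0 = (List.range (l.length + 1)).map fun i => init (l.drop i) :=
  rfl

theorem W_succ (l : List ℕ) (t : ℕ) : W l (t + 1) = nextAll l t (W l t) := rfl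

theorem W_cons' (x : ℕ) (l : List ℕ) (t : ℕ) : ∃ s, W (x :: l) t = s :: W l t := by
  induction t with
  | zero =>
    refine ⟨init (x :: l), ?_⟩
    rw [W_zero, W_zero, List.length_cons, List.range_succ_eq_map]
    simp [Function.comp_def]
  | succ t ih =>
    obtain ⟨s, hs⟩ := ih
    refine ⟨stepOne t (x :: l) s (W l t), ?_⟩
    rw [W_succ, hs, nextAll_cons, W_succ]

theorem W_cons (x : ℕ) (l : List ℕ) (t : ℕ) : W (x :: l) t = st (x :: l) t :: W l t := by
  obtain ⟨s, hs⟩ := W_cons' x l t
  have : st (x :: l) t = s := by unfold st; rw [hs]; rfl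
  rw [this, hs]

theorem W_nil (t : ℕ) : W [] t = [st [] t] := by
  have : ∃ s, W [] t = [s] := by
    cases t with
    | zero => exact ⟨init [], by rw [W_zero]; rfl⟩
    | succ t => exact ⟨_, by rw [W_succ]; rfl⟩
  obtain ⟨s, hs⟩ := this
  have h2 : st [] t = s := by unfold st; rw [hs]; rfl
  rw [h2, hs]

theorem st_zero (l : List ℕ) : st l 0 = init l := by
  unfold st
  rw [W_zero, List.range_succ_eq_map]
  rfl

theorem st_succ (l : List ℕ) (t : ℕ) :
    st l (t + 1) = stepOne t l (st l t) ((W l t).drop 1) := by
  cases l with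
  | nil =>
    have h : W [] (t + 1) = [stepOne t [] ((W [] t).getD 0 (0, [])) ((W [] t).drop 1)] := by
      rw [W_succ]; rfl
    conv_lhs => unfold st
    rw [h]
    rfl
  | cons x l =>
    conv_lhs => unfold st
    rw [W_succ, W_cons, nextAll_cons]
    rfl

theorem W_getD (l : List ℕ) (t i : ℕ) (hi : i ≤ l.length) :
    (W l t).getD i (0, []) = st (l.drop i) t := by
  induction l generalizing i with
  | nil =>
    have : i = 0 := by simpa using hi
    subst this
    rfl
  | cons x l ih =>
    cases i with
    | zero => rfl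
    | succ i =>
      rw [W_cons]
      simp only [List.getD_cons_succ, List.drop_succ_cons]
      exact ih i (by simpa using hi)

/-- All claims of the label `l` look verified up to `y` at time `t`. -/
def K (l : List ℕ) (y t : ℕ) : Prop :=
  ∀ i < l.length, known y (l.getD i 0) (st (l.drop (i + 1)) t)

/-- At time `t` the number `y` avoids all ancestors of `l` which are claimed to be infinite. -/
def G (l : List ℕ) (y t : ℕ) : Prop :=
  ∀ i < l.length, good y (l.getD i 0) (st (l.drop (i + 1)) t)

theorem KK_iff (l : List ℕ) (y t : ℕ) : KK y l ((W l t).drop 1) ↔ K l y t := by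
  unfold KK K
  have hT : ∀ i < l.length, ((W l t).drop 1).getD i (0, []) = st (l.drop (i + 1)) t := by
    intro i hi
    rw [← W_getD l t (i + 1) hi]
    simp [List.getD_eq_getElem?_getD]
  constructor
  · intro h i hi
    have := h i (List.mem_range.2 hi)
    rwa [hT i hi] at this
  · intro h i hi
    have hi' := List.mem_range.1 hi
    rw [hT i hi']
    exact h i hi'

theorem GG_iff (l : List ℕ) (y t : ℕ) : GG y l ((W l t).drop 1) ↔ G l y t := by
  unfold GG G
  have hT : ∀ i < l.length, ((W l t).drop 1).getD i (0, []) = st (l.drop (i + 1)) t := by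
    intro i hi
    rw [← W_getD l t (i + 1) hi]
    simp [List.getD_eq_getElem?_getD]
  constructor
  · intro h i hi
    have := h i (List.mem_range.2 hi)
    rwa [hT i hi] at this
  · intro h i hi
    have hi' := List.mem_range.1 hi
    rw [hT i hi']
    exact h i hi'

/-- The pointer. -/
def p (l : List ℕ) (t : ℕ) : ℕ := (st l t).1

/-- The list of elements. -/
def L (l : List ℕ) (t : ℕ) : List ℕ := (st l t).2

/-- The program attached to a label. -/
def prog (l : List ℕ) : Code := Denumerable.ofNat Code l.length

theorem step_cases (l : List ℕ) (t : ℕ) :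
    (p l (t + 1) = p l t ∧ L l (t + 1) = L l t ∧
      (K l (p l t) t → evaln t (prog l) (p l t) = none)) ∨
    (K l (p l t) t ∧ (∃ v, evaln t (prog l) (p l t) = some v ∧ ¬ (v = 1 ∧ G l (p l t) t)) ∧
      p l (t + 1) = p l t + 1 ∧ L l (t + 1) = L l t) ∨
    (K l (p l t) t ∧ G l (p l t) t ∧ evaln t (prog l) (p l t) = some 1 ∧
      p l (t + 1) = t + 1 ∧ L l (t + 1) = p l t :: L l t) := by
  have h := st_succ l t
  unfold stepOne at h
  by_cases hK : KK (st l t).1 l ((W l t).drop 1)
  · rw [if_pos hK] at h
    have hK' : K l (p l t) t := (KK_iff l _ t).1 hK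
    rcases hv : evaln t (Denumerable.ofNat Code l.length) (st l t).1 with _ | v
    · rw [hv] at h
      left
      refine ⟨?_, ?_, fun _ => hv⟩
      · unfold p; rw [h]
      · unfold L; rw [h]
    · rw [hv] at h
      simp only at h
      by_cases hc : v = 1 ∧ GG (st l t).1 l ((W l t).drop 1)
      · rw [if_pos hc] at h
        right; right
        refine ⟨hK', (GG_iff l _ t).1 hc.2, ?_, ?_, ?_⟩
        · unfold prog p; rw [hv, hc.1]
        · unfold p; rw [h]
        · unfold L p; rw [h]
      · rw [if_neg hc] at h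
        right; left
        refine ⟨hK', ⟨v, hv, fun h' => hc ⟨h'.1, (GG_iff l _ t).2 h'.2⟩⟩, ?_, ?_⟩
        · unfold p; rw [h]
        · unfold L; rw [h]
  · rw [if_neg hK] at h
    left
    refine ⟨?_, ?_, fun h' => absurd ((KK_iff l _ t).2 h') hK⟩
    · unfold p; rw [h]
    · unfold L; rw [h]

theorem p_zero (l : List ℕ) : p l 0 = Encodable.encode l + 1 := by unfold p; rw [st_zero]; rfl

theorem L_zero (l : List ℕ) : L l 0 = [Encodable.encode l] := by unfold L; rw [st_zero]; rfl

theorem bound_of {c : Code} {t y v : ℕ} (h : evaln t c y = some v) : y < t :=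
  evaln_bound (show v ∈ evaln t c y from h)

theorem p_mono_step (l : List ℕ) (t : ℕ) : p l t ≤ p l (t + 1) := by
  rcases step_cases l t with h | h | h
  · omega
  · omega
  · have := bound_of h.2.2.1; omega

theorem p_mono (l : List ℕ) : Monotone (p l) := monotone_nat_of_le_succ (p_mono_step l)

theorem L_suffix_step (l : List ℕ) (t : ℕ) : L l t <:+ L l (t + 1) := by
  rcases step_cases l t with h | h | h
  · rw [h.2.1]
  · rw [h.2.2.2]
  · rw [h.2.2.2.2]; exact List.suffix_cons _ _

theorem L_suffix (l : List ℕ) {s t : ℕ} (h : s ≤ t) : L l s <:+ L l t := by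
  induction t, h using Nat.le_induction with
  | base => exact List.suffix_rfl
  | succ t _ ih => exact ih.trans (L_suffix_step l t)

theorem L_mem_mono (l : List ℕ) {s t y : ℕ} (h : s ≤ t) (hy : y ∈ L l s) : y ∈ L l t :=
  (L_suffix l h).subset hy

theorem L_lt (l : List ℕ) (t : ℕ) : ∀ y ∈ L l t, y < p l t := by
  induction t with
  | zero => intro y hy; rw [L_zero] at hy; rw [p_zero]; simp at hy; omega
  | succ t ih =>
    intro y hy
    rcases step_cases l t with h | h | h
    · rw [h.2.1] at hy; rw [h.1]; exact ih y hy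
    · rw [h.2.2.2] at hy; have := ih y hy; omega
    · rw [h.2.2.2.2] at hy
      have hb := bound_of h.2.2.1
      rcases List.mem_cons.1 hy with rfl | hy
      · omega
      · have := ih y hy; omega

theorem L_sorted (l : List ℕ) (t : ℕ) : (L l t).Pairwise (fun a b => b < a) := by
  induction t with
  | zero => rw [L_zero]; simp
  | succ t ih =>
    rcases step_cases l t with h | h | h
    · rw [h.2.1]; exact ih
    · rw [h.2.2.2]; exact ih
    · rw [h.2.2.2.2, List.pairwise_cons]
      exact ⟨fun y hy => L_lt l t y hy, ih⟩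

theorem L_base (l : List ℕ) (t : ℕ) : [Encodable.encode l] <:+ L l t := by
  have := L_suffix l (Nat.zero_le t)
  rwa [L_zero] at this

theorem L_cases (l : List ℕ) (t : ℕ) :
    ∀ y ∈ L l t, y = Encodable.encode l ∨ (Encodable.encode l < y ∧ y < t) := by
  induction t with
  | zero => intro y hy; rw [L_zero] at hy; simp at hy; exact Or.inl hy
  | succ t ih =>
    intro y hy
    rcases step_cases l t with h | h | h
    · rw [h.2.1] at hy; rcases ih y hy with h | h <;> omega
    · rw [h.2.2.2] at hy; rcases ih y hy with h | h <;> omega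
    · rw [h.2.2.2.2] at hy
      have hb := bound_of h.2.2.1
      rcases List.mem_cons.1 hy with rfl | hy
      · right
        have h0 := p_mono l (Nat.zero_le t)
        rw [p_zero] at h0
        omega
      · rcases ih y hy with h | h <;> omega

theorem L_stable (l : List ℕ) (t : ℕ) : ∀ s, p l t ≤ s → s ≤ t → L l s = L l t := by
  induction t with
  | zero => intro s _ h; have : s = 0 := by omega
            rw [this]
  | succ t ih =>
    intro s h1 h2
    rcases Nat.lt_or_ge s (t + 1) with hs | hs
    · rcases step_cases l t with h | h | h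
      · rw [h.2.1]; exact ih s (by omega) (by omega)
      · rw [h.2.2.2]; exact ih s (by omega) (by omega)
      · omega
    · have : s = t + 1 := by omega
      rw [this]

/-- Key property: the elements below an element `y` are listed in `L l y`. -/
theorem L_below (l : List ℕ) (t : ℕ) : ∀ y ∈ L l t, y ≠ Encodable.encode l →
    ∀ x, (x ∈ L l t ∧ x < y ↔ x ∈ L l y) := by
  induction t with
  | zero => intro y hy hne; rw [L_zero] at hy; simp at hy; exact absurd hy hne
  | succ t ih =>
    intro y hy hne x
    rcases step_cases l t with h | h | h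
    · rw [h.2.1] at hy ⊢; exact ih y hy hne x
    · rw [h.2.2.2] at hy ⊢; exact ih y hy hne x
    · rw [h.2.2.2.2] at hy ⊢
      have hb := bound_of h.2.2.1
      rcases List.mem_cons.1 hy with rfl | hy
      · rw [L_stable l t (p l t) le_rfl hb.le]
        constructor
        · rintro ⟨h1, h2⟩
          rcases List.mem_cons.1 h1 with rfl | h1
          · omega
          · exact h1
        · intro h1
          exact ⟨List.mem_cons_of_mem _ h1, L_lt l t x h1⟩
      · rw [← ih y hy hne x]
        constructor
        · rintro ⟨h1, h2⟩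
          rcases List.mem_cons.1 h1 with rfl | h1
          · have := L_lt l t y hy; omega
          · exact ⟨h1, h2⟩
        · rintro ⟨h1, h2⟩
          exact ⟨List.mem_cons_of_mem _ h1, h2⟩

/-- The set with label `l`. -/
def X (l : List ℕ) : Set ℕ := {y | ∃ t, y ∈ L l t}

theorem mem_X (l : List ℕ) (y : ℕ) : y ∈ X l ↔ ∃ t, y ∈ L l t := Iff.rfl

theorem base_mem (l : List ℕ) : Encodable.encode l ∈ X l :=
  ⟨0, by rw [L_zero]; simp⟩

theorem le_of_mem (l : List ℕ) {y : ℕ} (hy : y ∈ X l) : Encodable.encode l ≤ y := by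
  obtain ⟨t, ht⟩ := hy
  rcases L_cases l t y ht with h | h <;> omega

theorem X_below (l : List ℕ) {y : ℕ} (hy : y ∈ X l) (hne : y ≠ Encodable.encode l) (x : ℕ) :
    (x ∈ X l ∧ x < y) ↔ x ∈ L l y := by
  obtain ⟨t, ht⟩ := hy
  constructor
  · rintro ⟨⟨s, hs⟩, hxy⟩
    have h1 := L_mem_mono l (le_max_left s t) hs
    have h2 := L_mem_mono l (le_max_right s t) ht
    exact (L_below l (max s t) y h2 hne x).1 ⟨h1, hxy⟩
  · intro hx
    exact ⟨⟨y, hx⟩, ((L_below l t y ht hne x).2 hx).2⟩

end Pool.Agent.R789.Mad
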