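import Pool.Agent.R789.McKayQ

/-!
# The derivative of `q` with respect to `d`, and its sign
-/

namespace Pool.Agent.R789.McKay

open MeasureTheory Set Real Filter Topology ProbabilityTheory
open scoped ENNReal

/-- the density (up to a constant) after differentiation -/
noncomputable def Φ (r τ d u : ℝ) : ℝ :=
  w r u * ((τ * (1 + u) / Y d u) ^ (2 * r) * exp (-(τ * (1 + u) / Y d u)))

theorem measurable_Φ (r τ d : ℝ) : Measurable (Φ r τ d) := by
  unfold Φ Y w; fun_prop

theorem Φ_pos {r τ d u : ℝ} (hτ : 0 < τ) (hd : |d| < 1) (hu : 0 < u) : 0 < Φ r τ d u := by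
  have := Y_pos hd hu
  have := w_pos (r := r) hu
  unfold Φ
  positivity

theorem Y_ge {d u ε : ℝ} (hd : |d| ≤ 1 - ε) (hu : 0 < u) : ε * (1 + u) ≤ Y d u := by
  have := abs_le.mp hd
  unfold Y
  nlinarith

theorem Φ_le {r τ d u ε : ℝ} (hr : 0 < r) (hτ : 0 < τ) (hε : 0 < ε) (hd : |d| ≤ 1 - ε)
    (hu : 0 < u) : Φ r τ d u ≤ w r u * (τ / ε) ^ (2 * r) := by
  have h1 := Y_ge hd hu
  have hY := Y_pos (by linarith : |d| < 1) hu
  unfold Φ
  have hw := w_pos (r := r) hu
  apply mul_le_mul_of_nonneg_left _ hw.le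
  have h2 : τ * (1 + u) / Y d u ≤ τ / ε := by
    rw [div_le_div_iff₀ hY hε]
    nlinarith
  have h3 : (τ * (1 + u) / Y d u) ^ (2 * r) ≤ (τ / ε) ^ (2 * r) :=
    rpow_le_rpow (by positivity) h2 (by positivity)
  have h4 : exp (-(τ * (1 + u) / Y d u)) ≤ 1 := by
    apply exp_le_one_iff.mpr
    have : 0 ≤ τ * (1 + u) / Y d u := by positivity
    linarith
  calc (τ * (1 + u) / Y d u) ^ (2 * r) * exp (-(τ * (1 + u) / Y d u))
      ≤ (τ / ε) ^ (2 * r) * 1 := mul_le_mul h3 h4 (exp_pos _).le (by positivity)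
    _ = (τ / ε) ^ (2 * r) := mul_one _

theorem integrable_Φ_mul {r τ d : ℝ} (hr : 0 < r) (hτ : 0 < τ) (hd : |d| < 1) {f : ℝ → ℝ}
    (hf : Measurable f) {C : ℝ} (hC : ∀ u, 0 < u → |f u| ≤ C) :
    IntegrableOn (fun u => Φ r τ d u * f u) (Ioi 0) := by
  set ε := 1 - |d| with hε
  have hε0 : 0 < ε := by linarith
  have hb : IntegrableOn (fun u => w r u * ((τ / ε) ^ (2 * r) * C)) (Ioi 0) :=
    (integrable_w hr).mul_const _
  refine Integrable.mono' hb ((measurable_Φ r τ d).mul hf).aestronglyMeasurable ?_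
  refine (ae_restrict_iff' measurableSet_Ioi).mpr (ae_of_all _ fun u hu => ?_)
  have hu' : (0 : ℝ) < u := hu
  have h1 := Φ_le hr hτ hε0 (by linarith : |d| ≤ 1 - ε) hu'
  have h2 := hC u hu'
  have h3 := Φ_pos (r := r) hτ hd hu'
  have hw := w_pos (r := r) hu'
  rw [norm_mul, Real.norm_of_nonneg h3.le, Real.norm_eq_abs, ← mul_assoc]
  exact mul_le_mul h1 h2 (abs_nonneg _) (by positivity)

theorem hasDerivAt_q {r τ d : ℝ} (hr : 0 < r) (hτ : 0 < τ) (hd : |d| < 1) :
    HasDerivAt (q r τ) (∫ u in Ioi (0 : ℝ), -(Φ r τ d u * ((u - 1) / Y d u))) d := by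
  set ε := (1 - |d|) / 2 with hε
  have hε0 : 0 < ε := by rw [hε]; linarith
  have hball : ∀ x ∈ Metric.ball d ε, |x| ≤ 1 - ε := by
    intro x hx
    rw [Metric.mem_ball, Real.dist_eq] at hx
    have h1 : |x| ≤ |x - d| + |d| := by
      have := abs_add_le (x - d) d
      simpa using this
    have h2 : |d| = 1 - 2 * ε := by rw [hε]; ring
    linarith
  refine (hasDerivAt_integral_of_dominated_loc_of_deriv_le
    (F := fun d u => w r u * G r (τ * (1 + u) / Y d u))
    (F' := fun d u => -(Φ r τ d u * ((u - 1) / Y d u)))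
    (bound := fun u => w r u * ((τ / ε) ^ (2 * r) * (1 / ε)))
    (s := Metric.ball d ε) (Metric.ball_mem_nhds d hε0) ?_ (integrable_GY hr hτ hd) ?_ ?_
    ((integrable_w hr).mul_const _) ?_).2
  · filter_upwards [Metric.ball_mem_nhds d hε0] with x hx
    exact measurable_GY hr hτ (by have := hball x hx; linarith)
  · apply Measurable.aestronglyMeasurable
    have := measurable_Φ r τ d
    unfold Y
    fun_prop
  · refine (ae_restrict_iff' measurableSet_Ioi).mpr (ae_of_all _ fun u hu => ?_)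
    intro x hx
    have hu' : (0 : ℝ) < u := hu
    have hx1 := hball x hx
    have hxd : |x| < 1 := by linarith
    have hw := w_pos (r := r) hu'
    have hY := Y_pos hxd hu'
    have h1 := Φ_le hr hτ hε0 hx1 hu'
    have h2 : |(u - 1) / Y x u| ≤ 1 / ε := by
      rw [abs_div, abs_of_pos hY, div_le_div_iff₀ hY hε0]
      have h3 := Y_ge hx1 hu'
      have h4 : |u - 1| ≤ 1 + u := by
        rw [abs_le]; constructor <;> linarith
      nlinarith
    rw [norm_neg, norm_mul, Real.norm_of_nonneg (Φ_pos hτ hxd hu').le, Real.norm_eq_abs,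
      ← mul_assoc]
    exact mul_le_mul h1 h2 (abs_nonneg _) (by positivity)
  · refine (ae_restrict_iff' measurableSet_Ioi).mpr (ae_of_all _ fun u hu => ?_)
    intro x hx
    have hu' : (0 : ℝ) < u := hu
    have hx1 := hball x hx
    have hxd : |x| < 1 := by linarith
    have hY := Y_pos hxd hu'
    have hYd : HasDerivAt (fun d => Y d u) (u - 1) x := by
      unfold Y
      have h1 : HasDerivAt (fun d : ℝ => (1 - d) + (1 + d) * u) (-1 + 1 * u) x := by
        apply HasDerivAt.add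
        · exact (hasDerivAt_id x).const_sub 1
        · exact ((hasDerivAt_id x).const_add 1).mul_const u
      exact h1.congr_deriv (by ring)
    have hz : HasDerivAt (fun d => τ * (1 + u) / Y d u) (-(τ * (1 + u) * (u - 1)) / Y x u ^ 2) x := by
      have := (hasDerivAt_const x (τ * (1 + u))).div hYd hY.ne'
      exact this.congr_deriv (by ring)
    have hzpos : 0 < τ * (1 + u) / Y x u := by positivity
    have h2 := ((hasDerivAt_G hr hzpos).comp x hz).const_mul (w r u)
    refine h2.congr_deriv ?_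
    have e1 : (τ * (1 + u) / Y x u) ^ (2 * r) =
        (τ * (1 + u) / Y x u) ^ (2 * r - 1) * (τ * (1 + u) / Y x u) := by
      rw [← rpow_add_one hzpos.ne']
      congr 1
      ring
    rw [Φ, e1]
    field_simp

/-- the auxiliary function -/
noncomputable def Ψ (r τ d u : ℝ) : ℝ :=
  u ^ r * Y d u ^ (-(2 * r)) * exp (-(τ * (1 + u) / Y d u))

theorem Φ_eq {r τ d u : ℝ} (hτ : 0 < τ) (hd : |d| < 1) (hu : 0 < u) :
    Φ r τ d u = τ ^ (2 * r) * (Ψ r τ d u / u) := by
  have hY := Y_pos hd hu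
  unfold Φ Ψ w
  rw [div_rpow (by positivity) hY.le, mul_rpow hτ.le (by positivity), rpow_sub_one hu.ne',
    rpow_neg (by positivity), rpow_neg hY.le]
  have h1 : 0 < (1 + u) ^ (2 * r) := by positivity
  have h2 : 0 < (Y d u) ^ (2 * r) := by positivity
  field_simp

/-- the variable `v` -/
noncomputable def V (d u : ℝ) : ℝ := ((1 + d) * u - (1 - d)) / Y d u

theorem V_abs {d u : ℝ} (hd : |d| < 1) (hu : 0 < u) : |V d u| ≤ 1 := by
  have hY := Y_pos hd hu
  have := abs_lt.mp hd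
  unfold V
  rw [abs_div, abs_of_pos hY, div_le_one hY, abs_le]
  unfold Y
  constructor <;> nlinarith

theorem hasDerivAt_Ψ {r τ d u : ℝ} (hτ : 0 < τ) (hd : |d| < 1) (hu : 0 < u) :
    HasDerivAt (Ψ r τ d) ((τ ^ (2 * r))⁻¹ * (Φ r τ d u *
      (-(r * V d u) + τ * d / (2 * (1 - d ^ 2)) * (1 - V d u ^ 2)))) u := by
  have hY := Y_pos hd hu
  have hd2 := abs_lt.mp hd
  have hd3 : 0 < 1 - d ^ 2 := by nlinarith
  have hYd : HasDerivAt (fun u => Y d u) (1 + d) u := by
    unfold Y
    have h1 : HasDerivAt (fun u : ℝ => (1 - d) + (1 + d) * u) ((1 + d) * 1) u :=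
      ((hasDerivAt_id u).const_mul (1 + d)).const_add (1 - d)
    exact h1.congr_deriv (by ring)
  have h1 : HasDerivAt (fun u : ℝ => u ^ r) (r * u ^ (r - 1)) u :=
    hasDerivAt_rpow_const (Or.inl hu.ne')
  have h2 : HasDerivAt (fun u : ℝ => Y d u ^ (-(2 * r)))
      ((1 + d) * (-(2 * r)) * Y d u ^ (-(2 * r) - 1)) u :=
    hYd.rpow_const (Or.inl hY.ne')
  have h3 : HasDerivAt (fun u : ℝ => exp (-(τ * (1 + u) / Y d u)))
      (exp (-(τ * (1 + u) / Y d u)) * (-((τ * Y d u - τ * (1 + u) * (1 + d)) / Y d u ^ 2))) u := by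
    have h4 : HasDerivAt (fun u : ℝ => τ * (1 + u)) τ u := by
      have := ((hasDerivAt_id u).const_add 1).const_mul τ
      simpa using this
    exact (h4.div hYd hY.ne').neg.exp
  have h5 := (h1.mul h2).mul h3
  have h6 : Φ r τ d u = τ ^ (2 * r) * (Ψ r τ d u / u) := Φ_eq hτ hd hu
  refine h5.congr_deriv ?_
  rw [h6]
  unfold Ψ V
  rw [rpow_sub_one hu.ne', rpow_sub_one hY.ne']
  have h7 : 0 < τ ^ (2 * r) := by positivity
  have h8 : 0 < Y d u ^ (-(2 * r)) := by positivity
  have h9 : 0 < u ^ r := by positivity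
  simp only [Pi.mul_apply]
  have hYe : Y d u = (1 - d) + (1 + d) * u := rfl
  generalize Y d u ^ (-(2 * r)) = a at *
  generalize exp (-(τ * (1 + u) / Y d u)) = b at *
  generalize u ^ r = c at *
  generalize τ ^ (2 * r) = e at *
  generalize Y d u = y at *
  have hd4 : 1 - d ^ 2 ≠ 0 := hd3.ne'
  have hyn : y ≠ 0 := hY.ne'
  field_simp
  rw [hYe]
  ring

end Pool.Agent.R789.McKay
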