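import Pool.Agent.R789.McKaySign

/-!
# The median of a gamma variable is at most its mean; the median statement
-/

namespace Pool.Agent.R789.McKay

open MeasureTheory Set Real Filter Topology ProbabilityTheory
open scoped ENNReal

theorem two_log_le {x : ℝ} (hx : 1 ≤ x) : 2 * log x ≤ x - x⁻¹ := by
  have h1 : log x ≤ sinh (log x) := Real.self_le_sinh_iff.mpr (log_nonneg hx)
  rw [Real.sinh_log (by linarith)] at h1
  linarith

theorem refl_le {a s : ℝ} (ha : 0 < a) (hs : 0 < s) (hsa : s < a) :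
    |-(a ^ 2 / s ^ 2)| * ((a ^ 2 / s) ^ (a - 1) * exp (-(a ^ 2 / s))) ≤
      s ^ (a - 1) * exp (-s) := by
  have h1 : 1 ≤ a / s := by rw [one_le_div hs]; exact hsa.le
  have h2 := two_log_le h1
  have h3 : exp (a * (2 * log (a / s))) ≤ exp (a * (a / s - (a / s)⁻¹)) :=
    exp_le_exp.mpr (mul_le_mul_of_nonneg_left h2 ha.le)
  have h4 : exp (a * (2 * log (a / s))) = (a / s) ^ (2 * a) := by
    rw [rpow_def_of_pos (by positivity)]
    congr 1
    ring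
  have h5 : a * (a / s - (a / s)⁻¹) = a ^ 2 / s + -s := by
    field_simp
    ring
  rw [h4, h5, Real.exp_add] at h3
  rw [abs_neg, abs_of_pos (by positivity)]
  have h6 : (a ^ 2 / s) ^ (a - 1) = (a / s) ^ (2 * a) * s ^ (a - 1) * (s ^ 2 / a ^ 2) := by
    have e1 : a ^ 2 / s = (a / s) ^ (2 : ℝ) * s := by
      rw [rpow_two]; field_simp
    rw [e1, mul_rpow (by positivity) hs.le, ← rpow_mul (by positivity)]
    have e2 : (s ^ 2 / a ^ 2) = (a / s) ^ (-2 : ℝ) := by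
      rw [rpow_neg (by positivity), rpow_two]; field_simp
    rw [e2, mul_assoc, mul_comm (s ^ (a - 1)), ← mul_assoc, ← rpow_add (by positivity)]
    congr 2
    ring
  rw [h6]
  have h7 : a ^ 2 / s ^ 2 * ((a / s) ^ (2 * a) * s ^ (a - 1) * (s ^ 2 / a ^ 2) *
      exp (-(a ^ 2 / s))) = s ^ (a - 1) * ((a / s) ^ (2 * a) * exp (-(a ^ 2 / s))) := by
    field_simp
  rw [h7]
  apply mul_le_mul_of_nonneg_left _ (by positivity)
  calc (a / s) ^ (2 * a) * exp (-(a ^ 2 / s))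
      ≤ (exp (a ^ 2 / s) * exp (-s)) * exp (-(a ^ 2 / s)) :=
        mul_le_mul_of_nonneg_right h3 (exp_pos _).le
    _ = exp (-s) := by
        rw [mul_comm (exp (a ^ 2 / s)), mul_assoc, ← Real.exp_add]
        simp

/-- median at most mean for the gamma law -/
theorem gamma_median {r : ℝ} (hr : 0 < r) : Gamma (2 * r) ≤ 2 * G r (2 * r) := by
  set a : ℝ := 2 * r with ha
  have ha0 : 0 < a := by positivity
  have him : (fun s => a ^ 2 / s) '' Ioo (0 : ℝ) a = Ioi a := by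
    ext y
    simp only [mem_image, mem_Ioi, mem_Ioo]
    constructor
    · rintro ⟨s, ⟨h1, h2⟩, rfl⟩
      rw [lt_div_iff₀ h1]
      nlinarith
    · intro hy
      have hy0 : 0 < y := ha0.trans hy
      refine ⟨a ^ 2 / y, ⟨by positivity, ?_⟩, by field_simp⟩
      rw [div_lt_iff₀ hy0]
      nlinarith
  have h1 := lintegral_image_eq_lintegral_abs_deriv_mul (s := Ioo (0 : ℝ) a) measurableSet_Ioo
    (f := fun s => a ^ 2 / s) (f' := fun s => -(a ^ 2 / s ^ 2))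
    (fun s hs => by
      have := (hasDerivAt_const s (a ^ 2)).div (hasDerivAt_id s) hs.1.ne'
      refine (this.congr_deriv ?_).hasDerivWithinAt
      simp only [id]
      ring)
    (fun x hx y hy hxy => by
      have hx0 := hx.1
      have hy0 := hy.1
      simp only at hxy
      field_simp at hxy
      exact hxy.symm)
    (fun x => ENNReal.ofReal (x ^ (a - 1) * exp (-x)))
  rw [him] at h1
  have h2 : ∫⁻ x in Ioi a, ENNReal.ofReal (x ^ (a - 1) * exp (-x)) ≤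
      ∫⁻ x in Ioo 0 a, ENNReal.ofReal (x ^ (a - 1) * exp (-x)) := by
    rw [h1]
    refine setLIntegral_mono' measurableSet_Ioo ?_
    intro s hs
    rw [← ENNReal.ofReal_mul (abs_nonneg _)]
    exact ENNReal.ofReal_le_ofReal (refl_le ha0 hs.1 hs.2)
  have h3 : ∫⁻ x in Ioo 0 a, ENNReal.ofReal (x ^ (a - 1) * exp (-x)) ≤
      ENNReal.ofReal (G r a) := by
    rw [← lint_G hr ha0.le]
    exact lintegral_mono_set Ioo_subset_Ioc_self
  have h4 := lint_Gamma hr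
  have h5 : Ioi (0 : ℝ) = Ioc 0 a ∪ Ioi a := (Ioc_union_Ioi_eq_Ioi ha0.le).symm
  rw [h5, lintegral_union measurableSet_Ioi (by
    rw [Set.disjoint_iff]; rintro x ⟨h, h'⟩; exact absurd h.2 (not_le.mpr h')), lint_G hr ha0.le] at h4
  have h6 : ENNReal.ofReal (Gamma (2 * r)) ≤ ENNReal.ofReal (2 * G r a) := by
    rw [← h4, two_mul (G r a), ENNReal.ofReal_add (G_nonneg ha0.le) (G_nonneg ha0.le)]
    exact add_le_add le_rfl (h2.trans h3)
  rwa [ENNReal.ofReal_le_ofReal_iff (by have := G_nonneg (r := r) ha0.le; positivity)] at h6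

/-- at `τ = 2 r` the probability is at least one half -/
theorem half_le {r d : ℝ} (hr : 0 < r) (hd0 : 0 ≤ d) (hd1 : d < 1) :
    1 / 2 ≤ (Gamma r)⁻¹ ^ 2 * q r (2 * r) d := by
  have hG : 0 < (Gamma r)⁻¹ := inv_pos.mpr (Gamma_pos_of_pos hr)
  have h1 : q r (2 * r) 0 ≤ q r (2 * r) d :=
    (q_strictMono hr (by positivity) le_rfl).monotoneOn ⟨le_rfl, one_pos⟩ ⟨hd0, hd1⟩ hd0
  have h2 := gamma_median hr
  have h3 := integral_w hr
  have h4 : 0 ≤ ∫ u in Ioi (0 : ℝ), w r u :=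
    setIntegral_nonneg measurableSet_Ioi (fun x hx => (w_pos hx).le)
  rw [q_zero] at h1
  have h5 : (Gamma r)⁻¹ ^ 2 * ((∫ u in Ioi (0 : ℝ), w r u) * Gamma (2 * r)) ≤
      (Gamma r)⁻¹ ^ 2 * ((∫ u in Ioi (0 : ℝ), w r u) * (2 * G r (2 * r))) :=
    mul_le_mul_of_nonneg_left (mul_le_mul_of_nonneg_left h2 h4) (by positivity)
  have h6 : (Gamma r)⁻¹ ^ 2 * ((∫ u in Ioi (0 : ℝ), w r u) * G r (2 * r)) ≤
      (Gamma r)⁻¹ ^ 2 * q r (2 * r) d := mul_le_mul_of_nonneg_left h1 (by positivity)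
  nlinarith

theorem prob_nonpos {r τ d : ℝ} (hr : 0 < r) (hτ : τ ≤ 0) (hd : |d| < 1) :
    ((gammaMeasure r 1).prod (gammaMeasure r 1)) {p | (1 - d) * p.1 + (1 + d) * p.2 ≤ τ} = 0 := by
  rw [prod_formula hr (measurableSet_le (by fun_prop) (by fun_prop))]
  have hd2 := abs_lt.mp hd
  have : ∀ u ∈ Ioi (0 : ℝ), (∫⁻ g in Ioi 0,
        ENNReal.ofReal ((Gamma r)⁻¹ ^ 2 * w r u * (g ^ (2 * r - 1) * exp (-g))) *
          {p : ℝ × ℝ | (1 - d) * p.1 + (1 + d) * p.2 ≤ τ}.indicator (fun _ => (1 : ℝ≥0∞))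
            (g / (1 + u), g * u / (1 + u))) = 0 := by
    intro u hu
    have hu' : (0 : ℝ) < u := hu
    have : ∀ g ∈ Ioi (0 : ℝ),
        ENNReal.ofReal ((Gamma r)⁻¹ ^ 2 * w r u * (g ^ (2 * r - 1) * exp (-g))) *
          {p : ℝ × ℝ | (1 - d) * p.1 + (1 + d) * p.2 ≤ τ}.indicator (fun _ => (1 : ℝ≥0∞))
            (g / (1 + u), g * u / (1 + u)) = 0 := by
      intro g hg
      have hg' : (0 : ℝ) < g := hg
      rw [indicator_of_notMem, mul_zero]
      simp only [mem_ofPred_eq, not_le]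
      have h1 : 0 < 1 - d := by linarith
      have h2 : 0 < 1 + d := by linarith
      have : 0 < (1 - d) * (g / (1 + u)) + (1 + d) * (g * u / (1 + u)) := by positivity
      linarith
    rw [setLIntegral_congr_fun measurableSet_Ioi this]
    simp
  rw [setLIntegral_congr_fun measurableSet_Ioi this]
  simp

theorem med_spec (μ : Measure ℝ) [IsProbabilityMeasure μ]
    (hne : {x : ℝ | (1 / 2 : ℝ≥0∞) ≤ μ (Iic x)}.Nonempty) :
    (1 / 2 : ℝ≥0∞) ≤ μ (Iic (sInf {x : ℝ | (1 / 2 : ℝ≥0∞) ≤ μ (Iic x)})) := by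
  set S := {x : ℝ | (1 / 2 : ℝ≥0∞) ≤ μ (Iic x)} with hS
  have hconv : ∀ x, (1 / 2 : ℝ≥0∞) ≤ μ (Iic x) ↔ 1 / 2 ≤ cdf μ x := by
    intro x
    rw [cdf_eq_real, measureReal_def]
    have h1 : μ (Iic x) ≠ ⊤ := measure_ne_top _ _
    rw [← ENNReal.ofReal_le_iff_le_toReal h1]
    rw [ENNReal.ofReal_div_of_pos (by norm_num)]
    simp
  rw [hconv]
  have hrc : Tendsto (cdf μ) (𝓝[>] (sInf S)) (𝓝 (cdf μ (sInf S))) :=
    ((cdf μ).right_continuous (sInf S)).mono Ioi_subset_Ici_self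
  refine ge_of_tendsto hrc ?_
  filter_upwards [self_mem_nhdsWithin] with x hx
  obtain ⟨s, hs, hsx⟩ := exists_lt_of_csInf_lt hne hx
  have h1 : 1 / 2 ≤ cdf μ s := (hconv s).mp hs
  exact h1.trans (monotone_cdf μ hsx.le)

/-- the main argument, in terms of families of probability measures on the line -/
theorem main {r φ : ℝ} (hr : 0 < r) (hφ : 0 < φ) (L : ℝ → Measure ℝ)
    (hprob : ∀ d, IsProbabilityMeasure (L d))
    (hL : ∀ d, |d| < 1 → ∀ x, L d (Iic x) = ((gammaMeasure r 1).prod (gammaMeasure r 1))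
      {p | (1 - d) * p.1 + (1 + d) * p.2 ≤ x / φ}) {d₁ d₂ : ℝ} (h0 : 0 < d₂) (h12 : d₂ < d₁)
      (h1 : d₁ < 1) :
    sInf {x : ℝ | (1 / 2 : ℝ≥0∞) ≤ L d₁ (Iic x)} < sInf {x : ℝ | (1 / 2 : ℝ≥0∞) ≤ L d₂ (Iic x)} := by
  have hd1 : |d₁| < 1 := by rw [abs_of_pos (h0.trans h12)]; exact h1
  have hd2 : |d₂| < 1 := by rw [abs_of_pos h0]; linarith
  have := hprob d₁
  have := hprob d₂
  have hhalf : (1 / 2 : ℝ≥0∞) = ENNReal.ofReal (1 / 2) := by
    rw [ENNReal.ofReal_div_of_pos (by norm_num)]; simp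
  have hmem : ∀ d, |d| < 1 → ∀ x, 0 < x →
      ((1 / 2 : ℝ≥0∞) ≤ L d (Iic x) ↔ 1 / 2 ≤ (Gamma r)⁻¹ ^ 2 * q r (x / φ) d) := by
    intro d hd x hx
    rw [hL d hd, prob_eq hr (by positivity) hd, hhalf]
    constructor
    · intro h
      by_contra hlt
      rw [not_le] at hlt
      have := (ENNReal.ofReal_lt_ofReal_iff (by norm_num : (0 : ℝ) < 1 / 2)).mpr hlt
      exact absurd h (not_le.mpr this)
    · intro h
      exact ENNReal.ofReal_le_ofReal h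
  have hpos : ∀ d, |d| < 1 → ∀ x, (1 / 2 : ℝ≥0∞) ≤ L d (Iic x) → 0 < x := by
    intro d hd x hx
    by_contra hle
    rw [not_lt] at hle
    rw [hL d hd, prob_nonpos hr (div_nonpos_of_nonpos_of_nonneg hle hφ.le) hd] at hx
    simp at hx
  have hφr : 0 < 2 * r * φ := by positivity
  have hin : (2 * r * φ) ∈ {x : ℝ | (1 / 2 : ℝ≥0∞) ≤ L d₂ (Iic x)} := by
    refine (hmem d₂ hd2 _ hφr).mpr ?_
    rw [mul_div_assoc, div_self hφ.ne', mul_one]
    exact half_le hr h0.le (h12.trans h1)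
  have hspec := med_spec (L d₂) ⟨_, hin⟩
  set t := sInf {x : ℝ | (1 / 2 : ℝ≥0∞) ≤ L d₂ (Iic x)} with ht
  have ht0 : 0 < t := hpos d₂ hd2 t hspec
  have htle : t ≤ 2 * r * φ := csInf_le ⟨0, fun x hx => (hpos d₂ hd2 x hx).le⟩ hin
  have hq2 : 1 / 2 ≤ (Gamma r)⁻¹ ^ 2 * q r (t / φ) d₂ := (hmem d₂ hd2 t ht0).mp hspec
  have hG : 0 < (Gamma r)⁻¹ := inv_pos.mpr (Gamma_pos_of_pos hr)
  have hτ0 : 0 < t / φ := by positivity
  have hτle : t / φ ≤ 2 * r := by rw [div_le_iff₀ hφ]; exact htle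
  have hlt : q r (t / φ) d₂ < q r (t / φ) d₁ :=
    q_strictMono hr hτ0 hτle ⟨h0.le, h12.trans h1⟩ ⟨(h0.trans h12).le, h1⟩ h12
  have hq1 : 1 / 2 < (Gamma r)⁻¹ ^ 2 * q r (t / φ) d₁ :=
    lt_of_le_of_lt hq2 (mul_lt_mul_of_pos_left hlt (by positivity))
  -- continuity
  have hcont : ContinuousAt (fun x => (Gamma r)⁻¹ ^ 2 * q r (x / φ) d₁) t := by
    apply ContinuousAt.mul continuousAt_const
    exact ContinuousAt.comp (g := fun τ => q r τ d₁) (f := fun x => x / φ) (q_cont hr hτ0 hd1)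
      (by fun_prop)
  have hev : ∀ᶠ x in 𝓝 t, 1 / 2 < (Gamma r)⁻¹ ^ 2 * q r (x / φ) d₁ :=
    hcont.eventually_const_lt hq1
  have hev2 : ∀ᶠ x in 𝓝[<] t, 1 / 2 < (Gamma r)⁻¹ ^ 2 * q r (x / φ) d₁ := hev.filter_mono
    nhdsWithin_le_nhds
  have hev3 : ∀ᶠ x in 𝓝[<] t, 0 < x :=
    (eventually_gt_nhds ht0).filter_mono nhdsWithin_le_nhds
  obtain ⟨x, ⟨hx1, hx2⟩, hx3⟩ := ((hev2.and hev3).and self_mem_nhdsWithin).exists
  have hxmem : x ∈ {x : ℝ | (1 / 2 : ℝ≥0∞) ≤ L d₁ (Iic x)} := (hmem d₁ hd1 x hx2).mpr hx1.le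
  exact lt_of_le_of_lt (csInf_le ⟨0, fun x hx => (hpos d₁ hd1 x hx).le⟩ hxmem) hx3

end Pool.Agent.R789.McKay
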