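import Pool.Agent.R789.McKayRep

/-!
# The one dimensional integral `q` and its relation with the probability
-/

namespace Pool.Agent.R789.McKay

open MeasureTheory Set Real Filter Topology ProbabilityTheory
open scoped ENNReal

/-- the linear form `(1 - d) + (1 + d) u` -/
noncomputable def Y (d u : ℝ) : ℝ := (1 - d) + (1 + d) * u

/-- the one dimensional integral -/
noncomputable def q (r τ d : ℝ) : ℝ := ∫ u in Ioi (0 : ℝ), w r u * G r (τ * (1 + u) / Y d u)

theorem gi (s : ℝ) (hs : 0 < s) : IntegrableOn (fun x : ℝ => x ^ (s - 1) * exp (-x)) (Ioi 0) := by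
  have := Real.GammaIntegral_convergent hs
  simpa only [mul_comm] using this

theorem gi' {r : ℝ} (hr : 0 < r) :
    IntegrableOn (fun x : ℝ => x ^ (2 * r - 1) * exp (-x)) (Ioi 0) := gi (2 * r) (by positivity)

theorem G_eq {r y : ℝ} (hy : 0 ≤ y) : G r y = ∫ x in Ioc 0 y, x ^ (2 * r - 1) * exp (-x) := by
  rw [G, intervalIntegral.integral_of_le hy]

theorem Gamma_eq {r : ℝ} (hr : 0 < r) :
    Gamma (2 * r) = ∫ x in Ioi 0, x ^ (2 * r - 1) * exp (-x) := by
  rw [Real.Gamma_eq_integral (by positivity)]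
  simp only [mul_comm]

theorem G_nonneg {r y : ℝ} (hy : 0 ≤ y) : 0 ≤ G r y := by
  rw [G_eq hy]
  exact setIntegral_nonneg measurableSet_Ioc (fun x hx => by
    have : 0 < x := hx.1
    positivity)

theorem G_le_Gamma {r y : ℝ} (hr : 0 < r) (hy : 0 ≤ y) : G r y ≤ Gamma (2 * r) := by
  rw [G_eq hy, Gamma_eq hr]
  refine setIntegral_mono_set (gi' hr) ?_ (Ioc_subset_Ioi_self.eventuallyLE)
  refine (ae_restrict_iff' measurableSet_Ioi).mpr (ae_of_all _ fun x hx => ?_)
  have : (0 : ℝ) < x := hx
  simp only [Pi.zero_apply]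
  positivity

theorem lint_G {r y : ℝ} (hr : 0 < r) (hy : 0 ≤ y) :
    ∫⁻ g in Ioc 0 y, ENNReal.ofReal (g ^ (2 * r - 1) * exp (-g)) = ENNReal.ofReal (G r y) := by
  rw [G_eq hy, ofReal_integral_eq_lintegral_ofReal]
  · exact (gi' hr).mono_set Ioc_subset_Ioi_self
  · refine (ae_restrict_iff' measurableSet_Ioc).mpr (ae_of_all _ fun x hx => ?_)
    have : (0 : ℝ) < x := hx.1
    simp only [Pi.zero_apply]
    positivity

theorem lint_Gamma {r : ℝ} (hr : 0 < r) :
    ∫⁻ g in Ioi 0, ENNReal.ofReal (g ^ (2 * r - 1) * exp (-g)) = ENNReal.ofReal (Gamma (2 * r)) := by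
  rw [Gamma_eq hr, ofReal_integral_eq_lintegral_ofReal]
  · exact (gi' hr)
  · refine (ae_restrict_iff' measurableSet_Ioi).mpr (ae_of_all _ fun x hx => ?_)
    have : (0 : ℝ) < x := hx
    simp only [Pi.zero_apply]
    positivity

theorem intervalIntegrable_g {r : ℝ} (hr : 0 < r) {a b : ℝ} (ha : 0 ≤ a) (hb : 0 ≤ b) :
    IntervalIntegrable (fun x : ℝ => x ^ (2 * r - 1) * exp (-x)) volume a b := by
  rw [intervalIntegrable_iff]
  refine (gi' hr).mono_set ?_
  intro x hx
  rcases le_total a b with h | h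
  · rw [uIoc_of_le h] at hx; exact lt_of_le_of_lt ha hx.1
  · rw [uIoc_of_ge h] at hx; exact lt_of_le_of_lt hb hx.1

theorem hasDerivAt_G {r y : ℝ} (hr : 0 < r) (hy : 0 < y) :
    HasDerivAt (G r) (y ^ (2 * r - 1) * exp (-y)) y := by
  unfold G
  have hc : ContinuousAt (fun x : ℝ => x ^ (2 * r - 1) * exp (-x)) y := by
    apply ContinuousAt.mul
    · exact continuousAt_rpow_const _ _ (Or.inl hy.ne')
    · fun_prop
  apply intervalIntegral.integral_hasDerivAt_right (intervalIntegrable_g hr le_rfl hy.le) ?_ hc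
  apply StronglyMeasurable.stronglyMeasurableAtFilter
  apply Measurable.stronglyMeasurable
  fun_prop

/-- total mass computation -/
theorem lint_w {r : ℝ} (hr : 0 < r) :
    (∫⁻ u in Ioi 0, ENNReal.ofReal ((Gamma r)⁻¹ ^ 2 * w r u)) * ENNReal.ofReal (Gamma (2 * r)) =
      1 := by
  have : IsProbabilityMeasure (gammaMeasure r 1) := isProbabilityMeasure_gammaMeasure hr one_pos
  have h := prod_formula hr (A := univ) MeasurableSet.univ
  have hG : 0 < (Gamma r)⁻¹ := inv_pos.mpr (Gamma_pos_of_pos hr)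
  rw [measure_univ] at h
  rw [h, ← lintegral_mul_const _ (by have := measurable_w r; fun_prop)]
  refine setLIntegral_congr_fun measurableSet_Ioi ?_
  intro u hu
  have hw : 0 < w r u := w_pos hu
  show _ * _ = ∫⁻ g in Ioi 0, _
  rw [← lint_Gamma hr, ← lintegral_const_mul _ (by fun_prop)]
  refine setLIntegral_congr_fun measurableSet_Ioi ?_
  intro g hg
  have : (0 : ℝ) < g := hg
  show _ * _ = _
  simp only [indicator_univ, mul_one]
  rw [← ENNReal.ofReal_mul (by positivity)]

theorem integrable_w {r : ℝ} (hr : 0 < r) : IntegrableOn (w r) (Ioi 0) := by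
  have hG : 0 < (Gamma r)⁻¹ := inv_pos.mpr (Gamma_pos_of_pos hr)
  have h1 : IntegrableOn (fun u => (Gamma r)⁻¹ ^ 2 * w r u) (Ioi 0) := by
    refine ⟨by have := measurable_w r; fun_prop, ?_⟩
    rw [hasFiniteIntegral_iff_ofReal]
    · rw [lt_top_iff_ne_top]
      intro h
      have := lint_w hr
      rw [h, ENNReal.top_mul] at this
      · simp at this
      · simp only [ne_eq, ENNReal.ofReal_eq_zero, not_le]
        exact Gamma_pos_of_pos (by positivity)
    · refine (ae_restrict_iff' measurableSet_Ioi).mpr (ae_of_all _ fun x hx => ?_)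
      have : 0 < w r x := w_pos hx
      simp only [Pi.zero_apply]
      positivity
  have h2 := h1.const_mul (((Gamma r)⁻¹ ^ 2)⁻¹)
  refine h2.congr ?_
  refine (ae_of_all _ fun x => ?_)
  show ((Gamma r)⁻¹ ^ 2)⁻¹ * ((Gamma r)⁻¹ ^ 2 * w r x) = w r x
  rw [← mul_assoc, inv_mul_cancel₀ (by positivity), one_mul]

theorem integral_w {r : ℝ} (hr : 0 < r) :
    (Gamma r)⁻¹ ^ 2 * (∫ u in Ioi 0, w r u) * Gamma (2 * r) = 1 := by
  have hG : 0 < (Gamma r)⁻¹ := inv_pos.mpr (Gamma_pos_of_pos hr)
  have h := lint_w hr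
  have hG2 : 0 < Gamma (2 * r) := Gamma_pos_of_pos (by positivity)
  rw [← ofReal_integral_eq_lintegral_ofReal, ← ENNReal.ofReal_mul, integral_const_mul] at h
  · rw [← ENNReal.ofReal_one, ENNReal.ofReal_eq_ofReal_iff] at h
    · exact h
    · have : 0 ≤ ∫ u in Ioi 0, w r u :=
        setIntegral_nonneg measurableSet_Ioi (fun x hx => (w_pos hx).le)
      positivity
    · exact zero_le_one
  · refine setIntegral_nonneg measurableSet_Ioi (fun x hx => ?_)
    have : 0 < w r x := w_pos hx
    positivity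
  · exact (integrable_w hr).const_mul _
  · refine (ae_restrict_iff' measurableSet_Ioi).mpr (ae_of_all _ fun x hx => ?_)
    have : 0 < w r x := w_pos hx
    simp only [Pi.zero_apply]
    positivity

theorem Y_pos {d u : ℝ} (hd : |d| < 1) (hu : 0 < u) : 0 < Y d u := by
  have := abs_lt.mp hd
  have h1 : 0 < 1 - d := by linarith
  have h2 : 0 < 1 + d := by linarith
  unfold Y
  positivity

theorem G_cont {r : ℝ} (hr : 0 < r) {y : ℝ} (hy : 0 < y) : ContinuousAt (G r) y :=
  (hasDerivAt_G hr hy).continuousAt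

theorem measurable_GY {r τ d : ℝ} (hr : 0 < r) (hτ : 0 < τ) (hd : |d| < 1) :
    AEStronglyMeasurable (fun u => w r u * G r (τ * (1 + u) / Y d u)) (volume.restrict (Ioi 0)) := by
  apply AEStronglyMeasurable.mul
  · exact (measurable_w r).aestronglyMeasurable
  · apply ContinuousOn.aestronglyMeasurable _ measurableSet_Ioi
    intro u hu
    have hu' : (0 : ℝ) < u := hu
    apply ContinuousAt.continuousWithinAt
    have hY := Y_pos hd hu
    refine ContinuousAt.comp (g := G r) (f := fun u => τ * (1 + u) / Y d u)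
      (G_cont hr (by positivity)) ?_
    apply ContinuousAt.div
    · fun_prop
    · unfold Y; fun_prop
    · exact hY.ne'

theorem integrable_GY {r τ d : ℝ} (hr : 0 < r) (hτ : 0 < τ) (hd : |d| < 1) :
    IntegrableOn (fun u => w r u * G r (τ * (1 + u) / Y d u)) (Ioi 0) := by
  have hb : IntegrableOn (fun u => w r u * Gamma (2 * r)) (Ioi 0) := (integrable_w hr).mul_const _
  refine Integrable.mono' hb (measurable_GY hr hτ hd) ?_
  refine (ae_restrict_iff' measurableSet_Ioi).mpr (ae_of_all _ fun u hu => ?_)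
  have hu' : (0 : ℝ) < u := hu
  have hw : 0 < w r u := w_pos hu
  have hY := Y_pos hd hu
  have h1 : 0 ≤ τ * (1 + u) / Y d u := by positivity
  rw [norm_mul, Real.norm_of_nonneg hw.le, Real.norm_of_nonneg (G_nonneg h1)]
  exact mul_le_mul_of_nonneg_left (G_le_Gamma hr h1) hw.le

/-- probability as the integral `q` -/
theorem prob_eq {r τ d : ℝ} (hr : 0 < r) (hτ : 0 < τ) (hd : |d| < 1) :
    ((gammaMeasure r 1).prod (gammaMeasure r 1)) {p | (1 - d) * p.1 + (1 + d) * p.2 ≤ τ} =
      ENNReal.ofReal ((Gamma r)⁻¹ ^ 2 * q r τ d) := by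
  have hG : 0 < (Gamma r)⁻¹ := inv_pos.mpr (Gamma_pos_of_pos hr)
  rw [prod_formula hr (measurableSet_le (by fun_prop) (by fun_prop)), q, ← integral_const_mul,
    ofReal_integral_eq_lintegral_ofReal]
  · refine setLIntegral_congr_fun measurableSet_Ioi ?_
    intro u hu
    have hu' : (0 : ℝ) < u := hu
    have hw : 0 < w r u := w_pos hu
    have hY := Y_pos hd hu
    have h1 : 0 ≤ τ * (1 + u) / Y d u := by positivity
    show (∫⁻ g in Ioi 0, _) = ENNReal.ofReal ((Gamma r)⁻¹ ^ 2 * (w r u * G r (τ * (1 + u) / Y d u)))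
    rw [← mul_assoc, ENNReal.ofReal_mul (by positivity), ← lint_G hr h1,
      ← lintegral_const_mul _ (by fun_prop), ← lintegral_indicator measurableSet_Ioc,
      ← lintegral_indicator measurableSet_Ioi]
    refine lintegral_congr fun g => ?_
    by_cases hg : 0 < g
    · rw [indicator_of_mem (by simpa using hg)]
      have e1 : (1 - d) * (g / (1 + u)) + (1 + d) * (g * u / (1 + u)) = g * Y d u / (1 + u) := by
        unfold Y; field_simp
      by_cases h : g ≤ τ * (1 + u) / Y d u
      · rw [indicator_of_mem (s := Ioc 0 (τ * (1 + u) / Y d u)) ⟨hg, h⟩, indicator_of_mem, mul_one,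
          ENNReal.ofReal_mul (by positivity)]
        simp only [mem_ofPred_eq]
        rw [e1, div_le_iff₀ (by positivity)]
        rwa [le_div_iff₀ hY] at h
      · rw [indicator_of_notMem (s := Ioc 0 (τ * (1 + u) / Y d u)) (fun h' => h h'.2),
          indicator_of_notMem, mul_zero]
        simp only [mem_ofPred_eq, not_le]
        rw [e1, lt_div_iff₀ (by positivity)]
        rw [not_le, div_lt_iff₀ hY] at h
        exact h
    · rw [indicator_of_notMem (by simpa using hg), indicator_of_notMem (fun h' => hg h'.1)]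
  · exact (integrable_GY hr hτ hd).const_mul _
  · refine (ae_restrict_iff' measurableSet_Ioi).mpr (ae_of_all _ fun u hu => ?_)
    have hu' : (0 : ℝ) < u := hu
    have hw : 0 < w r u := w_pos hu
    have hY := Y_pos hd hu
    have h1 : 0 ≤ τ * (1 + u) / Y d u := by positivity
    have h2 := G_nonneg (r := r) h1
    simp only [Pi.zero_apply]
    positivity

end Pool.Agent.R789.McKay
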