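import Mathlib

/-!
# One dimensional representation of the law of a weighted sum of two iid gamma variables
-/

namespace Pool.Agent.R789.McKay

open MeasureTheory Set Real Filter Topology ProbabilityTheory
open scoped ENNReal

/-- weight -/
noncomputable def w (r u : ℝ) : ℝ := u ^ (r - 1) * (1 + u) ^ (-(2 * r))

/-- the incomplete gamma function with exponent `2 r` -/
noncomputable def G (r y : ℝ) : ℝ := ∫ x in (0 : ℝ)..y, x ^ (2 * r - 1) * exp (-x)

theorem measurable_w (r : ℝ) : Measurable (w r) := by
  unfold w; fun_prop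

theorem w_pos {r u : ℝ} (hu : 0 < u) : 0 < w r u := by
  unfold w; positivity

theorem subst_mul {x : ℝ} (hx : 0 < x) (h : ℝ → ℝ≥0∞) :
    ∫⁻ y in Ioi 0, h y = ∫⁻ u in Ioi 0, ENNReal.ofReal x * h (x * u) := by
  have h1 := lintegral_image_eq_lintegral_abs_deriv_mul (s := Ioi (0 : ℝ)) measurableSet_Ioi
    (f := fun u => x * u) (f' := fun _ => x)
    (fun u _ => by simpa using ((hasDerivAt_id u).const_mul x).hasDerivWithinAt)
    (fun a _ b _ hab => by simpa [hx.ne'] using hab) h
  have h2 : (fun u => x * u) '' Ioi (0 : ℝ) = Ioi 0 := by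
    ext y
    simp only [mem_image, mem_Ioi]
    constructor
    · rintro ⟨u, hu, rfl⟩
      positivity
    · intro hy
      exact ⟨y / x, by positivity, by field_simp⟩
  rw [h2] at h1
  rw [h1, abs_of_pos hx]

/-- the double integral formula -/
theorem prod_formula {r : ℝ} (hr : 0 < r) {A : Set (ℝ × ℝ)} (hA : MeasurableSet A) :
    ((gammaMeasure r 1).prod (gammaMeasure r 1)) A =
      ∫⁻ u in Ioi 0, ∫⁻ g in Ioi 0,
        ENNReal.ofReal ((Gamma r)⁻¹ ^ 2 * w r u * (g ^ (2 * r - 1) * exp (-g))) *
          A.indicator (fun _ => (1 : ℝ≥0∞)) (g / (1 + u), g * u / (1 + u)) := by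
  have hmeas : Measurable (gammaPDF r 1) := by
    unfold gammaPDF; fun_prop
  have : IsProbabilityMeasure (gammaMeasure r 1) := isProbabilityMeasure_gammaMeasure hr one_pos
  have hind : Measurable (A.indicator (fun _ => (1 : ℝ≥0∞))) :=
    measurable_const.indicator hA
  -- lintegral against the gamma measure
  have key : ∀ f : ℝ → ℝ≥0∞, Measurable f → ∫⁻ x, f x ∂(gammaMeasure r 1) =
      ∫⁻ x in Ioi 0, ENNReal.ofReal ((Gamma r)⁻¹ * (x ^ (r - 1) * exp (-x))) * f x := by
    intro f hf
    rw [gammaMeasure, lintegral_withDensity_eq_lintegral_mul _ hmeas hf,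
      ← lintegral_indicator measurableSet_Ioi]
    refine lintegral_congr_ae ?_
    have h0 : ∀ᵐ x : ℝ, x ≠ 0 := by
      have := (measure_singleton (μ := (volume : Measure ℝ)) (0 : ℝ))
      exact compl_mem_ae_iff.mpr this
    filter_upwards [h0] with x hx
    rcases lt_or_gt_of_ne hx with hx | hx
    · rw [indicator_of_notMem (by simpa using hx.le)]
      simp [gammaPDF_of_neg hx]
    · rw [indicator_of_mem (by simpa using hx)]
      simp only [Pi.mul_apply]
      rw [gammaPDF_of_nonneg hx.le]
      congr 2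
      simp
      ring
  rw [← lintegral_indicator_one hA, lintegral_prod _ (by exact (measurable_one.indicator hA).aemeasurable)]
  rw [key _ (by
    apply Measurable.lintegral_prod_right'
    exact measurable_one.indicator hA)]
  have e1 : ∀ x ∈ Ioi (0 : ℝ), ENNReal.ofReal ((Gamma r)⁻¹ * (x ^ (r - 1) * exp (-x))) *
      ∫⁻ y, A.indicator 1 (x, y) ∂(gammaMeasure r 1) =
      ∫⁻ u in Ioi 0, ENNReal.ofReal ((Gamma r)⁻¹ * (x ^ (r - 1) * exp (-x))) *
        (ENNReal.ofReal x * (ENNReal.ofReal ((Gamma r)⁻¹ * ((x * u) ^ (r - 1) * exp (-(x * u)))) *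
          A.indicator (fun _ => (1 : ℝ≥0∞)) (x, x * u))) := by
    intro x hx
    rw [key _ (by
      have : Measurable (A.indicator (1 : ℝ × ℝ → ℝ≥0∞)) := measurable_one.indicator hA
      exact this.comp measurable_prodMk_left)]
    rw [subst_mul hx, ← lintegral_const_mul]
    · rfl
    · apply Measurable.const_mul
      apply Measurable.mul
      · fun_prop
      · exact hind.comp (by fun_prop)
  rw [setLIntegral_congr_fun measurableSet_Ioi e1]
  rw [lintegral_lintegral_swap]
  · refine setLIntegral_congr_fun measurableSet_Ioi ?_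
    intro u hu
    have hu' : (0 : ℝ) < u := hu
    have h1u : 0 < 1 / (1 + u) := by positivity
    show (∫⁻ x in Ioi 0, _) = _
    rw [subst_mul h1u]
    refine setLIntegral_congr_fun measurableSet_Ioi ?_
    intro g hg
    have hg' : (0 : ℝ) < g := hg
    show ENNReal.ofReal (1 / (1 + u)) * _ = _
    have e3 : 1 / (1 + u) * g = g / (1 + u) := by ring
    have e4 : g / (1 + u) * u = g * u / (1 + u) := by ring
    simp only [e3, e4]
    rw [← mul_assoc (ENNReal.ofReal _) (ENNReal.ofReal _) _, ← mul_assoc, ← mul_assoc, ← mul_assoc]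
    congr 1
    have hG : 0 < (Gamma r)⁻¹ := inv_pos.mpr (Gamma_pos_of_pos hr)
    rw [← ENNReal.ofReal_mul (by positivity), ← ENNReal.ofReal_mul (by positivity),
      ← ENNReal.ofReal_mul (by positivity)]
    congr 1
    rw [div_rpow hg'.le (by positivity), div_rpow (by positivity) (by positivity),
      mul_rpow hg'.le hu'.le, w]
    have e5 : (1 + u) ^ (-(2 * r)) = ((1 + u) ^ (r - 1))⁻¹ * ((1 + u) ^ (r - 1))⁻¹ * (1 + u)⁻¹ *
        (1 + u)⁻¹ := by
      rw [← rpow_neg (by positivity), ← rpow_add (by positivity), ← rpow_neg_one,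
        ← rpow_add (by positivity), ← rpow_add (by positivity)]
      congr 1
      ring
    have e6 : g ^ (2 * r - 1) = g ^ (r - 1) * g ^ (r - 1) * g := by
      rw [← rpow_add hg', ← rpow_add_one hg'.ne']
      congr 1
      ring
    have e7 : exp (-g) = exp (-(g / (1 + u))) * exp (-(g * u / (1 + u))) := by
      rw [← Real.exp_add]
      congr 1
      field_simp
      ring
    rw [e5, e6, e7]
    field_simp
  · apply Measurable.aemeasurable
    refine Measurable.mul ?_ (Measurable.mul ?_ (Measurable.mul ?_ ?_))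
    · fun_prop
    · fun_prop
    · fun_prop
    · exact hind.comp (by fun_prop)

end Pool.Agent.R789.McKay
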