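import Pool.Agent.R789.McKayDeriv

/-!
# Positivity of the derivative of `q` and continuity of `q` in `τ`
-/

namespace Pool.Agent.R789.McKay

open MeasureTheory Set Real Filter Topology ProbabilityTheory
open scoped ENNReal

theorem V_sq_le {d u : ℝ} (hd : |d| < 1) (hu : 0 < u) : V d u ^ 2 ≤ 1 := by
  have := V_abs hd hu
  rw [← sq_abs]
  have h0 := abs_nonneg (V d u)
  nlinarith

theorem measurable_V (d : ℝ) : Measurable (V d) := by
  unfold V Y; fun_prop

/-- the integration by parts identity -/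
theorem parts {r τ d : ℝ} (hr : 0 < r) (hτ : 0 < τ) (hd : |d| < 1) :
    ∫ u in Ioi (0 : ℝ), Φ r τ d u * (-(r * V d u) + τ * d / (2 * (1 - d ^ 2)) * (1 - V d u ^ 2)) =
      0 := by
  have hd2 := abs_lt.mp hd
  have hd3 : 0 < 1 - d ^ 2 := by nlinarith
  have hint : IntegrableOn (fun u => Φ r τ d u *
      (-(r * V d u) + τ * d / (2 * (1 - d ^ 2)) * (1 - V d u ^ 2))) (Ioi 0) := by
    refine integrable_Φ_mul hr hτ hd (C := r + |τ * d / (2 * (1 - d ^ 2))|) ?_ ?_
    · have := measurable_V d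
      fun_prop
    · intro u hu
      have h1 := V_abs hd hu
      have h2 := V_sq_le hd hu
      calc |-(r * V d u) + τ * d / (2 * (1 - d ^ 2)) * (1 - V d u ^ 2)|
          ≤ |-(r * V d u)| + |τ * d / (2 * (1 - d ^ 2)) * (1 - V d u ^ 2)| := abs_add_le _ _
        _ ≤ r + |τ * d / (2 * (1 - d ^ 2))| := by
          rw [abs_neg, abs_mul, abs_mul, abs_of_pos hr]
          have h3 : |1 - V d u ^ 2| ≤ 1 := by
            rw [abs_le]; constructor <;> nlinarith [sq_nonneg (V d u)]
          have h4 := abs_nonneg (τ * d / (2 * (1 - d ^ 2)))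
          nlinarith [abs_nonneg (V d u)]
  have h1 := integral_Ioi_of_hasDerivAt_of_tendsto (a := 0) (f := Ψ r τ d)
    (f' := fun u => (τ ^ (2 * r))⁻¹ * (Φ r τ d u *
      (-(r * V d u) + τ * d / (2 * (1 - d ^ 2)) * (1 - V d u ^ 2)))) (m := 0) ?_
    (fun u hu => hasDerivAt_Ψ hτ hd hu) (hint.const_mul _) ?_
  · rw [integral_const_mul] at h1
    have h2 : Ψ r τ d 0 = 0 := by
      unfold Ψ; rw [zero_rpow hr.ne']; ring
    rw [h2, sub_zero] at h1
    rcases mul_eq_zero.mp h1 with h | h
    · exfalso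
      have : 0 < (τ ^ (2 * r))⁻¹ := by positivity
      linarith
    · exact h
  · apply ContinuousAt.continuousWithinAt
    have hY0 : Y d 0 ≠ 0 := by
      unfold Y
      have : 0 < 1 - d := by linarith
      simpa using this.ne'
    have hYc : ContinuousAt (fun u => Y d u) 0 := by unfold Y; fun_prop
    unfold Ψ
    apply ContinuousAt.mul
    · apply ContinuousAt.mul
      · exact continuousAt_rpow_const _ _ (Or.inr hr.le)
      · exact hYc.rpow_const (Or.inl hY0)
    · apply ContinuousAt.rexp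
      apply ContinuousAt.neg
      apply ContinuousAt.div _ hYc hY0
      fun_prop
  · -- decay at infinity
    have hB : 0 < 1 + d := by linarith
    have h3 : Tendsto (fun u : ℝ => (1 + d) ^ (-(2 * r)) * u ^ (-r)) atTop (𝓝 0) := by
      have := (tendsto_rpow_neg_atTop hr).const_mul ((1 + d) ^ (-(2 * r)))
      simpa using this
    refine squeeze_zero' ?_ ?_ h3
    · filter_upwards [eventually_gt_atTop 0] with u hu
      have := Y_pos hd hu
      unfold Ψ; positivity
    · filter_upwards [eventually_gt_atTop 0] with u hu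
      have hY := Y_pos hd hu
      have hle : (1 + d) * u ≤ Y d u := by unfold Y; linarith
      have h4 : Y d u ^ (-(2 * r)) ≤ ((1 + d) * u) ^ (-(2 * r)) :=
        rpow_le_rpow_of_nonpos (by positivity) hle (by linarith)
      have h5 : exp (-(τ * (1 + u) / Y d u)) ≤ 1 := by
        apply exp_le_one_iff.mpr
        have : 0 ≤ τ * (1 + u) / Y d u := by positivity
        linarith
      have h6 : u ^ r * ((1 + d) * u) ^ (-(2 * r)) = (1 + d) ^ (-(2 * r)) * u ^ (-r) := by
        rw [mul_rpow hB.le hu.le]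
        have : u ^ (-r) = u ^ r * u ^ (-(2 * r)) := by
          rw [← rpow_add hu]; congr 1; ring
        rw [this]; ring
      calc Ψ r τ d u = u ^ r * Y d u ^ (-(2 * r)) * exp (-(τ * (1 + u) / Y d u)) := rfl
        _ ≤ u ^ r * ((1 + d) * u) ^ (-(2 * r)) * 1 := by
          apply mul_le_mul _ h5 (exp_pos _).le (by positivity)
          exact mul_le_mul_of_nonneg_left h4 (by positivity)
        _ = (1 + d) ^ (-(2 * r)) * u ^ (-r) := by rw [mul_one, h6]

/-- the derivative of `q` is positive -/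
theorem deriv_pos {r τ d : ℝ} (hr : 0 < r) (hτ : 0 < τ) (hτ2 : τ ≤ 2 * r) (hd0 : 0 < d)
    (hd1 : d < 1) : 0 < ∫ u in Ioi (0 : ℝ), -(Φ r τ d u * ((u - 1) / Y d u)) := by
  have hd : |d| < 1 := by rw [abs_of_pos hd0]; exact hd1
  have hd3 : 0 < 1 - d ^ 2 := by nlinarith
  have hUb : ∀ u, 0 < u → |(u - 1) / Y d u| ≤ (1 - d)⁻¹ := by
    intro u hu
    have hY := Y_pos hd hu
    have h1 : (1 - d) * (1 + u) ≤ Y d u := Y_ge (by rw [abs_of_pos hd0]; linarith) hu
    rw [abs_div, abs_of_pos hY, div_le_iff₀ hY]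
    have h2 : |u - 1| ≤ 1 + u := by rw [abs_le]; constructor <;> linarith
    have h3 : 0 < 1 - d := by linarith
    have h4 : 1 + u ≤ (1 - d)⁻¹ * Y d u := by
      rw [inv_mul_eq_div, le_div_iff₀ h3]; linarith
    linarith
  have hUm : Measurable (fun u : ℝ => (u - 1) / Y d u) := by unfold Y; fun_prop
  have i1 : IntegrableOn (fun u => Φ r τ d u * ((u - 1) / Y d u)) (Ioi 0) :=
    integrable_Φ_mul hr hτ hd hUm hUb
  have i2 : IntegrableOn (fun u => Φ r τ d u * ((u - 1) / Y d u) ^ 2) (Ioi 0) := by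
    apply integrable_Φ_mul hr hτ hd (by fun_prop) (C := ((1 - d)⁻¹) ^ 2)
    intro u hu
    rw [abs_pow]
    exact pow_le_pow_left₀ (abs_nonneg _) (hUb u hu) 2
  have i3 : IntegrableOn (fun u => Φ r τ d u * 1) (Ioi 0) :=
    integrable_Φ_mul hr hτ hd measurable_const (C := 1) (fun u _ => by simp)
  have i4 : IntegrableOn (fun u => Φ r τ d u *
      (-(r * V d u) + τ * d / (2 * (1 - d ^ 2)) * (1 - V d u ^ 2))) (Ioi 0) := by
    refine integrable_Φ_mul hr hτ hd (C := r + |τ * d / (2 * (1 - d ^ 2))|) ?_ ?_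
    · have := measurable_V d
      fun_prop
    · intro u hu
      have h1 := V_abs hd hu
      have h2 := V_sq_le hd hu
      calc |-(r * V d u) + τ * d / (2 * (1 - d ^ 2)) * (1 - V d u ^ 2)|
          ≤ |-(r * V d u)| + |τ * d / (2 * (1 - d ^ 2)) * (1 - V d u ^ 2)| := abs_add_le _ _
        _ ≤ r + |τ * d / (2 * (1 - d ^ 2))| := by
          rw [abs_neg, abs_mul, abs_mul, abs_of_pos hr]
          have h3 : |1 - V d u ^ 2| ≤ 1 := by
            rw [abs_le]; constructor <;> nlinarith [sq_nonneg (V d u)]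
          have h4 := abs_nonneg (τ * d / (2 * (1 - d ^ 2)))
          nlinarith [abs_nonneg (V d u)]
  set K : ℝ := 2 * (r * (1 - d ^ 2) + d ^ 2 * τ) with hK
  have hK0 : 0 < K := by positivity
  -- pointwise identity
  have hpt : ∀ u ∈ Ioi (0 : ℝ), K * (-(Φ r τ d u * ((u - 1) / Y d u))) =
      τ * d * (1 - d ^ 2) * (Φ r τ d u * ((u - 1) / Y d u) ^ 2) +
      d * (2 * r - τ) * (Φ r τ d u * 1) +
      2 * (Φ r τ d u * (-(r * V d u) + τ * d / (2 * (1 - d ^ 2)) * (1 - V d u ^ 2))) := by
    intro u hu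
    have hu' : (0 : ℝ) < u := hu
    have hY := Y_pos hd hu'
    rw [hK]
    unfold V
    have hYe : Y d u = (1 - d) + (1 + d) * u := rfl
    generalize Φ r τ d u = F at *
    generalize Y d u = y at *
    have hyn : y ≠ 0 := hY.ne'
    have hdn : 1 - d ^ 2 ≠ 0 := hd3.ne'
    field_simp
    rw [hYe]
    ring
  have h1 : K * (∫ u in Ioi (0 : ℝ), -(Φ r τ d u * ((u - 1) / Y d u))) =
      τ * d * (1 - d ^ 2) * (∫ u in Ioi (0 : ℝ), Φ r τ d u * ((u - 1) / Y d u) ^ 2) +
      d * (2 * r - τ) * (∫ u in Ioi (0 : ℝ), Φ r τ d u * 1) := by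
    rw [← integral_const_mul, setIntegral_congr_fun measurableSet_Ioi hpt,
      integral_add, integral_add, integral_const_mul, integral_const_mul, integral_const_mul,
      parts hr hτ hd]
    · ring
    · exact i2.const_mul _
    · exact i3.const_mul _
    · exact (i2.const_mul _).add (i3.const_mul _)
    · exact i4.const_mul _
  have h2 : 0 < ∫ u in Ioi (0 : ℝ), Φ r τ d u * ((u - 1) / Y d u) ^ 2 := by
    rw [setIntegral_pos_iff_support_of_nonneg_ae]
    · have hsub : Ioi (1 : ℝ) ⊆ (Function.support fun u => Φ r τ d u * ((u - 1) / Y d u) ^ 2) ∩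
          Ioi 0 := by
        intro u hu
        have hu1 : (1 : ℝ) < u := hu
        have hu0 : (0 : ℝ) < u := by linarith
        have hY := Y_pos hd hu0
        have hΦ := Φ_pos (r := r) hτ hd hu0
        refine ⟨?_, hu0⟩
        rw [Function.mem_support]
        have h3 : 0 < u - 1 := by linarith
        positivity
      refine lt_of_lt_of_le ?_ (measure_mono hsub)
      simp
    · refine (ae_restrict_iff' measurableSet_Ioi).mpr (ae_of_all _ fun u hu => ?_)
      have hΦ := Φ_pos (r := r) hτ hd hu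
      simp only [Pi.zero_apply]
      positivity
    · exact i2
  have h3 : 0 ≤ ∫ u in Ioi (0 : ℝ), Φ r τ d u * 1 := by
    refine setIntegral_nonneg measurableSet_Ioi (fun u hu => ?_)
    have hΦ := Φ_pos (r := r) hτ hd hu
    simpa using hΦ.le
  have h4 : 0 < K * (∫ u in Ioi (0 : ℝ), -(Φ r τ d u * ((u - 1) / Y d u))) := by
    rw [h1]
    have h5 : 0 ≤ 2 * r - τ := by linarith
    have : 0 < τ * d * (1 - d ^ 2) * (∫ u in Ioi (0 : ℝ), Φ r τ d u * ((u - 1) / Y d u) ^ 2) := by
      positivity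
    have : 0 ≤ d * (2 * r - τ) * (∫ u in Ioi (0 : ℝ), Φ r τ d u * 1) := by positivity
    linarith
  exact (pos_iff_pos_of_mul_pos h4).mp hK0

theorem q_strictMono {r τ : ℝ} (hr : 0 < r) (hτ : 0 < τ) (hτ2 : τ ≤ 2 * r) :
    StrictMonoOn (q r τ) (Ico 0 1) := by
  apply strictMonoOn_of_deriv_pos (convex_Ico 0 1)
  · intro d hd
    apply ContinuousAt.continuousWithinAt
    exact (hasDerivAt_q hr hτ (by rw [abs_of_nonneg hd.1]; exact hd.2)).continuousAt
  · intro d hd
    rw [interior_Ico] at hd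
    rw [(hasDerivAt_q hr hτ (by rw [abs_of_pos hd.1]; exact hd.2)).deriv]
    exact deriv_pos hr hτ hτ2 hd.1 hd.2

theorem q_cont {r τ d : ℝ} (hr : 0 < r) (hτ : 0 < τ) (hd : |d| < 1) :
    ContinuousAt (fun τ => q r τ d) τ := by
  unfold q
  refine continuousAt_of_dominated (bound := fun u => w r u * Gamma (2 * r)) ?_ ?_
    ((integrable_w hr).mul_const _) ?_
  · filter_upwards [eventually_gt_nhds hτ] with x hx
    exact measurable_GY hr hx hd
  · filter_upwards [eventually_gt_nhds hτ] with x hx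
    refine (ae_restrict_iff' measurableSet_Ioi).mpr (ae_of_all _ fun u hu => ?_)
    have hu' : (0 : ℝ) < u := hu
    have hw : 0 < w r u := w_pos hu
    have hY := Y_pos hd hu
    have h1 : 0 ≤ x * (1 + u) / Y d u := by positivity
    rw [norm_mul, Real.norm_of_nonneg hw.le, Real.norm_of_nonneg (G_nonneg h1)]
    exact mul_le_mul_of_nonneg_left (G_le_Gamma hr h1) hw.le
  · refine (ae_restrict_iff' measurableSet_Ioi).mpr (ae_of_all _ fun u hu => ?_)
    have hu' : (0 : ℝ) < u := hu
    have hY := Y_pos hd hu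
    apply ContinuousAt.mul continuousAt_const
    refine ContinuousAt.comp (g := G r) (f := fun τ => τ * (1 + u) / Y d u)
      (G_cont hr (by positivity)) ?_
    fun_prop

/-- the value at `d = 0` -/
theorem q_zero {r τ : ℝ} : q r τ 0 = (∫ u in Ioi (0 : ℝ), w r u) * G r τ := by
  unfold q
  rw [← integral_mul_const]
  refine setIntegral_congr_fun measurableSet_Ioi ?_
  intro u hu
  have hu' : (0 : ℝ) < u := hu
  show w r u * G r _ = w r u * G r τ
  congr 2
  unfold Y
  field_simp
  ring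

end Pool.Agent.R789.McKay
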