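import Mathlib

/-! Homogeneous quasimorphisms, amenability of discrete groups, and two criteria. -/

set_option autoImplicit false

open Set

namespace Pool.Agent.R789

/-- `φ` is a homogeneous quasimorphism on the group `H`: a function `φ : H → ℝ` with bounded
defect `φ (g h) - φ g - φ h` and with `φ (g ^ n) = n φ g`. -/
def IsHomQM {H : Type} [Group H] (φ : H → ℝ) : Prop :=
  (∃ D : ℝ, ∀ g h, |φ (g * h) - φ g - φ h| ≤ D) ∧ ∀ (g : H) (n : ℤ), φ (g ^ n) = n * φ g

theorem IsHomQM.zero {H : Type} [Group H] : IsHomQM (0 : H → ℝ) :=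
  ⟨⟨0, fun g h => by simp⟩, fun g n => by simp⟩

theorem IsHomQM.add {H : Type} [Group H] {φ ψ : H → ℝ} (hφ : IsHomQM φ) (hψ : IsHomQM ψ) :
    IsHomQM (φ + ψ) := by
  obtain ⟨⟨D, hD⟩, h1⟩ := hφ
  obtain ⟨⟨D', hD'⟩, h2⟩ := hψ
  refine ⟨⟨D + D', fun g h => ?_⟩, fun g n => ?_⟩
  · have e : (φ + ψ) (g * h) - (φ + ψ) g - (φ + ψ) h =
        (φ (g * h) - φ g - φ h) + (ψ (g * h) - ψ g - ψ h) := by
      simp only [Pi.add_apply]; ring
    rw [e]
    exact (abs_add_le _ _).trans (add_le_add (hD g h) (hD' g h))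
  · simp only [Pi.add_apply, h1, h2]; ring

theorem IsHomQM.smul {H : Type} [Group H] (c : ℝ) {φ : H → ℝ} (hφ : IsHomQM φ) :
    IsHomQM (c • φ) := by
  obtain ⟨⟨D, hD⟩, h1⟩ := hφ
  refine ⟨⟨|c| * D, fun g h => ?_⟩, fun g n => ?_⟩
  · have e : (c • φ) (g * h) - (c • φ) g - (c • φ) h = c * (φ (g * h) - φ g - φ h) := by
      simp only [Pi.smul_apply, smul_eq_mul]; ring
    rw [e, abs_mul]
    exact mul_le_mul_of_nonneg_left (hD g h) (abs_nonneg c)
  · simp only [Pi.smul_apply, smul_eq_mul, h1]; ring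

/-- The real vector space `Q(H)` of homogeneous quasimorphisms on the group `H`. -/
def QuasiMor (H : Type) [Group H] : Submodule ℝ (H → ℝ) where
  carrier := {φ | IsHomQM φ}
  zero_mem' := IsHomQM.zero
  add_mem' := IsHomQM.add
  smul_mem' := fun c _ hφ => hφ.smul c

theorem hom_zero {H : Type} [Group H] (g h : H) :
    (0 : QuasiMor H).1 (g * h) = (0 : QuasiMor H).1 g + (0 : QuasiMor H).1 h := by simp

theorem hom_add {H : Type} [Group H] {φ ψ : QuasiMor H}
    (h1 : ∀ g h, φ.1 (g * h) = φ.1 g + φ.1 h) (h2 : ∀ g h, ψ.1 (g * h) = ψ.1 g + ψ.1 h)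
    (g h : H) : (φ + ψ).1 (g * h) = (φ + ψ).1 g + (φ + ψ).1 h := by
  simp only [Submodule.coe_add, Pi.add_apply, h1 g h, h2 g h]; ring

theorem hom_smul {H : Type} [Group H] (c : ℝ) {φ : QuasiMor H}
    (h1 : ∀ g h, φ.1 (g * h) = φ.1 g + φ.1 h) (g h : H) :
    (c • φ).1 (g * h) = (c • φ).1 g + (c • φ).1 h := by
  simp only [Submodule.coe_smul, Pi.smul_apply, smul_eq_mul, h1 g h]; ring

/-- The subspace `Hom(H, ℝ)` of `Q(H)`. -/
def HomSub (H : Type) [Group H] : Submodule ℝ (QuasiMor H) where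
  carrier := {φ | ∀ g h, φ.1 (g * h) = φ.1 g + φ.1 h}
  zero_mem' := hom_zero
  add_mem' := hom_add
  smul_mem' := fun c _ hφ => hom_smul c hφ

/-- The quotient `Q(H) / Hom(H, ℝ)`. -/
abbrev QTilde (H : Type) [Group H] : Type := QuasiMor H ⧸ HomSub H

/-- The discrete group `H` is amenable: there is a finitely additive left invariant probability
measure on the set of all subsets of `H`. -/
def Amenable (H : Type) [Group H] : Prop :=
  ∃ m : Set H → ℝ, (∀ A, 0 ≤ m A) ∧ m univ = 1 ∧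
    (∀ A B, Disjoint A B → m (A ∪ B) = m A + m B) ∧
    ∀ (g : H) (A : Set H), m ((fun x => g * x) '' A) = m A

section qm

variable {H : Type} [Group H] {φ : H → ℝ} {D : ℝ}

theorem eq_zero_of_mul_le {a B : ℝ} (h : ∀ n : ℕ, n * |a| ≤ B) : a = 0 := by
  by_contra h0
  have ha : 0 < |a| := abs_pos.2 h0
  obtain ⟨n, hn⟩ := exists_nat_gt (B / |a|)
  rw [div_lt_iff₀ ha] at hn
  exact absurd (h n) (not_le.2 hn)

theorem qm_commute (hD : ∀ g h, |φ (g * h) - φ g - φ h| ≤ D)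
    (hh : ∀ (g : H) (n : ℤ), φ (g ^ n) = n * φ g) {g h : H} (hc : Commute g h) :
    φ (g * h) = φ g + φ h := by
  have key : φ (g * h) - φ g - φ h = 0 := by
    refine eq_zero_of_mul_le (B := D) fun n => ?_
    have h1 := hD (g ^ (n : ℤ)) (h ^ (n : ℤ))
    rw [← hc.mul_zpow, hh, hh, hh] at h1
    have e : ((n : ℤ) : ℝ) * φ (g * h) - (n : ℤ) * φ g - (n : ℤ) * φ h =
        (n : ℝ) * (φ (g * h) - φ g - φ h) := by push_cast; ring
    rw [e, abs_mul, Nat.abs_cast] at h1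
    exact h1
  linarith

theorem qm_conj (hD : ∀ g h, |φ (g * h) - φ g - φ h| ≤ D)
    (hh : ∀ (g : H) (n : ℤ), φ (g ^ n) = n * φ g) (g h : H) :
    φ (h * g * h⁻¹) = φ g := by
  have hinv : φ h⁻¹ = - φ h := by
    have := hh h (-1)
    simpa using this
  have key : φ (h * g * h⁻¹) - φ g = 0 := by
    refine eq_zero_of_mul_le (B := D + D) fun n => ?_
    have h1 := hD (h * g ^ (n : ℤ)) h⁻¹
    have h2 := hD h (g ^ (n : ℤ))
    have h3 : h * g ^ (n : ℤ) * h⁻¹ = (h * g * h⁻¹) ^ (n : ℤ) := (conj_zpow).symm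
    rw [h3, hh] at h1
    rw [hh] at h2
    have e : (n : ℝ) * |φ (h * g * h⁻¹) - φ g| =
        |((n : ℤ) : ℝ) * φ (h * g * h⁻¹) - (n : ℤ) * φ g| := by
      rw [← mul_sub, abs_mul]; push_cast; rw [Nat.abs_cast]
    rw [e]
    have e2 : ((n : ℤ) : ℝ) * φ (h * g * h⁻¹) - (n : ℤ) * φ g =
        (((n : ℤ) : ℝ) * φ (h * g * h⁻¹) - φ (h * g ^ (n : ℤ)) - φ h⁻¹) +
        (φ (h * g ^ (n : ℤ)) - φ h - (n : ℤ) * φ g) := by
      rw [hinv]; ring
    rw [e2]
    exact (abs_add_le _ _).trans (add_le_add h1 h2)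
  linarith

/-- the product `x * (t x t⁻¹) * ... * (t ^ (m-1) x t ^ (1-m))` -/
def prodConj (t x : H) : ℕ → H
  | 0 => 1
  | m + 1 => prodConj t x m * (t ^ m * x * (t ^ m)⁻¹)

theorem prodConj_mem (N : Subgroup H) [hN : N.Normal] {t x : H} (hx : x ∈ N) (m : ℕ) :
    prodConj t x m ∈ N := by
  induction m with
  | zero => exact N.one_mem
  | succ m ih => exact N.mul_mem ih (hN.conj_mem x hx _)

theorem prodConj_commute {t x y : H}
    (h : ∀ k : ℕ, k ≠ 0 → Commute (t ^ k * y * (t ^ k)⁻¹) x) (m n : ℕ) (hmn : m ≤ n) :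
    Commute (t ^ n * y * (t ^ n)⁻¹) (prodConj t x m) := by
  induction m with
  | zero => exact Commute.one_right _
  | succ m ih =>
    refine (ih (by omega)).mul_right ?_
    obtain ⟨k, rfl⟩ : ∃ k, n = m + k := ⟨n - m, by omega⟩
    have hk : k ≠ 0 := by omega
    have h1 := (h k hk).map (MulAut.conj (t ^ m)).toMonoidHom
    simp only [MulEquiv.coe_toMonoidHom, MulAut.conj_apply] at h1
    have e : t ^ m * (t ^ k * y * (t ^ k)⁻¹) * (t ^ m)⁻¹ =
        t ^ (m + k) * y * (t ^ (m + k))⁻¹ := by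
      rw [pow_add, mul_inv_rev]; group
    rwa [e] at h1

theorem prodConj_mul {t x y : H}
    (h : ∀ k : ℕ, k ≠ 0 → Commute (t ^ k * x * (t ^ k)⁻¹) y) (m : ℕ) :
    prodConj t (x * y) m = prodConj t x m * prodConj t y m := by
  induction m with
  | zero => simp [prodConj]
  | succ m ih =>
    simp only [prodConj, ih]
    have h1 := prodConj_commute h m m le_rfl
    have e : t ^ m * (x * y) * (t ^ m)⁻¹ = (t ^ m * x * (t ^ m)⁻¹) * (t ^ m * y * (t ^ m)⁻¹) := by
      group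
    rw [e]
    calc prodConj t x m * prodConj t y m * (t ^ m * x * (t ^ m)⁻¹ * (t ^ m * y * (t ^ m)⁻¹))
        = prodConj t x m * (prodConj t y m * (t ^ m * x * (t ^ m)⁻¹)) *
          (t ^ m * y * (t ^ m)⁻¹) := by simp only [mul_assoc]
      _ = prodConj t x m * ((t ^ m * x * (t ^ m)⁻¹) * prodConj t y m) *
          (t ^ m * y * (t ^ m)⁻¹) := by rw [h1.eq]
      _ = _ := by simp only [mul_assoc]

theorem qm_prodConj (hD : ∀ g h, |φ (g * h) - φ g - φ h| ≤ D)
    (hh : ∀ (g : H) (n : ℤ), φ (g ^ n) = n * φ g) {t x : H}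
    (h : ∀ k : ℕ, k ≠ 0 → Commute (t ^ k * x * (t ^ k)⁻¹) x) (m : ℕ) :
    φ (prodConj t x m) = m * φ x := by
  induction m with
  | zero =>
    have := hh 1 0
    simpa [prodConj] using this
  | succ m ih =>
    simp only [prodConj]
    rw [qm_commute hD hh (prodConj_commute h m m le_rfl).symm, ih, qm_conj hD hh]
    push_cast; ring

/-- **Criterion.** If `H = N ⟨τ⟩` with `N` normal, and for all `x, y ∈ N` the conjugates of `x`
and `y` by the nontrivial powers of some power of `τ` commute with `x` and `y`, then all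
homogeneous quasimorphisms on `H` are homomorphisms. -/
theorem qm_hom (hD : ∀ g h, |φ (g * h) - φ g - φ h| ≤ D)
    (hh : ∀ (g : H) (n : ℤ), φ (g ^ n) = n * φ g) (N : Subgroup H) [hN : N.Normal] (τ : H)
    (hgen : ∀ h : H, ∃ n ∈ N, ∃ k : ℤ, h = n * τ ^ k)
    (hcomm : ∀ x ∈ N, ∀ y ∈ N, ∃ t : H, ∀ k : ℕ, k ≠ 0 →
      Commute (t ^ k * x * (t ^ k)⁻¹) x ∧ Commute (t ^ k * x * (t ^ k)⁻¹) y ∧
      Commute (t ^ k * y * (t ^ k)⁻¹) y ∧
      Commute (t ^ k * (x * y) * (t ^ k)⁻¹) (x * y)) (g h : H) :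
    φ (g * h) = φ g + φ h := by
  -- additivity on `N`
  have hadd : ∀ x ∈ N, ∀ y ∈ N, φ (x * y) = φ x + φ y := by
    intro x hx y hy
    obtain ⟨t, ht⟩ := hcomm x hx y hy
    have key : φ (x * y) - φ x - φ y = 0 := by
      refine eq_zero_of_mul_le (B := D) fun n => ?_
      have h1 := hD (prodConj t x n) (prodConj t y n)
      rw [← prodConj_mul (fun k hk => (ht k hk).2.1),
        qm_prodConj hD hh (fun k hk => (ht k hk).2.2.2),
        qm_prodConj hD hh (fun k hk => (ht k hk).1),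
        qm_prodConj hD hh (fun k hk => (ht k hk).2.2.1)] at h1
      have e : (n : ℝ) * φ (x * y) - n * φ x - n * φ y = n * (φ (x * y) - φ x - φ y) := by ring
      rwa [e, abs_mul, Nat.abs_cast] at h1
    linarith
  have h1 : φ 1 = 0 := by
    have := hh 1 0
    simpa using this
  -- the products of conjugates by powers of `s`
  have hpr : ∀ (s : H), ∀ x ∈ N, ∀ m : ℕ, φ (prodConj s x m) = m * φ x := by
    intro s x hx m
    induction m with
    | zero => simp [prodConj, h1]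
    | succ m ih =>
      simp only [prodConj]
      rw [hadd _ (prodConj_mem N hx m) _ (hN.conj_mem x hx _), ih, qm_conj hD hh]
      push_cast; ring
  have hpow : ∀ (s x : H) (m : ℕ), (x * s) ^ m = prodConj s x m * s ^ m := by
    intro s x m
    induction m with
    | zero => simp [prodConj]
    | succ m ih =>
      rw [pow_succ, ih]
      simp only [prodConj]
      rw [pow_succ]; group
  have hval : ∀ x ∈ N, ∀ k : ℤ, φ (x * τ ^ k) = φ x + k * φ τ := by
    intro x hx k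
    have key : φ (x * τ ^ k) - φ x - k * φ τ = 0 := by
      refine eq_zero_of_mul_le (B := D) fun n => ?_
      have h2 := hD (prodConj (τ ^ k) x n) ((τ ^ k) ^ n)
      rw [← hpow, hpr _ x hx] at h2
      have h3 := hh (x * τ ^ k) n
      have h4 := hh (τ ^ k) n
      rw [zpow_natCast] at h3 h4
      rw [h3, h4, hh] at h2
      have e : ((n : ℤ) : ℝ) * φ (x * τ ^ k) - n * φ x - (n : ℤ) * (k * φ τ) =
          n * (φ (x * τ ^ k) - φ x - k * φ τ) := by push_cast; ring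
      rwa [e, abs_mul, Nat.abs_cast] at h2
    linarith
  obtain ⟨x, hx, k, rfl⟩ := hgen g
  obtain ⟨y, hy, l, rfl⟩ := hgen h
  have e : x * τ ^ k * (y * τ ^ l) = (x * (τ ^ k * y * (τ ^ k)⁻¹)) * τ ^ (k + l) := by
    rw [zpow_add]; group
  rw [e, hval _ (N.mul_mem hx (hN.conj_mem y hy _)), hadd _ hx _ (hN.conj_mem y hy _),
    qm_conj hD hh, hval x hx, hval y hy]
  push_cast; ring

theorem qTilde_subsingleton (h : ∀ φ ∈ QuasiMor H, ∀ g h, φ (g * h) = φ g + φ h) :
    Subsingleton (QTilde H) := by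
  have : HomSub H = ⊤ := by
    rw [eq_top_iff]
    rintro ⟨φ, hφ⟩ -
    exact fun g k => h φ hφ g k
  exact Submodule.Quotient.subsingleton_iff.2 this

end qm

/-- amenability passes along isomorphisms -/
theorem Amenable.of_equiv {H H' : Type} [Group H] [Group H'] (e : H ≃* H') (h : Amenable H) :
    Amenable H' := by
  obtain ⟨m, h0, h1, h2, h3⟩ := h
  refine ⟨fun A => m (e ⁻¹' A), fun A => h0 _, ?_, fun A B hAB => ?_, fun g A => ?_⟩
  · simpa using h1
  · show m (e ⁻¹' (A ∪ B)) = _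
    rw [preimage_union]
    exact h2 _ _ (hAB.preimage e)
  · show m (e ⁻¹' _) = m (e ⁻¹' A)
    rw [← h3 (e.symm g) (e ⁻¹' A)]
    congr 1
    ext x
    simp only [mem_preimage, mem_image]
    constructor
    · rintro ⟨y, hy, hyx⟩
      refine ⟨e.symm y, by simpa using hy, ?_⟩
      rw [← map_mul]
      exact e.symm_apply_eq.2 hyx
    · rintro ⟨y, hy, rfl⟩
      exact ⟨e y, hy, by simp⟩

/-- **Criterion.** Ping-pong on an orbit of a subgroup excludes amenability. -/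
theorem not_amenable {H X : Type} [Group H] [MulAction H X] (Y : Set X) {y0 : X} (hy0 : y0 ∈ Y)
    (a b : H) (ha : ∀ x, a • x ∈ Y ↔ x ∈ Y) (hb : ∀ x, b • x ∈ Y ↔ x ∈ Y) (A A' B B' : Set X)
    (hA : Disjoint A A') (hB : Disjoint B B') (hAB : Disjoint (A ∪ A') (B ∪ B'))
    (h1 : ∀ y ∈ Y, y ∉ A' → a • y ∈ A) (h2 : ∀ y ∈ Y, y ∉ B' → b • y ∈ B) :
    ¬ Amenable H := by
  rintro ⟨m, m0, m1, m2, m3⟩
  -- the setwise stabilizer of `Y`
  let F : Subgroup H :=
    { carrier := {h | ∀ x, h • x ∈ Y ↔ x ∈ Y}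
      one_mem' := fun x => by rw [one_smul]
      mul_mem' := fun {g h} hg hh x => by rw [mul_smul, hg, hh]
      inv_mem' := fun {g} hg x => by rw [← hg, smul_inv_smul] }
  let rep : H → H := fun h => (Quotient.mk (QuotientGroup.rightRel F) h).out
  have hrep : ∀ h, h * (rep h)⁻¹ ∈ F := by
    intro h
    have := Quotient.exact (Quotient.out_eq (Quotient.mk (QuotientGroup.rightRel F) h))
    exact QuotientGroup.rightRel_apply.1 this
  have hrep2 : ∀ f ∈ F, ∀ h, rep (f * h) = rep h := by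
    intro f hf h
    have : Quotient.mk (QuotientGroup.rightRel F) (f * h) =
        Quotient.mk (QuotientGroup.rightRel F) h := by
      apply Quotient.sound
      refine QuotientGroup.rightRel_apply.2 ?_
      rw [mul_inv_rev, mul_inv_cancel_left]
      exact F.inv_mem hf
    show (Quotient.mk (QuotientGroup.rightRel F) (f * h)).out = _
    rw [this]
  let q : H → X := fun h => (h * (rep h)⁻¹) • y0
  have hqY : ∀ h, q h ∈ Y := fun h => (hrep h y0).2 hy0
  have hq : ∀ f ∈ F, ∀ h, q (f * h) = f • q h := by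
    intro f hf h
    show (f * h * (rep (f * h))⁻¹) • y0 = f • ((h * (rep h)⁻¹) • y0)
    rw [hrep2 f hf, mul_assoc, mul_smul]
  have mono : ∀ S T : Set H, S ⊆ T → m S ≤ m T := by
    intro S T hST
    have := m2 S (T \ S) disjoint_sdiff_right
    rw [union_sdiff_cancel hST] at this
    have := m0 (T \ S)
    linarith
  have key : ∀ (f : H), f ∈ F → ∀ P P' : Set X, (∀ y ∈ Y, y ∉ P' → f • y ∈ P) →
      1 ≤ m (q ⁻¹' P) + m (q ⁻¹' P') := by
    intro f hf P P' hP
    have e1 : m (q ⁻¹' P')ᶜ + m (q ⁻¹' P') = 1 := by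
      rw [← m2 _ _ disjoint_compl_left, compl_union_self, m1]
    have e2 : m (q ⁻¹' P')ᶜ ≤ m (q ⁻¹' P) := by
      rw [← m3 f (q ⁻¹' P')ᶜ]
      apply mono
      rintro _ ⟨h, hh, rfl⟩
      show q (f * h) ∈ P
      rw [hq f hf]
      exact hP _ (hqY h) hh
    linarith
  have k1 := key a ha A A' h1
  have k2 := key b hb B B' h2
  have e1 : m (q ⁻¹' A ∪ q ⁻¹' A') = m (q ⁻¹' A) + m (q ⁻¹' A') := m2 _ _ (hA.preimage q)
  have e2 : m (q ⁻¹' B ∪ q ⁻¹' B') = m (q ⁻¹' B) + m (q ⁻¹' B') := m2 _ _ (hB.preimage q)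
  have e3 := m2 (q ⁻¹' A ∪ q ⁻¹' A') (q ⁻¹' B ∪ q ⁻¹' B') (by
    rw [← preimage_union, ← preimage_union]; exact hAB.preimage q)
  have e4 := mono _ _ (subset_univ ((q ⁻¹' A ∪ q ⁻¹' A') ∪ (q ⁻¹' B ∪ q ⁻¹' B')))
  rw [m1] at e4
  linarith

end Pool.Agent.R789
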