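import Pool.Agent.R789.RCCount

namespace Pool.Agent.R789.RC

open Module Finset
open scoped Classical

variable {F : Type} [Field F] [Fintype F]
variable {V : Type} [AddCommGroup V] [Module F V] [Fintype V]

/-- Tuples whose span is mapped into itself by `σ`. -/
noncomputable def inv (σ : V →ₗ[F] V) (ι : Type) [Fintype ι] [DecidableEq ι] :
    Finset (ι → V) :=
  univ.filter (fun g : ι → V => ∀ i, σ (g i) ∈ Submodule.span F (Set.range g))

theorem mem_inv (σ : V →ₗ[F] V) (ι : Type) [Fintype ι] [DecidableEq ι] (g : ι → V) :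
    g ∈ inv σ ι ↔ ∀ i, σ (g i) ∈ Submodule.span F (Set.range g) := by
  unfold inv; simp

theorem inv_congr (σ : V →ₗ[F] V) {ι κ : Type} [Fintype ι] [DecidableEq ι] [Fintype κ]
    [DecidableEq κ] (e : ι ≃ κ) : (inv σ ι).card ≤ (inv σ κ).card := by
  apply Finset.card_le_card_of_injOn (fun g => g ∘ e.symm)
  · intro g hg
    have hg' := (mem_inv σ ι g).1 hg
    rw [Finset.mem_coe, mem_inv]
    intro j
    have : Set.range (g ∘ e.symm) = Set.range g := e.symm.surjective.range_comp g
    rw [this]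
    exact hg' _
  · intro g _ h _ hgh
    funext i
    have := congrFun hgh (e i)
    simpa using this

theorem finrank_fun (ι : Type) [Fintype ι] : finrank F (ι → V) = finrank F V * Fintype.card ι := by
  rw [Module.finrank_pi_fintype]
  simp [mul_comm]

theorem inv_small (σ : V →ₗ[F] V) (ι : Type) [Fintype ι] [DecidableEq ι] (c : F) (m : ℕ)
    (h1 : 1 ≤ finrank F (LinearMap.range (σ - c • LinearMap.id)))
    (h2 : finrank F (LinearMap.range (σ - c • LinearMap.id)) ≤ m) :
    ((inv σ ι).card : ℝ) ≤ (Fintype.card F : ℝ) ^ (finrank F V * Fintype.card ι) *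
      (1 / (Fintype.card F : ℝ) ^ (Fintype.card ι) +
        (Fintype.card F : ℝ) ^ (Fintype.card ι + m) / (Fintype.card F : ℝ) ^ (finrank F V)) := by
  set q := Fintype.card F with hq
  set k := Fintype.card ι with hk
  set n := finrank F V with hn
  set τ : V →ₗ[F] V := σ - c • LinearMap.id with hτ
  have hτv : ∀ v, τ v = σ v - c • v := by intro v; simp [hτ]
  have hqpos : 0 < q := Fintype.card_pos
  have hqR : (0 : ℝ) < (q : ℝ) := by exact_mod_cast hqpos
  set S1 := univ.filter (fun g : ι → V => ∀ i, τ (g i) = 0) with hS1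
  let S2 : (ι → F) → Finset (ι → V) := fun a =>
    univ.filter (fun g : ι → V => (∑ j, a j • g j) ∈ LinearMap.range τ)
  have hsub : inv σ ι ⊆ S1 ∪ (univ.filter (fun a : ι → F => a ≠ 0)).biUnion S2 := by
    intro g hg
    rw [mem_inv] at hg
    rw [mem_union]
    by_cases hz : ∀ i, τ (g i) = 0
    · left; rw [hS1, mem_filter]; exact ⟨mem_univ _, hz⟩
    · right
      push Not at hz
      obtain ⟨i, hi⟩ := hz
      have hmem : τ (g i) ∈ Submodule.span F (Set.range g) := by
        rw [hτv]
        exact Submodule.sub_mem _ (hg i)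
          (Submodule.smul_mem _ _ (Submodule.subset_span ⟨i, rfl⟩))
      rw [Submodule.mem_span_range_iff_exists_fun] at hmem
      obtain ⟨a, ha⟩ := hmem
      rw [mem_biUnion]
      refine ⟨a, ?_, ?_⟩
      · rw [mem_filter]
        refine ⟨mem_univ _, ?_⟩
        rintro rfl
        apply hi
        rw [← ha]
        simp
      · rw [mem_filter]
        refine ⟨mem_univ _, ?_⟩
        rw [ha]
        exact ⟨g i, rfl⟩
  -- first set
  have hc1 : (S1.card : ℝ) ≤ (q : ℝ) ^ (n * k) * (1 / (q : ℝ) ^ k) := by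
    have e1 : S1 = Fintype.piFinset (fun _ : ι => univ.filter (fun v : V => τ v = 0)) := by
      ext g
      rw [hS1, mem_filter, Fintype.mem_piFinset]
      simp
    have e2 : S1.card = (univ.filter (fun v : V => τ v = 0)).card ^ k := by
      rw [e1, Fintype.card_piFinset, Finset.prod_const, card_univ]
    have e3 : (univ.filter (fun v : V => τ v = 0)).card * q ≤ q ^ n := by
      have := ker_card_le τ 1 h1
      rwa [pow_one] at this
    have e4 : S1.card * q ^ k ≤ q ^ (n * k) := by
      rw [e2, ← mul_pow, pow_mul]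
      exact Nat.pow_le_pow_left e3 k
    have e5 : (S1.card : ℝ) * (q : ℝ) ^ k ≤ (q : ℝ) ^ (n * k) := by exact_mod_cast e4
    rw [mul_one_div, le_div_iff₀ (by positivity)]
    exact e5
  have hc2 : ∀ a ∈ univ.filter (fun a : ι → F => a ≠ 0),
      ((S2 a).card : ℝ) ≤ (q : ℝ) ^ (n * k) * ((q : ℝ) ^ m / (q : ℝ) ^ n) := by
    intro a ha
    rw [mem_filter] at ha
    have e1 : S2 a = univ.filter (fun g : ι → V =>
        ((LinearMap.range τ).mkQ.comp (comb a)) g = 0) := by
      apply Finset.filter_congr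
      intro g _
      rw [LinearMap.comp_apply, comb_apply, Submodule.mkQ_apply, Submodule.Quotient.mk_eq_zero]
    have e2 : LinearMap.range ((LinearMap.range τ).mkQ.comp (comb a : (ι → V) →ₗ[F] V)) = ⊤ := by
      rw [LinearMap.range_comp, LinearMap.range_eq_top.2 (comb_surjective ha.2),
        Submodule.map_top, Submodule.range_mkQ]
    have _inst : Fintype (V ⧸ LinearMap.range τ) := Fintype.ofFinite _
    have e3 := ker_card ((LinearMap.range τ).mkQ.comp (comb a : (ι → V) →ₗ[F] V))
    rw [e2, finrank_top, finrank_fun] at e3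
    have e4 := Submodule.finrank_quotient_add_finrank (LinearMap.range τ)
    have e5 : (S2 a).card * q ^ (finrank F (V ⧸ LinearMap.range τ)) = q ^ (n * k) := by
      rw [e1]; exact e3
    have e6 : (S2 a).card * q ^ n ≤ q ^ (n * k) * q ^ m := by
      rw [← e5, mul_assoc, ← pow_add]
      apply Nat.mul_le_mul_left
      apply Nat.pow_le_pow_right hqpos
      omega
    have e7 : ((S2 a).card : ℝ) * (q : ℝ) ^ n ≤ (q : ℝ) ^ (n * k) * (q : ℝ) ^ m := by
      exact_mod_cast e6
    rw [← mul_div_assoc, le_div_iff₀ (by positivity)]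
    exact e7
  have hcount : ((univ.filter (fun a : ι → F => a ≠ 0)).card : ℝ) ≤ (q : ℝ) ^ k := by
    have : (univ.filter (fun a : ι → F => a ≠ 0)).card ≤ q ^ k := by
      refine (card_filter_le _ _).trans ?_
      rw [card_univ, Fintype.card_fun]
    exact_mod_cast this
  calc ((inv σ ι).card : ℝ) ≤ ((S1.card + ∑ a ∈ univ.filter (fun a : ι → F => a ≠ 0),
        (S2 a).card : ℕ) : ℝ) := by
        exact_mod_cast (card_le_card hsub).trans
          ((card_union_le _ _).trans (Nat.add_le_add_left card_biUnion_le _))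
    _ = (S1.card : ℝ) + ∑ a ∈ univ.filter (fun a : ι → F => a ≠ 0), ((S2 a).card : ℝ) := by
        push_cast; rfl
    _ ≤ (q : ℝ) ^ (n * k) * (1 / (q : ℝ) ^ k) +
        ∑ a ∈ univ.filter (fun a : ι → F => a ≠ 0),
          (q : ℝ) ^ (n * k) * ((q : ℝ) ^ m / (q : ℝ) ^ n) :=
        add_le_add hc1 (Finset.sum_le_sum hc2)
    _ = (q : ℝ) ^ (n * k) * (1 / (q : ℝ) ^ k) +
        ((univ.filter (fun a : ι → F => a ≠ 0)).card : ℝ) *
          ((q : ℝ) ^ (n * k) * ((q : ℝ) ^ m / (q : ℝ) ^ n)) := by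
        rw [Finset.sum_const, nsmul_eq_mul]
    _ ≤ (q : ℝ) ^ (n * k) * (1 / (q : ℝ) ^ k) +
        (q : ℝ) ^ k * ((q : ℝ) ^ (n * k) * ((q : ℝ) ^ m / (q : ℝ) ^ n)) := by
        apply add_le_add le_rfl
        apply mul_le_mul_of_nonneg_right hcount
        positivity
    _ = _ := by
        rw [pow_add (q : ℝ) k m]
        ring

theorem inv_large (σ : V →ₗ[F] V) (B s r t : ℕ)
    (ht : ∀ a b : F, (a ≠ 0 ∨ b ≠ 0) →
      t ≤ finrank F (LinearMap.range (a • LinearMap.id + b • σ))) :
    ((inv σ ((Fin B × Fin s) ⊕ Fin r)).card : ℝ) ≤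
      (Fintype.card F : ℝ) ^ (finrank F V * (B * s + r)) *
      (((Fintype.card F : ℝ) ^ (2 * s) / (Fintype.card F : ℝ) ^ t) ^ B +
        B * ((Fintype.card F : ℝ) ^ (s * (B * s + r)) /
          (Fintype.card F : ℝ) ^ (finrank F V * s))) := by
  set q := Fintype.card F with hq
  set n := finrank F V with hn
  have hqpos : 0 < q := Fintype.card_pos
  have hqR : (0 : ℝ) < (q : ℝ) := by exact_mod_cast hqpos
  set D := univ.filter (fun h : Fin s → V =>
      ¬ LinearIndependent F (Sum.elim h (fun i => σ (h i)))) with hD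
  let β : Fin B → (Fin s ↪ ((Fin B × Fin s) ⊕ Fin r)) := fun b =>
    ⟨fun i => Sum.inl (b, i), fun i j hij => by simpa using hij⟩
  let blk : Fin B → Finset (((Fin B × Fin s) ⊕ Fin r) → V) := fun b =>
    univ.filter (fun g =>
      LinearIndependent F (Sum.elim (fun i => g (β b i)) (fun i => σ (g (β b i)))) ∧
        ∀ i, σ (g (β b i)) ∈ Submodule.span F (Set.range g))
  set A := univ.filter (fun g : ((Fin B × Fin s) ⊕ Fin r) → V =>
    ∀ b : Fin B, (fun i => g (Sum.inl (b, i))) ∈ D) with hA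
  have hk : Fintype.card ((Fin B × Fin s) ⊕ Fin r) = B * s + r := by
    rw [Fintype.card_sum, Fintype.card_prod, Fintype.card_fin, Fintype.card_fin, Fintype.card_fin]
  have hsub : inv σ ((Fin B × Fin s) ⊕ Fin r) ⊆ A ∪ univ.biUnion blk := by
    intro g hg
    rw [mem_inv] at hg
    rw [mem_union]
    by_cases hz : ∀ b : Fin B, (fun i => g (Sum.inl (b, i))) ∈ D
    · left; rw [hA, mem_filter]; exact ⟨mem_univ _, hz⟩
    · right
      push Not at hz
      obtain ⟨b, hb⟩ := hz
      rw [hD, mem_filter] at hb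
      push Not at hb
      rw [mem_biUnion]
      refine ⟨b, mem_univ _, ?_⟩
      rw [mem_filter]
      exact ⟨mem_univ _, hb (mem_univ _), fun i => hg _⟩
  have hDc : (D.card : ℝ) ≤ (q : ℝ) ^ (n * s) * ((q : ℝ) ^ (2 * s) / (q : ℝ) ^ t) := by
    have h1 := dep_card σ t s ht
    have h2 : (D.card : ℝ) * (q : ℝ) ^ t ≤ (q : ℝ) ^ (2 * s) * (q : ℝ) ^ (n * s) := by
      exact_mod_cast h1
    rw [← mul_div_assoc, le_div_iff₀ (by positivity)]
    linarith
  have hVc : (Fintype.card V : ℝ) = (q : ℝ) ^ n := by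
    have := Module.card_eq_pow_finrank (K := F) (V := V)
    exact_mod_cast this
  have hAc : (A.card : ℝ) ≤ (q : ℝ) ^ (n * (B * s + r)) *
      ((q : ℝ) ^ (2 * s) / (q : ℝ) ^ t) ^ B := by
    have h1 : A.card ≤ ((Fintype.piFinset (fun _ : Fin B => D)) ×ˢ
        (univ : Finset (Fin r → V))).card := by
      apply Finset.card_le_card_of_injOn
        (fun g => (fun b i => g (Sum.inl (b, i)), fun j => g (Sum.inr j)))
      · intro g hg
        have hg' := (mem_filter.1 (Finset.mem_coe.1 hg)).2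
        rw [Finset.mem_coe, mem_product]
        refine ⟨?_, mem_univ _⟩
        rw [Fintype.mem_piFinset]
        exact hg'
      · intro g _ h _ hgh
        funext x
        rcases x with ⟨b, i⟩ | j
        · exact congrFun (congrFun (congrArg Prod.fst hgh) b) i
        · exact congrFun (congrArg Prod.snd hgh) j
    rw [card_product, Fintype.card_piFinset_const, card_univ, Fintype.card_fun,
      Fintype.card_fin] at h1
    have h2 : (A.card : ℝ) ≤ (D.card : ℝ) ^ B * (Fintype.card V : ℝ) ^ r := by exact_mod_cast h1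
    calc (A.card : ℝ) ≤ (D.card : ℝ) ^ B * (Fintype.card V : ℝ) ^ r := h2
      _ ≤ ((q : ℝ) ^ (n * s) * ((q : ℝ) ^ (2 * s) / (q : ℝ) ^ t)) ^ B *
          ((q : ℝ) ^ n) ^ r := by
          rw [hVc]
          apply mul_le_mul_of_nonneg_right _ (by positivity)
          exact pow_le_pow_left₀ (by positivity) hDc B
      _ = _ := by
          rw [mul_pow]
          have : (q : ℝ) ^ (n * (B * s + r)) = ((q : ℝ) ^ (n * s)) ^ B * ((q : ℝ) ^ n) ^ r := by
            rw [← pow_mul, ← pow_mul, ← pow_add]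
            congr 1
            ring
          rw [this]
          ring
  have hBc : ∀ b ∈ (univ : Finset (Fin B)), ((blk b).card : ℝ) ≤
      (q : ℝ) ^ (n * (B * s + r)) * ((q : ℝ) ^ (s * (B * s + r)) / (q : ℝ) ^ (n * s)) := by
    intro b _
    have h1 := blk_card σ s (β b)
    rw [hk] at h1
    have h2 : ((blk b).card : ℝ) * (q : ℝ) ^ (n * s) ≤
        (q : ℝ) ^ (s * (B * s + r)) * (q : ℝ) ^ (n * (B * s + r)) := by exact_mod_cast h1
    rw [← mul_div_assoc, le_div_iff₀ (by positivity)]
    linarith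
  calc ((inv σ ((Fin B × Fin s) ⊕ Fin r)).card : ℝ)
      ≤ ((A.card + ∑ b : Fin B, (blk b).card : ℕ) : ℝ) := by
        exact_mod_cast (card_le_card hsub).trans
          ((card_union_le _ _).trans (Nat.add_le_add_left card_biUnion_le _))
    _ = (A.card : ℝ) + ∑ b : Fin B, ((blk b).card : ℝ) := by push_cast; rfl
    _ ≤ (q : ℝ) ^ (n * (B * s + r)) * ((q : ℝ) ^ (2 * s) / (q : ℝ) ^ t) ^ B +
        ∑ b : Fin B, (q : ℝ) ^ (n * (B * s + r)) *
          ((q : ℝ) ^ (s * (B * s + r)) / (q : ℝ) ^ (n * s)) :=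
        add_le_add hAc (Finset.sum_le_sum hBc)
    _ = _ := by
        rw [Finset.sum_const, nsmul_eq_mul, card_univ, Fintype.card_fin]
        ring

end Pool.Agent.R789.RC
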