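import Mathlib

/-! Counting tuples of vectors over a finite field whose span is invariant under a linear map. -/

namespace Pool.Agent.R789.RC

open Module Finset
open scoped Classical

variable {F : Type} [Field F] [Fintype F]

section general

variable {U W : Type} [AddCommGroup U] [Module F U] [Fintype U] [AddCommGroup W] [Module F W]
  [Fintype W]

theorem ker_card (L : U →ₗ[F] W) [DecidablePred (fun g => L g = 0)] :
    (univ.filter (fun g => L g = 0)).card * (Fintype.card F) ^ (finrank F (LinearMap.range L)) =
      (Fintype.card F) ^ (finrank F U) := by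
  have h1 : (univ.filter (fun g => L g = 0)).card = Fintype.card (LinearMap.ker L) := by
    rw [Fintype.card_subtype]
    congr 1
    ext x
    simp
  rw [h1, Module.card_eq_pow_finrank (K := F) (V := LinearMap.ker L), ← pow_add,
    add_comm, LinearMap.finrank_range_add_finrank_ker]

theorem ker_card_le (L : U →ₗ[F] W) [DecidablePred (fun g => L g = 0)] (t : ℕ) (ht : t ≤ finrank F (LinearMap.range L)) :
    (univ.filter (fun g => L g = 0)).card * (Fintype.card F) ^ t ≤
      (Fintype.card F) ^ (finrank F U) := by
  rw [← ker_card L]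
  exact Nat.mul_le_mul_left _ (Nat.pow_le_pow_right Fintype.card_pos ht)

end general

variable {V : Type} [AddCommGroup V] [Module F V] [Fintype V]

/-- The linear combination `sum a_j g_j` as a linear map of the tuple `g`. -/
def comb {ι : Type} [Fintype ι] (a : ι → F) : (ι → V) →ₗ[F] V :=
  ∑ j, a j • LinearMap.proj j

theorem comb_apply {ι : Type} [Fintype ι] (a : ι → F) (g : ι → V) :
    comb a g = ∑ j, a j • g j := by
  unfold comb
  simp [LinearMap.sum_apply]

theorem comb_surjective {ι : Type} [Fintype ι] {a : ι → F} (ha : a ≠ 0) :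
    Function.Surjective (comb a : (ι → V) →ₗ[F] V) := by
  obtain ⟨j, hj⟩ := Function.ne_iff.1 ha
  intro v
  refine ⟨Pi.single j ((a j)⁻¹ • v), ?_⟩
  rw [comb_apply, Finset.sum_eq_single j]
  · rw [Pi.single_eq_same, smul_smul, mul_inv_cancel₀ hj, one_smul]
  · intro i _ hij
    rw [Pi.single_eq_of_ne hij, smul_zero]
  · intro h; exact absurd (Finset.mem_univ _) h

theorem comb_card {ι : Type} [Fintype ι] [DecidableEq ι] {a : ι → F} (ha : a ≠ 0) :
    (univ.filter (fun g : ι → V => ∑ j, a j • g j = 0)).card * (Fintype.card F) ^ (finrank F V) =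
      (Fintype.card F) ^ (finrank F V * Fintype.card ι) := by
  have h := ker_card (comb a : (ι → V) →ₗ[F] V)
  rw [LinearMap.range_eq_top.2 (comb_surjective ha), finrank_top] at h
  have h2 : finrank F (ι → V) = finrank F V * Fintype.card ι := by
    rw [Module.finrank_pi_fintype]
    simp [mul_comm]
  rw [h2] at h
  rw [← h]
  congr 2
  ext g
  simp [comb_apply]

/-- Few tuples are linearly dependent. -/
theorem dep_tuple {k : ℕ} (hk : k < finrank F V) :
    2 * (univ.filter (fun g : Fin k → V => ¬ LinearIndependent F g)).card ≤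
      (Fintype.card F) ^ (finrank F V * k) := by
  set q := Fintype.card F with hq
  have hq2 : 2 ≤ q := Fintype.one_lt_card
  have hsub : univ.filter (fun g : Fin k → V => ¬ LinearIndependent F g) ⊆
      (univ.filter (fun a : Fin k → F => a ≠ 0)).biUnion
        (fun a => univ.filter (fun g : Fin k → V => ∑ j, a j • g j = 0)) := by
    intro g hg
    rw [mem_filter, Fintype.not_linearIndependent_iff] at hg
    obtain ⟨_, a, ha, i, hi⟩ := hg
    rw [mem_biUnion]
    refine ⟨a, ?_, ?_⟩
    · rw [mem_filter]
      exact ⟨mem_univ _, fun h => hi (by rw [h]; rfl)⟩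
    · rw [mem_filter]
      exact ⟨mem_univ _, ha⟩
  have h1 : (univ.filter (fun g : Fin k → V => ¬ LinearIndependent F g)).card *
      q ^ (finrank F V) ≤ q ^ k * q ^ (finrank F V * k) := by
    calc _ ≤ (∑ a ∈ univ.filter (fun a : Fin k → F => a ≠ 0),
          (univ.filter (fun g : Fin k → V => ∑ j, a j • g j = 0)).card) * q ^ (finrank F V) :=
          Nat.mul_le_mul_right _ ((card_le_card hsub).trans card_biUnion_le)
      _ = ∑ a ∈ univ.filter (fun a : Fin k → F => a ≠ 0), q ^ (finrank F V * k) := by
          rw [Finset.sum_mul]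
          apply Finset.sum_congr rfl
          intro a ha
          rw [mem_filter] at ha
          have := comb_card (V := V) ha.2
          rw [Fintype.card_fin] at this
          exact this
      _ ≤ q ^ k * q ^ (finrank F V * k) := by
          rw [Finset.sum_const, smul_eq_mul]
          apply Nat.mul_le_mul_right
          refine (card_filter_le _ _).trans ?_
          rw [card_univ, Fintype.card_fun, Fintype.card_fin]
  have h2 : 2 * q ^ k ≤ q ^ (finrank F V) := by
    calc 2 * q ^ k ≤ q * q ^ k := Nat.mul_le_mul_right _ hq2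
      _ = q ^ (k + 1) := by ring
      _ ≤ _ := Nat.pow_le_pow_right (by omega) hk
  have h3 : 0 < q ^ (finrank F V) := Nat.pow_pos (by omega)
  refine Nat.le_of_mul_le_mul_right ?_ h3
  calc 2 * (univ.filter (fun g : Fin k → V => ¬ LinearIndependent F g)).card * q ^ finrank F V
      = 2 * ((univ.filter (fun g : Fin k → V => ¬ LinearIndependent F g)).card *
          q ^ finrank F V) := by ring
    _ ≤ 2 * (q ^ k * q ^ (finrank F V * k)) := Nat.mul_le_mul_left _ h1
    _ = (2 * q ^ k) * q ^ (finrank F V * k) := by ring
    _ ≤ q ^ finrank F V * q ^ (finrank F V * k) := Nat.mul_le_mul_right _ h2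
    _ = _ := by ring

/-- Block with few dependent tuples. -/
theorem dep_card (σ : V →ₗ[F] V) (t s : ℕ)
    (ht : ∀ a b : F, (a ≠ 0 ∨ b ≠ 0) →
      t ≤ finrank F (LinearMap.range (a • LinearMap.id + b • σ))) :
    (univ.filter (fun h : Fin s → V =>
      ¬ LinearIndependent F (Sum.elim h (fun i => σ (h i))))).card * (Fintype.card F) ^ t ≤
      (Fintype.card F) ^ (2 * s) * (Fintype.card F) ^ (finrank F V * s) := by
  set q := Fintype.card F with hq
  let L : (Fin s ⊕ Fin s → F) → ((Fin s → V) →ₗ[F] V) := fun c =>
    comb (fun i => c (Sum.inl i)) + σ.comp (comb (fun i => c (Sum.inr i)))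
  have hL : ∀ c h, L c h = ∑ i, c (Sum.inl i) • h i + ∑ i, c (Sum.inr i) • σ (h i) := by
    intro c h
    simp only [L, LinearMap.add_apply, LinearMap.comp_apply, comb_apply, map_sum, map_smul]
  have hsub : univ.filter (fun h : Fin s → V =>
      ¬ LinearIndependent F (Sum.elim h (fun i => σ (h i)))) ⊆
      (univ.filter (fun c : Fin s ⊕ Fin s → F => c ≠ 0)).biUnion
        (fun c => univ.filter (fun h : Fin s → V => L c h = 0)) := by
    intro h hh
    rw [mem_filter, Fintype.not_linearIndependent_iff] at hh
    obtain ⟨_, c, hc, i, hi⟩ := hh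
    rw [mem_biUnion]
    refine ⟨c, ?_, ?_⟩
    · rw [mem_filter]
      exact ⟨mem_univ _, fun h => hi (by rw [h]; rfl)⟩
    · rw [mem_filter, hL]
      refine ⟨mem_univ _, ?_⟩
      rw [Fintype.sum_sum_type] at hc
      exact hc
  have hcard : ∀ c : Fin s ⊕ Fin s → F, c ≠ 0 →
      (univ.filter (fun h : Fin s → V => L c h = 0)).card * q ^ t ≤ q ^ (finrank F V * s) := by
    intro c hc
    have h0 : ∃ i, c (Sum.inl i) ≠ 0 ∨ c (Sum.inr i) ≠ 0 := by
      obtain ⟨j, hj⟩ := Function.ne_iff.1 hc
      rcases j with i | i
      · exact ⟨i, Or.inl hj⟩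
      · exact ⟨i, Or.inr hj⟩
    obtain ⟨i, hi⟩ := h0
    have h1 := ht _ _ hi
    have h2 : LinearMap.range (c (Sum.inl i) • LinearMap.id + c (Sum.inr i) • σ) ≤
        LinearMap.range (L c) := by
      rintro w ⟨v, rfl⟩
      refine ⟨Pi.single i v, ?_⟩
      rw [hL, Finset.sum_eq_single i, Finset.sum_eq_single i]
      · simp
      · intro j _ hj
        rw [Pi.single_eq_of_ne hj, map_zero, smul_zero]
      · intro h; exact absurd (Finset.mem_univ _) h
      · intro j _ hj
        rw [Pi.single_eq_of_ne hj, smul_zero]
      · intro h; exact absurd (Finset.mem_univ _) h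
    have h3 := ker_card_le (L c) t (h1.trans (Submodule.finrank_mono h2))
    have h4 : finrank F (Fin s → V) = finrank F V * s := by
      rw [Module.finrank_pi_fintype]
      simp [mul_comm]
    rwa [h4] at h3
  calc _ ≤ (∑ c ∈ univ.filter (fun c : Fin s ⊕ Fin s → F => c ≠ 0),
        (univ.filter (fun h : Fin s → V => L c h = 0)).card) * q ^ t :=
        Nat.mul_le_mul_right _ ((card_le_card hsub).trans card_biUnion_le)
    _ = ∑ c ∈ univ.filter (fun c : Fin s ⊕ Fin s → F => c ≠ 0),
        (univ.filter (fun h : Fin s → V => L c h = 0)).card * q ^ t := Finset.sum_mul _ _ _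
    _ ≤ ∑ c ∈ univ.filter (fun c : Fin s ⊕ Fin s → F => c ≠ 0), q ^ (finrank F V * s) := by
        apply Finset.sum_le_sum
        intro c hc
        exact hcard c (mem_filter.1 hc).2
    _ ≤ q ^ (2 * s) * q ^ (finrank F V * s) := by
        rw [Finset.sum_const, smul_eq_mul]
        apply Nat.mul_le_mul_right
        refine (card_filter_le _ _).trans ?_
        rw [card_univ, Fintype.card_fun, Fintype.card_sum, Fintype.card_fin]
        rw [two_mul]

/-- Independent blocks force many conditions. -/
theorem blk_card {ι : Type} [Fintype ι] [DecidableEq ι] (σ : V →ₗ[F] V) (s : ℕ) (β : Fin s ↪ ι) :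
    (univ.filter (fun g : ι → V =>
      LinearIndependent F (Sum.elim (fun i => g (β i)) (fun i => σ (g (β i)))) ∧
        ∀ i, σ (g (β i)) ∈ Submodule.span F (Set.range g))).card *
      (Fintype.card F) ^ (finrank F V * s) ≤
      (Fintype.card F) ^ (s * Fintype.card ι) *
        (Fintype.card F) ^ (finrank F V * Fintype.card ι) := by
  set q := Fintype.card F with hq
  let L : (Fin s → ι → F) → ((ι → V) →ₗ[F] (Fin s → V)) := fun A =>
    LinearMap.pi (fun i => σ.comp (LinearMap.proj (β i)) - comb (A i))
  have hL : ∀ A g i, L A g i = σ (g (β i)) - ∑ j, A i j • g j := by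
    intro A g i
    simp only [L, LinearMap.pi_apply, LinearMap.sub_apply, LinearMap.comp_apply,
      LinearMap.proj_apply, comb_apply]
  let P : (ι → V) → Prop := fun g =>
    LinearIndependent F (Sum.elim (fun i => g (β i)) (fun i => σ (g (β i))))
  have hsurj : ∀ A g, P g → L A g = 0 → Function.Surjective (L A) := by
    intro A g hP hg
    rw [← LinearMap.range_eq_top]
    by_contra hne
    obtain ⟨f, hf0, hf⟩ := Submodule.exists_le_ker_of_lt_top _ (lt_top_iff_ne_top.2 hne)
    have hf' : ∀ x, f (L A x) = 0 := fun x => hf ⟨x, rfl⟩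
    -- components of f
    have hcomp : ∃ i v, f (Pi.single i v) ≠ 0 := by
      by_contra hcon
      push Not at hcon
      apply hf0
      apply LinearMap.pi_ext
      intro i v
      simpa using hcon i v
    obtain ⟨i0, v0, hv0⟩ := hcomp
    have hkey : ∀ j, (∀ i, β i ≠ j) → ∑ i, A i j * f (Pi.single i v0) = 0 := by
      intro j hj
      have h1 := hf' (Pi.single j v0)
      have h2 : L A (Pi.single j v0) = ∑ i, Pi.single i (-(A i j • v0)) := by
        funext i
        rw [hL, Finset.sum_apply, Finset.sum_eq_single i, Finset.sum_eq_single j]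
        · rw [Pi.single_eq_same, Pi.single_eq_same, Pi.single_eq_of_ne (hj i), map_zero, zero_sub]
        · intro l _ hl
          rw [Pi.single_eq_of_ne hl, smul_zero]
        · intro h; exact absurd (Finset.mem_univ _) h
        · intro l _ hl
          rw [Pi.single_eq_of_ne hl.symm]
        · intro h; exact absurd (Finset.mem_univ _) h
      rw [h2, map_sum] at h1
      have h3 : ∀ i, f (Pi.single i (-(A i j • v0))) = -(A i j * f (Pi.single i v0)) := by
        intro i
        rw [Pi.single_neg, map_neg, Pi.single_smul, map_smul, smul_eq_mul]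
      simp only [h3, Finset.sum_neg_distrib, neg_eq_zero] at h1
      exact h1
    -- relation among the block vectors
    set c : Fin s → F := fun i => f (Pi.single i v0) with hc
    have hrel : ∑ i, c i • σ (g (β i)) = ∑ l, (∑ i, c i * A i (β l)) • g (β l) := by
      have h1 : ∀ i, σ (g (β i)) = ∑ j, A i j • g j := by
        intro i
        have := congrFun hg i
        rw [hL] at this
        exact sub_eq_zero.1 this
      have h2 : ∑ i, c i • σ (g (β i)) = ∑ j, (∑ i, c i * A i j) • g j := by
        simp only [h1, Finset.smul_sum, Finset.sum_smul, smul_smul]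
        rw [Finset.sum_comm]
      rw [h2]
      have h3 : ∑ l, (∑ i, c i * A i (β l)) • g (β l) =
          ∑ j ∈ univ.map β, (∑ i, c i * A i j) • g j := by
        rw [Finset.sum_map]
      rw [h3]
      symm
      apply Finset.sum_subset (Finset.subset_univ _)
      intro j _ hj
      have h4 : ∀ i, β i ≠ j := by
        intro i hi
        apply hj
        rw [mem_map]
        exact ⟨i, mem_univ _, hi⟩
      have h5 := hkey j h4
      have h6 : ∑ i, c i * A i j = 0 := by
        rw [← h5]
        apply Finset.sum_congr rfl
        intro i _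
        rw [hc, mul_comm]
      rw [h6, zero_smul]
    have hLI := Fintype.linearIndependent_iff.1 hP
      (Sum.elim (fun l => -(∑ i, c i * A i (β l))) c) (by
        rw [Fintype.sum_sum_type]
        simp only [Sum.elim_inl, Sum.elim_inr]
        rw [hrel]
        simp [neg_smul, Finset.sum_neg_distrib])
    have := hLI (Sum.inr i0)
    simp only [Sum.elim_inr] at this
    exact hv0 this
  have hsub : univ.filter (fun g : ι → V => P g ∧
        ∀ i, σ (g (β i)) ∈ Submodule.span F (Set.range g)) ⊆
      (univ : Finset (Fin s → ι → F)).biUnion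
        (fun A => univ.filter (fun g : ι → V => P g ∧ L A g = 0)) := by
    intro g hg
    rw [mem_filter] at hg
    obtain ⟨_, hP, hs⟩ := hg
    have h1 : ∀ i, ∃ a : ι → F, ∑ j, a j • g j = σ (g (β i)) := by
      intro i
      have := hs i
      rw [Submodule.mem_span_range_iff_exists_fun] at this
      exact this
    choose A hA using h1
    rw [mem_biUnion]
    refine ⟨A, mem_univ _, ?_⟩
    rw [mem_filter]
    refine ⟨mem_univ _, hP, ?_⟩
    funext i
    rw [hL, hA i, sub_self]
    rfl
  have hcard : ∀ A, (univ.filter (fun g : ι → V => P g ∧ L A g = 0)).card *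
      q ^ (finrank F V * s) ≤ q ^ (finrank F V * Fintype.card ι) := by
    intro A
    by_cases hex : ∃ g, P g ∧ L A g = 0
    · obtain ⟨g, h1, h2⟩ := hex
      have h3 := hsurj A g h1 h2
      have h4 := ker_card (L A)
      rw [LinearMap.range_eq_top.2 h3, finrank_top] at h4
      have h5 : finrank F (Fin s → V) = finrank F V * s := by
        rw [Module.finrank_pi_fintype]
        simp [mul_comm]
      have h6 : finrank F (ι → V) = finrank F V * Fintype.card ι := by
        rw [Module.finrank_pi_fintype]
        simp [mul_comm]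
      rw [h5, h6] at h4
      have h7 : univ.filter (fun g : ι → V => P g ∧ L A g = 0) ⊆
          univ.filter (fun g : ι → V => L A g = 0) := by
        intro x hx
        have hx' := (mem_filter.1 hx).2.2
        exact mem_filter.2 ⟨mem_univ _, hx'⟩
      rw [← h4]
      exact Nat.mul_le_mul_right _ (card_le_card h7)
    · have : univ.filter (fun g : ι → V => P g ∧ L A g = 0) = ∅ := by
        rw [filter_eq_empty_iff]
        intro g _ h
        exact hex ⟨g, h⟩
      rw [this, card_empty, zero_mul]
      exact Nat.zero_le _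
  calc _ ≤ (∑ A : Fin s → ι → F,
        (univ.filter (fun g : ι → V => P g ∧ L A g = 0)).card) * q ^ (finrank F V * s) :=
        Nat.mul_le_mul_right _ ((card_le_card hsub).trans card_biUnion_le)
    _ = ∑ A : Fin s → ι → F,
        (univ.filter (fun g : ι → V => P g ∧ L A g = 0)).card * q ^ (finrank F V * s) :=
        Finset.sum_mul _ _ _
    _ ≤ ∑ A : Fin s → ι → F, q ^ (finrank F V * Fintype.card ι) := by
        apply Finset.sum_le_sum
        intro A _
        exact hcard A
    _ = q ^ (s * Fintype.card ι) * q ^ (finrank F V * Fintype.card ι) := by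
        rw [Finset.sum_const, smul_eq_mul, card_univ, Fintype.card_fun, Fintype.card_fun,
          Fintype.card_fin, ← pow_mul, mul_comm (Fintype.card ι) s]

end Pool.Agent.R789.RC
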