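import Mathlib

/-! Monomial maps: rank estimates and counting. -/

namespace Pool.Agent.R789.RC

open Module Finset
open scoped Classical

variable {F : Type} [Field F]

/-- The monomial map `(x_1,...,x_n) ↦ (d_1 x_{π⁻¹(1)},...,d_n x_{π⁻¹(n)})`. -/
def mono {n : ℕ} (d : Fin n → Fˣ) (π : Equiv.Perm (Fin n)) : (Fin n → F) →ₗ[F] (Fin n → F) where
  toFun x := fun i => (d i : F) * x (π⁻¹ i)
  map_add' x y := by funext i; simp [mul_add]
  map_smul' c x := by funext i; simp; ring

theorem mono_apply {n : ℕ} (d : Fin n → Fˣ) (π : Equiv.Perm (Fin n)) (x : Fin n → F) (i : Fin n) :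
    mono d π x i = (d i : F) * x (π⁻¹ i) := rfl

theorem mono_apply' {n : ℕ} (d : Fin n → Fˣ) (π : Equiv.Perm (Fin n)) (x : Fin n → F)
    (i : Fin n) : mono d π x (π i) = (d (π i) : F) * x i := by
  rw [mono_apply]; simp

/-- Coordinates where the monomial map differs from the scalar `c`. -/
noncomputable def Mv {n : ℕ} (d : Fin n → Fˣ) (π : Equiv.Perm (Fin n)) (c : F) : Finset (Fin n) :=
  univ.filter (fun i => ¬ (π i = i ∧ (d i : F) = c))

theorem mem_Mv {n : ℕ} (d : Fin n → Fˣ) (π : Equiv.Perm (Fin n)) (c : F) (i : Fin n) :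
    i ∈ Mv d π c ↔ ¬ (π i = i ∧ (d i : F) = c) := by
  unfold Mv; simp

theorem exists_T {n : ℕ} (d : Fin n → Fˣ) (π : Equiv.Perm (Fin n)) (c : F) :
    ∃ T : Finset (Fin n), (∀ i ∈ T, i ∈ Mv d π c ∧ (π i = i ∨ π i ∉ T)) ∧
      (Mv d π c).card ≤ 3 * T.card := by
  set S := (univ : Finset (Finset (Fin n))).filter
    (fun T => ∀ i ∈ T, i ∈ Mv d π c ∧ (π i = i ∨ π i ∉ T)) with hS
  have hne : S.Nonempty := ⟨∅, by rw [hS, mem_filter]; exact ⟨mem_univ _, by simp⟩⟩
  obtain ⟨T, hT, hmax⟩ := S.exists_max_image Finset.card hne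
  rw [hS, mem_filter] at hT
  refine ⟨T, hT.2, ?_⟩
  have hsub : Mv d π c ⊆ T ∪ (T.image π ∪ T.image (π⁻¹ : Equiv.Perm (Fin n))) := by
    intro x hx
    by_contra hcon
    rw [mem_union, mem_union, mem_image, mem_image] at hcon
    push Not at hcon
    obtain ⟨h1, h2, h3⟩ := hcon
    have hins : insert x T ∈ S := by
      rw [hS, mem_filter]
      refine ⟨mem_univ _, ?_⟩
      intro i hi
      rcases mem_insert.1 hi with rfl | hi
      · refine ⟨hx, ?_⟩
        by_cases hf : π i = i
        · exact Or.inl hf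
        · right
          intro hmem
          rcases mem_insert.1 hmem with h | h
          · exact hf h
          · exact h3 (π i) h (by simp)
      · refine ⟨(hT.2 i hi).1, ?_⟩
        rcases (hT.2 i hi).2 with h | h
        · exact Or.inl h
        · right
          intro hmem
          rcases mem_insert.1 hmem with h' | h'
          · exact h2 i hi h'
          · exact h h'
    have := hmax _ hins
    rw [card_insert_of_notMem h1] at this
    omega
  calc (Mv d π c).card ≤ (T ∪ (T.image π ∪ T.image (π⁻¹ : Equiv.Perm (Fin n)))).card :=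
        card_le_card hsub
    _ ≤ T.card + ((T.image π).card + (T.image (π⁻¹ : Equiv.Perm (Fin n))).card) :=
        (card_union_le _ _).trans (Nat.add_le_add_left (card_union_le _ _) _)
    _ ≤ T.card + (T.card + T.card) :=
        Nat.add_le_add_left (Nat.add_le_add card_image_le card_image_le) _
    _ = 3 * T.card := by ring

/-- Extension by zero. -/
noncomputable def ext0 {n : ℕ} (T : Finset (Fin n)) : (T → F) →ₗ[F] (Fin n → F) where
  toFun y := fun i => if h : i ∈ T then y ⟨i, h⟩ else 0
  map_add' x y := by funext i; by_cases h : i ∈ T <;> simp [h]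
  map_smul' c x := by funext i; by_cases h : i ∈ T <;> simp [h]

theorem ext0_mem {n : ℕ} (T : Finset (Fin n)) (y : T → F) (i : Fin n) (h : i ∈ T) :
    ext0 T y i = y ⟨i, h⟩ := by
  simp [ext0, h]

theorem ext0_notMem {n : ℕ} (T : Finset (Fin n)) (y : T → F) (i : Fin n) (h : i ∉ T) :
    ext0 T y i = 0 := by
  simp [ext0, h]

theorem rank_lower {n : ℕ} (d : Fin n → Fˣ) (π : Equiv.Perm (Fin n)) (c : F) :
    (Mv d π c).card ≤ 3 * finrank F (LinearMap.range (mono d π - c • LinearMap.id)) := by
  obtain ⟨T, hT, hcard⟩ := exists_T d π c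
  refine hcard.trans (Nat.mul_le_mul_left _ ?_)
  set τ : (Fin n → F) →ₗ[F] (Fin n → F) := mono d π - c • LinearMap.id with hτ
  have hinj : Function.Injective (τ.comp (ext0 T)) := by
    rw [injective_iff_map_eq_zero]
    intro y hy
    have hy' : ∀ j, mono d π (ext0 T y) j = c * ext0 T y j := by
      intro j
      have := congrFun hy j
      simp only [hτ, LinearMap.comp_apply, LinearMap.sub_apply, LinearMap.smul_apply,
        LinearMap.id_apply, Pi.sub_apply, Pi.smul_apply, smul_eq_mul, Pi.zero_apply] at this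
      exact sub_eq_zero.1 this
    funext ⟨i, hi⟩
    have h1 := hy' (π i)
    rw [mono_apply', ext0_mem T y i hi] at h1
    obtain ⟨hmv, hor⟩ := hT i hi
    rw [mem_Mv] at hmv
    show y ⟨i, hi⟩ = 0
    rcases hor with hf | hf
    · rw [hf, ext0_mem T y i hi] at h1
      have hne : (d i : F) ≠ c := fun h => hmv ⟨hf, h⟩
      have h2 : ((d i : F) - c) * y ⟨i, hi⟩ = 0 := by rw [sub_mul, h1, sub_self]
      rcases mul_eq_zero.1 h2 with h | h
      · exact absurd (sub_eq_zero.1 h) hne
      · exact h
    · rw [ext0_notMem T y (π i) hf, mul_zero] at h1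
      rcases mul_eq_zero.1 h1 with h | h
      · exact absurd h (d (π i)).ne_zero
      · exact h
  have h1 : finrank F (LinearMap.range (τ.comp (ext0 T))) = T.card := by
    rw [LinearMap.finrank_range_of_inj hinj, Module.finrank_fintype_fun_eq_card]
    simp
  rw [← h1]
  exact Submodule.finrank_mono (LinearMap.range_comp_le_range _ _)

theorem rank_upper {n : ℕ} (d : Fin n → Fˣ) (π : Equiv.Perm (Fin n)) (c : F) :
    finrank F (LinearMap.range (mono d π - c • LinearMap.id)) ≤ (Mv d π c).card := by
  set τ : (Fin n → F) →ₗ[F] (Fin n → F) := mono d π - c • LinearMap.id with hτ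
  have h0 : ∀ i, i ∉ Mv d π c → τ (Pi.single i 1) = 0 := by
    intro i hi
    rw [mem_Mv, not_not] at hi
    funext j
    simp only [hτ, LinearMap.sub_apply, LinearMap.smul_apply,
        LinearMap.id_apply, Pi.sub_apply, Pi.smul_apply, smul_eq_mul, Pi.zero_apply]
    rw [mono_apply]
    by_cases hj : j = i
    · have h1 : π⁻¹ i = i := by
        rw [Equiv.Perm.inv_eq_iff_eq]; exact hi.1.symm
      rw [hj, h1, Pi.single_eq_same, hi.2, sub_self]
    · have h1 : π⁻¹ j ≠ i := by
        intro h
        rw [Equiv.Perm.inv_eq_iff_eq, hi.1] at h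
        exact hj h
      rw [Pi.single_eq_of_ne h1, Pi.single_eq_of_ne hj, mul_zero, mul_zero, sub_zero]
  have h1 : LinearMap.range τ ≤
      Submodule.span F (((Mv d π c).image (fun i => τ (Pi.single i 1)) : Finset (Fin n → F)) :
        Set (Fin n → F)) := by
    rintro w ⟨x, rfl⟩
    rw [pi_eq_sum_univ' x, map_sum]
    apply Submodule.sum_mem
    intro i _
    by_cases hi : i ∈ Mv d π c
    · rw [map_smul]
      apply Submodule.smul_mem
      apply Submodule.subset_span
      rw [Finset.coe_image]
      exact ⟨i, hi, rfl⟩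
    · rw [map_smul, h0 i hi, smul_zero]
      exact Submodule.zero_mem _
  calc finrank F (LinearMap.range τ) ≤ finrank F (Submodule.span F
        (((Mv d π c).image (fun i => τ (Pi.single i 1)) : Finset (Fin n → F)) :
        Set (Fin n → F))) := Submodule.finrank_mono h1
    _ ≤ ((Mv d π c).image (fun i => τ (Pi.single i 1))).card := finrank_span_finset_le_card _
    _ ≤ _ := card_image_le

theorem eq_scalar {n : ℕ} (d : Fin n → Fˣ) (π : Equiv.Perm (Fin n)) (c : F)
    (h : mono d π = c • LinearMap.id) : Mv d π c = ∅ := by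
  rw [Finset.eq_empty_iff_forall_notMem]
  intro i hi
  rw [mem_Mv] at hi
  apply hi
  have h1 : mono d π (Pi.single i 1) (π i) = c * (Pi.single i 1 : Fin n → F) (π i) := by
    rw [h]; rfl
  rw [mono_apply', Pi.single_eq_same, mul_one] at h1
  by_cases hf : π i = i
  · refine ⟨hf, ?_⟩
    rw [hf, Pi.single_eq_same, mul_one] at h1
    exact h1
  · rw [Pi.single_eq_of_ne hf, mul_zero] at h1
    exact absurd h1 (d (π i)).ne_zero

theorem scalar_of_empty {n : ℕ} (d : Fin n → Fˣ) (π : Equiv.Perm (Fin n)) (c : F)
    (h : Mv d π c = ∅) : mono d π = c • LinearMap.id := by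
  have h1 : ∀ i, π i = i ∧ (d i : F) = c := by
    intro i
    by_contra hc
    have : i ∈ Mv d π c := (mem_Mv d π c i).2 hc
    rw [h] at this
    simp at this
  apply LinearMap.ext
  intro x
  funext i
  rw [mono_apply, (h1 i).2, Equiv.Perm.inv_eq_iff_eq.2 (h1 i).1.symm]
  rfl

theorem rank_pos {n : ℕ} (d : Fin n → Fˣ) (π : Equiv.Perm (Fin n)) (c : F)
    (h : Mv d π c ≠ ∅) : 1 ≤ finrank F (LinearMap.range (mono d π - c • LinearMap.id)) := by
  by_contra hc
  have h0 : finrank F (LinearMap.range (mono d π - c • LinearMap.id)) = 0 := by omega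
  rw [Submodule.finrank_eq_zero, LinearMap.range_eq_bot, sub_eq_zero] at h0
  exact h (eq_scalar d π c h0)

theorem rank_all {n : ℕ} (d : Fin n → Fˣ) (π : Equiv.Perm (Fin n)) (m : ℕ)
    (hm : ∀ c, m ≤ (Mv d π c).card) (a b : F) (hab : a ≠ 0 ∨ b ≠ 0) :
    m ≤ 3 * finrank F (LinearMap.range (a • LinearMap.id + b • mono d π)) := by
  by_cases hb : b = 0
  · have ha : a ≠ 0 := by
      rcases hab with h | h
      · exact h
      · exact absurd hb h
    have h1 : LinearMap.range (a • LinearMap.id + b • mono d π) = ⊤ := by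
      rw [LinearMap.range_eq_top]
      intro v
      refine ⟨a⁻¹ • v, ?_⟩
      rw [hb]
      simp only [LinearMap.add_apply, LinearMap.smul_apply, LinearMap.id_apply, zero_smul,
        add_zero, smul_smul]
      rw [mul_inv_cancel₀ ha, one_smul]
    rw [h1, finrank_top, Module.finrank_fin_fun]
    have := hm 0
    have h2 : (Mv d π 0).card ≤ n := by
      have := card_le_univ (Mv d π (0 : F))
      simpa using this
    omega
  · have h1 : LinearMap.range (a • LinearMap.id + b • mono d π) =
        LinearMap.range (mono d π - (-(a / b)) • LinearMap.id) := by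
      ext v
      constructor
      · rintro ⟨x, rfl⟩
        refine ⟨b • x, ?_⟩
        simp only [LinearMap.add_apply, LinearMap.sub_apply, LinearMap.smul_apply,
          LinearMap.id_apply, map_smul]
        funext i
        simp only [Pi.smul_apply, Pi.sub_apply, Pi.add_apply, smul_eq_mul]
        field_simp
        ring
      · rintro ⟨x, rfl⟩
        refine ⟨b⁻¹ • x, ?_⟩
        simp only [LinearMap.add_apply, LinearMap.sub_apply, LinearMap.smul_apply,
          LinearMap.id_apply, map_smul]
        funext i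
        simp only [Pi.smul_apply, Pi.sub_apply, Pi.add_apply, smul_eq_mul]
        field_simp
        ring
    rw [h1]
    exact (hm _).trans (rank_lower d π _)

variable [Fintype F]

/-- There are few monomial maps close to a given scalar. -/
theorem count_mono {n : ℕ} (c : F) (m : ℕ) :
    ((univ : Finset ((Fin n → Fˣ) × Equiv.Perm (Fin n))).filter
      (fun p => (Mv p.1 p.2 c).card = m)).card ≤ (n * n * Fintype.card F) ^ m := by
  let S : (Fin n → Fˣ) × Equiv.Perm (Fin n) → Finset (Fin n × Fin n × F) := fun p =>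
    (Mv p.1 p.2 c).image (fun i => (i, p.2 i, (p.1 i : F)))
  have hScard : ∀ p, (S p).card = (Mv p.1 p.2 c).card := by
    intro p
    apply card_image_of_injective
    intro i j hij
    exact congrArg Prod.fst hij
  have hmemS : ∀ p i, i ∈ Mv p.1 p.2 c ↔ ∃ x, (i, x) ∈ S p := by
    intro p i
    constructor
    · intro hi
      exact ⟨_, mem_image.2 ⟨i, hi, rfl⟩⟩
    · rintro ⟨x, hx⟩
      obtain ⟨j, hj, he⟩ := mem_image.1 hx
      have := congrArg Prod.fst he
      simp only at this
      rwa [← this]
  have hSinj : Function.Injective S := by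
    intro p p' h
    have hMv : ∀ i, i ∈ Mv p.1 p.2 c ↔ i ∈ Mv p'.1 p'.2 c := by
      intro i
      rw [hmemS, hmemS, h]
    have hval : ∀ i, p.2 i = p'.2 i ∧ (p.1 i : F) = (p'.1 i : F) := by
      intro i
      by_cases hi : i ∈ Mv p.1 p.2 c
      · have h1 : (i, p.2 i, (p.1 i : F)) ∈ S p := mem_image.2 ⟨i, hi, rfl⟩
        rw [h] at h1
        obtain ⟨j, hj, he⟩ := mem_image.1 h1
        have e1 := congrArg Prod.fst he
        simp only at e1
        subst e1
        have e2 := congrArg Prod.snd he
        simp only [Prod.mk.injEq] at e2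
        exact ⟨e2.1.symm, e2.2.symm⟩
      · have hi' : i ∉ Mv p'.1 p'.2 c := fun hh => hi ((hMv i).2 hh)
        rw [mem_Mv, not_not] at hi hi'
        exact ⟨by rw [hi.1, hi'.1], by rw [hi.2, hi'.2]⟩
    apply Prod.ext
    · funext i
      exact Units.ext (hval i).2
    · ext i
      rw [(hval i).1]
  calc _ ≤ ((univ : Finset (Fin n × Fin n × F)).powersetCard m).card := by
        apply Finset.card_le_card_of_injOn S
        · intro p hp
          have hp' := (mem_filter.1 (Finset.mem_coe.1 hp)).2
          rw [Finset.mem_coe, mem_powersetCard]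
          exact ⟨subset_univ _, by rw [hScard, hp']⟩
        · exact hSinj.injOn
    _ = (n * n * Fintype.card F).choose m := by
        rw [card_powersetCard, card_univ, Fintype.card_prod, Fintype.card_prod,
          Fintype.card_fin, mul_assoc]
    _ ≤ _ := Nat.choose_le_pow _ _

end Pool.Agent.R789.RC
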