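import Pool.Agent.R789.RCBlock
import Pool.Agent.R789.RCMono

namespace Pool.Agent.R789.RC

open Module Finset
open scoped Classical

variable {F : Type} [Field F] [Fintype F]
variable {V : Type} [AddCommGroup V] [Module F V] [Fintype V]

instance finSub : Finite (Submodule F V) :=
  Finite.of_injective (fun C : Submodule F V => (C : Set V)) SetLike.coe_injective

/-- Linearly independent tuples spanning `C` are the same as linearly independent tuples
of `C`. -/
noncomputable def fibEquiv (k : ℕ) (C : Submodule F V) (hC : finrank F C = k) :
    {g : Fin k → V // LinearIndependent F g ∧ Submodule.span F (Set.range g) = C} ≃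
      {h : Fin k → C // LinearIndependent F h} where
  toFun g := ⟨fun i => ⟨g.1 i, by
      have h1 := g.2.2
      have h2 : g.1 i ∈ Submodule.span F (Set.range g.1) := Submodule.subset_span ⟨i, rfl⟩
      rw [h1] at h2
      exact h2⟩, by
      apply LinearIndependent.of_comp C.subtype
      exact g.2.1⟩
  invFun h := ⟨fun i => (h.1 i : V), by
      refine ⟨h.2.map' C.subtype (Submodule.ker_subtype C), ?_⟩
      have h1 : Submodule.span F (Set.range h.1) = ⊤ :=
        h.2.span_eq_top_of_card_eq_finrank' (by rw [Fintype.card_fin, hC])
      have h2 : Set.range (fun i => (h.1 i : V)) = C.subtype '' Set.range h.1 := by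
        rw [← Set.range_comp]; rfl
      rw [h2, Submodule.span_image, h1, Submodule.map_top, Submodule.range_subtype]⟩
  left_inv g := by
    apply Subtype.ext
    rfl
  right_inv h := by
    apply Subtype.ext
    rfl

/-- The number of bases of a `k`-dimensional space. -/
noncomputable def gk (F : Type) [Field F] [Fintype F] (k : ℕ) : ℕ :=
  ∏ i : Fin k, ((Fintype.card F) ^ k - (Fintype.card F) ^ i.val)

theorem fib_card (k : ℕ) (C : Submodule F V) (hC : finrank F C = k) :
    Nat.card {g : Fin k → V // LinearIndependent F g ∧ Submodule.span F (Set.range g) = C} =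
      gk F k := by
  rw [Nat.card_congr (fibEquiv k C hC)]
  have h := card_linearIndependent (K := F) (V := C) (k := k) (by rw [hC])
  rw [h, hC]
  rfl

theorem gk_pos (k : ℕ) : 0 < gk F k := by
  unfold gk
  apply Finset.prod_pos
  intro i _
  have : (Fintype.card F) ^ (i.val) < (Fintype.card F) ^ k :=
    Nat.pow_lt_pow_right Fintype.one_lt_card i.2
  omega

/-- Double counting. -/
theorem double_count (k : ℕ) (P : Submodule F V → Prop) :
    Nat.card {C : Submodule F V // finrank F C = k ∧ P C} * gk F k =
      (univ.filter (fun g : Fin k → V => LinearIndependent F g ∧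
        P (Submodule.span F (Set.range g)))).card := by
  have _i : Fintype (Submodule F V) := Fintype.ofFinite _
  have h1 : Nat.card {C : Submodule F V // finrank F C = k ∧ P C} =
      (univ.filter (fun C : Submodule F V => finrank F C = k ∧ P C)).card := by
    rw [Nat.card_eq_fintype_card, Fintype.card_subtype]
  rw [h1]
  have h2 := Finset.card_eq_sum_card_fiberwise
    (s := univ.filter (fun g : Fin k → V => LinearIndependent F g ∧
        P (Submodule.span F (Set.range g))))
    (t := univ.filter (fun C : Submodule F V => finrank F C = k ∧ P C))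
    (f := fun g => Submodule.span F (Set.range g)) (by
      intro g hg
      rw [Finset.mem_coe, mem_filter] at hg
      rw [Finset.mem_coe, mem_filter]
      refine ⟨mem_univ _, ?_, hg.2.2⟩
      rw [finrank_span_eq_card hg.2.1, Fintype.card_fin])
  rw [h2, Finset.sum_congr rfl (g := fun _ => gk F k)]
  · rw [Finset.sum_const, smul_eq_mul]
  · intro C hC
    rw [mem_filter] at hC
    rw [← fib_card k C hC.2.1, Nat.card_eq_fintype_card, Fintype.card_subtype]
    congr 1
    ext g
    simp only [mem_filter, mem_univ, true_and]
    constructor
    · rintro ⟨⟨h3, h4⟩, h5⟩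
      exact ⟨h3, h5⟩
    · rintro ⟨h3, h5⟩
      refine ⟨⟨h3, ?_⟩, h5⟩
      rw [h5]
      exact hC.2.2

/-- The fraction of bad subspaces is bounded by twice the fraction of bad tuples. -/
theorem bad_frac (k : ℕ) (hk : k < finrank F V) (P : Submodule F V → Prop) (X : ℝ)
    (hX : ((univ.filter (fun g : Fin k → V => LinearIndependent F g ∧
        P (Submodule.span F (Set.range g)))).card : ℝ) ≤
        X * (Fintype.card F : ℝ) ^ (finrank F V * k)) :
    (Nat.card {C : Submodule F V // finrank F C = k ∧ P C} : ℝ) ≤
      2 * X * (Nat.card {C : Submodule F V // finrank F C = k} : ℝ) := by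
  have h1 := double_count (F := F) (V := V) k P
  have h2 := double_count (F := F) (V := V) k (fun _ => True)
  simp only [and_true] at h2
  have h3 := dep_tuple (F := F) (V := V) hk
  have h4 : (univ.filter (fun g : Fin k → V => LinearIndependent F g)).card +
      (univ.filter (fun g : Fin k → V => ¬ LinearIndependent F g)).card =
      (Fintype.card F) ^ (finrank F V * k) := by
    rw [Finset.card_filter_add_card_filter_not, card_univ, Fintype.card_fun, Fintype.card_fin,
      Module.card_eq_pow_finrank (K := F) (V := V), pow_mul]
  have h5 : (Fintype.card F) ^ (finrank F V * k) ≤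
      2 * (univ.filter (fun g : Fin k → V => LinearIndependent F g)).card := by omega
  have hg : (0 : ℝ) < (gk F k : ℝ) := by exact_mod_cast gk_pos (F := F) k
  have h1' : (Nat.card {C : Submodule F V // finrank F C = k ∧ P C} : ℝ) * (gk F k : ℝ) =
      ((univ.filter (fun g : Fin k → V => LinearIndependent F g ∧
        P (Submodule.span F (Set.range g)))).card : ℝ) := by exact_mod_cast h1
  have h2' : (Nat.card {C : Submodule F V // finrank F C = k} : ℝ) * (gk F k : ℝ) =
      ((univ.filter (fun g : Fin k → V => LinearIndependent F g)).card : ℝ) := by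
    exact_mod_cast h2
  have h5' : (Fintype.card F : ℝ) ^ (finrank F V * k) ≤
      2 * ((univ.filter (fun g : Fin k → V => LinearIndependent F g)).card : ℝ) := by
    exact_mod_cast h5
  have hX0 : 0 ≤ X := by
    have hq : (0 : ℝ) < (Fintype.card F : ℝ) ^ (finrank F V * k) := by
      have : (0 : ℝ) < (Fintype.card F : ℝ) := by exact_mod_cast Fintype.card_pos (α := F)
      positivity
    by_contra hneg
    push Not at hneg
    have h6 : X * (Fintype.card F : ℝ) ^ (finrank F V * k) < 0 := mul_neg_of_neg_of_pos hneg hq
    have h7 : (0 : ℝ) ≤ ((univ.filter (fun g : Fin k → V => LinearIndependent F g ∧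
        P (Submodule.span F (Set.range g)))).card : ℝ) := Nat.cast_nonneg _
    linarith
  refine le_of_mul_le_mul_right ?_ hg
  calc (Nat.card {C : Submodule F V // finrank F C = k ∧ P C} : ℝ) * (gk F k : ℝ)
      ≤ X * (Fintype.card F : ℝ) ^ (finrank F V * k) := by rw [h1']; exact hX
    _ ≤ X * (2 * ((univ.filter (fun g : Fin k → V => LinearIndependent F g)).card : ℝ)) :=
        mul_le_mul_of_nonneg_left h5' hX0
    _ = 2 * X * ((Nat.card {C : Submodule F V // finrank F C = k} : ℝ) * (gk F k : ℝ)) := by
        rw [h2']; ring
    _ = _ := by ring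

end Pool.Agent.R789.RC
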