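import Mathlib

/-! Numerical estimates for the union bound. -/

namespace Pool.Agent.R789.RC

theorem div_le_of {q : ℝ} (hq : 2 ≤ q) {a b c : ℕ} (h : a + c ≤ b) : q ^ a / q ^ b ≤ 1 / q ^ c := by
  have hq0 : 0 < q := by linarith
  rw [div_le_div_iff₀ (by positivity) (by positivity), one_mul, ← pow_add]
  exact pow_le_pow_right₀ (by linarith) h

theorem base_le {q n L : ℕ} (hq : 2 ≤ q) (hn : n ≤ 2 ^ L) : n * n * q ≤ q ^ (2 * L + 1) := by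
  have h1 : n ≤ q ^ L := hn.trans (Nat.pow_le_pow_left hq L)
  calc n * n * q ≤ q ^ L * q ^ L * q := by gcongr
    _ = q ^ (2 * L + 1) := by ring

theorem small_est {q n k m L K : ℕ} (hq : 2 ≤ q) (hn : n ≤ 2 ^ L) (hL4 : L ^ 4 ≤ n)
    (hKL : 11 * K ≤ L) (hK : 1 ≤ K) (hk : n ≤ K * k) (hnk : n ≤ K * (n - k))
    (hm : m < 12 * (K * (2 * L + 4))) :
    ((n * n * q : ℕ) : ℝ) ^ m * (1 / (q : ℝ) ^ k + (q : ℝ) ^ (k + m) / (q : ℝ) ^ n) ≤
      2 / (q : ℝ) ^ (2 * L + 1) := by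
  have hqR : (2 : ℝ) ≤ (q : ℝ) := by exact_mod_cast hq
  have hq0 : (0 : ℝ) < q := by linarith
  have hb : (((n * n * q : ℕ) : ℝ)) ^ m ≤ (q : ℝ) ^ ((2 * L + 1) * m) := by
    have := base_le hq hn
    have h2 : ((n * n * q : ℕ) : ℝ) ≤ (q : ℝ) ^ (2 * L + 1) := by exact_mod_cast this
    calc _ ≤ ((q : ℝ) ^ (2 * L + 1)) ^ m := pow_le_pow_left₀ (by positivity) h2 m
      _ = _ := by rw [← pow_mul]
  have key : K * ((2 * L + 2) * m + 2 * L + 1) ≤ n := by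
    refine le_trans ?_ hL4
    have h1 : (2 * L + 2) * m ≤ (2 * L + 2) * (12 * (K * (2 * L + 4))) :=
      Nat.mul_le_mul_left _ hm.le
    have hL : 11 ≤ L := by omega
    obtain ⟨j, rfl⟩ := Nat.exists_eq_add_of_le hKL
    have h2 : K * ((2 * (11 * K + j) + 2) * m + 2 * (11 * K + j) + 1) ≤
        K * ((2 * (11 * K + j) + 2) * (12 * (K * (2 * (11 * K + j) + 4))) +
          2 * (11 * K + j) + 1) := by
      apply Nat.mul_le_mul_left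
      omega
    refine h2.trans ?_
    obtain ⟨K', rfl⟩ := Nat.exists_eq_add_of_le hK
    ring_nf
    nlinarith [Nat.zero_le K', Nat.zero_le j, Nat.zero_le (K' * j), Nat.zero_le (K' ^ 2 * j),
      Nat.zero_le (K' * j ^ 2), Nat.zero_le (K' ^ 2 * j ^ 2), Nat.zero_le (K' ^ 3 * j),
      Nat.zero_le (K' * j ^ 3), Nat.zero_le (j ^ 2), Nat.zero_le (j ^ 3), Nat.zero_le (j ^ 4),
      Nat.zero_le (K' ^ 2), Nat.zero_le (K' ^ 3), Nat.zero_le (K' ^ 4)]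
  have hk1 : (2 * L + 2) * m + 2 * L + 1 ≤ k :=
    Nat.le_of_mul_le_mul_left (key.trans hk) hK
  have hk2 : (2 * L + 2) * m + 2 * L + 1 ≤ n - k :=
    Nat.le_of_mul_le_mul_left (key.trans hnk) hK
  have e1 : (2 * L + 2) * m = (2 * L + 1) * m + m := by ring
  have t1 : (q : ℝ) ^ ((2 * L + 1) * m) / (q : ℝ) ^ k ≤ 1 / (q : ℝ) ^ (2 * L + 1) :=
    div_le_of hqR (by omega)
  have t2 : (q : ℝ) ^ ((2 * L + 1) * m + (k + m)) / (q : ℝ) ^ n ≤ 1 / (q : ℝ) ^ (2 * L + 1) :=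
    div_le_of hqR (by omega)
  calc _ ≤ (q : ℝ) ^ ((2 * L + 1) * m) * (1 / (q : ℝ) ^ k + (q : ℝ) ^ (k + m) / (q : ℝ) ^ n) :=
        mul_le_mul_of_nonneg_right hb (by positivity)
    _ = (q : ℝ) ^ ((2 * L + 1) * m) / (q : ℝ) ^ k +
        (q : ℝ) ^ ((2 * L + 1) * m + (k + m)) / (q : ℝ) ^ n := by
        rw [pow_add (q : ℝ) ((2 * L + 1) * m) (k + m)]
        ring
    _ ≤ 1 / (q : ℝ) ^ (2 * L + 1) + 1 / (q : ℝ) ^ (2 * L + 1) := add_le_add t1 t2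
    _ = _ := by ring

theorem large_est {q n k m L K t : ℕ} (hq : 2 ≤ q) (hn : n ≤ 2 ^ L) (hL4 : L ^ 4 ≤ n)
    (hKL : 11 * K ≤ L) (hK : 1 ≤ K) (hkn : k ≤ n) (hnk : n ≤ K * (n - k))
    (hm : 12 * (K * (2 * L + 4)) ≤ m) (hmn : m ≤ n) (ht : m ≤ 3 * t) :
    ((n * n * q : ℕ) : ℝ) ^ m * (((q : ℝ) ^ (2 * (K * (2 * L + 4))) / (q : ℝ) ^ t) ^
        (6 * (2 * L + 4)) + ((6 * (2 * L + 4) : ℕ) : ℝ) *
        ((q : ℝ) ^ ((K * (2 * L + 4)) * k) / (q : ℝ) ^ (n * (K * (2 * L + 4))))) ≤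
      2 / (q : ℝ) ^ (2 * L + 1) := by
  have hqR : (2 : ℝ) ≤ (q : ℝ) := by exact_mod_cast hq
  have hq0 : (0 : ℝ) < q := by linarith
  set s := K * (2 * L + 4) with hs
  have hsL : 2 * L + 4 ≤ s := by rw [hs]; exact Nat.le_mul_of_pos_left _ (by omega)
  have hb : (((n * n * q : ℕ) : ℝ)) ^ m ≤ (q : ℝ) ^ ((2 * L + 1) * m) := by
    have := base_le hq hn
    have h2 : ((n * n * q : ℕ) : ℝ) ≤ (q : ℝ) ^ (2 * L + 1) := by exact_mod_cast this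
    calc _ ≤ ((q : ℝ) ^ (2 * L + 1)) ^ m := pow_le_pow_left₀ (by positivity) h2 m
      _ = _ := by rw [← pow_mul]
  have hL : 11 ≤ L := by omega
  have hLn : L ≤ n := by
    refine le_trans ?_ hL4
    calc L = L ^ 1 := (pow_one L).symm
      _ ≤ L ^ 4 := Nat.pow_le_pow_right (by omega) (by norm_num)
  have hB : ((6 * (2 * L + 4) : ℕ) : ℝ) ≤ (q : ℝ) ^ L := by
    have h1 : 6 * (2 * L + 4) ≤ 2 ^ L := by
      obtain ⟨j, rfl⟩ := Nat.exists_eq_add_of_le hL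
      rw [pow_add]
      have h2 : j + 1 ≤ 2 ^ j := Nat.lt_two_pow_self
      have h3 : 2 ^ 11 * (j + 1) ≤ 2 ^ 11 * 2 ^ j := Nat.mul_le_mul_left _ h2
      omega
    have h2 : 6 * (2 * L + 4) ≤ q ^ L := h1.trans (Nat.pow_le_pow_left hq L)
    exact_mod_cast h2
  have t1 : (q : ℝ) ^ ((2 * L + 1) * m + 2 * s * (6 * (2 * L + 4))) /
      (q : ℝ) ^ (t * (6 * (2 * L + 4))) ≤ 1 / (q : ℝ) ^ (2 * L + 1) := by
    apply div_le_of hqR
    have h1 : 12 * s * (2 * L + 4) ≤ m * (2 * L + 4) := Nat.mul_le_mul_right _ hm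
    have h2 : m * (2 * L + 4) ≤ 3 * t * (2 * L + 4) := Nat.mul_le_mul_right _ ht
    have h3 : 2 * L + 1 ≤ 3 * m := by omega
    have h4 : (2 * L + 1) * m + 3 * m = m * (2 * L + 4) := by ring
    have h5 : 2 * s * (6 * (2 * L + 4)) = 12 * s * (2 * L + 4) := by ring
    have h6 : t * (6 * (2 * L + 4)) = 2 * (3 * t * (2 * L + 4)) := by ring
    rw [h5, h6]
    omega
  have t2 : (q : ℝ) ^ (L + (2 * L + 1) * m + s * k) / (q : ℝ) ^ (n * s) ≤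
      1 / (q : ℝ) ^ (2 * L + 1) := by
    apply div_le_of hqR
    have h1 : (2 * L + 4) * n ≤ s * (n - k) := by
      calc (2 * L + 4) * n ≤ (2 * L + 4) * (K * (n - k)) := Nat.mul_le_mul_left _ hnk
        _ = s * (n - k) := by rw [hs]; ring
    have h2 : s * (n - k) + s * k = n * s := by
      rw [← Nat.mul_add, Nat.sub_add_cancel hkn, mul_comm]
    have h3 : (2 * L + 1) * m ≤ (2 * L + 1) * n := Nat.mul_le_mul_left _ hmn
    have h4 : (2 * L + 1) * n + 3 * n = (2 * L + 4) * n := by ring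
    omega
  calc _ ≤ (q : ℝ) ^ ((2 * L + 1) * m) * (((q : ℝ) ^ (2 * s) / (q : ℝ) ^ t) ^
        (6 * (2 * L + 4)) + (q : ℝ) ^ L * ((q : ℝ) ^ (s * k) / (q : ℝ) ^ (n * s))) := by
        apply mul_le_mul hb _ (by positivity) (by positivity)
        apply add_le_add le_rfl
        exact mul_le_mul_of_nonneg_right hB (by positivity)
    _ = (q : ℝ) ^ ((2 * L + 1) * m + 2 * s * (6 * (2 * L + 4))) /
          (q : ℝ) ^ (t * (6 * (2 * L + 4))) +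
        (q : ℝ) ^ (L + (2 * L + 1) * m + s * k) / (q : ℝ) ^ (n * s) := by
        rw [div_pow, ← pow_mul, ← pow_mul, pow_add (q : ℝ) ((2 * L + 1) * m),
          pow_add (q : ℝ) (L + (2 * L + 1) * m), pow_add (q : ℝ) L]
        ring
    _ ≤ 1 / (q : ℝ) ^ (2 * L + 1) + 1 / (q : ℝ) ^ (2 * L + 1) := add_le_add t1 t2
    _ = _ := by ring

/-- The blocks fit into `k` vectors. -/
theorem fit {n k L K : ℕ} (hL4 : L ^ 4 ≤ n) (hKL : 11 * K ≤ L) (hK : 1 ≤ K) (hk : n ≤ K * k) :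
    (6 * (2 * L + 4)) * (K * (2 * L + 4)) ≤ k := by
  refine Nat.le_of_mul_le_mul_left
    (?_ : K * ((6 * (2 * L + 4)) * (K * (2 * L + 4))) ≤ K * k) hK
  refine le_trans ?_ (hL4.trans hk)
  obtain ⟨j, rfl⟩ := Nat.exists_eq_add_of_le hKL
  obtain ⟨K', rfl⟩ := Nat.exists_eq_add_of_le hK
  ring_nf
  nlinarith [Nat.zero_le K', Nat.zero_le j, Nat.zero_le (K' * j), Nat.zero_le (K' ^ 2 * j),
      Nat.zero_le (K' * j ^ 2), Nat.zero_le (K' ^ 2 * j ^ 2), Nat.zero_le (K' ^ 3 * j),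
      Nat.zero_le (K' * j ^ 3), Nat.zero_le (j ^ 2), Nat.zero_le (j ^ 3), Nat.zero_le (j ^ 4),
      Nat.zero_le (K' ^ 2), Nat.zero_le (K' ^ 3), Nat.zero_le (K' ^ 4)]

end Pool.Agent.R789.RC
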