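import Pool.Agent.R789.RCGrass
import Pool.Agent.R789.RCNum

namespace Pool.Agent.R789.RC

open Module Finset
open scoped Classical

variable {F : Type} [Field F] [Fintype F]

/-- Nonscalar monomial maps. -/
noncomputable def NS (F : Type) [Field F] [Fintype F] (n : ℕ) :
    Finset ((Fin n → Fˣ) × Equiv.Perm (Fin n)) :=
  univ.filter (fun p => ∀ c : F, Mv p.1 p.2 c ≠ ∅)

theorem exists_min {n : ℕ} (d : Fin n → Fˣ) (π : Equiv.Perm (Fin n)) :
    ∃ c : F, ∀ c' : F, (Mv d π c).card ≤ (Mv d π c').card := by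
  obtain ⟨c, _, hc⟩ := (univ : Finset F).exists_min_image (fun c => (Mv d π c).card)
    ⟨0, mem_univ _⟩
  exact ⟨c, fun c' => hc c' (mem_univ _)⟩

/-- A scalar closest to the monomial map. -/
noncomputable def best {n : ℕ} (p : (Fin n → Fˣ) × Equiv.Perm (Fin n)) : F :=
  Classical.choose (exists_min p.1 p.2)

theorem best_spec {n : ℕ} (p : (Fin n → Fˣ) × Equiv.Perm (Fin n)) (c' : F) :
    (Mv p.1 p.2 (best p)).card ≤ (Mv p.1 p.2 c').card :=
  Classical.choose_spec (exists_min p.1 p.2) c'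

/-- Weight of one monomial map, times the number of those with the same parameters. -/
theorem one_est {n k L K : ℕ} (hn : n ≤ 2 ^ L) (hL4 : L ^ 4 ≤ n)
    (hKL : 11 * K ≤ L) (hK : 1 ≤ K) (hk : n ≤ K * k) (hnk : n ≤ K * (n - k)) (hkn : k ≤ n)
    (p : (Fin n → Fˣ) × Equiv.Perm (Fin n)) (hp : p ∈ NS F n) (m : ℕ)
    (hm : (Mv p.1 p.2 (best p)).card = m) :
    ((n * n * Fintype.card F : ℕ) : ℝ) ^ m * ((inv (mono p.1 p.2) (Fin k)).card : ℝ) ≤
      (Fintype.card F : ℝ) ^ (n * k) * (2 / (Fintype.card F : ℝ) ^ (2 * L + 1)) := by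
  set q := Fintype.card F with hq
  have hq2 : 2 ≤ q := Fintype.one_lt_card
  have hqR : (0 : ℝ) < (q : ℝ) := by positivity
  have hNS : ∀ c : F, Mv p.1 p.2 c ≠ ∅ := by
    unfold NS at hp
    exact (mem_filter.1 hp).2
  have hfr : finrank F (Fin n → F) = n := Module.finrank_fin_fun F
  by_cases hsm : m < 12 * (K * (2 * L + 4))
  · have h1 := inv_small (mono p.1 p.2) (Fin k) (best p) m (rank_pos _ _ _ (hNS _))
      ((rank_upper _ _ _).trans hm.le)
    rw [Fintype.card_fin, hfr] at h1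
    have h2 := small_est hq2 hn hL4 hKL hK hk hnk hsm
    calc _ ≤ ((n * n * q : ℕ) : ℝ) ^ m * ((q : ℝ) ^ (n * k) *
          (1 / (q : ℝ) ^ k + (q : ℝ) ^ (k + m) / (q : ℝ) ^ n)) :=
          mul_le_mul_of_nonneg_left h1 (by positivity)
      _ = (q : ℝ) ^ (n * k) * (((n * n * q : ℕ) : ℝ) ^ m *
          (1 / (q : ℝ) ^ k + (q : ℝ) ^ (k + m) / (q : ℝ) ^ n)) := by ring
      _ ≤ _ := mul_le_mul_of_nonneg_left h2 (by positivity)
  · push Not at hsm
    have hmn : m ≤ n := by
      rw [← hm]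
      have := card_le_univ (Mv p.1 p.2 (best p))
      simpa using this
    set s := K * (2 * L + 4) with hs
    set B := 6 * (2 * L + 4) with hB
    have hfit : B * s ≤ k := fit hL4 hKL hK hk
    obtain ⟨r, hr⟩ := Nat.exists_eq_add_of_le hfit
    have hcard : Fintype.card (Fin k) = Fintype.card ((Fin B × Fin s) ⊕ Fin r) := by
      rw [Fintype.card_sum, Fintype.card_prod, Fintype.card_fin, Fintype.card_fin,
        Fintype.card_fin, Fintype.card_fin, hr]
    have e := Fintype.equivOfCardEq hcard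
    have h0 := inv_congr (mono p.1 p.2) e
    have ht : ∀ a b : F, (a ≠ 0 ∨ b ≠ 0) →
        (m + 2) / 3 ≤ finrank F (LinearMap.range (a • LinearMap.id + b • mono p.1 p.2)) := by
      intro a b hab
      have := rank_all p.1 p.2 m (fun c => by rw [← hm]; exact best_spec p c) a b hab
      omega
    have h1 := inv_large (mono p.1 p.2) B s r ((m + 2) / 3) ht
    rw [hfr, ← hr] at h1
    have h2 := large_est (t := (m + 2) / 3) hq2 hn hL4 hKL hK hkn hnk hsm hmn (by omega)
    have h0' : ((inv (mono p.1 p.2) (Fin k)).card : ℝ) ≤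
        ((inv (mono p.1 p.2) ((Fin B × Fin s) ⊕ Fin r)).card : ℝ) := by exact_mod_cast h0
    calc _ ≤ ((n * n * q : ℕ) : ℝ) ^ m * ((q : ℝ) ^ (n * k) *
          (((q : ℝ) ^ (2 * s) / (q : ℝ) ^ ((m + 2) / 3)) ^ B +
          B * ((q : ℝ) ^ (s * k) / (q : ℝ) ^ (n * s)))) :=
          mul_le_mul_of_nonneg_left (h0'.trans h1) (by positivity)
      _ = (q : ℝ) ^ (n * k) * (((n * n * q : ℕ) : ℝ) ^ m *
          (((q : ℝ) ^ (2 * s) / (q : ℝ) ^ ((m + 2) / 3)) ^ B +
          B * ((q : ℝ) ^ (s * k) / (q : ℝ) ^ (n * s)))) := by ring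
      _ ≤ _ := mul_le_mul_of_nonneg_left h2 (by positivity)

theorem sum_est {n k L K : ℕ} (hn : n ≤ 2 ^ L) (hL4 : L ^ 4 ≤ n)
    (hKL : 11 * K ≤ L) (hK : 1 ≤ K) (hk : n ≤ K * k) (hnk : n ≤ K * (n - k)) (hkn : k ≤ n) :
    ∑ p ∈ NS F n, ((inv (mono p.1 p.2) (Fin k)).card : ℝ) ≤
      (4 / 2 ^ L) * (Fintype.card F : ℝ) ^ (n * k) := by
  set q := Fintype.card F with hq
  have hq2 : 2 ≤ q := Fintype.one_lt_card
  have hqR : (0 : ℝ) < (q : ℝ) := by positivity
  have hqR2 : (2 : ℝ) ≤ (q : ℝ) := by exact_mod_cast hq2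
  have hn1 : 1 ≤ n := by
    refine le_trans ?_ hL4
    have : 1 ≤ L := by omega
    exact Nat.one_le_pow _ _ this
  set f : (Fin n → Fˣ) × Equiv.Perm (Fin n) → ℝ :=
    fun p => ((inv (mono p.1 p.2) (Fin k)).card : ℝ) with hf
  let g : (Fin n → Fˣ) × Equiv.Perm (Fin n) → F × ℕ :=
    fun p => (best p, (Mv p.1 p.2 (best p)).card)
  have hmaps : ∀ p ∈ NS F n, g p ∈ (univ : Finset F) ×ˢ Finset.range (n + 1) := by
    intro p _
    rw [mem_product, mem_range]
    refine ⟨mem_univ _, ?_⟩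
    have := card_le_univ (Mv p.1 p.2 (best p))
    simp only [Fintype.card_fin] at this
    show (Mv p.1 p.2 (best p)).card < n + 1
    omega
  rw [← Finset.sum_fiberwise_of_maps_to hmaps]
  set N : ℝ := ((n * n * q : ℕ) : ℝ) with hN
  have hNpos : 0 < N := by
    rw [hN]
    have : 0 < n * n * q := by positivity
    exact_mod_cast this
  set c0 : ℝ := (q : ℝ) ^ (n * k) * (2 / (q : ℝ) ^ (2 * L + 1)) with hc0
  have hc0pos : 0 ≤ c0 := by positivity
  have hinner : ∀ x ∈ (univ : Finset F) ×ˢ Finset.range (n + 1),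
      ∑ p ∈ (NS F n).filter (fun p => g p = x), f p ≤ c0 := by
    intro x _
    have h1 : ∀ p ∈ (NS F n).filter (fun p => g p = x), f p ≤ c0 / N ^ x.2 := by
      intro p hp
      rw [mem_filter] at hp
      have h2 : (Mv p.1 p.2 (best p)).card = x.2 := congrArg Prod.snd hp.2
      have h3 := one_est hn hL4 hKL hK hk hnk hkn p hp.1 x.2 h2
      rw [le_div_iff₀ (by positivity)]
      rw [mul_comm]
      exact h3
    have h4 : (((NS F n).filter (fun p => g p = x)).card : ℝ) ≤ N ^ x.2 := by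
      have h5 := count_mono (n := n) x.1 x.2
      have h6 : ((NS F n).filter (fun p => g p = x)).card ≤ (n * n * q) ^ x.2 := by
        refine (card_le_card ?_).trans h5
        intro p hp
        rw [mem_filter] at hp
        rw [mem_filter]
        refine ⟨mem_univ _, ?_⟩
        rw [← hp.2]
      rw [hN]
      exact_mod_cast h6
    calc ∑ p ∈ (NS F n).filter (fun p => g p = x), f p
        ≤ ((NS F n).filter (fun p => g p = x)).card • (c0 / N ^ x.2) :=
          Finset.sum_le_card_nsmul _ _ _ h1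
      _ = (((NS F n).filter (fun p => g p = x)).card : ℝ) * (c0 / N ^ x.2) := by
          rw [nsmul_eq_mul]
      _ ≤ N ^ x.2 * (c0 / N ^ x.2) := mul_le_mul_of_nonneg_right h4 (by positivity)
      _ = c0 := by field_simp
  calc _ ≤ ∑ x ∈ (univ : Finset F) ×ˢ Finset.range (n + 1), c0 := Finset.sum_le_sum hinner
    _ = ((q * (n + 1) : ℕ) : ℝ) * c0 := by
        rw [Finset.sum_const, nsmul_eq_mul, card_product, card_univ, card_range]
    _ ≤ (q * (2 * 2 ^ L)) * c0 := by
        apply mul_le_mul_of_nonneg_right _ hc0pos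
        push_cast
        apply mul_le_mul_of_nonneg_left _ hqR.le
        have h1 : ((n + 1 : ℕ) : ℝ) ≤ ((2 * 2 ^ L : ℕ) : ℝ) := by
          have : n + 1 ≤ 2 * 2 ^ L := by omega
          exact_mod_cast this
        push_cast at h1
        exact h1
    _ ≤ (4 / 2 ^ L) * (q : ℝ) ^ (n * k) := by
        have h2 : (2 : ℝ) ^ L ≤ (q : ℝ) ^ L := pow_le_pow_left₀ (by norm_num) hqR2 L
        have h3 : (q : ℝ) * (2 * 2 ^ L) * (2 / (q : ℝ) ^ (2 * L + 1)) ≤ 4 / 2 ^ L := by
          rw [show (q : ℝ) * (2 * 2 ^ L) * (2 / (q : ℝ) ^ (2 * L + 1)) =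
            (4 * 2 ^ L) / ((q : ℝ) ^ L * (q : ℝ) ^ L) by
              rw [show 2 * L + 1 = L + L + 1 by ring, pow_succ, pow_add]
              field_simp
              ring]
          rw [div_le_div_iff₀ (by positivity) (by positivity)]
          have h4 : (2 : ℝ) ^ L * 2 ^ L ≤ (q : ℝ) ^ L * (q : ℝ) ^ L :=
            mul_le_mul h2 h2 (by positivity) (by positivity)
          nlinarith
        calc (q : ℝ) * (2 * 2 ^ L) * c0 =
            ((q : ℝ) * (2 * 2 ^ L) * (2 / (q : ℝ) ^ (2 * L + 1))) * (q : ℝ) ^ (n * k) := by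
              rw [hc0]; ring
          _ ≤ _ := mul_le_mul_of_nonneg_right h3 (by positivity)

/-- All monomial automorphisms of `C` are scalar. -/
def Rigid {n : ℕ} (C : Submodule F (Fin n → F)) : Prop :=
  ∀ (d : Fin n → Fˣ) (π : Equiv.Perm (Fin n)), C.map (mono d π) = C →
    ∃ c : Fˣ, mono d π = (c : F) • LinearMap.id

theorem main_est {n k L K : ℕ} (hn : n ≤ 2 ^ L) (hL4 : L ^ 4 ≤ n)
    (hKL : 11 * K ≤ L) (hK : 1 ≤ K) (hk : n ≤ K * k) (hnk : n ≤ K * (n - k)) (hkn : k < n) :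
    (Nat.card {C : Submodule F (Fin n → F) // finrank F C = k ∧ ¬ Rigid C} : ℝ) ≤
      (8 / 2 ^ L) * (Nat.card {C : Submodule F (Fin n → F) // finrank F C = k} : ℝ) := by
  have hfr : finrank F (Fin n → F) = n := Module.finrank_fin_fun F
  have h := bad_frac (F := F) (V := Fin n → F) k (by rw [hfr]; exact hkn)
    (fun C => ¬ Rigid C) (4 / 2 ^ L) ?_
  · calc _ ≤ _ := h
      _ = _ := by ring
  rw [hfr]
  refine le_trans ?_ (sum_est (F := F) hn hL4 hKL hK hk hnk hkn.le)
  have hsub : univ.filter (fun g : Fin k → (Fin n → F) => LinearIndependent F g ∧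
      ¬ Rigid (Submodule.span F (Set.range g))) ⊆
      (NS F n).biUnion (fun p => inv (mono p.1 p.2) (Fin k)) := by
    intro g hg
    rw [mem_filter] at hg
    obtain ⟨_, _, hnr⟩ := hg
    unfold Rigid at hnr
    push Not at hnr
    obtain ⟨d, π, hmap, hns⟩ := hnr
    rw [mem_biUnion]
    refine ⟨(d, π), ?_, ?_⟩
    · unfold NS
      rw [mem_filter]
      refine ⟨mem_univ _, ?_⟩
      intro c hc
      have hs := scalar_of_empty d π c hc
      by_cases hc0 : c = 0
      · have hi : (⟨0, by omega⟩ : Fin n) ∉ Mv d π c := by rw [hc]; simp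
        rw [mem_Mv, not_not] at hi
        exact (d ⟨0, by omega⟩).ne_zero (hi.2.trans hc0)
      · exact hns (Units.mk0 c hc0) hs
    · rw [mem_inv]
      intro i
      have h1 : mono d π (g i) ∈ (Submodule.span F (Set.range g)).map (mono d π) :=
        Submodule.mem_map_of_mem (Submodule.subset_span ⟨i, rfl⟩)
      rw [hmap] at h1
      exact h1
  have h2 := (card_le_card hsub).trans card_biUnion_le
  have h3 := (Nat.cast_le (α := ℝ)).2 h2
  push_cast at h3
  convert h3 using 1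
  congr!

end Pool.Agent.R789.RC
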