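import Mathlib

/-!
# Real Wiener roots of trees are dense in the negative half line
-/

namespace Pool.Agent.R789.WienerDense

open SimpleGraph Filter Topology

open Classical in
/-- The Wiener polynomial `W(G; x)`, the sum of `x ^ d(u, v)` over the unordered pairs of distinct
vertices, written as half the sum over the ordered pairs. -/
noncomputable def wiener {V : Type} [Fintype V] (G : SimpleGraph V) (x : ℝ) : ℝ :=
  (∑ u : V, ∑ v : V, if u = v then 0 else x ^ G.dist u v) / 2

/-- The set of the real Wiener roots of (finite) trees with at least two vertices. -/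
def roots : Set ℝ :=
  {x | ∃ (V : Type) (_ : Fintype V) (G : SimpleGraph V), G.IsTree ∧ 2 ≤ Fintype.card V ∧
    wiener G x = 0}

section pendant

variable {V : Type}

/-- Attach a pendant vertex `none` at the vertex `v` of `G`. -/
def ext (G : SimpleGraph V) (v : V) : SimpleGraph (Option V) :=
  SimpleGraph.fromRel fun x y => (∃ a b, x = some a ∧ y = some b ∧ G.Adj a b) ∨
    (x = none ∧ y = some v)

lemma ext_adj_some (G : SimpleGraph V) (v a b : V) :
    (ext G v).Adj (some a) (some b) ↔ G.Adj a b := by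
  simp only [ext, SimpleGraph.fromRel_adj, Option.some.injEq, reduceCtorEq, false_and, or_false,
    ne_eq]
  constructor
  · rintro ⟨-, ⟨c, d, rfl, rfl, h⟩ | ⟨c, d, rfl, rfl, h⟩⟩
    · exact h
    · exact h.symm
  · intro h
    exact ⟨G.ne_of_adj h, Or.inl ⟨a, b, rfl, rfl, h⟩⟩

lemma ext_adj_none (G : SimpleGraph V) (v b : V) :
    (ext G v).Adj none (some b) ↔ b = v := by
  simp [ext, SimpleGraph.fromRel_adj]

lemma lipschitz {W : Type} {G : SimpleGraph W} (hG : G.Connected) (φ : W → ℕ)
    (h : ∀ x y, G.Adj x y → φ x ≤ φ y + 1) (x y : W) : φ x ≤ φ y + G.dist x y := by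
  obtain ⟨p, hp⟩ := hG.exists_walk_length_eq_dist x y
  rw [← hp]
  clear hp
  induction p with
  | nil => simp
  | cons hadj p ih =>
    rw [Walk.length_cons]
    have := h _ _ hadj
    omega

lemma ext_connected {G : SimpleGraph V} (hG : G.Connected) (v : V) : (ext G v).Connected := by
  have h1 : ∀ a, (ext G v).Reachable (some a) (some v) := by
    intro a
    have f : G →g ext G v := ⟨some, fun {a b} h => (ext_adj_some G v a b).2 h⟩
    obtain ⟨p⟩ := hG.preconnected a v
    have : ∀ {a b : V} (p : G.Walk a b), (ext G v).Reachable (some a) (some b) := by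
      intro a b p
      induction p with
      | nil => exact Reachable.refl _
      | cons h p ih => exact (Adj.reachable ((ext_adj_some G v _ _).2 h)).trans ih
    exact this p
  have h2 : ∀ x, (ext G v).Reachable x (some v) := by
    rintro (_ | a)
    · exact Adj.reachable ((ext_adj_none G v v).2 rfl)
    · exact h1 a
  exact ⟨fun x y => (h2 x).trans (h2 y).symm⟩

lemma ext_isTree {G : SimpleGraph V} (hG : G.IsTree) (v : V) : (ext G v).IsTree := by
  refine ⟨ext_connected hG.1 v, ?_⟩
  rw [isAcyclic_iff_forall_adj_isBridge]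
  intro x y hxy
  have hnone : ∀ b : V, (ext G v).Adj none (some b) → (ext G v).IsBridge s(none, some b) := by
    intro b hb
    rw [isBridge_iff]
    rintro ⟨p⟩
    cases p with
    | @cons _ c _ h p =>
      rw [deleteEdges_adj] at h
      rcases c with _ | c
      · exact (ext G v).ne_of_adj h.1 rfl
      · have h1 := (ext_adj_none G v c).1 h.1
        have h2 := (ext_adj_none G v b).1 hb
        apply h.2
        rw [h1, h2]
        rfl
  rcases x with _ | a
  · rcases y with _ | b
    · exact absurd rfl ((ext G v).ne_of_adj hxy)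
    · exact hnone b hxy
  · rcases y with _ | b
    · rw [Sym2.eq_swap]
      exact hnone a hxy.symm
    · have hab := (ext_adj_some G v a b).1 hxy
      have hbr : G.IsBridge s(a, b) := (isAcyclic_iff_forall_adj_isBridge.1 hG.2) hab
      rw [isBridge_iff] at hbr ⊢
      intro hr
      apply hbr
      obtain ⟨p⟩ := hr
      have key : ∀ {x y : Option V} (p : ((ext G v).deleteEdges {s(some a, some b)}).Walk x y),
          (G.deleteEdges {s(a, b)}).Reachable (x.getD v) (y.getD v) := by
        intro x y p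
        induction p with
        | nil => exact Reachable.refl _
        | @cons x c y h p ih =>
          refine Reachable.trans ?_ ih
          rw [deleteEdges_adj] at h
          rcases x with _ | x
          · rcases c with _ | c
            · exact Reachable.refl _
            · have := (ext_adj_none G v c).1 h.1
              subst this
              exact Reachable.refl _
          · rcases c with _ | c
            · have := (ext_adj_none G v x).1 h.1.symm
              subst this
              exact Reachable.refl _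
            · apply Adj.reachable
              rw [deleteEdges_adj]
              refine ⟨(ext_adj_some G v x c).1 h.1, ?_⟩
              intro h2
              apply h.2
              rw [Set.mem_singleton_iff, Sym2.eq_iff] at h2 ⊢
              simpa using h2
      exact key p

lemma ext_dist_some {G : SimpleGraph V} (hG : G.Connected) (v a b : V) :
    (ext G v).dist (some a) (some b) = G.dist a b := by
  have hc := ext_connected hG v
  apply le_antisymm
  · obtain ⟨p, hp⟩ := hG.exists_walk_length_eq_dist a b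
    rw [← hp]
    clear hp
    induction p with
    | nil => simp
    | @cons a c b h p ih =>
      rw [Walk.length_cons]
      have h1 := hc.dist_triangle (u := some a) (v := some c) (w := some b)
      have h2 : (ext G v).dist (some a) (some c) = 1 :=
        dist_eq_one_iff_adj.2 ((ext_adj_some G v a c).2 h)
      omega
  · have := lipschitz hc (fun x => x.elim (G.dist v b + 1) fun c => G.dist c b) ?_ (some a) (some b)
    · simpa using this
    · rintro (_ | x) (_ | y) hxy
      · exact absurd rfl ((ext G v).ne_of_adj hxy)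
      · have := (ext_adj_none G v y).1 hxy
        subst this
        simp
      · have := (ext_adj_none G v x).1 hxy.symm
        subst this
        simp only [Option.elim_some, Option.elim_none]
        omega
      · have h1 := (ext_adj_some G v x y).1 hxy
        have h2 : G.dist x y = 1 := dist_eq_one_iff_adj.2 h1
        have h3 := hG.dist_triangle (u := x) (v := y) (w := b)
        simp only [Option.elim_some]
        omega

lemma ext_dist_none {G : SimpleGraph V} (hG : G.Connected) (v b : V) :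
    (ext G v).dist none (some b) = G.dist v b + 1 := by
  have hc := ext_connected hG v
  apply le_antisymm
  · have h1 := hc.dist_triangle (u := none) (v := some v) (w := some b)
    have h2 : (ext G v).dist none (some v) = 1 :=
      dist_eq_one_iff_adj.2 ((ext_adj_none G v v).2 rfl)
    rw [ext_dist_some hG] at h1
    omega
  · have := lipschitz hc (fun x => x.elim (G.dist v b + 1) fun c => G.dist c b) ?_ none (some b)
    · simpa using this
    · rintro (_ | x) (_ | y) hxy
      · exact absurd rfl ((ext G v).ne_of_adj hxy)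
      · have := (ext_adj_none G v y).1 hxy
        subst this
        simp
      · have := (ext_adj_none G v x).1 hxy.symm
        subst this
        simp only [Option.elim_some, Option.elim_none]
        omega
      · have h1 := (ext_adj_some G v x y).1 hxy
        have h2 : G.dist x y = 1 := dist_eq_one_iff_adj.2 h1
        have h3 := hG.dist_triangle (u := x) (v := y) (w := b)
        simp only [Option.elim_some]
        omega

end pendant

section polynomial

variable {V : Type} [Fintype V]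

lemma wiener_eq (G : SimpleGraph V) (x : ℝ) :
    wiener G x = ((∑ u : V, ∑ v : V, x ^ G.dist u v) - Fintype.card V) / 2 := by
  classical
  rw [wiener]
  congr 1
  have h : ∀ u v : V, (if u = v then (0 : ℝ) else x ^ G.dist u v) =
      x ^ G.dist u v - if u = v then 1 else 0 := by
    intro u v
    split_ifs with h
    · subst h; simp
    · simp
  simp only [h, Finset.sum_sub_distrib]
  simp

/-- The rooted version. -/
noncomputable def rooted (G : SimpleGraph V) (v : V) (x : ℝ) : ℝ := ∑ u : V, x ^ G.dist v u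

lemma wiener_ext {G : SimpleGraph V} (hG : G.Connected) (v : V) (x : ℝ) :
    wiener (ext G v) x = wiener G x + x * rooted G v x := by
  rw [wiener_eq, wiener_eq, rooted]
  simp only [Fintype.sum_option, ext_dist_some hG, ext_dist_none hG,
    (ext G v).dist_comm (u := some _) (v := none), Finset.sum_add_distrib, pow_succ,
    ← Finset.sum_mul, dist_self, pow_zero, Fintype.card_option]
  push_cast
  ring

lemma rooted_ext_some {G : SimpleGraph V} (hG : G.Connected) (v : V) (x : ℝ) :
    rooted (ext G v) (some v) x = rooted G v x + x := by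
  rw [rooted, rooted]
  simp only [Fintype.sum_option, ext_dist_some hG, ext_dist_none hG,
    (ext G v).dist_comm (u := some _) (v := none), dist_self]
  ring

lemma rooted_ext_none {G : SimpleGraph V} (hG : G.Connected) (v : V) (x : ℝ) :
    rooted (ext G v) none x = 1 + x * rooted G v x := by
  rw [rooted, rooted]
  simp only [Fintype.sum_option, ext_dist_none hG, dist_self, pow_succ, ← Finset.sum_mul]
  ring

end polynomial

/-- `Rep n W R`: some tree with `n` vertices has Wiener polynomial `W` and, for some root, rooted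
polynomial `R`. -/
def Rep (n : ℕ) (W R : ℝ → ℝ) : Prop :=
  ∃ (V : Type) (_ : Fintype V) (G : SimpleGraph V) (v : V), G.IsTree ∧ Fintype.card V = n ∧
    (∀ x, wiener G x = W x) ∧ ∀ x, rooted G v x = R x

lemma rep_one : Rep 1 (fun _ => 0) (fun _ => 1) := by
  refine ⟨Unit, inferInstance, ⊥, (), IsTree.of_subsingleton, by simp, ?_, ?_⟩
  · intro x; simp [wiener]
  · intro x; simp [rooted]

lemma Rep.stepA {n : ℕ} {W R : ℝ → ℝ} (h : Rep n W R) :
    Rep (n + 1) (fun x => W x + x * R x) (fun x => R x + x) := by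
  obtain ⟨V, _, G, v, hG, hn, hW, hR⟩ := h
  refine ⟨Option V, inferInstance, ext G v, some v, ext_isTree hG v, by simp [hn], ?_, ?_⟩
  · intro x; rw [wiener_ext hG.1, hW, hR]
  · intro x; rw [rooted_ext_some hG.1, hR]

lemma Rep.stepB {n : ℕ} {W R : ℝ → ℝ} (h : Rep n W R) :
    Rep (n + 1) (fun x => W x + x * R x) (fun x => 1 + x * R x) := by
  obtain ⟨V, _, G, v, hG, hn, hW, hR⟩ := h
  refine ⟨Option V, inferInstance, ext G v, none, ext_isTree hG v, by simp [hn], ?_, ?_⟩
  · intro x; rw [wiener_ext hG.1, hW, hR]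
  · intro x; rw [rooted_ext_none hG.1, hR]

lemma Rep.congr {n n' : ℕ} {W R W' R' : ℝ → ℝ} (h : Rep n W R) (hn : n = n')
    (hW : ∀ x, W x = W' x) (hR : ∀ x, R x = R' x) : Rep n' W' R' := by
  subst hn
  have h1 : W = W' := funext hW
  have h2 : R = R' := funext hR
  rw [← h1, ← h2]
  exact h

lemma Rep.leaves {n : ℕ} {W R : ℝ → ℝ} (h : Rep n W R) (m : ℕ) :
    Rep (n + m) (fun x => W x + m * x * R x + m * (m - 1) / 2 * x ^ 2)
      (fun x => R x + m * x) := by
  induction m with
  | zero => exact h.congr rfl (fun x => by simp) (fun x => by simp)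
  | succ m ih =>
    refine ih.stepA.congr rfl (fun x => ?_) (fun x => ?_)
    · push_cast; ring
    · push_cast; ring

lemma Rep.path {n : ℕ} {W R : ℝ → ℝ} (h : Rep n W R) (L : ℕ) :
    Rep (n + L)
      (fun x => W x + x * ∑ j ∈ Finset.range L, (∑ i ∈ Finset.range j, x ^ i + x ^ j * R x))
      (fun x => ∑ i ∈ Finset.range L, x ^ i + x ^ L * R x) := by
  induction L with
  | zero => exact h.congr rfl (fun x => by simp) (fun x => by simp)
  | succ L ih =>
    refine ih.stepB.congr rfl (fun x => ?_) (fun x => ?_)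
    · rw [Finset.sum_range_succ (fun j => ∑ i ∈ Finset.range j, x ^ i + x ^ j * R x)]; ring
    · rw [Finset.sum_range_succ' (fun i => x ^ i)]
      simp only [pow_succ, ← Finset.sum_mul, pow_zero]
      ring

/-- A sign change of the polynomials gives a root. -/
lemma Rep.root {n : ℕ} {W R : ℝ → ℝ} (h : Rep n W R) (hn : 2 ≤ n) {a b : ℝ} (hab : a ≤ b)
    (hsign : (W a < 0 ∧ 0 < W b) ∨ (0 < W a ∧ W b < 0)) :
    ∃ x ∈ roots, a ≤ x ∧ x ≤ b := by
  obtain ⟨V, _, G, v, hG, hc, hW, -⟩ := h
  have hcont : Continuous fun x => wiener G x := by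
    classical
    unfold wiener
    refine Continuous.div_const ?_ _
    refine continuous_finsetSum _ fun u _ => continuous_finsetSum _ fun w _ => ?_
    split_ifs
    · exact continuous_const
    · exact continuous_pow _
  have key : ∃ x ∈ Set.Icc a b, wiener G x = 0 := by
    rcases hsign with ⟨h1, h2⟩ | ⟨h1, h2⟩
    · have := intermediate_value_Icc hab hcont.continuousOn
      exact this ⟨by rw [hW]; exact h1.le, by rw [hW]; exact h2.le⟩
    · have := intermediate_value_Icc' hab hcont.continuousOn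
      exact this ⟨by rw [hW]; exact h2.le, by rw [hW]; exact h1.le⟩
  obtain ⟨x, hx, hx0⟩ := key
  exact ⟨x, ⟨V, inferInstance, G, hG, by omega, hx0⟩, hx.1, hx.2⟩

lemma neg_of_root {x : ℝ} (hx : x ∈ roots) : x ≤ 0 := by
  classical
  obtain ⟨V, _, G, hG, hc, hW⟩ := hx
  by_contra hpos
  push Not at hpos
  have h1 : 0 < wiener G x := by
    unfold wiener
    refine div_pos ?_ two_pos
    obtain ⟨u, v, huv⟩ := Fintype.one_lt_card_iff.1 (by omega : 1 < Fintype.card V)
    have hnn : ∀ u v : V, 0 ≤ (if u = v then (0 : ℝ) else x ^ G.dist u v) := by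
      intro u v
      split_ifs
      · exact le_rfl
      · positivity
    refine Finset.sum_pos' (fun u _ => Finset.sum_nonneg fun v _ => hnn u v)
      ⟨u, Finset.mem_univ u, ?_⟩
    refine Finset.sum_pos' (fun v _ => hnn u v) ⟨v, Finset.mem_univ v, ?_⟩
    rw [if_neg huv]
    positivity
  exact h1.ne' hW

section broom

/-- Brooms: for `x₀ ∈ (-1, 0)`. -/
lemma rep_broom (m L : ℕ) : Rep (1 + m + L)
    (fun x => m * x + m * (m - 1) / 2 * x ^ 2 +
      x * ∑ j ∈ Finset.range L, (∑ i ∈ Finset.range j, x ^ i + x ^ j * (1 + m * x)))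
    (fun x => ∑ i ∈ Finset.range L, x ^ i + x ^ L * (1 + m * x)) :=
  ((rep_one.leaves m).path L).congr rfl (fun x => by simp) (fun x => by simp)

lemma broom_closed {x : ℝ} (hx : x < 1) (m L : ℕ) :
    (m * x + m * (m - 1) / 2 * x ^ 2 +
      x * ∑ j ∈ Finset.range L, (∑ i ∈ Finset.range j, x ^ i + x ^ j * (1 + m * x)) : ℝ) =
    m * x + m * (m - 1) / 2 * x ^ 2 +
      x * (L / (1 - x) + (1 + m * x - 1 / (1 - x)) * ((1 - x ^ L) / (1 - x))) := by
  have h1 : (1 : ℝ) - x ≠ 0 := by linarith
  have hg : ∀ j : ℕ, ∑ i ∈ Finset.range j, x ^ i = (1 - x ^ j) / (1 - x) := by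
    intro j
    rw [geom_sum_eq hx.ne, ← neg_div_neg_eq]
    congr 1 <;> ring
  have h2 : ∀ j : ℕ, (∑ i ∈ Finset.range j, x ^ i + x ^ j * (1 + m * x) : ℝ) =
      1 / (1 - x) + (1 + m * x - 1 / (1 - x)) * x ^ j := by
    intro j
    rw [hg]
    field_simp
    ring
  rw [Finset.sum_congr rfl fun j _ => h2 j, Finset.sum_add_distrib, ← Finset.mul_sum, hg]
  simp only [Finset.sum_const, Finset.card_range, nsmul_eq_mul]
  ring

lemma broom_tendsto {x c : ℝ} (hx : -1 < x) (hx0 : x < 0) (hc : 0 < c) :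
    Tendsto (fun m : ℕ => (2 / (m : ℝ) ^ 2) * (m * x + m * (m - 1) / 2 * x ^ 2 +
      x * ∑ j ∈ Finset.range ⌊c / 2 * (m : ℝ) ^ 2⌋₊,
        (∑ i ∈ Finset.range j, x ^ i + x ^ j * (1 + m * x))))
      atTop (𝓝 (x ^ 2 + c * (x / (1 - x)))) := by
  have h1x : (1 : ℝ) - x ≠ 0 := by linarith
  have hinv : Tendsto (fun m : ℕ => ((m : ℝ))⁻¹) atTop (𝓝 0) := tendsto_inv_atTop_nhds_zero_nat
  have hsq : Tendsto (fun m : ℕ => (m : ℝ) ^ 2) atTop atTop :=
    (tendsto_pow_atTop two_ne_zero).comp tendsto_natCast_atTop_atTop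
  have hfl : Tendsto (fun m : ℕ => (⌊c / 2 * (m : ℝ) ^ 2⌋₊ : ℝ) / (m : ℝ) ^ 2) atTop
      (𝓝 (c / 2)) :=
    (tendsto_nat_floor_mul_div_atTop (by positivity)).comp hsq
  have hL : Tendsto (fun m : ℕ => ⌊c / 2 * (m : ℝ) ^ 2⌋₊) atTop atTop :=
    tendsto_nat_floor_atTop.comp (hsq.const_mul_atTop (by positivity))
  have hxL : Tendsto (fun m : ℕ => x ^ ⌊c / 2 * (m : ℝ) ^ 2⌋₊) atTop (𝓝 0) :=
    (tendsto_pow_atTop_nhds_zero_of_abs_lt_one (by rw [abs_lt]; constructor <;> linarith)).comp hL
  have hmain : Tendsto (fun m : ℕ => 2 * x * (m : ℝ)⁻¹ + (1 - (m : ℝ)⁻¹) * x ^ 2 +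
      2 * x / (1 - x) * ((⌊c / 2 * (m : ℝ) ^ 2⌋₊ : ℝ) / (m : ℝ) ^ 2) +
      2 * x / (1 - x) * (((m : ℝ)⁻¹ * (m : ℝ)⁻¹ * (1 - 1 / (1 - x)) + (m : ℝ)⁻¹ * x) *
        (1 - x ^ ⌊c / 2 * (m : ℝ) ^ 2⌋₊))) atTop
      (𝓝 (2 * x * 0 + (1 - 0) * x ^ 2 + 2 * x / (1 - x) * (c / 2) +
        2 * x / (1 - x) * ((0 * 0 * (1 - 1 / (1 - x)) + 0 * x) * (1 - 0)))) := by
    refine ((((hinv.const_mul _).add ((tendsto_const_nhds.sub hinv).mul_const _)).add
      (hfl.const_mul _)).add (Tendsto.const_mul _ ?_))
    exact (((hinv.mul hinv).mul_const _).add (hinv.mul_const _)).mul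
      (tendsto_const_nhds.sub hxL)
  have hval : 2 * x * 0 + (1 - 0) * x ^ 2 + 2 * x / (1 - x) * (c / 2) +
        2 * x / (1 - x) * ((0 * 0 * (1 - 1 / (1 - x)) + 0 * x) * (1 - 0)) =
      x ^ 2 + c * (x / (1 - x)) := by
    field_simp
    ring
  rw [hval] at hmain
  refine hmain.congr' ?_
  filter_upwards [eventually_ne_atTop 0] with m hm
  have hm' : (m : ℝ) ≠ 0 := Nat.cast_ne_zero.2 hm
  rw [broom_closed (by linarith)]
  field_simp
  ring

lemma near_broom {x₀ a b : ℝ} (ha : -1 < a) (hax : a < x₀) (hxb : x₀ < b) (hb : b < 0) :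
    ∃ x ∈ roots, a ≤ x ∧ x ≤ b := by
  set c := x₀ ^ 2 - x₀ with hc
  have hcpos : 0 < c := by nlinarith
  have hg : ∀ x : ℝ, x < 1 →
      x ^ 2 + c * (x / (1 - x)) = x * (x - x₀) * (1 - x - x₀) / (1 - x) := by
    intro x hx
    have h1x : (1 : ℝ) - x ≠ 0 := by linarith
    rw [hc]
    field_simp
    ring
  have hga : 0 < a ^ 2 + c * (a / (1 - a)) := by
    rw [hg a (by linarith)]
    apply div_pos _ (by linarith)
    apply mul_pos _ (by linarith)
    exact mul_pos_of_neg_of_neg (by linarith) (by linarith)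
  have hgb : b ^ 2 + c * (b / (1 - b)) < 0 := by
    rw [hg b (by linarith)]
    apply div_neg_of_neg_of_pos _ (by linarith)
    apply mul_neg_of_neg_of_pos _ (by linarith)
    exact mul_neg_of_neg_of_pos (by linarith) (by linarith)
  have h1 := (broom_tendsto ha (by linarith) hcpos).eventually (lt_mem_nhds hga)
  have h2 := (broom_tendsto (by linarith : -1 < b) hb hcpos).eventually (gt_mem_nhds hgb)
  obtain ⟨m, h1, h2, hm⟩ := (h1.and (h2.and (eventually_gt_atTop 0))).exists
  have hpos : (0 : ℝ) < 2 / (m : ℝ) ^ 2 := by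
    have : (0 : ℝ) < m := Nat.cast_pos.2 hm
    positivity
  refine (rep_broom m ⌊c / 2 * (m : ℝ) ^ 2⌋₊).root (by omega) (by linarith) (Or.inr ⟨?_, ?_⟩)
  · exact (mul_pos_iff_of_pos_left hpos).1 h1
  · exact (pos_iff_neg_of_mul_neg h2).1 hpos

end broom

section doubleStar

lemma rep_dstar (a b : ℕ) : Rep (1 + a + 1 + b)
    (fun x => (a + b + 1) * x + (a * (a - 1) / 2 + b * (b - 1) / 2 + a + b) * x ^ 2 +
      a * b * x ^ 3)
    (fun x => 1 + x * (1 + a * x) + b * x) :=
  (((rep_one.leaves a).stepB).leaves b).congr rfl (fun x => by simp; ring) (fun x => by simp)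

lemma dstar_tendsto {x l : ℝ} (hl : 0 < l) :
    Tendsto (fun b : ℕ => (1 / (b : ℝ) ^ 2) * ((⌊l * (b : ℝ)⌋₊ + b + 1) * x +
      (⌊l * (b : ℝ)⌋₊ * (⌊l * (b : ℝ)⌋₊ - 1) / 2 + b * (b - 1) / 2 + ⌊l * (b : ℝ)⌋₊ + b) * x ^ 2 +
      ⌊l * (b : ℝ)⌋₊ * b * x ^ 3)) atTop (𝓝 ((l ^ 2 + 1) / 2 * x ^ 2 + l * x ^ 3)) := by
  have hinv : Tendsto (fun m : ℕ => ((m : ℝ))⁻¹) atTop (𝓝 0) := tendsto_inv_atTop_nhds_zero_nat
  have hfl : Tendsto (fun b : ℕ => (⌊l * (b : ℝ)⌋₊ : ℝ) / (b : ℝ)) atTop (𝓝 l) :=
    (tendsto_nat_floor_mul_div_atTop hl.le).comp tendsto_natCast_atTop_atTop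
  have hmain : Tendsto (fun b : ℕ => ((⌊l * (b : ℝ)⌋₊ : ℝ) / b * (b : ℝ)⁻¹ + (b : ℝ)⁻¹ +
      (b : ℝ)⁻¹ * (b : ℝ)⁻¹) * x +
      ((⌊l * (b : ℝ)⌋₊ : ℝ) / b * ((⌊l * (b : ℝ)⌋₊ : ℝ) / b - (b : ℝ)⁻¹) / 2 +
        (1 - (b : ℝ)⁻¹) / 2 + (⌊l * (b : ℝ)⌋₊ : ℝ) / b * (b : ℝ)⁻¹ + (b : ℝ)⁻¹) * x ^ 2 +
      (⌊l * (b : ℝ)⌋₊ : ℝ) / b * x ^ 3) atTop
      (𝓝 ((l * 0 + 0 + 0 * 0) * x + (l * (l - 0) / 2 + (1 - 0) / 2 + l * 0 + 0) * x ^ 2 +
        l * x ^ 3)) := by
    refine ((((hfl.mul hinv).add hinv).add (hinv.mul hinv)).mul_const _).add ?_ |>.add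
      (hfl.mul_const _)
    exact (((((hfl.mul (hfl.sub hinv)).div_const _).add
      ((tendsto_const_nhds.sub hinv).div_const _)).add (hfl.mul hinv)).add hinv).mul_const _
  have hval : (l * 0 + 0 + 0 * 0) * x + (l * (l - 0) / 2 + (1 - 0) / 2 + l * 0 + 0) * x ^ 2 +
        l * x ^ 3 = (l ^ 2 + 1) / 2 * x ^ 2 + l * x ^ 3 := by ring
  rw [hval] at hmain
  refine hmain.congr' ?_
  filter_upwards [eventually_ne_atTop 0] with m hm
  have hm' : (m : ℝ) ≠ 0 := Nat.cast_ne_zero.2 hm
  field_simp

lemma near_dstar {x₀ a b : ℝ} (hax : a < x₀) (hxb : x₀ < b) (hb : b < -1) :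
    ∃ x ∈ roots, a ≤ x ∧ x ≤ b := by
  set l := -x₀ + Real.sqrt (x₀ ^ 2 - 1) with hl
  have hlpos : 0 < l := by
    have := Real.sqrt_nonneg (x₀ ^ 2 - 1)
    rw [hl]; linarith
  have hsq : l ^ 2 + 2 * x₀ * l + 1 = 0 := by
    have := Real.sq_sqrt (show 0 ≤ x₀ ^ 2 - 1 by nlinarith)
    rw [hl]
    nlinarith
  have hg : ∀ x : ℝ, (l ^ 2 + 1) / 2 * x ^ 2 + l * x ^ 3 = l * x ^ 2 * (x - x₀) := by
    intro x
    have : l ^ 2 + 1 = -2 * x₀ * l := by linarith
    rw [this]
    ring
  have hga : (l ^ 2 + 1) / 2 * a ^ 2 + l * a ^ 3 < 0 := by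
    rw [hg]
    have : 0 < a ^ 2 := by nlinarith
    exact mul_neg_of_pos_of_neg (by positivity) (by linarith)
  have hgb : 0 < (l ^ 2 + 1) / 2 * b ^ 2 + l * b ^ 3 := by
    rw [hg]
    have : 0 < b ^ 2 := by nlinarith
    exact mul_pos (by positivity) (by linarith)
  have h1 := (dstar_tendsto (x := a) hlpos).eventually (gt_mem_nhds hga)
  have h2 := (dstar_tendsto (x := b) hlpos).eventually (lt_mem_nhds hgb)
  obtain ⟨m, h1, h2, hm⟩ := (h1.and (h2.and (eventually_gt_atTop 0))).exists
  have hpos : (0 : ℝ) < 1 / (m : ℝ) ^ 2 := by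
    have : (0 : ℝ) < m := Nat.cast_pos.2 hm
    positivity
  refine (rep_dstar ⌊l * (m : ℝ)⌋₊ m).root (by omega) (by linarith) (Or.inl ⟨?_, ?_⟩)
  · exact (pos_iff_neg_of_mul_neg h1).1 hpos
  · exact (mul_pos_iff_of_pos_left hpos).1 h2

end doubleStar

/-- Main result: the closure of the set of real Wiener roots of trees is `(-∞, 0]`. -/
theorem closure_roots : closure roots = Set.Iic (0 : ℝ) := by
  apply Set.Subset.antisymm
  · exact closure_minimal (fun x hx => neg_of_root hx) isClosed_Iic
  · have h1 : Set.Iio (-1 : ℝ) ⊆ closure roots := by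
      intro x₀ hx₀
      rw [Metric.mem_closure_iff]
      intro ε hε
      have hx₀' : x₀ < -1 := hx₀
      obtain ⟨x, hx, h1, h2⟩ := near_dstar (x₀ := x₀) (a := x₀ - ε / 2)
        (b := x₀ + min (ε / 2) ((-1 - x₀) / 2)) (by linarith)
        (by have : 0 < min (ε / 2) ((-1 - x₀) / 2) := lt_min (by linarith) (by linarith)
            linarith)
        (by have := min_le_right (ε / 2) ((-1 - x₀) / 2)
            linarith)
      refine ⟨x, hx, ?_⟩
      rw [Real.dist_eq, abs_lt]
      have := min_le_left (ε / 2) ((-1 - x₀) / 2)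
      constructor <;> linarith
    have h2 : Set.Ioo (-1 : ℝ) 0 ⊆ closure roots := by
      intro x₀ hx₀
      rw [Metric.mem_closure_iff]
      intro ε hε
      obtain ⟨hx₀', hx₀''⟩ := hx₀
      have hm1 : 0 < min (ε / 2) ((x₀ + 1) / 2) := lt_min (by linarith) (by linarith)
      have hm2 : 0 < min (ε / 2) (-x₀ / 2) := lt_min (by linarith) (by linarith)
      have hm3 := min_le_right (ε / 2) ((x₀ + 1) / 2)
      have hm4 := min_le_right (ε / 2) (-x₀ / 2)
      have hm5 := min_le_left (ε / 2) ((x₀ + 1) / 2)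
      have hm6 := min_le_left (ε / 2) (-x₀ / 2)
      obtain ⟨x, hx, h1, h2⟩ := near_broom (x₀ := x₀) (a := x₀ - min (ε / 2) ((x₀ + 1) / 2))
        (b := x₀ + min (ε / 2) (-x₀ / 2)) (by linarith) (by linarith) (by linarith)
        (by linarith)
      refine ⟨x, hx, ?_⟩
      rw [Real.dist_eq, abs_lt]
      constructor <;> linarith
    have h3 : Set.Iic (-1 : ℝ) ⊆ closure roots := by
      rw [← closure_Iio]
      exact closure_minimal h1 isClosed_closure
    have h4 : Set.Icc (-1 : ℝ) 0 ⊆ closure roots := by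
      rw [← closure_Ioo (by norm_num)]
      exact closure_minimal h2 isClosed_closure
    intro x hx
    rcases le_or_gt x (-1) with h | h
    · exact h3 h
    · exact h4 ⟨h.le, hx⟩

end Pool.Agent.R789.WienerDense
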