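import Mathlib
import Pool.Agent.R789.QMor

/-! A three-generated group of order automorphisms of a countable dense linear order, which is not
amenable and all whose homogeneous quasimorphisms are homomorphisms. -/

set_option autoImplicit false

open Set

namespace Pool.Agent.R789

/-! ### The map `A` of the rational line -/

/-- the number of the period -/
def per (x : ℚ) : ℤ := ⌊x / 4⌋

/-- the position in the period -/
def pos (x : ℚ) : ℚ := x - 4 * per x

theorem pos_nonneg (x : ℚ) : 0 ≤ pos x := by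
  have := Int.floor_le (x / 4)
  unfold pos per; linarith

theorem pos_lt (x : ℚ) : pos x < 4 := by
  have := Int.lt_floor_add_one (x / 4)
  unfold pos per; linarith

theorem per_pos {m : ℤ} {r : ℚ} (h0 : 0 ≤ r) (h4 : r < 4) :
    per (4 * m + r) = m ∧ pos (4 * m + r) = r := by
  have : per (4 * m + r) = m := by
    unfold per
    rw [Int.floor_eq_iff]
    constructor <;> linarith
  exact ⟨this, by unfold pos; rw [this]; ring⟩

theorem eq_per_pos (x : ℚ) : x = 4 * per x + pos x := by unfold pos; ring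

/-- the piecewise linear function on one period -/
def gA (r : ℚ) : ℚ := if r < 2 then (r + 1) / 3 else if r < 3 then 3 * r - 5 else 3 + r / 3

theorem gA_lt {r s : ℚ} (h : r < s) : gA r < gA s := by
  unfold gA
  split_ifs <;> linarith

theorem gA_low {r : ℚ} (h : 0 ≤ r) : 1 / 3 ≤ gA r := by
  unfold gA
  split_ifs <;> linarith

theorem gA_high {r : ℚ} (h : r < 4) : gA r < 13 / 3 := by
  unfold gA
  split_ifs <;> linarith

/-- a piecewise linear homeomorphism commuting with the translation by `4` -/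
def fA (x : ℚ) : ℚ := 4 * per x + gA (pos x)

theorem fA_mono : StrictMono fA := by
  intro x y h
  have h1 : per x ≤ per y := Int.floor_le_floor (by linarith)
  have hx := eq_per_pos x
  have hy := eq_per_pos y
  unfold fA
  rcases h1.lt_or_eq with h2 | h2
  · have h3 : (per x : ℚ) + 1 ≤ per y := by exact_mod_cast h2
    have := gA_high (pos_lt x)
    have := gA_low (pos_nonneg y)
    linarith
  · have h3 : (per x : ℚ) = per y := by exact_mod_cast h2
    have : pos x < pos y := by linarith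
    have := gA_lt this
    linarith

theorem fA_surj : Function.Surjective fA := by
  intro y
  obtain ⟨m, hm⟩ : ∃ m : ℤ, m = ⌊(y - 1 / 3) / 4⌋ := ⟨_, rfl⟩
  have h1 := Int.floor_le ((y - 1 / 3) / 4)
  have h2 := Int.lt_floor_add_one ((y - 1 / 3) / 4)
  rw [← hm] at h1 h2
  have hs0 : 1 / 3 ≤ y - 4 * m := by linarith
  have hs1 : y - 4 * m < 13 / 3 := by linarith
  obtain ⟨s, hs⟩ : ∃ s, s = y - 4 * m := ⟨_, rfl⟩
  rw [← hs] at hs0 hs1
  have hr : ∃ r : ℚ, 0 ≤ r ∧ r < 4 ∧ gA r = s := by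
    rcases lt_or_ge s 1 with h | h
    · refine ⟨3 * s - 1, by linarith, by linarith, ?_⟩
      unfold gA; rw [if_pos (by linarith)]; ring
    rcases lt_or_ge s 4 with h' | h'
    · refine ⟨(s + 5) / 3, by linarith, by linarith, ?_⟩
      unfold gA; rw [if_neg (by linarith), if_pos (by linarith)]; ring
    · refine ⟨3 * s - 9, by linarith, by linarith, ?_⟩
      unfold gA; rw [if_neg (by linarith), if_neg (by linarith)]; ring
  obtain ⟨r, hr0, hr4, hr⟩ := hr
  refine ⟨4 * m + r, ?_⟩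
  obtain ⟨e1, e2⟩ := per_pos (m := m) hr0 hr4
  unfold fA
  rw [e1, e2, hr, hs]; ring

/-- the order automorphism `A` -/
noncomputable def oA : ℚ ≃o ℚ := fA_mono.orderIsoOfSurjective fA fA_surj

theorem oA_apply (x : ℚ) : oA x = fA x := rfl

/-- the order automorphism `B`, a conjugate of `A` by the translation by one -/
noncomputable def oB : ℚ ≃o ℚ := ((OrderIso.addRight (-1 : ℚ)).trans oA).trans (OrderIso.addRight 1)

theorem oB_apply (x : ℚ) : oB x = fA (x - 1) + 1 := by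
  simp [oB, oA_apply, sub_eq_add_neg]

theorem ping_A (x : ℚ) (h : ¬ (2 ≤ pos x ∧ pos x < 3)) : pos (oA x) < 1 := by
  rw [oA_apply]
  have h0 := pos_nonneg x
  have h4 := pos_lt x
  rcases lt_or_ge (pos x) 2 with h1 | h1
  · have e : fA x = 4 * (per x : ℤ) + (pos x + 1) / 3 := by
      unfold fA gA; rw [if_pos h1]
    rw [e, (per_pos (by linarith) (by linarith)).2]; linarith
  · have h3 : 3 ≤ pos x := by
      by_contra h3; exact h ⟨h1, not_le.1 h3⟩
    have e : fA x = 4 * ((per x + 1 : ℤ) : ℚ) + (pos x / 3 - 1) := by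
      unfold fA gA; rw [if_neg (by linarith), if_neg (by linarith)]; push_cast; ring
    rw [e, (per_pos (by linarith) (by linarith)).2]; linarith

theorem pos_sub_one (x : ℚ) : pos (x - 1) = if 1 ≤ pos x then pos x - 1 else pos x + 3 := by
  have h0 := pos_nonneg x
  have h4 := pos_lt x
  split_ifs with h
  · have e : x - 1 = 4 * (per x : ℤ) + (pos x - 1) := by
      have := eq_per_pos x; linarith
    rw [e, (per_pos (by linarith) (by linarith)).2]
  · have e : x - 1 = 4 * ((per x - 1 : ℤ) : ℚ) + (pos x + 3) := by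
      have := eq_per_pos x; push_cast; linarith
    rw [e, (per_pos (by linarith) (by linarith)).2]

theorem pos_add_one {x : ℚ} (h : pos x < 1) : pos (x + 1) = pos x + 1 := by
  have h0 := pos_nonneg x
  have e : x + 1 = 4 * (per x : ℤ) + (pos x + 1) := by
    have := eq_per_pos x; linarith
  rw [e, (per_pos (by linarith) (by linarith)).2]

theorem ping_B (x : ℚ) (h : ¬ (3 ≤ pos x)) : 1 ≤ pos (oB x) ∧ pos (oB x) < 2 := by
  rw [oB_apply]
  have h1 : pos (fA (x - 1)) < 1 := by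
    have := ping_A (x - 1) (by
      rw [pos_sub_one]
      have h0 := pos_nonneg x
      split_ifs with h2
      · rintro ⟨h5, h6⟩; linarith [not_le.1 h]
      · rintro ⟨h5, h6⟩; linarith [not_le.1 h2])
    rwa [oA_apply] at this
  rw [pos_add_one h1]
  have := pos_nonneg (fA (x - 1))
  constructor <;> linarith

/-! ### The order `ℤ ×ₗ ℚ` -/

/-- the dense linear order `ℤ ×ₗ ℚ` -/
abbrev XX : Type := ℤ ×ₗ ℚ

instance : DenselyOrdered XX where
  dense := by
    intro a b h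
    rw [Prod.Lex.lt_iff] at h
    rcases h with h | ⟨h1, h2⟩
    · refine ⟨toLex ((ofLex a).1, (ofLex a).2 + 1), ?_, ?_⟩
      · rw [Prod.Lex.lt_iff]; right; exact ⟨rfl, by simp⟩
      · rw [Prod.Lex.lt_iff]; left; exact h
    · obtain ⟨c, hc1, hc2⟩ := exists_between h2
      refine ⟨toLex ((ofLex a).1, c), ?_, ?_⟩
      · rw [Prod.Lex.lt_iff]; right; exact ⟨rfl, hc1⟩
      · rw [Prod.Lex.lt_iff]; right; exact ⟨h1, hc2⟩

instance : NoMinOrder XX where
  exists_lt a := ⟨toLex ((ofLex a).1, (ofLex a).2 - 1), by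
    rw [Prod.Lex.lt_iff]; right; exact ⟨rfl, by simp⟩⟩

instance : NoMaxOrder XX where
  exists_gt a := ⟨toLex ((ofLex a).1, (ofLex a).2 + 1), by
    rw [Prod.Lex.lt_iff]; right; exact ⟨rfl, by simp⟩⟩

instance : Countable XX := inferInstanceAs (Countable (ℤ × ℚ))

instance : Nonempty XX := ⟨toLex (0, 0)⟩

/-- the automorphism acting on the fibre over `n` by `u n` -/
def dg (u : ℤ → (ℚ ≃o ℚ)) : XX ≃o XX where
  toFun x := toLex ((ofLex x).1, u (ofLex x).1 (ofLex x).2)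
  invFun x := toLex ((ofLex x).1, (u (ofLex x).1).symm (ofLex x).2)
  left_inv x := by simp
  right_inv x := by simp
  map_rel_iff' {a b} := by
    simp only [Equiv.coe_fn_mk]
    rw [Prod.Lex.le_iff, Prod.Lex.le_iff]
    simp only [ofLex_toLex]
    constructor
    · rintro (h | ⟨h1, h2⟩)
      · exact Or.inl h
      · right; refine ⟨h1, ?_⟩
        rw [h1] at h2
        exact (u (ofLex b).1).le_iff_le.1 h2
    · rintro (h | ⟨h1, h2⟩)
      · exact Or.inl h
      · right; refine ⟨h1, ?_⟩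
        rw [h1]
        exact (u (ofLex b).1).le_iff_le.2 h2

theorem dg_apply (u : ℤ → (ℚ ≃o ℚ)) (n : ℤ) (q : ℚ) :
    dg u (toLex (n, q)) = toLex (n, u n q) := rfl

/-- the shift -/
def sh (k : ℤ) : XX ≃o XX where
  toFun x := toLex ((ofLex x).1 + k, (ofLex x).2)
  invFun x := toLex ((ofLex x).1 - k, (ofLex x).2)
  left_inv x := by simp
  right_inv x := by simp
  map_rel_iff' {a b} := by
    simp only [Equiv.coe_fn_mk]
    rw [Prod.Lex.le_iff, Prod.Lex.le_iff]
    simp only [ofLex_toLex, add_lt_add_iff_right, add_left_inj]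

theorem sh_apply (k n : ℤ) (q : ℚ) : sh k (toLex (n, q)) = toLex (n + k, q) := rfl

theorem ext_XX {f g : XX ≃o XX} (h : ∀ n q, f (toLex (n, q)) = g (toLex (n, q))) : f = g :=
  RelIso.ext fun x => h (ofLex x).1 (ofLex x).2

theorem dg_mul (u v : ℤ → (ℚ ≃o ℚ)) : dg u * dg v = dg (u * v) :=
  ext_XX fun n q => by rw [RelIso.mul_apply, dg_apply, dg_apply, dg_apply]; rfl

theorem dg_one : dg 1 = 1 := ext_XX fun n q => by rw [dg_apply]; rfl

theorem dg_inv (u : ℤ → (ℚ ≃o ℚ)) : (dg u)⁻¹ = dg u⁻¹ := by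
  rw [inv_eq_iff_mul_eq_one, dg_mul, mul_inv_cancel, dg_one]

theorem sh_add (k l : ℤ) : sh k * sh l = sh (k + l) :=
  ext_XX fun n q => by
    rw [RelIso.mul_apply, sh_apply, sh_apply, sh_apply]
    congr 2; ring

theorem sh_zero : sh 0 = 1 := ext_XX fun n q => by rw [sh_apply, add_zero]; rfl

theorem sh_inv (k : ℤ) : (sh k)⁻¹ = sh (-k) := by
  rw [inv_eq_iff_mul_eq_one, sh_add, add_neg_cancel, sh_zero]

theorem sh_one_zpow (k : ℤ) : sh 1 ^ k = sh k := by
  induction k using Int.induction_on with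
  | zero => rw [zpow_zero, sh_zero]
  | succ _ ih => rw [zpow_add_one, ih, sh_add]
  | pred n ih => rw [zpow_sub_one, ih, sh_inv, sh_add]; rfl

/-- conjugation by the shift -/
theorem sh_conj (k : ℤ) (u : ℤ → (ℚ ≃o ℚ)) :
    sh k * dg u * (sh k)⁻¹ = dg (fun n => u (n - k)) :=
  ext_XX fun n q => by
    rw [sh_inv, RelIso.mul_apply, RelIso.mul_apply, sh_apply, dg_apply, sh_apply, dg_apply]
    congr 2; ring

/-- finitely supported -/
def Fin0 (u : ℤ → (ℚ ≃o ℚ)) : Prop := ∃ L : ℤ, ∀ n, L < |n| → u n = 1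

theorem Fin0.mul {u v : ℤ → (ℚ ≃o ℚ)} (hu : Fin0 u) (hv : Fin0 v) : Fin0 (u * v) := by
  obtain ⟨L, hL⟩ := hu
  obtain ⟨M, hM⟩ := hv
  refine ⟨max L M, fun n hn => ?_⟩
  rw [Pi.mul_apply, hL n ((le_max_left _ _).trans_lt hn), hM n ((le_max_right _ _).trans_lt hn),
    mul_one]

theorem Fin0.inv {u : ℤ → (ℚ ≃o ℚ)} (hu : Fin0 u) : Fin0 u⁻¹ := by
  obtain ⟨L, hL⟩ := hu
  exact ⟨L, fun n hn => by rw [Pi.inv_apply, hL n hn, inv_one]⟩

theorem Fin0.one : Fin0 1 := ⟨0, fun _ _ => rfl⟩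

theorem Fin0.shift {u : ℤ → (ℚ ≃o ℚ)} (hu : Fin0 u) (k : ℤ) : Fin0 (fun n => u (n - k)) := by
  obtain ⟨L, hL⟩ := hu
  refine ⟨L + |k|, fun n hn => hL _ ?_⟩
  have := abs_sub_abs_le_abs_sub n k
  linarith

theorem Fin0.single (f : ℚ ≃o ℚ) : Fin0 (fun n => if n = 0 then f else 1) :=
  ⟨0, fun n hn => if_neg (abs_pos.1 hn)⟩

/-- automorphisms with disjoint supports commute -/
theorem dg_commute {u v : ℤ → (ℚ ≃o ℚ)} (h : ∀ n, u n = 1 ∨ v n = 1) :
    Commute (dg u) (dg v) := by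
  show dg u * dg v = dg v * dg u
  rw [dg_mul, dg_mul]
  congr 1
  funext n
  rcases h n with h | h <;> simp [h]

/-- the generator `a`: the map `A` on the fibre over zero -/
noncomputable def ga : XX ≃o XX := dg fun n => if n = 0 then oA else 1

/-- the generator `b`: the map `B` on the fibre over zero -/
noncomputable def gb : XX ≃o XX := dg fun n => if n = 0 then oB else 1

/-- the group generated by `a`, `b` and the shift -/
noncomputable def GG : Subgroup (XX ≃o XX) := Subgroup.closure {ga, gb, sh 1}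

theorem ga_mem : ga ∈ GG := Subgroup.subset_closure (by simp)

theorem gb_mem : gb ∈ GG := Subgroup.subset_closure (by simp)

theorem sh_mem (k : ℤ) : sh k ∈ GG := by
  rw [← sh_one_zpow]
  exact GG.zpow_mem (Subgroup.subset_closure (by simp)) k

theorem GG_fg : Subgroup.FG GG :=
  (Subgroup.fg_iff GG).2 ⟨{ga, gb, sh 1}, rfl, Set.toFinite _⟩

/-- normal form of the elements of the group -/
theorem GG_form {g : XX ≃o XX} (hg : g ∈ GG) : ∃ u, Fin0 u ∧ ∃ k : ℤ, g = dg u * sh k := by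
  have hle : GG ≤
      { carrier := {g | ∃ u, Fin0 u ∧ ∃ k : ℤ, g = dg u * sh k}
        one_mem' := ⟨1, Fin0.one, 0, by rw [dg_one, sh_zero, mul_one]⟩
        mul_mem' := by
          rintro _ _ ⟨u, hu, k, rfl⟩ ⟨v, hv, l, rfl⟩
          refine ⟨u * (fun n => v (n - k)), hu.mul (hv.shift k), k + l, ?_⟩
          rw [← dg_mul, ← sh_conj, ← sh_add]; group
        inv_mem' := by
          rintro _ ⟨u, hu, k, rfl⟩
          refine ⟨fun n => u⁻¹ (n - (-k)), hu.inv.shift (-k), -k, ?_⟩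
          rw [← sh_conj, ← sh_inv, ← dg_inv]; group } := by
    unfold GG
    rw [Subgroup.closure_le]
    rintro g (rfl | rfl | rfl)
    · exact ⟨_, Fin0.single oA, 0, by rw [sh_zero, mul_one]; rfl⟩
    · exact ⟨_, Fin0.single oB, 0, by rw [sh_zero, mul_one]; rfl⟩
    · exact ⟨1, Fin0.one, 1, by rw [dg_one, one_mul]⟩
  exact hle hg

/-- the normal subgroup of the elements of finite support which preserve the fibres -/
noncomputable def NN : Subgroup GG where
  carrier := {g | ∃ u, Fin0 u ∧ (g : XX ≃o XX) = dg u}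
  one_mem' := ⟨1, Fin0.one, dg_one.symm⟩
  mul_mem' := by
    rintro a b ⟨u, hu, ha⟩ ⟨v, hv, hb⟩
    exact ⟨u * v, hu.mul hv, by rw [Subgroup.coe_mul, ha, hb, dg_mul]⟩
  inv_mem' := by
    rintro a ⟨u, hu, ha⟩
    exact ⟨u⁻¹, hu.inv, by rw [Subgroup.coe_inv, ha, dg_inv]⟩

instance : NN.Normal := by
  refine ⟨?_⟩
  rintro n ⟨u, hu, hn⟩ g
  obtain ⟨v, hv, k, hg⟩ := GG_form g.2
  refine ⟨v * (fun n => u (n - k)) * v⁻¹, (hv.mul (hu.shift k)).mul hv.inv, ?_⟩
  rw [Subgroup.coe_mul, Subgroup.coe_mul, Subgroup.coe_inv, hn, hg, ← dg_mul, ← dg_mul,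
    ← sh_conj, ← dg_inv]
  group

/-- the shift as an element of the group -/
noncomputable def tau : GG := ⟨sh 1, by simpa using sh_mem 1⟩

theorem tau_zpow (k : ℤ) : ((tau ^ k : GG) : XX ≃o XX) = sh k := by
  rw [Subgroup.coe_zpow]; exact sh_one_zpow k

theorem GG_gen (h : GG) : ∃ n ∈ NN, ∃ k : ℤ, h = n * tau ^ k := by
  obtain ⟨u, hu, k, hg⟩ := GG_form h.2
  have e : ((h * (tau ^ k)⁻¹ : GG) : XX ≃o XX) = dg u := by
    rw [Subgroup.coe_mul, Subgroup.coe_inv, tau_zpow, hg, mul_inv_cancel_right]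
  exact ⟨h * (tau ^ k)⁻¹, ⟨u, hu, e⟩, k, by group⟩

theorem GG_comm (x : GG) (hx : x ∈ NN) (y : GG) (hy : y ∈ NN) : ∃ t : GG, ∀ k : ℕ, k ≠ 0 →
    Commute (t ^ k * x * (t ^ k)⁻¹) x ∧ Commute (t ^ k * x * (t ^ k)⁻¹) y ∧
    Commute (t ^ k * y * (t ^ k)⁻¹) y ∧
    Commute (t ^ k * (x * y) * (t ^ k)⁻¹) (x * y) := by
  obtain ⟨u, ⟨L, hL⟩, hxu⟩ := hx
  obtain ⟨v, ⟨M, hM⟩, hyv⟩ := hy
  obtain ⟨R, hR⟩ : ∃ R : ℕ, R = L.natAbs + M.natAbs + 1 := ⟨_, rfl⟩
  refine ⟨tau ^ ((2 * R : ℕ) : ℤ), fun k hk => ?_⟩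
  have hu : ∀ n : ℤ, (R : ℤ) ≤ |n| → u n = 1 := fun n hn => hL n (by omega)
  have hv : ∀ n : ℤ, (R : ℤ) ≤ |n| → v n = 1 := fun n hn => hM n (by omega)
  have huv : ∀ n : ℤ, (R : ℤ) ≤ |n| → (u * v) n = 1 := fun n hn => by
    rw [Pi.mul_apply, hu n hn, hv n hn, one_mul]
  have hxy : ((x * y : GG) : XX ≃o XX) = dg (u * v) := by
    rw [Subgroup.coe_mul, hxu, hyv, dg_mul]
  have gen : ∀ (z z' : GG) (w w' : ℤ → (ℚ ≃o ℚ)), (z : XX ≃o XX) = dg w →
      (z' : XX ≃o XX) = dg w' → (∀ n : ℤ, (R : ℤ) ≤ |n| → w n = 1) →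
      (∀ n : ℤ, (R : ℤ) ≤ |n| → w' n = 1) →
      Commute ((tau ^ ((2 * R : ℕ) : ℤ)) ^ k * z * ((tau ^ ((2 * R : ℕ) : ℤ)) ^ k)⁻¹) z' := by
    intro z z' w w' hz hz' hw hw'
    have e : (((tau ^ ((2 * R : ℕ) : ℤ)) ^ k : GG) : XX ≃o XX) = sh ((2 * R : ℕ) * k) := by
      rw [← zpow_natCast, ← zpow_mul, tau_zpow]
    have h1 : Commute ((((tau ^ ((2 * R : ℕ) : ℤ)) ^ k * z *
        ((tau ^ ((2 * R : ℕ) : ℤ)) ^ k)⁻¹ : GG)) : XX ≃o XX) (z' : XX ≃o XX) := by
      rw [Subgroup.coe_mul, Subgroup.coe_mul, Subgroup.coe_inv, e, hz, hz', sh_conj]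
      refine dg_commute fun n => ?_
      by_cases h : (R : ℤ) ≤ |n|
      · exact Or.inr (hw' n h)
      · left
        apply hw
        have hk1 : (1 : ℤ) ≤ k := by exact_mod_cast Nat.one_le_iff_ne_zero.2 hk
        have h2 : (2 * R : ℤ) ≤ (2 * R : ℕ) * k := by push_cast; nlinarith
        have h3 := abs_lt.1 (not_le.1 h)
        rw [le_abs]; right
        push_cast at h2 ⊢
        linarith
    exact Subtype.ext h1.eq
  exact ⟨gen x x u u hxu hxu hu hu, gen x y u v hxu hyv hu hv, gen y y v v hyv hyv hv hv,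
    gen _ _ _ _ hxy hxy huv huv⟩

/-- all homogeneous quasimorphisms of the group are homomorphisms -/
theorem GG_qm (φ : GG → ℝ) (hφ : φ ∈ QuasiMor GG) (g h : GG) : φ (g * h) = φ g + φ h := by
  obtain ⟨⟨D, hD⟩, hh⟩ := hφ
  exact qm_hom hD hh NN tau GG_gen GG_comm g h

theorem GG_not_amenable : ¬ Amenable GG := by
  have hfib : ∀ (f : ℚ ≃o ℚ) (x : XX), (ofLex (dg (fun n => if n = 0 then f else 1) x)).1 =
      (ofLex x).1 := fun f x => rfl
  have hval : ∀ (f : ℚ ≃o ℚ) (x : XX), (ofLex x).1 = 0 →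
      (ofLex (dg (fun n => if n = 0 then f else 1) x)).2 = f (ofLex x).2 := by
    intro f x hx
    have : dg (fun n => if n = 0 then f else 1) x =
        toLex ((ofLex x).1, (if (ofLex x).1 = 0 then f else 1) (ofLex x).2) := rfl
    rw [this, if_pos hx]; rfl
  refine not_amenable (X := XX) {x | (ofLex x).1 = 0} (y0 := toLex (0, 0)) rfl
    ⟨ga, ga_mem⟩ ⟨gb, gb_mem⟩ (fun x => Iff.rfl) (fun x => Iff.rfl)
    {x | pos (ofLex x).2 < 1} {x | 2 ≤ pos (ofLex x).2 ∧ pos (ofLex x).2 < 3}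
    {x | 1 ≤ pos (ofLex x).2 ∧ pos (ofLex x).2 < 2} {x | 3 ≤ pos (ofLex x).2} ?_ ?_ ?_ ?_ ?_
  · rw [Set.disjoint_left]
    intro x (h1 : pos _ < 1) (h2 : 2 ≤ pos _ ∧ _)
    linarith [h2.1]
  · rw [Set.disjoint_left]
    intro x (h1 : _ ∧ pos _ < 2) (h2 : 3 ≤ pos _)
    linarith [h1.2]
  · rw [Set.disjoint_left]
    rintro x ((h1 : pos _ < 1) | (h1 : 2 ≤ pos _ ∧ pos _ < 3))
      ((h2 : 1 ≤ pos _ ∧ pos _ < 2) | (h2 : 3 ≤ pos _))
    · linarith [h2.1]
    · linarith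
    · linarith [h2.2, h1.1]
    · linarith [h1.2]
  · intro x (hx : _ = 0) hx2
    have : (ofLex ((⟨ga, ga_mem⟩ : GG) • x)).2 = oA (ofLex x).2 := hval oA x hx
    show pos _ < 1
    rw [this]
    exact ping_A _ hx2
  · intro x (hx : _ = 0) hx2
    have : (ofLex ((⟨gb, gb_mem⟩ : GG) • x)).2 = oB (ofLex x).2 := hval oB x hx
    show 1 ≤ pos _ ∧ pos _ < 2
    rw [this]
    exact ping_B _ hx2

end Pool.Agent.R789
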